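import Pool.Agent.Lib.MP_86f51d_al.Model5

/-!
# Growth at base vertices
-/

namespace DG

open SemigroupPresentation

universe u v

variable {α : Type u} {ι : Type v}

/-- the root cell of the chain of cells that start at the initial vertex of an edge -/
def rootST : Tm ι → Option (Cell ι) :=
  Tm.fold (fun _ => none) (fun i d j N l => if j = 0 then
    some ((l.headD none).getD (i, d, N)) else none)

/-- the same for the first edge of a path -/
def rootSL : List (Tm ι) → Option (Cell ι)
  | [] => none
  | t :: _ => rootST t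

theorem rootST_gen (k : ℕ) : rootST (Tm.gen k : Tm ι) = none := rfl

theorem rootST_op (i : ι) (d : Bool) (j : ℕ) (N : List (Tm ι)) :
    rootST (Tm.op i d j N) = if j = 0 then some ((rootSL N).getD (i, d, N)) else none := by
  unfold rootST
  rw [Tm.fold_op]
  cases N <;> rfl

/-- root cell of a cell, at the initial side -/
def rootS (c : Cell ι) : Cell ι := (rootSL c.2.2).getD c

variable (P : SemigroupPresentation α ι)

/-- the root cell of the chain of cells that end at the terminal vertex of an edge -/
def rootET : Tm ι → Option (Cell ι) :=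
  Tm.fold (fun _ => none) (fun i d j N l => if j + 1 = (P.side i (!d)).length then
    some ((l.getLastD none).getD (i, d, N)) else none)

/-- the same for the last edge of a path -/
def rootEL : List (Tm ι) → Option (Cell ι)
  | [] => none
  | [t] => rootET P t
  | _ :: t :: N => rootEL (t :: N)

theorem rootET_gen (k : ℕ) : rootET P (Tm.gen k : Tm ι) = none := rfl

theorem getLastD_map_rootET (N : List (Tm ι)) :
    (N.map (rootET P)).getLastD none = rootEL P N := by
  induction N with
  | nil => rfl
  | cons t N ih =>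
    cases N with
    | nil => rfl
    | cons s N =>
      rw [rootEL, ← ih]
      simp

theorem rootET_op (i : ι) (d : Bool) (j : ℕ) (N : List (Tm ι)) :
    rootET P (Tm.op i d j N) = if j + 1 = (P.side i (!d)).length then
      some ((rootEL P N).getD (i, d, N)) else none := by
  rw [← getLastD_map_rootET]
  unfold rootET
  rw [Tm.fold_op]

/-- root cell of a cell, at the terminal side -/
def rootE (c : Cell ι) : Cell ι := (rootEL P c.2.2).getD c

variable {P} {w : List α}

/-! ### the initial side -/

theorem rootSL_append {M : List (Tm ι)} (hM : M ≠ []) (N : List (Tm ι)) :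
    rootSL (M ++ N) = rootSL M := by
  cases M with
  | nil => exact absurd rfl hM
  | cons t M => rw [List.cons_append, rootSL, rootSL]

theorem rootST_op_zero (i : ι) (d : Bool) (N : List (Tm ι)) :
    rootST (.op i d 0 N) = some (rootS (i, d, N)) := by
  rw [rootST_op, if_pos rfl, rootS]

theorem rootSL_far (i : ι) (d : Bool) (N : List (Tm ι)) :
    rootSL (far P i d N) = some (rootS (i, d, N)) := by
  obtain ⟨R, hR⟩ := far_cons (P := P) i d N
  rw [hR, rootSL, rootST_op_zero]

theorem rootST_mem (t : Tm ι) :
    ∀ ρ, rootST t = some ρ → ρ ∈ cs t ∧ srcL ρ.2.2 = src t := by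
  induction t using Tm.ind with
  | gen k => intro ρ h; rw [rootST_gen] at h; cases h
  | op i d j N ih =>
    intro ρ h
    rw [rootST_op] at h
    by_cases hj : j = 0
    · subst hj
      rw [if_pos rfl] at h
      rw [src_op, if_pos rfl]
      cases N with
      | nil =>
        rw [rootSL] at h
        simp only [Option.getD_none, Option.some.injEq] at h
        subst h
        exact ⟨by rw [mem_cs_op]; exact Or.inl rfl, rfl⟩
      | cons s N =>
        rw [rootSL] at h
        cases hs : rootST s with
        | none =>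
          rw [hs] at h
          simp only [Option.getD_none, Option.some.injEq] at h
          subst h
          exact ⟨by rw [mem_cs_op]; exact Or.inl rfl, rfl⟩
        | some c =>
          rw [hs] at h
          simp only [Option.getD_some, Option.some.injEq] at h
          subst h
          obtain ⟨h1, h2⟩ := ih s (by simp) c hs
          refine ⟨?_, ?_⟩
          · rw [mem_cs_op]
            exact Or.inr (mem_csL.2 ⟨s, by simp, h1⟩)
          · rw [h2, srcL]
    · rw [if_neg hj] at h
      cases h

theorem rootSL_mem {M : List (Tm ι)} {ρ : Cell ι} (h : rootSL M = some ρ) :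
    ρ ∈ csL M ∧ srcL ρ.2.2 = srcL M := by
  cases M with
  | nil => rw [rootSL] at h; cases h
  | cons t M =>
    rw [rootSL] at h
    obtain ⟨h1, h2⟩ := rootST_mem t ρ h
    exact ⟨mem_csL.2 ⟨t, by simp, h1⟩, by rw [h2, srcL]⟩

theorem pot_base_lt {k n : ℕ} {R : List (Tm ι)} (hR : Pth P w (.base k) R (.base n)) :
    k ≤ n := by
  have := hR.pot_le
  simp only [pot] at this
  exact_mod_cast this

/-- on a path from `base 0` to `base k` the cells do not start at `base k`. -/
theorem srcL_ne_of_left {k : ℕ} (hk : k ≤ w.length) {L : List (Tm ι)}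
    (hL : Pth P w (.base 0) L (.base k)) : ∀ c ∈ csL L, srcL c.2.2 ≠ .base k := by
  refine Pth.red_induction (P := P) (w := w) (o := .base 0) (o' := .base k)
    (motive := fun L => ∀ c ∈ csL L, srcL c.2.2 ≠ .base k) ?_ ?_ L hL
  · intro M hM hI c hc
    have h1 := pth_gens (P := P) (w := w) (k := 0) (m := k) (by omega)
    rw [Nat.zero_add] at h1
    have h2 := Irr.unique _ rfl hM h1 hI (irr_gens _)
    rw [h2, csL_gens] at hc
    simp at hc
  · intro A i d N B hA hv hB h1 h2 ih c hc
    rw [csL_insert, Finset.mem_insert] at hc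
    rcases hc with rfl | hc
    · intro h3
      have h4 := hv.pth.pot_lt hv.ne_nil
      have h5 := hB.pot_le
      have h6 : srcL N = .base k := h3
      rw [h6] at h4
      exact absurd h4 (not_lt.2 h5)
    · exact ih c hc

/-- on a path from `base k` to `base n` the cells do not end at `base k`. -/
theorem tgtL_ne_of_right {k : ℕ} {R : List (Tm ι)}
    (hR : Pth P w (.base k) R (.base w.length)) : ∀ c ∈ csL R, tgtL P c.2.2 ≠ .base k := by
  have hk := pot_base_lt hR
  refine Pth.red_induction (P := P) (w := w) (o := .base k) (o' := .base w.length)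
    (motive := fun R => ∀ c ∈ csL R, tgtL P c.2.2 ≠ .base k) ?_ ?_ R hR
  · intro M hM hI c hc
    have h1 := pth_gens (P := P) (w := w) (k := k) (m := w.length - k) (by omega)
    rw [show k + (w.length - k) = w.length by omega] at h1
    have h2 := Irr.unique _ rfl hM h1 hI (irr_gens _)
    rw [h2, csL_gens] at hc
    simp at hc
  · intro A i d N B hA hv hB h1 h2 ih c hc
    rw [csL_insert, Finset.mem_insert] at hc
    rcases hc with rfl | hc
    · intro h3
      have h4 := hv.pth.pot_lt hv.ne_nil
      have h5 := hA.pot_le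
      have h6 : tgtL P N = .base k := h3
      rw [h6] at h4
      exact absurd h4 (not_lt.2 h5)
    · exact ih c hc

/-- on a path from `base k` to `base n`, the cells that start at `base k` have the same root. -/
theorem rootSL_of_right {k : ℕ} {R : List (Tm ι)}
    (hR : Pth P w (.base k) R (.base w.length)) :
    ∀ c ∈ csL R, srcL c.2.2 = .base k → rootSL R = some (rootS c) := by
  have hk := pot_base_lt hR
  refine Pth.red_induction (P := P) (w := w) (o := .base k) (o' := .base w.length)
    (motive := fun R => ∀ c ∈ csL R, srcL c.2.2 = .base k → rootSL R = some (rootS c))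
    ?_ ?_ R hR
  · intro M hM hI c hc
    have h1 := pth_gens (P := P) (w := w) (k := k) (m := w.length - k) (by omega)
    rw [show k + (w.length - k) = w.length by omega] at h1
    have h2 := Irr.unique _ rfl hM h1 hI (irr_gens _)
    rw [h2, csL_gens] at hc
    simp at hc
  · intro A i d N B hA hv hB h1 h2 ih c hc hsrc
    rw [csL_insert, Finset.mem_insert] at hc
    by_cases hAe : A = []
    · subst hAe
      rw [List.nil_append, rootSL_append (far_ne_nil i d N), rootSL_far]
      rcases hc with rfl | hc
      · rfl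
      · have h3 := ih c hc hsrc
        rw [List.nil_append, rootSL_append hv.ne_nil] at h3
        rw [rootS]
        simp only [h3, Option.getD_some]
    · have h7 : ∀ M : List (Tm ι), rootSL (A ++ M ++ B) = rootSL A := fun M => by
        rw [List.append_assoc, rootSL_append hAe]
      rcases hc with rfl | hc
      · exfalso
        have h4 := hA.pot_lt hAe
        have h6 : srcL N = .base k := hsrc
        rw [h6] at h4
        exact lt_irrefl _ h4
      · rw [h7, ← h7 N]
        exact ih c hc hsrc

/-- (G1') All cells of a full path through the root vertex `k` that start at this vertex have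
the same root cell, and it is one of them. -/
theorem root_src_spec {k : ℕ} {L R : List (Tm ι)} (hL : Pth P w (.base 0) L (.base k))
    (hR : Pth P w (.base k) R (.base w.length)) {c : Cell ι} (hc : c ∈ csL (L ++ R))
    (hsrc : srcL c.2.2 = .base k) :
    rootSL R = some (rootS c) ∧ rootS c ∈ csL (L ++ R) ∧ srcL (rootS c).2.2 = .base k := by
  have hk := pot_base_lt hR
  rw [csL_append, Finset.mem_union] at hc
  rcases hc with hc | hc
  · exact absurd hsrc (srcL_ne_of_left hk hL c hc)
  · have h1 := rootSL_of_right hR c hc hsrc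
    obtain ⟨h2, h3⟩ := rootSL_mem h1
    refine ⟨h1, by rw [csL_append]; exact Finset.mem_union_right _ h2, ?_⟩
    rw [h3]
    apply hR.1.srcL_eq
    rintro rfl
    rw [rootSL] at h1
    cases h1

/-- (G1) -/
theorem exists_root_src [Nonempty ι] {k : ℕ} {L R : List (Tm ι)}
    (hL : Pth P w (.base 0) L (.base k)) (hR : Pth P w (.base k) R (.base w.length)) :
    ∃ ρ : Cell ι, ∀ c ∈ csL (L ++ R), srcL c.2.2 = .base k →
      rootS c = ρ ∧ ρ ∈ csL (L ++ R) ∧ srcL ρ.2.2 = .base k := by
  refine ⟨(rootSL R).getD (Classical.arbitrary ι, true, []), fun c hc hsrc => ?_⟩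
  obtain ⟨h1, h2, h3⟩ := root_src_spec hL hR hc hsrc
  rw [h1]
  exact ⟨rfl, h2, h3⟩

/-! ### the terminal side -/

theorem rootEL_append_singleton (M : List (Tm ι)) (t : Tm ι) :
    rootEL P (M ++ [t]) = rootET P t := by
  induction M with
  | nil => rw [List.nil_append, rootEL]
  | cons s M ih =>
    cases M with
    | nil => simp only [List.cons_append, List.nil_append, rootEL]
    | cons s' M => simp only [List.cons_append, rootEL] at ih ⊢; exact ih

theorem rootEL_append (M : List (Tm ι)) {N : List (Tm ι)} (hN : N ≠ []) :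
    rootEL P (M ++ N) = rootEL P N := by
  rcases List.eq_nil_or_concat' N with rfl | ⟨N, t, rfl⟩
  · exact absurd rfl hN
  · rw [← List.append_assoc, rootEL_append_singleton, rootEL_append_singleton]

theorem rootET_op_last (i : ι) (d : Bool) {j : ℕ} (N : List (Tm ι))
    (hj : j + 1 = (P.side i (!d)).length) :
    rootET P (.op i d j N) = some (rootE P (i, d, N)) := by
  rw [rootET_op, if_pos hj, rootE]

/-- the last element of `far`. -/
theorem far_concat (i : ι) (d : Bool) (N : List (Tm ι)) :
    ∃ R j, j + 1 = (P.side i (!d)).length ∧ far P i d N = R ++ [Tm.op i d j N] := by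
  unfold far
  obtain ⟨m, hm⟩ : ∃ m, (P.side i (!d)).length = m + 1 :=
    ⟨_, (Nat.succ_pred_eq_of_pos (side_pos P i (!d))).symm⟩
  refine ⟨(List.range m).map (fun j => Tm.op i d j N), m, hm.symm, ?_⟩
  rw [hm, List.range_succ, List.map_append, List.map_singleton]

theorem rootEL_far (i : ι) (d : Bool) (N : List (Tm ι)) :
    rootEL P (far P i d N) = some (rootE P (i, d, N)) := by
  obtain ⟨R, j, hj, hR⟩ := far_concat (P := P) i d N
  rw [hR, rootEL_append_singleton, rootET_op_last i d N hj]

theorem rootET_mem (t : Tm ι) :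
    ∀ ρ, rootET P t = some ρ → ρ ∈ cs t ∧ tgtL P ρ.2.2 = tgt P t := by
  induction t using Tm.ind with
  | gen k => intro ρ h; rw [rootET_gen] at h; cases h
  | op i d j N ih =>
    intro ρ h
    by_cases hj : j + 1 = (P.side i (!d)).length
    · rw [rootET_op, if_pos hj] at h
      rw [tgt_op, if_pos hj]
      rcases List.eq_nil_or_concat' N with rfl | ⟨N, s, rfl⟩
      · rw [rootEL] at h
        simp only [Option.getD_none, Option.some.injEq] at h
        subst h
        exact ⟨by rw [mem_cs_op]; exact Or.inl rfl, rfl⟩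
      · rw [rootEL_append_singleton] at h
        cases hs : rootET P s with
        | none =>
          rw [hs] at h
          simp only [Option.getD_none, Option.some.injEq] at h
          subst h
          exact ⟨by rw [mem_cs_op]; exact Or.inl rfl, rfl⟩
        | some c =>
          rw [hs] at h
          simp only [Option.getD_some, Option.some.injEq] at h
          subst h
          obtain ⟨h1, h2⟩ := ih s (by simp) c hs
          refine ⟨?_, ?_⟩
          · rw [mem_cs_op]
            exact Or.inr (mem_csL.2 ⟨s, by simp, h1⟩)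
          · rw [h2, tgtL_append_singleton]
    · rw [rootET_op, if_neg hj] at h
      cases h

theorem rootEL_mem {M : List (Tm ι)} {ρ : Cell ι} (h : rootEL P M = some ρ) :
    ρ ∈ csL M ∧ tgtL P ρ.2.2 = tgtL P M := by
  rcases List.eq_nil_or_concat' M with rfl | ⟨M, t, rfl⟩
  · rw [rootEL] at h; cases h
  · rw [rootEL_append_singleton] at h
    obtain ⟨h1, h2⟩ := rootET_mem t ρ h
    exact ⟨mem_csL.2 ⟨t, by simp, h1⟩, by rw [h2, tgtL_append_singleton]⟩

/-- on a path from `base 0` to `base k`, the cells that end at `base k` have the same root. -/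
theorem rootEL_of_left {k : ℕ} (hk : k ≤ w.length) {L : List (Tm ι)}
    (hL : Pth P w (.base 0) L (.base k)) :
    ∀ c ∈ csL L, tgtL P c.2.2 = .base k → rootEL P L = some (rootE P c) := by
  refine Pth.red_induction (P := P) (w := w) (o := .base 0) (o' := .base k)
    (motive := fun L => ∀ c ∈ csL L, tgtL P c.2.2 = .base k → rootEL P L = some (rootE P c))
    ?_ ?_ L hL
  · intro M hM hI c hc
    have h1 := pth_gens (P := P) (w := w) (k := 0) (m := k) (by omega)
    rw [Nat.zero_add] at h1
    have h2 := Irr.unique _ rfl hM h1 hI (irr_gens _)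
    rw [h2, csL_gens] at hc
    simp at hc
  · intro A i d N B hA hv hB h1 h2 ih c hc htgt
    rw [csL_insert, Finset.mem_insert] at hc
    by_cases hBe : B = []
    · subst hBe
      rw [List.append_nil, rootEL_append _ (far_ne_nil i d N), rootEL_far]
      rcases hc with rfl | hc
      · rfl
      · have h3 := ih c hc htgt
        rw [List.append_nil, rootEL_append _ hv.ne_nil] at h3
        rw [rootE]
        simp only [h3, Option.getD_some]
    · have h7 : ∀ M : List (Tm ι), rootEL P (A ++ M ++ B) = rootEL P B := fun M => by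
        rw [rootEL_append _ hBe]
      rcases hc with rfl | hc
      · exfalso
        have h4 := hB.pot_lt hBe
        have h6 : tgtL P N = .base k := htgt
        rw [h6] at h4
        exact lt_irrefl _ h4
      · rw [h7, ← h7 N]
        exact ih c hc htgt

/-- (G2') -/
theorem root_tgt_spec {k : ℕ} {L R : List (Tm ι)} (hL : Pth P w (.base 0) L (.base k))
    (hR : Pth P w (.base k) R (.base w.length)) {c : Cell ι} (hc : c ∈ csL (L ++ R))
    (htgt : tgtL P c.2.2 = .base k) :
    rootEL P L = some (rootE P c) ∧ rootE P c ∈ csL (L ++ R) ∧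
      tgtL P (rootE P c).2.2 = .base k := by
  have hk := pot_base_lt hR
  rw [csL_append, Finset.mem_union] at hc
  rcases hc with hc | hc
  · have h1 := rootEL_of_left hk hL c hc htgt
    obtain ⟨h2, h3⟩ := rootEL_mem h1
    refine ⟨h1, by rw [csL_append]; exact Finset.mem_union_left _ h2, ?_⟩
    rw [h3]
    apply hL.1.tgtL_eq
    rintro rfl
    rw [rootEL] at h1
    cases h1
  · exact absurd htgt (tgtL_ne_of_right hR c hc)

/-- (G2) -/
theorem exists_root_tgt [Nonempty ι] {k : ℕ} {L R : List (Tm ι)}
    (hL : Pth P w (.base 0) L (.base k)) (hR : Pth P w (.base k) R (.base w.length)) :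
    ∃ ρ : Cell ι, ∀ c ∈ csL (L ++ R), tgtL P c.2.2 = .base k →
      rootE P c = ρ ∧ ρ ∈ csL (L ++ R) ∧ tgtL P ρ.2.2 = .base k := by
  refine ⟨(rootEL P L).getD (Classical.arbitrary ι, true, []), fun c hc htgt => ?_⟩
  obtain ⟨h1, h2, h3⟩ := root_tgt_spec hL hR hc htgt
  rw [h1]
  exact ⟨rfl, h2, h3⟩

/-! ### abstract growth -/

/-- (G3') abstract growth lemma, with the root hypothesis in a form without existential. -/
theorem growth_abstract' {G C : Type*} [Group G] [MulAction G C] (g : G) (S : ℤ → Set C)
    (h0 : S 0 = ∅)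
    (hadd : ∀ (m : ℤ) (c : C), c ∈ S (m + 1) ↔
      ((c ∈ S 1 ∧ g⁻¹ • c ∉ S m) ∨ (g⁻¹ • c ∈ S m ∧ c ∉ S 1)))
    (root : C → C)
    (hroot : ∀ m, ∀ c ∈ S m, root c ∈ S m ∧ ∀ c' ∈ S m, root c' = root c)
    (hdisj : ∀ c ∈ S 1, c ∉ S (-1)) :
    (∀ (k : ℕ) (c : C), c ∈ S k ↔ ∃ i < k, ∃ b ∈ S 1, c = g ^ i • b) ∧
      (∀ i : ℤ, i ≠ 0 → ∀ a ∈ S 1, g ^ i • a ∉ S 1) := by
  -- `c ∈ S 1 ↔ g⁻¹ c ∈ S (-1)`
  have hneg : ∀ c, c ∈ S 1 → g⁻¹ • c ∈ S (-1) := by
    intro c hc
    by_contra hcon
    have h1 := (hadd (-1) c).2 (Or.inl ⟨hc, hcon⟩)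
    rw [neg_add_cancel, h0] at h1
    exact h1
  -- the main induction
  have hmain : ∀ m : ℕ, (∀ c ∈ S 1, c ∈ S ((m : ℤ) + 1)) ∧
      (∀ a ∈ S 1, g⁻¹ • a ∉ S ((m : ℤ) + 1)) := by
    have key : ∀ m : ℤ, (∀ c ∈ S 1, c ∈ S m) → ∀ a ∈ S 1, g⁻¹ • a ∉ S m := by
      intro m hsub a ha hcon
      have h1 := hneg a ha
      -- roots
      have h2 : root (g⁻¹ • a) ∈ S (-1) := (hroot _ _ h1).1
      have h3 : root a = root (g⁻¹ • a) := (hroot _ _ hcon).2 a (hsub a ha)
      have h4 : root a ∈ S 1 := (hroot _ _ ha).1
      rw [← h3] at h2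
      exact hdisj _ h4 h2
    intro m
    induction m with
    | zero =>
      have h1 : ∀ c ∈ S 1, c ∈ S (((0 : ℕ) : ℤ) + 1) := fun c hc => by simpa using hc
      exact ⟨h1, key _ h1⟩
    | succ m ih =>
      have h1 : ∀ c ∈ S 1, c ∈ S (((m + 1 : ℕ) : ℤ) + 1) := by
        intro c hc
        rw [hadd]
        left
        refine ⟨hc, ?_⟩
        have := ih.2 c hc
        push_cast
        exact this
      exact ⟨h1, key _ h1⟩
  have hstep : ∀ (m : ℕ) (c : C), c ∈ S ((m : ℤ) + 1) ↔ c ∈ S 1 ∨ g⁻¹ • c ∈ S m := by
    intro m c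
    rw [hadd]
    constructor
    · rintro (⟨h, -⟩ | ⟨h, -⟩)
      · exact Or.inl h
      · exact Or.inr h
    · have hno : c ∈ S 1 → g⁻¹ • c ∉ S m := by
        intro hc
        cases m with
        | zero => rw [Nat.cast_zero, h0]; exact fun h => h
        | succ m => push_cast; exact (hmain m).2 c hc
      rintro (h | h)
      · exact Or.inl ⟨h, hno h⟩
      · exact Or.inr ⟨h, fun h' => hno h' h⟩
  have hpow : ∀ (k : ℕ) (c : C), c ∈ S k ↔ ∃ i < k, ∃ b ∈ S 1, c = g ^ i • b := by
    intro k
    induction k with
    | zero =>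
      intro c
      rw [Nat.cast_zero, h0]
      constructor
      · intro h; exact absurd h (Set.notMem_empty c)
      · rintro ⟨i, hi, -⟩; exact absurd hi (Nat.not_lt_zero i)
    | succ k ih =>
      intro c
      rw [Nat.cast_succ, hstep, ih]
      constructor
      · rintro (h | ⟨i, hi, b, hb, e⟩)
        · exact ⟨0, Nat.succ_pos k, c, h, by simp⟩
        · refine ⟨i + 1, by omega, b, hb, ?_⟩
          rw [pow_succ', mul_smul, ← e, smul_inv_smul]
      · rintro ⟨i, hi, b, hb, e⟩
        cases i with
        | zero => left; rw [e]; simpa using hb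
        | succ i =>
          right
          refine ⟨i, by omega, b, hb, ?_⟩
          rw [e, pow_succ', mul_smul, inv_smul_smul]
  have hpos : ∀ (j : ℕ), ∀ a ∈ S 1, g ^ (j + 1) • a ∉ S 1 := by
    intro j a ha hcon
    apply (hmain j).2 _ hcon
    have h1 := (hpow (j + 1) (g⁻¹ • g ^ (j + 1) • a)).2 ⟨j, by omega, a, ha, by
      rw [pow_succ', mul_smul, inv_smul_smul]⟩
    rwa [Nat.cast_succ] at h1
  refine ⟨hpow, ?_⟩
  intro i hi a ha hcon
  rcases lt_or_gt_of_ne hi with h | h
  · obtain ⟨j, hj⟩ : ∃ j : ℕ, i = -((j : ℤ) + 1) := ⟨(-i - 1).toNat, by omega⟩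
    subst hj
    apply hpos j _ hcon
    rw [← mul_smul]
    have e : g ^ (j + 1) * g ^ (-((j : ℤ) + 1)) = 1 := by
      rw [zpow_neg, ← Nat.cast_succ, zpow_natCast, mul_inv_cancel]
    rw [e, one_smul]
    exact ha
  · obtain ⟨j, hj⟩ : ∃ j : ℕ, i = (j : ℤ) + 1 := ⟨(i - 1).toNat, by omega⟩
    subst hj
    apply hpos j a ha
    rw [← Nat.cast_succ, zpow_natCast] at hcon
    exact hcon

/-- (G3) abstract growth lemma -/
theorem growth_abstract {G C : Type*} [Group G] [MulAction G C] (g : G) (S : ℤ → Set C)
    (h0 : S 0 = ∅)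
    (hadd : ∀ (m : ℤ) (c : C), c ∈ S (m + 1) ↔
      ((c ∈ S 1 ∧ g⁻¹ • c ∉ S m) ∨ (g⁻¹ • c ∈ S m ∧ c ∉ S 1)))
    (root : C → C) (hroot : ∀ m, ∃ ρ, ∀ c ∈ S m, root c = ρ ∧ ρ ∈ S m)
    (hdisj : ∀ c ∈ S 1, c ∉ S (-1)) :
    (∀ (k : ℕ) (c : C), c ∈ S k ↔ ∃ i < k, ∃ b ∈ S 1, c = g ^ i • b) ∧
      (∀ i : ℤ, i ≠ 0 → ∀ a ∈ S 1, g ^ i • a ∉ S 1) := by
  refine growth_abstract' g S h0 hadd root (fun m c hc => ?_) hdisj
  obtain ⟨ρ, hρ⟩ := hroot m
  obtain ⟨h1, h2⟩ := hρ c hc
  exact ⟨by rw [h1]; exact h2, fun c' hc' => by rw [h1, (hρ c' hc').1]⟩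

/-! ### first and last difference to the root path -/

theorem first_diff_aux {x : List (Tm ι)} : ∀ {k : ℕ} {o' : Vx ι}, Ch P (.base k) x o' →
    (∃ m, x = (List.range' k m).map Tm.gen) ∨
    (∃ m R, x = (List.range' k m).map Tm.gen ++ R ∧
      ∃ c ∈ csL R, srcL c.2.2 = .base (k + m)) := by
  induction x with
  | nil => intro k o' h; exact Or.inl ⟨0, by simp⟩
  | cons t x ih =>
    intro k o' h
    cases t with
    | gen k' =>
      have h1 : src (Tm.gen (ι := ι) k') = .base k := h.1
      rw [src_gen] at h1
      injection h1 with h1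
      subst h1
      have h2 : Ch P (.base (k' + 1)) x o' := by
        have := h.2
        rwa [tgt_gen] at this
      rcases ih h2 with ⟨m, hm⟩ | ⟨m, R, hm, c, hc, hs⟩
      · left
        exact ⟨m + 1, by rw [List.range'_succ, List.map_cons, ← hm]⟩
      · right
        refine ⟨m + 1, R, by rw [List.range'_succ, List.map_cons, List.cons_append, ← hm],
          c, hc, ?_⟩
        rw [hs]
        congr 1
        omega
    | op i d j N =>
      right
      have h1 : src (Tm.op i d j N) = .base k := h.1
      rw [src_op] at h1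
      split_ifs at h1 with h0
      refine ⟨0, Tm.op i d j N :: x, by simp, (i, d, N), ?_, ?_⟩
      · exact mem_csL.2 ⟨Tm.op i d j N, by simp, by rw [mem_cs_op]; exact Or.inl rfl⟩
      · rw [Nat.add_zero]
        exact h1

/-- (G4) if a full path `x` differs from the root path, then it has a first edge where it differs:
`x = (gen 0, ..., gen (k-1)) ++ R`; there is a cell in `x` that starts at `base k`. -/
theorem exists_first_diff {x : List (Tm ι)} (hx : Pth P w (.base 0) x (.base w.length))
    (hne : x ≠ baseL ι w.length) :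
    ∃ (k : ℕ) (R : List (Tm ι)), k ≤ w.length ∧ x = (List.range k).map Tm.gen ++ R ∧
      Pth P w (.base 0) ((List.range k).map Tm.gen) (.base k) ∧
      Pth P w (.base k) R (.base w.length) ∧
      ∃ c ∈ csL x, srcL c.2.2 = .base k := by
  rcases first_diff_aux hx.1 with ⟨m, hm⟩ | ⟨m, R, hm, c, hc, hs⟩
  · exfalso
    apply hne
    have h1 := ch_gens (P := P) 0 m
    rw [← hm] at h1
    have h2 := hx.1.end_unique h1
    injection h2 with h2
    rw [hm, baseL, h2, List.range_eq_range', Nat.zero_add]
  · rw [Nat.zero_add] at hs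
    have hx' := hx
    rw [hm] at hx'
    obtain ⟨o, h1, h2⟩ := hx'.split
    have h3 : o = .base m := by
      have h4 := ch_gens (P := P) 0 m
      rw [Nat.zero_add] at h4
      exact h1.1.end_unique h4
    subst h3
    have e : (List.range m).map (Tm.gen (ι := ι)) = (List.range' 0 m).map Tm.gen := by
      rw [List.range_eq_range']
    refine ⟨m, R, pot_base_lt h2, by rw [e]; exact hm, by rw [e]; exact h1, h2, c, ?_, hs⟩
    rw [hm, csL_append]
    exact Finset.mem_union_right _ hc

theorem last_diff_aux : ∀ (n : ℕ) {x : List (Tm ι)} {k : ℕ} {o : Vx ι}, x.length = n →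
    Ch P o x (.base k) →
    (∃ m ≤ k, x = (List.range' (k - m) m).map Tm.gen) ∨
    (∃ m ≤ k, ∃ L, x = L ++ (List.range' (k - m) m).map Tm.gen ∧
      ∃ c ∈ csL L, tgtL P c.2.2 = .base (k - m)) := by
  intro n
  induction n with
  | zero =>
    intro x k o hn h
    rw [List.length_eq_zero_iff] at hn
    subst hn
    exact Or.inl ⟨0, by omega, by simp⟩
  | succ n ih =>
    intro x k o hn h
    rcases List.eq_nil_or_concat' x with rfl | ⟨x, t, rfl⟩
    · simp at hn
    · have hn' : x.length = n := by simpa using hn
      obtain ⟨o', h1, h2⟩ := h.split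
      have h3 : tgt P t = .base k := h2.2
      have h4 : src t = o' := h2.1
      cases t with
      | gen k' =>
        rw [tgt_gen] at h3
        injection h3 with h3
        subst h3
        rw [src_gen] at h4
        subst h4
        have e : ∀ m, m ≤ k' → (List.range' (k' + 1 - (m + 1)) (m + 1)).map (Tm.gen (ι := ι))
            = (List.range' (k' - m) m).map Tm.gen ++ [Tm.gen k'] := by
          intro m hm
          rw [show k' + 1 - (m + 1) = k' - m by omega, List.range'_concat, List.map_append,
            List.map_singleton]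
          congr 3
          omega
        rcases ih hn' h1 with ⟨m, hmk, hm⟩ | ⟨m, hmk, L, hm, c, hc, hs⟩
        · left
          refine ⟨m + 1, by omega, ?_⟩
          rw [e m hmk, ← hm]
        · right
          refine ⟨m + 1, by omega, L, ?_, c, hc, ?_⟩
          · rw [e m hmk, hm, List.append_assoc]
          · rw [hs]
            congr 1
            omega
      | op i d j N =>
        right
        rw [tgt_op] at h3
        split_ifs at h3 with h0
        refine ⟨0, by omega, x ++ [Tm.op i d j N], by simp, (i, d, N), ?_, ?_⟩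
        · exact mem_csL.2 ⟨Tm.op i d j N, by simp, by rw [mem_cs_op]; exact Or.inl rfl⟩
        · rw [Nat.sub_zero]
          exact h3

/-- (G5) -/
theorem exists_last_diff {x : List (Tm ι)} (hx : Pth P w (.base 0) x (.base w.length))
    (hne : x ≠ baseL ι w.length) :
    ∃ (k : ℕ) (L : List (Tm ι)), k ≤ w.length ∧
      x = L ++ (List.range' k (w.length - k)).map Tm.gen ∧
      Pth P w (.base 0) L (.base k) ∧
      Pth P w (.base k) ((List.range' k (w.length - k)).map Tm.gen) (.base w.length) ∧
      ∃ c ∈ csL x, tgtL P c.2.2 = .base k := by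
  rcases last_diff_aux _ rfl hx.1 with ⟨m, hmk, hm⟩ | ⟨m, hmk, L, hm, c, hc, hs⟩
  · exfalso
    apply hne
    by_cases h0 : m = 0
    · subst h0
      have hx0 : x = [] := by simpa using hm
      subst hx0
      have := hx.nil_eq
      injection this with this
      rw [← this, baseL]
      simp
    · have h2 : srcL x = .base (w.length - m) := by
        rw [hm]
        obtain ⟨m', rfl⟩ := Nat.exists_eq_succ_of_ne_zero h0
        rw [Nat.succ_eq_add_one, List.range'_succ, List.map_cons, srcL, src_gen]
      have hxe : x ≠ [] := by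
        rw [hm]
        intro h
        have := congrArg List.length h
        simp at this
        exact h0 this
      rw [hx.1.srcL_eq hxe] at h2
      injection h2 with h2
      rw [hm, baseL, List.range_eq_range', ← h2]
      congr 2
      omega
  · have hx' := hx
    rw [hm] at hx'
    obtain ⟨o, h1, h2⟩ := hx'.split
    have h3 := pth_gens (P := P) (w := w) (k := w.length - m) (m := m) (by omega)
    rw [show w.length - m + m = w.length by omega] at h3
    have h4 : o = .base (w.length - m) := by
      by_cases h0 : m = 0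
      · subst h0
        have h5 := h2.1
        have h6 := h3.1
        simp only [List.range'_zero, List.map_nil] at h5 h6
        have h7 : o = .base w.length := h5
        have h8 : Vx.base (w.length - 0) = .base w.length := h6
        rw [h7, h8]
      · have hne' : (List.range' (w.length - m) m).map (Tm.gen (ι := ι)) ≠ [] := by
          intro h
          have := congrArg List.length h
          simp at this
          exact h0 this
        rw [← h2.1.srcL_eq hne', h3.1.srcL_eq hne']
    subst h4
    refine ⟨w.length - m, L, by omega, ?_, h1, ?_, c, ?_, hs⟩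
    · rw [show w.length - (w.length - m) = m by omega]
      exact hm
    · rw [show w.length - (w.length - m) = m by omega]
      exact h3
    · rw [hm, csL_append]
      exact Finset.mem_union_left _ hc

end DG
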