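import Pool.Agent.Lib.MP_86f51d_al.Model3

/-!
# The term model: homotopy of edge paths = equality of the action on the root path
-/

namespace DG

open SemigroupPresentation

universe u v

variable {α : Type u} {ι : Type v} {P : SemigroupPresentation α ι} {w : List α}

theorem isPath_split {u v : List α} {p q : List (Edge α ι)} (h : P.IsPath u (p ++ q) v) :
    ∃ m, P.IsPath u p m ∧ P.IsPath m q v := by
  induction p generalizing u with
  | nil => exact ⟨u, rfl, h⟩
  | cons e p ih =>
    obtain ⟨h1, h2⟩ := h
    obtain ⟨m, h3, h4⟩ := ih h2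
    exact ⟨m, ⟨h1, h3⟩, h4⟩

/-- applying an edge and its inverse -/
theorem actE_inv_actE {e : Edge α ι} {x : List (Tm ι)} (h : Full P w (P.source e) x) :
    actE P e.inv (actE P e x) = x := by
  obtain ⟨a, i, d, b⟩ := e
  obtain ⟨A, M, B, rfl, hAl, hM, hBl, hlen, hA, hB⟩ := Full.decomp (show
    Full P w (a ++ P.side i d ++ b) x from h)
  rw [actE_eq hlen hM.length_eq]
  show actE P ⟨a, i, !d, b⟩ _ = _
  rw [actE_eq hlen hM.cross.length_eq, hM.cross_cross]

/-- (H4) inverse paths act inversely -/
theorem actP_rev {u v : List α} {p : List (Edge α ι)} (hp : P.IsPath u p v)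
    {x : List (Tm ι)} (hx : Full P w u x) : actP P (revPath p) (actP P p x) = x := by
  induction p generalizing u x with
  | nil => rfl
  | cons e p ih =>
    obtain ⟨h1, h2⟩ := hp
    subst h1
    have h3 := ih h2 hx.actE
    simp only [revPath, List.map_cons, List.reverse_cons, actP_append, actP_cons, actP_nil]
    rw [show (List.map Edge.inv p).reverse = revPath p from rfl, h3]
    exact actE_inv_actE hx

/-- (H1) elementary homotopies do not change the action -/
theorem actP_eq_of_elemHomotopy {u v : List α} {p q : List (Edge α ι)}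
    (hp : P.IsPath u p v) (_hq : P.IsPath u q v) (h : P.ElemHomotopy p q) {x : List (Tm ι)}
    (hx : Full P w u x) : actP P p x = actP P q x := by
  cases h with
  | backtrack p q e =>
    obtain ⟨m, h1, h2⟩ := isPath_split hp
    have h3 := hx.actP h1
    rw [actP_append, actP_cons, actP_cons, actP_append]
    have h4 : P.source e = m := h2.1
    subst h4
    rw [actE_inv_actE h3]
  | square p q a b c i j d e =>
    obtain ⟨m, h1, h2⟩ := isPath_split hp
    have h3 := hx.actP h1
    rw [actP_append, actP_cons, actP_cons, actP_append, actP_cons, actP_cons]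
    have h4 : a ++ P.side i d ++ (b ++ P.side j e ++ c) = m := h2.1
    subst h4
    congr 1
    generalize actP P p x = y at h3
    obtain ⟨A, M, R, rfl, hAl, hM, hRl, hlen, hA, hR⟩ := h3.decomp
    have hRl' := hRl
    rw [List.map_append, List.map_append, List.map_eq_append_iff] at hRl'
    obtain ⟨BN, C, rfl, hBN, hC⟩ := hRl'
    rw [List.map_eq_append_iff] at hBN
    obtain ⟨B, N, rfl, hB, hN⟩ := hBN
    have lB : B.length = b.length := by simpa using congrArg List.length hB
    have lN : N.length = (P.side j e).length := by simpa using congrArg List.length hN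
    rw [actE_eq hlen hM.length_eq]
    rw [show A ++ M ++ (B ++ N ++ C) = (A ++ M ++ B) ++ N ++ C by simp]
    rw [actE_eq (a := a ++ P.side i d ++ b) (by simp [hlen, hM.length_eq, lB]) lN]
    rw [show A ++ cross P i d M ++ (B ++ N ++ C) = (A ++ cross P i d M ++ B) ++ N ++ C by simp]
    rw [actE_eq (a := a ++ P.side i (!d) ++ b)
      (by simp [hlen, hM.cross.length_eq, lB]) lN]
    rw [show A ++ M ++ B ++ cross P j e N ++ C = A ++ M ++ (B ++ cross P j e N ++ C) by simp]
    rw [actE_eq hlen hM.length_eq]
    simp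

/-! ### homotopy as an equivalence relation on lists of edges -/

/-- one elementary homotopy between two paths from `u` to `v` -/
def Hom1 (P : SemigroupPresentation α ι) (u v : List α) (p q : List (Edge α ι)) : Prop :=
  P.IsPath u p v ∧ P.IsPath u q v ∧ P.ElemHomotopy p q

/-- homotopy of paths from `u` to `v` -/
def Htp (P : SemigroupPresentation α ι) (u v : List α) : List (Edge α ι) → List (Edge α ι) → Prop :=
  Relation.EqvGen (Hom1 P u v)

theorem Htp.refl {u v : List α} (p : List (Edge α ι)) : Htp P u v p p := Relation.EqvGen.refl _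

theorem Htp.symm {u v : List α} {p q : List (Edge α ι)} (h : Htp P u v p q) : Htp P u v q p :=
  Relation.EqvGen.symm _ _ h

theorem Htp.trans {u v : List α} {p q r : List (Edge α ι)} (h : Htp P u v p q)
    (h' : Htp P u v q r) : Htp P u v p r := Relation.EqvGen.trans _ _ _ h h'

theorem Htp.append_right {u v v' : List α} {p q r : List (Edge α ι)} (h : Htp P u v p q)
    (hr : P.IsPath v r v') : Htp P u v' (p ++ r) (q ++ r) := by
  induction h with
  | rel p q h => exact Relation.EqvGen.rel _ _ ⟨h.1.append hr, h.2.1.append hr, h.2.2.append_right r⟩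
  | refl p => exact Htp.refl _
  | symm p q _ ih => exact ih.symm
  | trans p q r _ _ ih1 ih2 => exact ih1.trans ih2

theorem Htp.isPath_iff {u v : List α} {p q : List (Edge α ι)} (h : Htp P u v p q) :
    P.IsPath u p v ↔ P.IsPath u q v := by
  induction h with
  | rel p q h => exact ⟨fun _ => h.2.1, fun _ => h.1⟩
  | refl p => exact Iff.rfl
  | symm p q _ ih => exact ih.symm
  | trans p q r _ _ ih1 ih2 => exact ih1.trans ih2

theorem Htp.quot_eq {p q : List (Edge α ι)} (h : Htp P w w p q) (hp : P.IsPath w p w)
    (hq : P.IsPath w q w) :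
    (Quot.mk _ (⟨p, hp⟩ : P.Loop w) : P.DiagramGroup w) = Quot.mk _ (⟨q, hq⟩ : P.Loop w) := by
  induction h with
  | rel p q h =>
    exact Quot.sound (r := fun p q : P.Loop w => P.ElemHomotopy p.1 q.1) h.2.2
  | refl p => rfl
  | symm p q _ ih => exact (ih hq hp).symm
  | trans p q r h1 _ ih1 ih2 =>
    have hq' := (Htp.isPath_iff h1).1 hp
    exact (ih1 hp hq').trans (ih2 hq' hq)

/-! ### creating paths -/

/-- `Cr P w u p x`: the edge path `p` from `w` to `u` creates a cell at every step, and it leads
from the root path to `x`. -/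
inductive Cr (P : SemigroupPresentation α ι) (w : List α) :
    List α → List (Edge α ι) → List (Tm ι) → Prop
  | nil : Cr P w w [] (baseL ι w.length)
  | snoc (p : List (Edge α ι)) (a b : List α) (i : ι) (d : Bool) (A N B : List (Tm ι)) :
      Cr P w (a ++ P.side i d ++ b) p (A ++ N ++ B) → A.length = a.length →
      N.length = (P.side i d).length → ValC P w i d N →
      Cr P w (a ++ P.side i (!d) ++ b) (p ++ [⟨a, i, d, b⟩]) (A ++ far P i d N ++ B)

theorem Cr.spec {u : List α} {p : List (Edge α ι)} {x : List (Tm ι)} (h : Cr P w u p x) :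
    P.IsPath w p u ∧ Full P w u x ∧ actP P p (baseL ι w.length) = x := by
  induction h with
  | nil => exact ⟨rfl, full_base, rfl⟩
  | snoc p a b i d A N B h hA hN hv ih =>
    obtain ⟨h1, h2, h3⟩ := ih
    have h4 : P.IsPath w (p ++ [⟨a, i, d, b⟩]) (a ++ P.side i (!d) ++ b) :=
      h1.append ⟨rfl, rfl⟩
    have h5 : actP P (p ++ [⟨a, i, d, b⟩]) (baseL ι w.length) = A ++ far P i d N ++ B := by
      rw [actP_append, h3, actP_cons, actP_nil, actE_eq hA hN, cross_of_not_far hv.not_far]
    refine ⟨h4, ?_, h5⟩
    rw [← h5]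
    exact full_base.actP h4

/-- splitting the label word along a decomposition of the path -/
theorem Full.word_split {u : List α} {A M B : List (Tm ι)} {s : List α}
    (h : Full P w u (A ++ M ++ B)) (hM : M.map (lab P w) = s.map some) :
    ∃ a b, u = a ++ s ++ b ∧ A.length = a.length ∧ A.map (lab P w) = a.map some ∧
      B.map (lab P w) = b.map some := by
  have h1 := h.lab_eq
  rw [List.map_append, List.map_append] at h1
  have h2 := h1.symm
  rw [List.map_eq_append_iff] at h2
  obtain ⟨am, b, rfl, ham, hb⟩ := h2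
  rw [List.map_eq_append_iff] at ham
  obtain ⟨a, m, rfl, ha, hm⟩ := ham
  have hms : m = s := by
    have : m.map some = s.map some := hm.trans hM
    exact List.map_injective_iff.2 (Option.some_injective _) this
  subst hms
  exact ⟨a, b, rfl, by simpa using (congrArg List.length ha).symm, ha.symm, hb.symm⟩

theorem exists_cr {u : List α} {x : List (Tm ι)} (hx : Full P w u x) : ∃ p, Cr P w u p x := by
  have key : ∀ x, Pth P w (.base 0) x (.base w.length) →
      ∀ u, x.map (lab P w) = u.map some → ∃ p, Cr P w u p x := by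
    refine Pth.red_induction ?_ ?_
    · intro M hM hI u hu
      have e := hI.eq_base hM
      subst e
      have h1 := (full_base (P := P) (w := w)).lab_eq
      have h2 : u = w := by
        have : u.map some = w.map some := hu.symm.trans h1
        exact List.map_injective_iff.2 (Option.some_injective _) this
      subst h2
      exact ⟨[], Cr.nil⟩
    · intro A i d N B hA hN hB h1 h2 ih u hu
      have hf : Full P w u (A ++ far P i d N ++ B) := ⟨h2, hu⟩
      obtain ⟨a, b, rfl, hlen, hAl, hBl⟩ := hf.word_split (lab_far w i d N)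
      obtain ⟨p, hp⟩ := ih (a ++ P.side i d ++ b) (by
        rw [List.map_append, List.map_append, hAl, hBl, hN.lab_eq]
        simp)
      exact ⟨_, Cr.snoc p a b i d A N B hp hlen hN.piece.length_eq hN⟩
  exact key x hx.pth u hx.lab_eq

/-- (H2) every full path comes from an edge path -/
theorem exists_path_of_full {u : List α} {x : List (Tm ι)} (hx : Full P w u x) :
    ∃ p, P.IsPath w p u ∧ actP P p (baseL ι w.length) = x := by
  obtain ⟨p, hp⟩ := exists_cr hx
  exact ⟨p, hp.spec.1, hp.spec.2.2⟩

/-- two far segments of the same path are equal or disjoint -/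
theorem far_segments_aux {A B A' B' N N' : List (Tm ι)} {i i' : ι} {d d' : Bool}
    (h : A ++ far P i d N ++ B = A' ++ far P i' d' N' ++ B') (hle : A.length ≤ A'.length) :
    (A = A' ∧ i = i' ∧ d = d' ∧ N = N' ∧ B = B') ∨
      (∃ C, A' = A ++ far P i d N ++ C ∧ B = C ++ far P i' d' N' ++ B') := by
  rcases lt_or_ge A'.length (A.length + (far P i d N).length) with hlt | hge
  · left
    have hpos : 0 < (far P i' d' N').length := List.length_pos_iff.2 (far_ne_nil _ _ _)
    have e1 : (A ++ far P i d N ++ B)[A'.length]? = some (Tm.op i d (A'.length - A.length) N) := by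
      rw [List.getElem?_append_left (by simpa using hlt), List.getElem?_append_right hle,
        List.getElem?_eq_getElem (by omega), getElem_far]
    have e2 : (A' ++ far P i' d' N' ++ B')[A'.length]? = some (Tm.op i' d' 0 N') := by
      rw [List.getElem?_append_left (by simpa using hpos), List.getElem?_append_right (le_refl _),
        Nat.sub_self, List.getElem?_eq_getElem hpos, getElem_far]
    rw [h, e2] at e1
    obtain ⟨h1, h2, h3, h4⟩ := Tm.op_inj (Option.some_injective _ e1)
    subst h1
    subst h2
    subst h4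
    have h5 : A.length = A'.length := by omega
    have h6 := List.append_inj' (s₁ := A ++ far P i' d' N') (s₂ := A' ++ far P i' d' N')
      (t₁ := B) (t₂ := B') h (by
        have := congrArg List.length h
        simp only [List.length_append] at this
        omega)
    exact ⟨(List.append_inj h6.1 h5).1, rfl, rfl, rfl, h6.2⟩
  · right
    have h1 : A' ++ far P i' d' N' ++ B' = (A ++ far P i d N) ++ B := h.symm
    rw [List.append_assoc, List.append_eq_append_iff] at h1
    rcases h1 with ⟨C, h2, h3⟩ | ⟨C, h2, h3⟩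
    · -- A ++ far = A' ++ C
      have hC : C = [] := by
        have := congrArg List.length h2
        simp only [List.length_append] at this
        apply List.length_eq_zero_iff.1
        omega
      subst hC
      exact ⟨[], by simpa using h2.symm, by simpa using h3.symm⟩
    · exact ⟨C, h2, by rw [h3]; simp⟩

theorem far_segments {A B A' B' N N' : List (Tm ι)} {i i' : ι} {d d' : Bool}
    (h : A ++ far P i d N ++ B = A' ++ far P i' d' N' ++ B') :
    (A = A' ∧ i = i' ∧ d = d' ∧ N = N' ∧ B = B') ∨
      (∃ C, A' = A ++ far P i d N ++ C ∧ B = C ++ far P i' d' N' ++ B') ∨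
      (∃ C, A = A' ++ far P i' d' N' ++ C ∧ B' = C ++ far P i d N ++ B) := by
  rcases le_total A.length A'.length with hle | hle
  · rcases far_segments_aux h hle with h1 | h1
    · exact Or.inl h1
    · exact Or.inr (Or.inl h1)
  · rcases far_segments_aux h.symm hle with ⟨h1, h2, h3, h4, h5⟩ | h1
    · exact Or.inl ⟨h1.symm, h2.symm, h3.symm, h4.symm, h5.symm⟩
    · exact Or.inr (Or.inr h1)

theorem Cr.inv {u : List α} {p : List (Edge α ι)} {x : List (Tm ι)} (h : Cr P w u p x) :
    (u = w ∧ p = [] ∧ x = baseL ι w.length) ∨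
      ∃ (p' : List (Edge α ι)) (a b : List α) (i : ι) (d : Bool) (A N B : List (Tm ι)),
        u = a ++ P.side i (!d) ++ b ∧ p = p' ++ [⟨a, i, d, b⟩] ∧ x = A ++ far P i d N ++ B ∧
        Cr P w (a ++ P.side i d ++ b) p' (A ++ N ++ B) ∧ A.length = a.length ∧
        N.length = (P.side i d).length ∧ ValC P w i d N := by
  cases h with
  | nil => exact Or.inl ⟨rfl, rfl, rfl⟩
  | snoc p a b i d A N B h hA hN hv =>
    exact Or.inr ⟨p, a, b, i, d, A, N, B, rfl, rfl, rfl, h, hA, hN, hv⟩

theorem Full.parts {a s b : List α} {A M B : List (Tm ι)} (h : Full P w (a ++ s ++ b) (A ++ M ++ B))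
    (hA : A.length = a.length) (hM : M.length = s.length) :
    A.map (lab P w) = a.map some ∧ M.map (lab P w) = s.map some ∧
      B.map (lab P w) = b.map some := by
  have h1 := h.lab_eq
  rw [List.map_append, List.map_append, List.map_append, List.map_append] at h1
  obtain ⟨h2, h3⟩ := List.append_inj h1 (by simp [hA, hM])
  obtain ⟨h4, h5⟩ := List.append_inj h2 (by simp [hA])
  exact ⟨h4, h5, h3⟩

theorem szL_red (A B : List (Tm ι)) (i : ι) (d : Bool) (N : List (Tm ι)) :
    szL (A ++ N ++ B) < szL (A ++ far P i d N ++ B) := by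
  have := szL_lt_far (P := P) i d N
  rw [szL_append, szL_append, szL_append, szL_append]
  omega

/-- two creating paths whose last steps are at disjoint places -/
theorem cr_disjoint {x : List (Tm ι)}
    (ih : ∀ y : List (Tm ι), szL y < szL x → ∀ (u : List α) (p q : List (Edge α ι)),
      Cr P w u p y → Cr P w u q y → Htp P w u p q)
    {u : List α} {p q : List (Edge α ι)} {a b a' b' : List α} {i i' : ι} {d d' : Bool}
    {A N B A' N' B' C : List (Tm ι)}
    (hu : u = a ++ P.side i (!d) ++ b) (hu' : u = a' ++ P.side i' (!d') ++ b')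
    (hx : x = A ++ far P i d N ++ B) (hx' : x = A' ++ far P i' d' N' ++ B')
    (hp : Cr P w (a ++ P.side i d ++ b) p (A ++ N ++ B)) (hA : A.length = a.length)
    (hN : N.length = (P.side i d).length) (hv : ValC P w i d N)
    (hq : Cr P w (a' ++ P.side i' d' ++ b') q (A' ++ N' ++ B')) (hA' : A'.length = a'.length)
    (hN' : N'.length = (P.side i' d').length) (hv' : ValC P w i' d' N')
    (hC : A' = A ++ far P i d N ++ C) (hC' : B = C ++ far P i' d' N' ++ B') :
    Htp P w u (p ++ [⟨a, i, d, b⟩]) (q ++ [⟨a', i', d', b'⟩]) := by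
  obtain ⟨c, hc, hc'⟩ : ∃ c, a' = a ++ P.side i (!d) ++ c ∧
      b = c ++ P.side i' (!d') ++ b' := by
    have h1 : (a ++ P.side i (!d)) ++ b = a' ++ (P.side i' (!d') ++ b') := by
      rw [← hu, hu', List.append_assoc]
    have hlen : (a ++ P.side i (!d)).length ≤ a'.length := by
      rw [← hA', hC, List.length_append, List.length_append, List.length_append, length_far, hA]
      omega
    rw [List.append_eq_append_iff] at h1
    rcases h1 with ⟨c, h2, h3⟩ | ⟨c, h2, h3⟩
    · exact ⟨c, h2, by rw [h3]; simp⟩
    · have hc0 : c = [] := by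
        have := congrArg List.length h2
        rw [List.length_append] at this
        apply List.length_eq_zero_iff.1
        rw [h2] at hlen
        rw [List.length_append] at hlen
        omega
      subst hc0
      exact ⟨[], by simpa using h2.symm, by simpa using h3.symm⟩
  have hlC : C.length = c.length := by
    have h1 := hA'
    rw [hC, hc] at h1
    simp only [List.length_append, length_far] at h1
    omega
  subst hC
  subst hC'
  subst hc
  subst hc'
  obtain ⟨lA, lN, lB⟩ := hp.spec.2.1.parts hA hN
  rw [List.map_append, List.map_append, List.map_append, List.map_append] at lB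
  obtain ⟨lB1, lB'⟩ := List.append_inj lB (by simp [hlC, length_far])
  obtain ⟨lC, -⟩ := List.append_inj lB1 (by simp [hlC])
  -- the common predecessor
  have hz : Full P w ((a ++ P.side i d ++ c) ++ P.side i' d' ++ b') ((A ++ N ++ C) ++ N' ++ B') := by
    refine ⟨?_, ?_⟩
    · have h1 := hp.spec.2.1.pth
      rw [show A ++ N ++ (C ++ far P i' d' N' ++ B') = (A ++ N ++ C) ++ far P i' d' N' ++ B' by
        simp] at h1
      obtain ⟨h2, h3, h4⟩ := h1.red
      exact (hv'.pth_insert h2 h4).2
    · simp only [List.map_append, lA, lN, lC, lB', hv'.lab_eq]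
  obtain ⟨r, hr⟩ := exists_cr hz
  have hr1 : Cr P w (a ++ P.side i d ++ (c ++ P.side i' (!d') ++ b'))
      (r ++ [⟨a ++ P.side i d ++ c, i', d', b'⟩]) (A ++ N ++ (C ++ far P i' d' N' ++ B')) := by
    have := Cr.snoc r (a ++ P.side i d ++ c) b' i' d' (A ++ N ++ C) N' B' hr
      (by simp [hA, hN, hlC]) hN' hv'
    rwa [show (a ++ P.side i d ++ c) ++ P.side i' (!d') ++ b'
        = a ++ P.side i d ++ (c ++ P.side i' (!d') ++ b') by simp,
      show (A ++ N ++ C) ++ far P i' d' N' ++ B' = A ++ N ++ (C ++ far P i' d' N' ++ B') by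
        simp] at this
  have hr2 : Cr P w ((a ++ P.side i (!d) ++ c) ++ P.side i' d' ++ b')
      (r ++ [⟨a, i, d, c ++ P.side i' d' ++ b'⟩]) ((A ++ far P i d N ++ C) ++ N' ++ B') := by
    have h1 : Cr P w (a ++ P.side i d ++ (c ++ P.side i' d' ++ b')) r
        (A ++ N ++ (C ++ N' ++ B')) := by
      rwa [show a ++ P.side i d ++ (c ++ P.side i' d' ++ b')
          = (a ++ P.side i d ++ c) ++ P.side i' d' ++ b' by simp,
        show A ++ N ++ (C ++ N' ++ B') = (A ++ N ++ C) ++ N' ++ B' by simp]
    have := Cr.snoc r a (c ++ P.side i' d' ++ b') i d A N (C ++ N' ++ B') h1 hA hN hv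
    rwa [show a ++ P.side i (!d) ++ (c ++ P.side i' d' ++ b')
        = (a ++ P.side i (!d) ++ c) ++ P.side i' d' ++ b' by simp,
      show A ++ far P i d N ++ (C ++ N' ++ B') = (A ++ far P i d N ++ C) ++ N' ++ B' by
        simp] at this
  have k1 := ih _ (by rw [hx]; exact szL_red _ _ _ _ _) _ _ _ hp hr1
  have k2 := ih _ (by rw [hx']; exact szL_red _ _ _ _ _) _ _ _ hq hr2
  have e1 : P.IsPath (a ++ P.side i d ++ (c ++ P.side i' (!d') ++ b'))
      [⟨a, i, d, c ++ P.side i' (!d') ++ b'⟩] u := ⟨rfl, hu.symm⟩
  have e2 : P.IsPath (a ++ P.side i (!d) ++ c ++ P.side i' d' ++ b')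
      [⟨a ++ P.side i (!d) ++ c, i', d', b'⟩] u := ⟨rfl, hu'.symm⟩
  have m1 := k1.append_right e1
  have m2 := k2.append_right e2
  have sq := ElemHomotopy.square (P := P) r [] a c b' i i' d d'
  refine m1.trans (Htp.trans (Htp.symm ?_) m2.symm)
  refine Relation.EqvGen.rel _ _ ⟨(m2.isPath_iff).1 (hq.spec.1.append e2),
    (m1.isPath_iff).1 (hp.spec.1.append e1), ?_⟩
  simpa using sq

theorem cr_unique_aux : ∀ (n : ℕ) (x : List (Tm ι)), szL x = n →
    ∀ (u : List α) (p q : List (Edge α ι)), Cr P w u p x → Cr P w u q x → Htp P w u p q := by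
  intro n
  induction n using Nat.strong_induction_on with
  | _ n IH =>
    intro x hn u p q hp hq
    have ih : ∀ y : List (Tm ι), szL y < szL x → ∀ (u : List α) (p q : List (Edge α ι)),
        Cr P w u p y → Cr P w u q y → Htp P w u p q := fun y hy =>
      IH (szL y) (by omega) y rfl
    rcases hp.inv with ⟨-, rfl, hx⟩ | ⟨p', a, b, i, d, A, N, B, hu, rfl, hx, hp', hA, hN, hv⟩
    · rcases hq.inv with ⟨-, rfl, -⟩ | ⟨q', a', b', i', d', A', N', B', hu', rfl, hx', hq', hA', hN', hv'⟩
      · exact Htp.refl _
      · exact absurd (hx.symm.trans hx') (irr_base (P := P) _ _ _ _ _ _)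
    · rcases hq.inv with ⟨-, rfl, hx'⟩ | ⟨q', a', b', i', d', A', N', B', hu', rfl, hx', hq', hA', hN', hv'⟩
      · exact absurd (hx'.symm.trans hx) (irr_base (P := P) _ _ _ _ _ _)
      · rcases far_segments (hx.symm.trans hx') with ⟨rfl, rfl, rfl, rfl, rfl⟩ | ⟨C, h1, h2⟩ | ⟨C, h1, h2⟩
        · have h3 : a ++ P.side i (!d) ++ b = a' ++ P.side i (!d) ++ b' := hu.symm.trans hu'
          rw [List.append_assoc, List.append_assoc] at h3
          obtain ⟨h4, h5⟩ := List.append_inj h3 (by omega)
          have h6 := List.append_cancel_left h5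
          subst h4
          subst h6
          have h7 := ih _ (by rw [hx]; exact szL_red _ _ _ _ _) _ _ _ hp' hq'
          exact h7.append_right ⟨rfl, hu.symm⟩
        · exact cr_disjoint ih hu hu' hx hx' hp' hA hN hv hq' hA' hN' hv' h1 h2
        · exact (cr_disjoint ih hu' hu hx' hx hq' hA' hN' hv' hp' hA hN hv h1 h2).symm

/-- two creating paths to the same path are homotopic -/
theorem cr_unique {u : List α} {x : List (Tm ι)} {p q : List (Edge α ι)} (hp : Cr P w u p x)
    (hq : Cr P w u q x) : Htp P w u p q := cr_unique_aux _ x rfl u p q hp hq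

/-- a creating path followed by one edge is homotopic to a creating path -/
theorem Cr.step {e : Edge α ι} {x : List (Tm ι)} {p : List (Edge α ι)}
    (hp : Cr P w (P.source e) p x) :
    ∃ p', Cr P w (P.target e) p' (actE P e x) ∧ Htp P w (P.target e) (p ++ [e]) p' := by
  obtain ⟨a, i, d, b⟩ := e
  have hx := hp.spec.2.1
  obtain ⟨A, M, B, rfl, hAl, hM, hBl, hlen, hA, hB⟩ := Full.decomp (show
    Full P w (a ++ P.side i d ++ b) x from hx)
  rw [actE_eq hlen hM.length_eq]
  have he : P.IsPath (P.source ⟨a, i, d, b⟩) [⟨a, i, d, b⟩] (P.target ⟨a, i, d, b⟩) := ⟨rfl, rfl⟩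
  rcases hM.cases with ⟨N, rfl, hN, hc⟩ | ⟨hv, hc⟩
  · rw [hc]
    have h1 : Full P w (a ++ P.side i (!d) ++ b) (A ++ N ++ B) := by
      rw [← hc]
      exact Full.cross_mid hA hAl hM hB hBl
    obtain ⟨r, hr⟩ := exists_cr h1
    refine ⟨r, hr, ?_⟩
    have h2 := Cr.snoc r a b i (!d) A N B hr hlen hN.piece.length_eq hN
    rw [Bool.not_not] at h2
    have h3 := (cr_unique (show Cr P w (a ++ P.side i d ++ b) p _ from hp) h2).append_right
      (show P.IsPath (a ++ P.side i d ++ b) [⟨a, i, d, b⟩] (P.target ⟨a, i, d, b⟩) from ⟨rfl, rfl⟩)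
    refine h3.trans ?_
    refine Relation.EqvGen.rel _ _ ⟨(h3.isPath_iff).1 (hp.spec.1.append he), hr.spec.1, ?_⟩
    have h4 := ElemHomotopy.backtrack (P := P) r [] ⟨a, i, !d, b⟩
    simpa [Edge.inv] using h4
  · rw [hc]
    exact ⟨_, Cr.snoc p a b i d A M B hp hlen hM.length_eq hv, Htp.refl _⟩

/-- every edge path from `w` is homotopic to a creating path -/
theorem Cr.extend {u v : List α} {x : List (Tm ι)} {r p : List (Edge α ι)} (hr : Cr P w v r x)
    (hp : P.IsPath v p u) :
    ∃ p', Cr P w u p' (actP P p x) ∧ Htp P w u (r ++ p) p' := by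
  induction p generalizing v r x with
  | nil =>
    cases hp
    exact ⟨r, hr, by rw [List.append_nil]; exact Htp.refl _⟩
  | cons e p ih =>
    obtain ⟨h1, h2⟩ := hp
    subst h1
    obtain ⟨r', h3, h4⟩ := hr.step
    obtain ⟨p', h5, h6⟩ := ih h3 h2
    refine ⟨p', h5, ?_⟩
    rw [show r ++ e :: p = (r ++ [e]) ++ p by simp]
    exact (h4.append_right h2).trans h6

theorem htp_of_actP_eq {u : List α} {p q : List (Edge α ι)} (hp : P.IsPath w p u)
    (hq : P.IsPath w q u) (h : actP P p (baseL ι w.length) = actP P q (baseL ι w.length)) :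
    Htp P w u p q := by
  obtain ⟨p', h1, h2⟩ := (Cr.nil (P := P) (w := w)).extend hp
  obtain ⟨q', h3, h4⟩ := (Cr.nil (P := P) (w := w)).extend hq
  rw [← h] at h3
  rw [List.nil_append] at h2 h4
  exact h2.trans ((cr_unique h1 h3).trans h4.symm)

/-- (H3) the action of a loop on the root path determines the element of the diagram group -/
theorem quot_eq_of_actP_eq {p q : P.Loop w}
    (h : actP P p.1 (baseL ι w.length) = actP P q.1 (baseL ι w.length)) :
    (Quot.mk _ p : P.DiagramGroup w) = Quot.mk _ q :=
  (htp_of_actP_eq p.2 q.2 h).quot_eq p.2 q.2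

end DG
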