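import Mathlib

/-!
# Abstract interface: a group acting on a directed 2-tree

`TwoTree G` collects exactly the properties of the universal directed 2-complex of a
semigroup presentation (with the action of the diagram group `G`) that the structure theory uses.
The instance for diagram groups is built in the `Model*` files; the structure theory
(`Structure.lean`, `Assembly.lean`) uses nothing but this interface.
-/

namespace DG

open scoped Classical

/-- A group `G` acting on a directed 2-tree: vertices `V`, directed edges `E`, cells `C`. -/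
structure TwoTree (G V E C : Type*) [Group G] [MulAction G V] [MulAction G E]
    [MulAction G C] where
  /-- `Path o M o'`: the list of edges `M` is a directed path from `o` to `o'`. -/
  Path : V → List E → V → Prop
  path_nil : ∀ o o', Path o [] o' ↔ o = o'
  path_append : ∀ o o' M N, Path o (M ++ N) o' ↔ ∃ m, Path o M m ∧ Path m N o'
  path_smul : ∀ (g : G) o M o', Path o M o' → Path (g • o) (M.map (g • ·)) (g • o')
  path_end : ∀ o M o' o'', Path o M o' → Path o M o'' → o' = o''
  acyclic : ∀ o M, Path o M o → M = []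
  /-- initial vertex -/
  bot : V
  /-- terminal vertex -/
  top : V
  smul_bot : ∀ g : G, g • bot = bot
  smul_top : ∀ g : G, g • top = top
  /-- a base path from `bot` to `top` -/
  base : List E
  path_base : Path bot base top
  /-- the set of cells crossed between the base path and a path -/
  S : List E → Finset C
  /-- the initial vertex of a cell -/
  src : C → V
  /-- the terminal vertex of a cell -/
  tgt : C → V
  src_smul : ∀ (g : G) c, src (g • c) = g • src c
  tgt_smul : ∀ (g : G) c, tgt (g • c) = g • tgt c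
  /-- the cells between two full paths are equivariant -/
  S_smul : ∀ (g : G) x y, Path bot x top → Path bot y top → ∀ a : C,
    a ∈ symmDiff (S x) (S y) →
      g • a ∈ symmDiff (S (x.map (g • ·))) (S (y.map (g • ·)))
  /-- the cells between two paths that differ only between `c` and `c'` lie between `c`
  and `c'` -/
  mid : ∀ c c' L M M' R, Path bot L c → Path c M c' → Path c M' c' → Path c' R top →
    ∀ a ∈ symmDiff (S (L ++ M ++ R)) (S (L ++ M' ++ R)),
      (∃ N, Path c N (src a)) ∧ (∃ N, N ≠ [] ∧ Path (src a) N (tgt a)) ∧ (∃ N, Path (tgt a) N c')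
  /-- an element that fixes a path fixes all parallel paths -/
  ext : ∀ (g : G) c c' M M', Path c M c' → Path c M' c' → (∀ e ∈ M, g • e = e) →
    ∀ e ∈ M', g • e = e
  /-- the action on full paths is free -/
  free : ∀ (g : G) x, Path bot x top → (∀ e ∈ x, g • e = e) → g = 1
  /-- existence of restrictions -/
  restrict : ∀ (g : G) c c' L M R, Path bot L c → Path c M c' → Path c' R top →
    g • c = c → g • c' = c' →
      ∃ h : G, (∀ e ∈ L, h • e = e) ∧ (∀ e ∈ M, h • e = g • e) ∧ (∀ e ∈ R, h • e = e)
  /-- a path along the near side of a cell; what fixes the cell fixes the near side -/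
  near : ∀ x y, Path bot x top → Path bot y top → ∀ a ∈ symmDiff (S x) (S y),
    ∃ L N R, Path bot L (src a) ∧ Path (src a) N (tgt a) ∧ Path (tgt a) R top ∧
      ∀ g : G, g • a = a → ∀ e ∈ N, g • e = e
  /-- every nontrivial element `g` is hyperbolic at the initial side of some vertex `o`:
  there is a full path `x` through `o` such that the set `A` of cells with initial vertex `o`
  between `x` and `g x` is nonempty and `k`-step displacement is the disjoint union of the
  translates of `A` -/
  hyp_src : ∀ g : G, g ≠ 1 → ∃ (o : V) (L R : List E), g • o = o ∧ Path bot L o ∧ Path o R top ∧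
    (∃ a ∈ symmDiff (S (L ++ R)) (S ((L ++ R).map (g • ·))), src a = o) ∧
    (∀ (k : ℕ) (a : C), src a = o →
      (a ∈ symmDiff (S (L ++ R)) (S ((L ++ R).map (g ^ k • ·))) ↔
        ∃ i < k, ∃ b ∈ symmDiff (S (L ++ R)) (S ((L ++ R).map (g • ·))),
          src b = o ∧ a = g ^ i • b)) ∧
    (∀ i : ℤ, i ≠ 0 → ∀ a ∈ symmDiff (S (L ++ R)) (S ((L ++ R).map (g • ·))), src a = o →
      g ^ i • a ∉ symmDiff (S (L ++ R)) (S ((L ++ R).map (g • ·))))
  /-- the same at the terminal side -/
  hyp_tgt : ∀ g : G, g ≠ 1 → ∃ (o : V) (L R : List E), g • o = o ∧ Path bot L o ∧ Path o R top ∧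
    (∃ a ∈ symmDiff (S (L ++ R)) (S ((L ++ R).map (g • ·))), tgt a = o) ∧
    (∀ (k : ℕ) (a : C), tgt a = o →
      (a ∈ symmDiff (S (L ++ R)) (S ((L ++ R).map (g ^ k • ·))) ↔
        ∃ i < k, ∃ b ∈ symmDiff (S (L ++ R)) (S ((L ++ R).map (g • ·))),
          tgt b = o ∧ a = g ^ i • b)) ∧
    (∀ i : ℤ, i ≠ 0 → ∀ a ∈ symmDiff (S (L ++ R)) (S ((L ++ R).map (g • ·))), tgt a = o →
      g ^ i • a ∉ symmDiff (S (L ++ R)) (S ((L ++ R).map (g • ·))))

/-- The structure theorem needed for the final argument. -/
def StructureStatement.{u, v1, v2, v3} : Prop :=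
  ∀ (G : Type u) (V : Type v1) (E : Type v2) (C : Type v3) [Group G] [MulAction G V]
    [MulAction G E] [MulAction G C] (_ : TwoTree G V E C) (a b : Fin 7 → G),
    (∀ i j, Commute (b i) (b j)) → (∀ i j, i ≠ j → Commute (a i) (b j)) →
    ∃ R : ℕ, 0 < R ∧ ∃ (F : Finset ℕ) (y : ℕ → G) (s : ℕ → Fin 7),
      (∀ t ∈ F, ∀ t' ∈ F, ∀ t'' ∈ F, t < t' → t' < t'' → Commute (y t) (y t'')) ∧
      (∀ t ∈ F, ∀ t' ∈ F, s t = s t' → Commute (y t) (y t')) ∧
      ∀ i, b i * a i ^ R * (b i)⁻¹ * (a i ^ R)⁻¹
        = (((F.sort (· ≤ ·)).filter (s · = i)).map y).prod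

/-- The core lemma (Fano plane descent). -/
def CoreStatement.{u} : Prop :=
  ∀ n : ℕ, ∃ g : FreeGroup (Fin 7), g ≠ 1 ∧
    ∀ (G : Type u) [Group G] (F : Finset ℕ) (y : ℕ → G) (s : ℕ → Fin 7), F.card ≤ n →
      (∀ t ∈ F, ∀ t' ∈ F, ∀ t'' ∈ F, t < t' → t' < t'' → Commute (y t) (y t'')) →
      (∀ t ∈ F, ∀ t' ∈ F, s t = s t' → Commute (y t) (y t')) →
      FreeGroup.lift (fun i => (((F.sort (· ≤ ·)).filter (s · = i)).map y).prod) g = 1

end DG
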