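import Pool.Agent.Lib.MP_86f51d_al.Model7
import Pool.Agent.Lib.MP_86f51d_al.Homotopy
import Pool.Agent.Lib.MP_86f51d_al.Growth
import Pool.Agent.Lib.MP_86f51d_al.Interface

/-!
# The action of the diagram group on the term model
-/

namespace DG

open SemigroupPresentation

universe u v

variable {α : Type u} {ι : Type v} {P : SemigroupPresentation α ι} {w : List α}

/-- the image of the root path under an element of the diagram group -/
noncomputable def ev (g : P.DiagramGroup w) : List (Tm ι) :=
  Quot.lift (fun p : P.Loop w => actP P p.1 (baseL ι w.length))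
    (fun p q h => actP_eq_of_elemHomotopy p.2 q.2 h full_base) g

theorem full_ev (g : P.DiagramGroup w) : Full P w w (ev g) := by
  obtain ⟨p⟩ := g
  exact full_base.actP p.2

theorem ev_one : ev (1 : P.DiagramGroup w) = baseL ι w.length := rfl

theorem ev_mul (g h : P.DiagramGroup w) : ev (g * h) = (ev h).map (subst P (ev g)) := by
  obtain ⟨p⟩ := g
  obtain ⟨q⟩ := h
  show actP P (p.1 ++ q.1) (baseL ι w.length) = _
  have hp : Full P w w (actP P p.1 (baseL ι w.length)) := full_base.actP p.2
  rw [actP_append]
  have h1 := actP_map_subst hp q.2 full_base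
  rw [baseL_map_subst hp] at h1
  exact h1.symm

theorem ev_injective {g h : P.DiagramGroup w} (e : ev g = ev h) : g = h := by
  obtain ⟨p⟩ := g
  obtain ⟨q⟩ := h
  exact quot_eq_of_actP_eq e

/-- valid edges -/
abbrev TE (P : SemigroupPresentation α ι) (w : List α) := {t : Tm ι // Val P w t}

/-- valid vertices -/
abbrev TV (P : SemigroupPresentation α ι) (w : List α) := {o : Vx ι // ValV P w o}

/-- valid cells -/
abbrev TC (P : SemigroupPresentation α ι) (w : List α) :=
  {c : Cell ι // ValC P w c.1 c.2.1 c.2.2}

noncomputable instance : MulAction (P.DiagramGroup w) (TE P w) where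
  smul g t := ⟨subst P (ev g) t.1, ((full_ev g).substOK t.2).val⟩
  one_smul t := Subtype.ext (by
    show subst P (ev 1) t.1 = t.1
    rw [ev_one]; exact subst_baseL t.2)
  mul_smul g h t := Subtype.ext (by
    show subst P (ev (g * h)) t.1 = subst P (ev g) (subst P (ev h) t.1)
    rw [subst_subst (full_ev g) (full_ev h) t.2, ev_mul])

noncomputable instance : MulAction (P.DiagramGroup w) (TV P w) where
  smul g o := ⟨substV P (ev g) o.1, o.2.subst (full_ev g)⟩
  one_smul t := Subtype.ext (by
    show substV P (ev 1) t.1 = t.1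
    rw [ev_one]; exact substV_baseL t.2)
  mul_smul g h t := Subtype.ext (by
    show substV P (ev (g * h)) t.1 = substV P (ev g) (substV P (ev h) t.1)
    rw [substV_substV (full_ev g) (full_ev h) t.2, ev_mul])

noncomputable instance : MulAction (P.DiagramGroup w) (TC P w) where
  smul g c := ⟨substC P (ev g) c.1, ValC.substC (full_ev g) c.2⟩
  one_smul t := Subtype.ext (by
    show substC P (ev 1) t.1 = t.1
    rw [ev_one]; exact substC_baseL t.2)
  mul_smul g h t := Subtype.ext (by
    show substC P (ev (g * h)) t.1 = substC P (ev g) (substC P (ev h) t.1)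
    rw [substC_substC (full_ev g) (full_ev h) t.2, ev_mul])

theorem smulE_val (g : P.DiagramGroup w) (t : TE P w) : (g • t).1 = subst P (ev g) t.1 := rfl

theorem smulV_val (g : P.DiagramGroup w) (t : TV P w) : (g • t).1 = substV P (ev g) t.1 := rfl

theorem smulC_val (g : P.DiagramGroup w) (t : TC P w) : (g • t).1 = substC P (ev g) t.1 := rfl

/-- forgetting validity -/
abbrev vals (M : List (TE P w)) : List (Tm ι) := M.map Subtype.val

theorem vals_smul (g : P.DiagramGroup w) (M : List (TE P w)) :
    vals (M.map (g • ·)) = (vals M).map (subst P (ev g)) := by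
  simp only [vals, List.map_map]
  rfl

theorem vals_mem (M : List (TE P w)) : ∀ t ∈ vals M, Val P w t := by
  intro t ht
  obtain ⟨s, -, rfl⟩ := List.mem_map.1 ht
  exact s.2

theorem exists_vals {M : List (Tm ι)} (h : ∀ t ∈ M, Val P w t) : ∃ M' : List (TE P w), vals M' = M := by
  induction M with
  | nil => exact ⟨[], rfl⟩
  | cons t M ih =>
    obtain ⟨M', hM'⟩ := ih (fun s hs => h s (by simp [hs]))
    exact ⟨⟨t, h t (by simp)⟩ :: M', by simp [vals, ← hM']⟩

theorem vals_injective {M N : List (TE P w)} (h : vals M = vals N) : M = N :=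
  List.map_injective_iff.2 Subtype.val_injective h

theorem exists_lab {t : Tm ι} (h : Val P w t) : ∃ a, lab P w t = some a := by
  cases h with
  | gen k hk => exact ⟨w[k], by rw [lab_gen]; exact List.getElem?_eq_getElem hk⟩
  | op i d j N h1 h2 h3 h4 h5 =>
    exact ⟨(P.side i (!d))[j], by rw [lab_op]; exact List.getElem?_eq_getElem h4⟩

theorem exists_full {x : List (Tm ι)} (h : Pth P w (.base 0) x (.base w.length)) :
    ∃ u, Full P w u x := by
  have : ∀ M : List (Tm ι), (∀ t ∈ M, Val P w t) → ∃ u : List α, M.map (lab P w) = u.map some := by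
    intro M hM
    induction M with
    | nil => exact ⟨[], rfl⟩
    | cons t M ih =>
      obtain ⟨u, hu⟩ := ih (fun s hs => hM s (by simp [hs]))
      obtain ⟨a, ha⟩ := exists_lab (hM t (by simp))
      exact ⟨a :: u, by rw [List.map_cons, ha, hu, List.map_cons]⟩
  obtain ⟨u, hu⟩ := this x h.2
  exact ⟨u, h, hu⟩

/-- transitivity on full paths with the same label word -/
theorem exists_group_element {u : List α} {x y : List (Tm ι)} (hx : Full P w u x)
    (hy : Full P w u y) : ∃ h : P.DiagramGroup w, x.map (subst P (ev h)) = y := by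
  obtain ⟨p, hp, hpx⟩ := hx.exists_path
  obtain ⟨q, hq, hqy⟩ := hy.exists_path
  refine ⟨Quot.mk _ ⟨q ++ revPath p, hq.append hp.rev⟩, ?_⟩
  have e1 : ev (Quot.mk _ ⟨q ++ revPath p, hq.append hp.rev⟩ : P.DiagramGroup w)
      = actP P (revPath p) y := by
    show actP P (q ++ revPath p) (baseL ι w.length) = _
    rw [actP_append, hqy]
  have hfull := full_ev (Quot.mk _ ⟨q ++ revPath p, hq.append hp.rev⟩ : P.DiagramGroup w)
  conv_lhs => rw [← hpx]
  rw [actP_map_subst hfull hp full_base, baseL_map_subst hfull, e1]
  have h2 := actP_revPath (P := P) (w := w) (u := u) (x := y) hp.rev hy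
  have e : revPath (revPath p) = p := by simp [revPath, Function.comp_def]
  rwa [e] at h2

theorem valV_zero : ValV P w (.base 0) := ⟨_, _, Pth.nil _, pth_base⟩

theorem valV_top : ValV P w (.base w.length) := ⟨_, _, pth_base, Pth.nil _⟩

end DG
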