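import Pool.Agent.Lib.MP_86f51d_al.Structure

/-!
# The structure theorem

Assembly of the block lemma along the chain of all cut vertices.
-/

set_option autoImplicit false

namespace DG

open scoped Classical

/-! ### Lists -/

lemma prod_map_of_trivial {G : Type*} [Group G] (l : List ℕ) (f : ℕ → G)
    (h : ∀ t ∈ l, f t = 1) : (l.map f).prod = 1 := by
  refine List.prod_eq_one ?_
  intro x hx
  obtain ⟨t, ht, rfl⟩ := List.mem_map.1 hx
  exact h t ht

lemma prod_map_single {G : Type*} [Group G] (l : List ℕ) (hl : l.Nodup) (f : ℕ → G) (t0 : ℕ)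
    (h0 : t0 ∈ l) (h : ∀ t ∈ l, t ≠ t0 → f t = 1) : (l.map f).prod = f t0 := by
  induction l with
  | nil => simp at h0
  | cons a l ih =>
    rw [List.map_cons, List.prod_cons]
    rw [List.nodup_cons] at hl
    by_cases ha : a = t0
    · subst ha
      rw [prod_map_of_trivial l f (fun t ht => h t (List.mem_cons_of_mem _ ht)
        (fun e => hl.1 (e ▸ ht))), mul_one]
    · rw [h a List.mem_cons_self ha, one_mul]
      refine ih hl.2 ?_ (fun t ht => h t (List.mem_cons_of_mem _ ht))
      rcases List.mem_cons.1 h0 with h1 | h1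
      · exact absurd h1.symm ha
      · exact h1

lemma prod_map_filter {G : Type*} [Group G] (l : List ℕ) (f : ℕ → G) (p : ℕ → Prop)
    (h : ∀ t ∈ l, ¬ p t → f t = 1) : ((l.filter (fun t => decide (p t))).map f).prod
      = (l.map f).prod := by
  induction l with
  | nil => simp
  | cons a l ih =>
    have ih' := ih (fun t ht => h t (List.mem_cons_of_mem _ ht))
    by_cases ha : p a
    · rw [List.filter_cons_of_pos (by simpa using ha), List.map_cons, List.map_cons,
        List.prod_cons, List.prod_cons, ih']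
    · rw [List.filter_cons_of_neg (by simpa using ha), List.map_cons, List.prod_cons, ih',
        h a List.mem_cons_self ha, one_mul]

namespace TwoTree

variable {G V E C : Type*} [Group G] [MulAction G V] [MulAction G E] [MulAction G C]
variable {T : TwoTree G V E C}

/-- A finite set of pairwise comparable vertices is a chain. -/
lemma exists_chain (K : Finset V) (hb : T.bot ∈ K) (ht : T.top ∈ K) (hne : T.bot ≠ T.top)
    (h1 : ∀ v ∈ K, T.le T.bot v ∧ T.le v T.top)
    (h2 : ∀ u ∈ K, ∀ v ∈ K, T.le u v ∨ T.le v u) :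
    ∃ (m : ℕ) (o : ℕ → V), 0 < m ∧ o 0 = T.bot ∧ o m = T.top ∧
      (∀ s t, s < t → t ≤ m → T.lt (o s) (o t)) ∧ (∀ t, t ≤ m → o t ∈ K) ∧
      (∀ v ∈ K, ∃ t, t ≤ m ∧ o t = v) := by
  let ord : LinearOrder {v // v ∈ K} :=
    { le := fun u v => T.le u.1 v.1
      le_refl := fun u => T.le_refl u.1
      le_trans := fun u v w h h' => h.trans h'
      le_antisymm := fun u v h h' => Subtype.ext (h.antisymm h')
      le_total := fun u v => h2 u.1 u.2 v.1 v.2
      toDecidableLE := Classical.decRel _ }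
  have hcard : Fintype.card {v // v ∈ K} = K.card := Fintype.card_coe K
  have hpos : 1 < K.card := Finset.one_lt_card.2 ⟨_, hb, _, ht, hne⟩
  set e := monoEquivOfFin {v // v ∈ K} hcard with he
  obtain ⟨m, hm⟩ : ∃ m, K.card = m + 1 := ⟨K.card - 1, by omega⟩
  let o : ℕ → V := fun t => if h : t < K.card then (e ⟨t, h⟩).1 else T.top
  have ho : ∀ t (h : t < K.card), o t = (e ⟨t, h⟩).1 := fun t h => dif_pos h
  have hlt : ∀ s t, s < t → t ≤ m → T.lt (o s) (o t) := by
    intro s t hst htm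
    rw [ho s (by omega), ho t (by omega)]
    have h3 : e ⟨s, by omega⟩ < e ⟨t, by omega⟩ := e.lt_iff_lt.2 (by exact hst)
    exact ⟨h3.le, fun h4 => h3.ne (Subtype.ext h4)⟩
  have hmem : ∀ t, t ≤ m → o t ∈ K := by
    intro t htm
    rw [ho t (by omega)]
    exact (e _).2
  have hsurj : ∀ v ∈ K, ∃ t, t ≤ m ∧ o t = v := by
    intro v hv
    refine ⟨(e.symm ⟨v, hv⟩).1, by have := (e.symm ⟨v, hv⟩).2; omega, ?_⟩
    rw [ho _ (e.symm ⟨v, hv⟩).2]
    change (e (e.symm ⟨v, hv⟩)).1 = v
    rw [OrderIso.apply_symm_apply]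
  refine ⟨m, o, by omega, ?_, ?_, hlt, hmem, hsurj⟩
  · obtain ⟨t, htm, hto⟩ := hsurj _ hb
    rcases Nat.eq_zero_or_pos t with h | h
    · rw [← hto, h]
    · exfalso
      have h3 := hlt 0 t h htm
      rw [hto] at h3
      exact h3.not_le (h1 _ (hmem 0 (by omega))).1
  · obtain ⟨t, htm, hto⟩ := hsurj _ ht
    rcases Nat.lt_or_eq_of_le htm with h | h
    · exfalso
      have h3 := hlt t m h le_rfl
      rw [hto] at h3
      exact h3.not_le (h1 _ (hmem m le_rfl)).2
    · rw [← hto, h]

/-- The data of the chain of all cut vertices. -/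
structure Chain (T : TwoTree G V E C) (a b : Fin 7 → G) (m : ℕ) (o : ℕ → V) : Prop where
  hbb : ∀ i j, Commute (b i) (b j)
  hab : ∀ i j, i ≠ j → Commute (a i) (b j)
  pos : 0 < m
  zero : o 0 = T.bot
  last : o m = T.top
  mono : ∀ s t, s < t → t ≤ m → T.lt (o s) (o t)
  fix : ∀ t, t ≤ m → ∀ i, b i • o t = o t
  all : ∀ s i v, T.Grow s (b i) v → ∃ t, t ≤ m ∧ o t = v

lemma exists_chainData {a b : Fin 7 → G} (hbb : ∀ i j, Commute (b i) (b j))
    (hab : ∀ i j, i ≠ j → Commute (a i) (b j)) (hne : T.bot ≠ T.top) :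
    ∃ (m : ℕ) (o : ℕ → V), Chain T a b m o := by
  have hfin : (⋃ (s : Bool), ⋃ (i : Fin 7), T.H s (b i)).Finite :=
    Set.finite_iUnion fun s => Set.finite_iUnion fun i => T.H_finite s (b i)
  let K : Finset V := insert T.bot (insert T.top hfin.toFinset)
  have hK : ∀ v, v ∈ K ↔ v = T.bot ∨ v = T.top ∨ ∃ s i, T.Grow s (b i) v := by
    intro v
    simp [K, H]
  have hbt : T.le T.bot T.top := ⟨_, T.path_base⟩
  have hbetween : ∀ v ∈ K, T.le T.bot v ∧ T.le v T.top := by
    intro v hv
    rcases (hK v).1 hv with rfl | rfl | ⟨s, i, h⟩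
    · exact ⟨T.le_refl _, hbt⟩
    · exact ⟨hbt, T.le_refl _⟩
    · exact h.between
  have hfix : ∀ v ∈ K, ∀ i, b i • v = v := by
    intro v hv i
    rcases (hK v).1 hv with rfl | rfl | ⟨s, j, h⟩
    · exact T.smul_bot _
    · exact T.smul_top _
    · exact h.smul_eq (hbb i j)
  have hcomp : ∀ u ∈ K, ∀ v ∈ K, T.le u v ∨ T.le v u := by
    intro u hu v hv
    have hv' := hbetween v hv
    rcases (hK u).1 hu with rfl | rfl | ⟨s, i, h⟩
    · exact Or.inl hv'.1
    · exact Or.inr hv'.2
    · exact h.comparable (hfix v hv i) hv'.1 hv'.2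
  obtain ⟨m, o, h1, h2, h3, h4, h5, h6⟩ := exists_chain K ((hK _).2 (Or.inl rfl))
    ((hK _).2 (Or.inr (Or.inl rfl))) hne hbetween hcomp
  exact ⟨m, o, hbb, hab, h1, h2, h3, h4, fun t ht => hfix _ (h5 t ht),
    fun s i v hv => h6 v ((hK v).2 (Or.inr (Or.inr ⟨s, i, hv⟩)))⟩

namespace Chain

variable {a b : Fin 7 → G} {m : ℕ} {o : ℕ → V} (Q : Chain T a b m o)

include Q

lemma mono_le {s t : ℕ} (h : s ≤ t) (ht : t ≤ m) : T.le (o s) (o t) := by
  rcases Nat.lt_or_eq_of_le h with h | rfl
  · exact (Q.mono s t h ht).1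
  · exact T.le_refl _

lemma bot_le (t : ℕ) (ht : t ≤ m) : T.le T.bot (o t) := by
  rw [← Q.zero]
  exact Q.mono_le (Nat.zero_le _) ht

lemma le_top (t : ℕ) (ht : t ≤ m) : T.le (o t) T.top := by
  rw [← Q.last]
  exact Q.mono_le ht le_rfl

lemma ivl {p q : ℕ} (h : p ≤ q) (hq : q ≤ m) : T.Ivl (o p) (o q) :=
  ⟨Q.bot_le p (h.trans hq), Q.mono_le h hq, Q.le_top q hq⟩

lemma lt_of_lt {s t : ℕ} (hs : s ≤ m) (h : T.lt (o s) (o t)) : s < t := by
  by_contra hcon
  exact h.not_le (Q.mono_le (not_lt.1 hcon) hs)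

end Chain

/-- The cut indices that belong to `C_i`. -/
def Cut (T : TwoTree G V E C) (b : Fin 7 → G) (m : ℕ) (o : ℕ → V) (i : Fin 7) (t : ℕ) : Prop :=
  t = 0 ∨ t = m ∨ ∃ j, j ≠ i ∧ ∃ s, T.Grow s (b j) (o t)

/-- Two consecutive cut indices for `C_i`. -/
def IsBlock (T : TwoTree G V E C) (b : Fin 7 → G) (m : ℕ) (o : ℕ → V) (i : Fin 7) (p q : ℕ) :
    Prop :=
  p < q ∧ q ≤ m ∧ Cut T b m o i p ∧ Cut T b m o i q ∧ ∀ t, p < t → t < q → ¬ Cut T b m o i t

/-- An `i`-run. -/
def Run (T : TwoTree G V E C) (b : Fin 7 → G) (m : ℕ) (o : ℕ → V) (i : Fin 7) (p q : ℕ) : Prop :=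
  IsBlock T b m o i p q ∧ (∀ j, j ≠ i → T.res (o p) (o q) (b j) = 1) ∧
    T.res (o p) (o q) (b i) ≠ 1

/-- The marker of a run. -/
def IsMarker (T : TwoTree G V E C) (b : Fin 7 → G) (m : ℕ) (o : ℕ → V) (i : Fin 7)
    (p q t : ℕ) : Prop :=
  Run T b m o i p q ∧ p ≤ t ∧ t < q ∧ T.res (o t) (o (t + 1)) (b i) ≠ 1 ∧
    ∀ t', p ≤ t' → t' < t → T.res (o t') (o (t' + 1)) (b i) = 1

section blocks

variable {a b : Fin 7 → G} {m : ℕ} {o : ℕ → V} (Q : Chain T a b m o)

omit Q in
lemma IsBlock.unique {i : Fin 7} {p q p' q' t : ℕ} (h : IsBlock T b m o i p q)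
    (h' : IsBlock T b m o i p' q') (h1 : p ≤ t) (h2 : t < q) (h1' : p' ≤ t) (h2' : t < q') :
    p = p' ∧ q = q' := by
  obtain ⟨-, -, hp, hq, hno⟩ := h
  obtain ⟨-, -, hp', hq', hno'⟩ := h'
  constructor
  · rcases lt_trichotomy p p' with h3 | h3 | h3
    · exact absurd hp' (hno p' h3 (by omega))
    · exact h3
    · exact absurd hp (hno' p h3 (by omega))
  · rcases lt_trichotomy q q' with h3 | h3 | h3
    · exact absurd hq (hno' q (by omega) h3)
    · exact h3
    · exact absurd hq' (hno q' (by omega) h3)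

omit Q in
lemma exists_block_end {i : Fin 7} {q : ℕ} (hq : Cut T b m o i q) (hqm : q ≤ m) (h0 : 0 < q) :
    ∃ p, IsBlock T b m o i p q := by
  classical
  let P : ℕ → Prop := fun p => p < q ∧ Cut T b m o i p
  have hP0 : P 0 := ⟨h0, Or.inl rfl⟩
  have hspec : P (Nat.findGreatest P q) := Nat.findGreatest_spec (Nat.zero_le _) hP0
  refine ⟨Nat.findGreatest P q, hspec.1, hqm, hspec.2, hq, ?_⟩
  intro t h1 h2 h3
  have := Nat.le_findGreatest (P := P) h2.le ⟨h2, h3⟩
  omega

include Q in
lemma Chain.fix_a {i : Fin 7} {t : ℕ} (h : Cut T b m o i t) : a i • o t = o t := by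
  rcases h with rfl | rfl | ⟨j, hj, s, hs⟩
  · rw [Q.zero, T.smul_bot]
  · rw [Q.last, T.smul_top]
  · exact hs.smul_eq (Q.hab i j hj.symm)

include Q in
/-- Blocks that are not runs. -/
lemma Chain.not_run {i : Fin 7} {p q : ℕ} (h : IsBlock T b m o i p q)
    (hr : ¬ Run T b m o i p q) :
    ∃ r : ℕ, 0 < r ∧ Commute (T.res (o p) (o q) (b i)) (T.res (o p) (o q) (a i) ^ r) := by
  have hpq := h.1
  have hqm := h.2.1
  have hI := Q.ivl hpq.le hqm
  by_cases hj : ∃ j, j ≠ i ∧ T.res (o p) (o q) (b j) ≠ 1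
  · obtain ⟨j, hji, hj⟩ := hj
    obtain ⟨r, hr, t, ht⟩ := T.block hI (Q.fix_a h.2.2.1) (Q.fix_a h.2.2.2.1)
      (Q.fix p (by omega) j) (Q.fix q hqm j) (Q.hab i j hji.symm) hj (by
        intro s v hv h1 h2
        obtain ⟨t, htm, rfl⟩ := Q.all s j v hv
        exact h.2.2.2.2 t (Q.lt_of_lt (by omega) h1) (Q.lt_of_lt htm h2)
          (Or.inr (Or.inr ⟨j, hji, s, hv⟩)))
    refine ⟨r, hr, ?_⟩
    rw [ht]
    exact (res_commute hI (Q.fix p (by omega) i) (Q.fix q hqm i) (Q.fix p (by omega) j)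
      (Q.fix q hqm j) (Q.hbb i j)).zpow_right t
  · push Not at hj
    have hone : T.res (o p) (o q) (b i) = 1 := by
      by_contra hne
      exact hr ⟨h, hj, hne⟩
    exact ⟨1, one_pos, by rw [hone]; exact Commute.one_left _⟩

include Q in
lemma Chain.exists_R : ∃ R : ℕ, 0 < R ∧ ∀ i p q, IsBlock T b m o i p q →
    ¬ Run T b m o i p q →
    Commute (T.res (o p) (o q) (b i)) (T.res (o p) (o q) (a i) ^ R) := by
  have key : ∀ i : Fin 7, ∀ p q : ℕ, ∃ r : ℕ, 0 < r ∧ (IsBlock T b m o i p q →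
      ¬ Run T b m o i p q →
      Commute (T.res (o p) (o q) (b i)) (T.res (o p) (o q) (a i) ^ r)) := by
    intro i p q
    by_cases h : IsBlock T b m o i p q ∧ ¬ Run T b m o i p q
    · obtain ⟨r, hr, hc⟩ := Q.not_run h.1 h.2
      exact ⟨r, hr, fun _ _ => hc⟩
    · exact ⟨1, one_pos, fun h1 h2 => absurd ⟨h1, h2⟩ h⟩
  choose r hr hc using key
  let S := (Finset.univ : Finset (Fin 7)) ×ˢ (Finset.range (m + 1) ×ˢ Finset.range (m + 1))
  refine ⟨∏ x ∈ S, r x.1 x.2.1 x.2.2, Finset.prod_pos fun x _ => hr _ _ _, ?_⟩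
  intro i p q h hn
  have hmem : (i, p, q) ∈ S := by
    simp only [S, Finset.mem_product, Finset.mem_univ, Finset.mem_range, true_and]
    have := h.1
    have := h.2.1
    omega
  obtain ⟨k, hk⟩ := Finset.dvd_prod_of_mem (fun x : Fin 7 × ℕ × ℕ => r x.1 x.2.1 x.2.2) hmem
  rw [hk]
  change Commute _ (_ ^ (r i p q * k))
  rw [pow_mul]
  exact (hc i p q h hn).pow_right k

include Q in
/-- If `g` is trivial on all small steps between `p` and `q`, it is trivial there. -/
lemma Chain.res_trivial {g : G} {p q : ℕ} (hpq : p ≤ q) (hq : q ≤ m)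
    (hfix : ∀ t, p ≤ t → t ≤ q → g • o t = o t)
    (h : ∀ t, p ≤ t → t < q → T.res (o t) (o (t + 1)) g = 1) : T.res (o p) (o q) g = 1 := by
  induction q, hpq using Nat.le_induction with
  | base => exact res_self (Q.ivl le_rfl hq) (hfix p le_rfl le_rfl)
  | succ q hpq ih =>
    rw [res_split (Q.bot_le p (by omega)) (Q.mono_le hpq (by omega))
      (Q.mono_le (Nat.le_succ q) hq) (Q.le_top _ hq) (hfix p le_rfl (by omega))
      (hfix q hpq (by omega)) (hfix (q + 1) (by omega) le_rfl),
      ih (by omega) (fun t h1 h2 => hfix t h1 (by omega)) (fun t h1 h2 => h t h1 (by omega)),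
      h q hpq (by omega), one_mul]

include Q in
lemma Chain.res_sub {g : G} {p q p' q' : ℕ} (h1 : p ≤ p') (h2 : p' ≤ q') (h3 : q' ≤ q)
    (hq : q ≤ m) (hp : g • o p = o p) (hq1 : g • o q = o q) (hp' : g • o p' = o p')
    (hq' : g • o q' = o q') (h : T.res (o p) (o q) g = 1) : T.res (o p') (o q') g = 1 := by
  have := res_res (Q.bot_le p (by omega)) (Q.mono_le h1 (by omega)) (Q.mono_le h2 (by omega))
    (Q.mono_le h3 hq) (Q.le_top q hq) hp hq1 hp' hq'
  rw [h, res_one (Q.ivl h2 (by omega))] at this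
  exact this.symm

include Q in
lemma Chain.exists_marker {i : Fin 7} {p q : ℕ} (h : Run T b m o i p q) :
    ∃ t, IsMarker T b m o i p q t := by
  have hex : ∃ t, p ≤ t ∧ t < q ∧ T.res (o t) (o (t + 1)) (b i) ≠ 1 := by
    by_contra hcon
    push Not at hcon
    exact h.2.2 (Q.res_trivial h.1.1.le h.1.2.1
      (fun t _ ht => Q.fix t (ht.trans h.1.2.1) i) hcon)
  classical
  have hs := Nat.find_spec hex
  refine ⟨Nat.find hex, h, hs.1, hs.2.1, hs.2.2, ?_⟩
  intro t' h1 h2
  by_contra hne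
  exact Nat.find_min hex h2 ⟨h1, by omega, hne⟩

include Q in
lemma Chain.trivial_of_run {i j : Fin 7} (hij : j ≠ i) {p q t : ℕ} (h : Run T b m o i p q)
    (h1 : p ≤ t) (h2 : t < q) : T.res (o t) (o (t + 1)) (b j) = 1 := by
  have hqm := h.1.2.1
  exact Q.res_sub h1 (Nat.le_succ t) h2 hqm (Q.fix _ (by omega) j) (Q.fix _ hqm j)
    (Q.fix _ (by omega) j) (Q.fix _ (by omega) j) (h.2.1 j hij)

include Q in
lemma Chain.label_unique {i j : Fin 7} {p q p' q' t : ℕ} (h : IsMarker T b m o i p q t)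
    (h' : IsMarker T b m o j p' q' t) : i = j := by
  by_contra hne
  exact h.2.2.2.1 (Q.trivial_of_run hne h'.1 h'.2.1 h'.2.2.1)

omit Q in
lemma IsMarker.unique {i : Fin 7} {p q p' q' t : ℕ} (h : IsMarker T b m o i p q t)
    (h' : IsMarker T b m o i p' q' t) : p = p' ∧ q = q' :=
  h.1.1.unique h'.1.1 h.2.1 h.2.2.1 h'.2.1 h'.2.2.1

include Q in
lemma Chain.separated {i i' : Fin 7} {p q t p' q' t' : ℕ} (h : IsMarker T b m o i p q t)
    (h' : IsMarker T b m o i' p' q' t') (htt : t < t') : q ≤ t' ∧ t < p' := by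
  obtain ⟨hr, h1, h2, h3, h4⟩ := h
  obtain ⟨hr', h1', h2', h3', h4'⟩ := h'
  constructor
  · by_contra hcon
    by_cases hi : i = i'
    · subst hi
      obtain ⟨rfl, rfl⟩ := hr.1.unique hr'.1 (t := t') (by omega) (by omega) h1' h2'
      exact h3 (h4' t h1 htt)
    · exact h3' (Q.trivial_of_run (fun e => hi e.symm) hr (by omega) (by omega))
  · by_contra hcon
    by_cases hi : i = i'
    · subst hi
      obtain ⟨rfl, rfl⟩ := hr.1.unique hr'.1 (t := t) h1 h2 (by omega) (by omega)
      exact h3 (h4' t h1 htt)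
    · exact h3 (Q.trivial_of_run hi hr' (by omega) (by omega))

end blocks

theorem structure_aux {a b : Fin 7 → G} {m : ℕ} {o : ℕ → V} (Q : Chain T a b m o) :
    ∃ R : ℕ, 0 < R ∧ ∃ (F : Finset ℕ) (y : ℕ → G) (s : ℕ → Fin 7),
      (∀ t ∈ F, ∀ t' ∈ F, ∀ t'' ∈ F, t < t' → t' < t'' → Commute (y t) (y t'')) ∧
      (∀ t ∈ F, ∀ t' ∈ F, s t = s t' → Commute (y t) (y t')) ∧
      ∀ i, b i * a i ^ R * (b i)⁻¹ * (a i ^ R)⁻¹
        = (((F.sort (· ≤ ·)).filter (s · = i)).map y).prod := by
  obtain ⟨R, hR, hcomm⟩ := Q.exists_R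
  refine ⟨R, hR, ?_⟩
  set g : Fin 7 → G := fun i => b i * a i ^ R * (b i)⁻¹ * (a i ^ R)⁻¹ with hg
  have gfix : ∀ i t, t ≤ m → Cut T b m o i t → g i • o t = o t := by
    intro i t htm ht
    simp only [hg, mul_smul]
    rw [inv_fix (pow_smul_fix (Q.fix_a ht) R), inv_fix (Q.fix t htm i),
      pow_smul_fix (Q.fix_a ht) R, Q.fix t htm i]
  -- the commutator is trivial on blocks that are not runs
  have gtriv : ∀ i p q, IsBlock T b m o i p q → ¬ Run T b m o i p q →
      T.res (o p) (o q) (g i) = 1 := by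
    intro i p q h hn
    have hqm := h.2.1
    have hpm : p ≤ m := h.1.le.trans hqm
    have hI := Q.ivl h.1.le hqm
    have hc := hcomm i p q h hn
    have ap := Q.fix_a h.2.2.1
    have aq := Q.fix_a h.2.2.2.1
    have bp := Q.fix p hpm i
    have bq := Q.fix q hqm i
    have aRp := pow_smul_fix ap R
    have aRq := pow_smul_fix aq R
    have e1 : T.res (o p) (o q) (b i * a i ^ R * (b i)⁻¹ * (a i ^ R)⁻¹)
        = T.res (o p) (o q) (b i) * T.res (o p) (o q) (a i) ^ R * (T.res (o p) (o q) (b i))⁻¹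
          * (T.res (o p) (o q) (a i) ^ R)⁻¹ := by
      rw [res_mul hI (by rw [mul_smul, mul_smul, inv_fix bp, aRp, bp])
        (by rw [mul_smul, mul_smul, inv_fix bq, aRq, bq]) (inv_fix aRp) (inv_fix aRq),
        res_mul hI (by rw [mul_smul, aRp, bp]) (by rw [mul_smul, aRq, bq]) (inv_fix bp)
        (inv_fix bq), res_mul hI bp bq aRp aRq, res_inv hI aRp aRq, res_inv hI bp bq,
        res_pow hI ap aq]
    simp only [hg]
    rw [e1, hc.eq, mul_inv_cancel_right, mul_inv_cancel]
  -- the weights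
  let w : Fin 7 → ℕ → G := fun i t =>
    if h : ∃ x : ℕ × ℕ, IsMarker T b m o i x.1 x.2 t then
      T.res (o h.choose.1) (o h.choose.2) (g i) else 1
  have w_eq : ∀ {i p q t}, IsMarker T b m o i p q t → w i t = T.res (o p) (o q) (g i) := by
    intro i p q t h
    have hex : ∃ x : ℕ × ℕ, IsMarker T b m o i x.1 x.2 t := ⟨(p, q), h⟩
    obtain ⟨h1, h2⟩ := h.unique hex.choose_spec
    simp only [w]
    rw [dif_pos hex, h1, h2]
  have w_one : ∀ {i t}, (¬ ∃ p q, IsMarker T b m o i p q t) → w i t = 1 := by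
    intro i t h
    simp only [w]
    rw [dif_neg]
    rintro ⟨x, hx⟩
    exact h ⟨x.1, x.2, hx⟩
  have hprod : ∀ i q, q ≤ m → Cut T b m o i q →
      T.res (o 0) (o q) (g i) = ((List.range q).map (w i)).prod := by
    intro i q
    induction q using Nat.strong_induction_on with
    | _ q ih =>
      intro hqm hq
      have h0 : Cut T b m o i 0 := Or.inl rfl
      rcases Nat.eq_zero_or_pos q with rfl | hpos
      · rw [res_self (Q.ivl le_rfl hqm) (gfix i 0 hqm h0)]
        simp
      · obtain ⟨p, hp⟩ := exists_block_end hq hqm hpos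
        have hpq := hp.1
        have hpc := hp.2.2.1
        have ihp := ih p hpq (by omega) hpc
        rw [res_split (Q.bot_le 0 (by omega)) (Q.mono_le (Nat.zero_le p) (by omega))
          (Q.mono_le hpq.le hqm) (Q.le_top q hqm) (gfix i 0 (by omega) h0)
          (gfix i p (by omega) hpc) (gfix i q hqm hq), ihp]
        have hrange : List.range q = List.range p ++ List.range' p (q - p) := by
          have h := List.range'_append_1 (s := 0) (m := p) (n := q - p)
          rw [zero_add, Nat.add_sub_cancel' hpq.le] at h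
          rw [List.range_eq_range', List.range_eq_range']
          exact h.symm
        rw [hrange, List.map_append, List.prod_append]
        congr 1
        by_cases hrun : Run T b m o i p q
        · obtain ⟨t0, ht0⟩ := Q.exists_marker hrun
          rw [prod_map_single _ List.nodup_range' (w i) t0, w_eq ht0]
          · rw [List.mem_range'_1]
            have := ht0.2.1
            have := ht0.2.2.1
            omega
          · intro t ht hne
            rw [List.mem_range'_1] at ht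
            apply w_one
            rintro ⟨p', q', h'⟩
            obtain ⟨rfl, rfl⟩ := hp.unique h'.1.1 (t := t) ht.1 (by omega) h'.2.1 h'.2.2.1
            rcases lt_or_gt_of_ne hne with h1 | h1
            · exact h'.2.2.2.1 (ht0.2.2.2.2 t ht.1 h1)
            · exact ht0.2.2.2.1 (h'.2.2.2.2 t0 ht0.2.1 h1)
        · rw [gtriv i p q hp hrun]
          symm
          apply prod_map_of_trivial
          intro t ht
          rw [List.mem_range'_1] at ht
          apply w_one
          rintro ⟨p', q', h'⟩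
          obtain ⟨rfl, rfl⟩ := hp.unique h'.1.1 (t := t) ht.1 (by omega) h'.2.1 h'.2.2.1
          exact hrun h'.1
  -- the labelled path
  let s : ℕ → Fin 7 := fun t => if h : ∃ i p q, IsMarker T b m o i p q t then h.choose else 0
  let F : Finset ℕ := (Finset.range m).filter (fun t => ∃ i p q, IsMarker T b m o i p q t)
  have s_eq : ∀ {i p q t}, IsMarker T b m o i p q t → s t = i := by
    intro i p q t h
    have hex : ∃ i p q, IsMarker T b m o i p q t := ⟨i, p, q, h⟩
    obtain ⟨p', q', h'⟩ := hex.choose_spec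
    simp only [s]
    rw [dif_pos hex]
    exact Q.label_unique h' h
  have hF : ∀ {t}, t ∈ F → ∃ p q, IsMarker T b m o (s t) p q t := by
    intro t ht
    obtain ⟨i, p, q, h⟩ := (Finset.mem_filter.1 ht).2
    rw [s_eq h]
    exact ⟨p, q, h⟩
  have hmemF : ∀ {i p q t}, IsMarker T b m o i p q t → t ∈ F := by
    intro i p q t h
    refine Finset.mem_filter.2 ⟨Finset.mem_range.2 ?_, i, p, q, h⟩
    exact h.2.2.1.trans_le h.1.1.2.1
  have hcommute : ∀ {i i' p q p' q'}, Run T b m o i p q → Run T b m o i' p' q' → q ≤ p' →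
      Commute (T.res (o p) (o q) (g i)) (T.res (o p') (o q') (g i')) := by
    intro i i' p q p' q' h h' hle
    have hq := h.1.2.1
    have hq' := h'.1.2.1
    have hpq := h.1.1
    have hpq' := h'.1.1
    exact res_commute_of_le (Q.ivl hpq.le hq) (Q.ivl hpq'.le hq') (Q.mono_le hle (by omega))
      (gfix i p (by omega) h.1.2.2.1) (gfix i q hq h.1.2.2.2.1)
      (gfix i' p' (by omega) h'.1.2.2.1) (gfix i' q' hq' h'.1.2.2.2.1)
  refine ⟨F, fun t => w (s t) t, s, ?_, ?_, ?_⟩
  · intro t ht t' ht' t'' ht'' h1 h2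
    obtain ⟨p, q, m1⟩ := hF ht
    obtain ⟨p', q', m2⟩ := hF ht'
    obtain ⟨p'', q'', m3⟩ := hF ht''
    have a1 := Q.separated m1 m2 h1
    have a2 := Q.separated m2 m3 h2
    change Commute (w (s t) t) (w (s t'') t'')
    rw [w_eq m1, w_eq m3]
    exact hcommute m1.1 m3.1 (by omega)
  · have key : ∀ t ∈ F, ∀ t' ∈ F, s t = s t' → t < t' → Commute (w (s t) t) (w (s t') t') := by
      intro t ht t' ht' hs hlt
      obtain ⟨p, q, m1⟩ := hF ht
      obtain ⟨p', q', m2⟩ := hF ht'
      have a1 := Q.separated m1 m2 hlt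
      have hqp : q ≤ p' := by
        by_contra hcon
        rw [← hs] at m2
        have := m1.2.1
        exact m1.1.1.2.2.2.2 p' (by omega) (by omega) m2.1.1.2.2.1
      rw [w_eq m1, w_eq m2]
      exact hcommute m1.1 m2.1 hqp
    intro t ht t' ht' hs
    rcases lt_trichotomy t t' with h | h | h
    · exact key t ht t' ht' hs h
    · subst h
      exact Commute.refl _
    · exact (key t' ht' t ht hs.symm h).symm
  · intro i
    have hI : T.Ivl T.bot T.top := ⟨T.le_refl _, ⟨_, T.path_base⟩, T.le_refl _⟩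
    have h1 := hprod i m le_rfl (Or.inr (Or.inl rfl))
    rw [Q.zero, Q.last, res_bot_top hI] at h1
    change g i = _
    rw [h1]
    have hsort : F.sort (· ≤ ·) = (List.range m).filter (fun t => decide (t ∈ F)) := by
      have h2 : ((List.range m).filter (fun t => decide (t ∈ F))).toFinset = F := by
        ext t
        simp only [List.mem_toFinset, List.mem_filter, List.mem_range, decide_eq_true_eq,
          and_iff_right_iff_imp]
        intro ht
        exact Finset.mem_range.1 (Finset.mem_filter.1 ht).1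
      have h3 : ((List.range m).filter (fun t => decide (t ∈ F))).Nodup :=
        List.nodup_range.filter _
      have h4 := (List.toFinset_sort (· ≤ ·) h3).2 (by
        refine List.Pairwise.filter _ ?_
        exact List.pairwise_lt_range.imp (fun h => h.le))
      rw [h2] at h4
      exact h4
    rw [hsort, List.filter_filter]
    have h5 : ((List.range m).filter (fun t => decide (s t = i) && decide (t ∈ F))).map
        (fun t => w (s t) t) = ((List.range m).filter
          (fun t => decide (s t = i) && decide (t ∈ F))).map (w i) := by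
      apply List.map_congr_left
      intro t ht
      simp only [List.mem_filter, Bool.and_eq_true, decide_eq_true_eq] at ht
      rw [ht.2.1]
    rw [h5]
    have h6 := prod_map_filter (List.range m) (w i) (fun t => s t = i ∧ t ∈ F) (by
      intro t ht hn
      apply w_one
      rintro ⟨p, q, h⟩
      exact hn ⟨s_eq h, hmemF h⟩)
    rw [← h6]
    congr 3
    ext t
    simp

end TwoTree

theorem structure_statement.{u, v1, v2, v3} : StructureStatement.{u, v1, v2, v3} := by
  intro G V E C _ _ _ _ T a b hbb hab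
  by_cases hne : T.bot = T.top
  · have hbase : T.base = [] := T.acyclic T.bot T.base (by
      have := T.path_base
      rwa [← hne] at this)
    have hone : ∀ g : G, g = 1 := by
      intro g
      refine T.free g [] ?_ (by simp)
      rw [← hbase]
      exact T.path_base
    refine ⟨1, one_pos, ∅, fun _ => 1, fun _ => 0, by simp, by simp, ?_⟩
    intro i
    rw [hone (b i), hone (a i)]
    simp
  · obtain ⟨m, o, Q⟩ := TwoTree.exists_chainData hbb hab hne
    exact TwoTree.structure_aux Q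

end DG
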