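import Mathlib
import Pool.Agent.Lib.MP_86f51d_al.Interface

/-!
# The core lemma (Fano plane descent)

For every `n` there is a nontrivial element of the free group of rank 7 that is killed by every
labelled path of length at most `n` (module A of the blueprint).
-/

namespace DG.Core

universe u

open scoped commutatorElement

/-! ### Triple commutators -/

section Group

variable {G : Type*} [Group G]

/-- The triple commutator `[[x, y], z⁻¹]`. -/
def cc (x y z : G) : G := ⁅⁅x, y⁆, z⁻¹⁆

theorem cc_one_left (y z : G) : cc 1 y z = 1 := by simp [cc]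

theorem cc_one_mid (x z : G) : cc x 1 z = 1 := by simp [cc]

theorem cc_one_right (x y : G) : cc x y 1 = 1 := by simp [cc]

theorem map_cc {H : Type*} [Group H] (f : G →* H) (x y z : G) :
    f (cc x y z) = cc (f x) (f y) (f z) := by
  simp [cc, map_commutatorElement]

theorem commute_cc {x y z w : G} (hx : Commute x w) (hy : Commute y w) (hz : Commute z w) :
    Commute (cc x y z) w := by
  unfold cc
  rw [commutatorElement_def, commutatorElement_def]
  have h1 : Commute (x * y * x⁻¹ * y⁻¹) w :=
    ((hx.mul_left hy).mul_left hx.inv_left).mul_left hy.inv_left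
  exact ((h1.mul_left hz.inv_left).mul_left h1.inv_left).mul_left hz.inv_left.inv_left

theorem comm_mul {x₁ x₂ y₁ y₂ : G} (hxx : Commute x₁ x₂) (hxy : Commute x₁ y₂)
    (hyx : Commute y₁ x₂) (hyy : Commute y₁ y₂) :
    ⁅x₁ * x₂, y₁ * y₂⁆ = ⁅x₁, y₁⁆ * ⁅x₂, y₂⁆ := by
  have h1 : x₁ * x₂ * (y₁ * y₂) = (x₁ * y₁) * (x₂ * y₂) := by
    have := hyx.symm.eq
    calc x₁ * x₂ * (y₁ * y₂) = x₁ * (x₂ * y₁) * y₂ := by group
      _ = x₁ * (y₁ * x₂) * y₂ := by rw [this]
      _ = _ := by group
  have h2 : y₁ * y₂ * (x₁ * x₂) = (y₁ * x₁) * (y₂ * x₂) := by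
    have := hxy.symm.eq
    calc y₁ * y₂ * (x₁ * x₂) = y₁ * (y₂ * x₁) * x₂ := by group
      _ = y₁ * (x₁ * y₂) * x₂ := by rw [this]
      _ = _ := by group
  have h3 : Commute (y₁ * x₁) (x₂ * y₂) :=
    (hyx.mul_left hxx).mul_right (hyy.mul_left hxy)
  have h4 : Commute (y₁ * x₁) (y₂ * x₂) :=
    (hyy.mul_left hxy).mul_right (hyx.mul_left hxx)
  have e : ∀ x y : G, ⁅x, y⁆ = x * y * (y * x)⁻¹ := fun x y => by
    rw [commutatorElement_def]; group
  rw [e, e, e, h1, h2]
  have h5 : Commute (y₁ * x₁)⁻¹ ((x₂ * y₂) * (y₂ * x₂)⁻¹) :=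
    (h3.mul_right h4.inv_right).inv_left
  calc x₁ * y₁ * (x₂ * y₂) * (y₁ * x₁ * (y₂ * x₂))⁻¹
      = x₁ * y₁ * (((x₂ * y₂) * (y₂ * x₂)⁻¹) * (y₁ * x₁)⁻¹) := by group
    _ = x₁ * y₁ * ((y₁ * x₁)⁻¹ * ((x₂ * y₂) * (y₂ * x₂)⁻¹)) := by rw [h5.eq]
    _ = _ := by group

theorem cc_mul {x₁ x₂ y₁ y₂ z₁ z₂ : G} (hxx : Commute x₁ x₂) (hxy : Commute x₁ y₂)
    (hxz : Commute x₁ z₂) (hyx : Commute y₁ x₂) (hyy : Commute y₁ y₂) (hyz : Commute y₁ z₂)
    (hzx : Commute z₁ x₂) (hzy : Commute z₁ y₂) (hzz : Commute z₁ z₂) :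
    cc (x₁ * x₂) (y₁ * y₂) (z₁ * z₂) = cc x₁ y₁ z₁ * cc x₂ y₂ z₂ := by
  unfold cc
  rw [comm_mul hxx hxy hyx hyy, mul_inv_rev, (hzz.inv_left.inv_right).eq.symm]
  have k : ∀ {a b w : G}, Commute a w → Commute b w → Commute ⁅a, b⁆ w := by
    intro a b w ha hb
    rw [commutatorElement_def]
    exact ((ha.mul_left hb).mul_left ha.inv_left).mul_left hb.inv_left
  apply comm_mul
  · exact k (k hxx.symm hxy.symm).symm (k hyx.symm hyy.symm).symm
  · exact k hxz.inv_right hyz.inv_right
  · exact (k hzx.inv_left.symm hzy.inv_left.symm).symm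
  · exact hzz.inv_left.inv_right

/-! ### Ordered products over intervals -/

/-- The ordered product of `f t` over `p ≤ t < k`. -/
def pr (f : ℕ → G) (p : ℕ) : ℕ → G
  | 0 => 1
  | k + 1 => if p ≤ k then pr f p k * f k else 1

theorem pr_zero (f : ℕ → G) (p : ℕ) : pr f p 0 = 1 := rfl

theorem pr_succ (f : ℕ → G) {p k : ℕ} (h : p ≤ k) : pr f p (k + 1) = pr f p k * f k := by
  simp [pr, h]

theorem pr_of_le (f : ℕ → G) {p k : ℕ} (h : k ≤ p) : pr f p k = 1 := by
  cases k with
  | zero => rfl
  | succ k => simp [pr, Nat.not_le.2 h]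

theorem pr_split (f : ℕ → G) {p q k : ℕ} (h1 : p ≤ q) (h2 : q ≤ k) :
    pr f p k = pr f p q * pr f q k := by
  induction k, h2 using Nat.le_induction with
  | base => rw [pr_of_le f le_rfl, mul_one]
  | succ k hk ih => rw [pr_succ f (h1.trans hk), pr_succ f hk, ih, mul_assoc]

theorem commute_pr {f : ℕ → G} {p k : ℕ} {a : G}
    (h : ∀ t, p ≤ t → t < k → Commute (f t) a) : Commute (pr f p k) a := by
  induction k with
  | zero => exact Commute.one_left a
  | succ k ih =>
    by_cases hp : p ≤ k
    · rw [pr_succ f hp]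
      exact (ih fun t h1 h2 => h t h1 (h2.trans (Nat.lt_succ_self k))).mul_left
        (h k hp (Nat.lt_succ_self k))
    · rw [pr_of_le f (by omega)]
      exact Commute.one_left a

theorem pr_eq_one {f : ℕ → G} {p k : ℕ} (h : ∀ t, p ≤ t → t < k → f t = 1) :
    pr f p k = 1 := by
  induction k with
  | zero => rfl
  | succ k ih =>
    by_cases hp : p ≤ k
    · rw [pr_succ f hp, h k hp (Nat.lt_succ_self k), mul_one]
      exact ih fun t h1 h2 => h t h1 (h2.trans (Nat.lt_succ_self k))
    · exact pr_of_le f (by omega)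

theorem pr_congr {f g : ℕ → G} {p k : ℕ} (h : ∀ t, p ≤ t → t < k → f t = g t) :
    pr f p k = pr g p k := by
  induction k with
  | zero => rfl
  | succ k ih =>
    by_cases hp : p ≤ k
    · rw [pr_succ f hp, pr_succ g hp, h k hp (Nat.lt_succ_self k),
        ih fun t h1 h2 => h t h1 (h2.trans (Nat.lt_succ_self k))]
    · rw [pr_of_le f (by omega), pr_of_le g (by omega)]

theorem range_prod (f : ℕ → G) (k : ℕ) : ((List.range k).map f).prod = pr f 0 k := by
  induction k with
  | zero => rfl
  | succ k ih => rw [List.range_succ, List.map_append, List.prod_append, ih,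
      pr_succ f (Nat.zero_le k)]; simp

theorem filter_prod {α : Type*} (L : List α) (f : α → G) (p : α → Prop) [DecidablePred p] :
    ((L.filter (fun t => decide (p t))).map f).prod = (L.map fun t => if p t then f t else 1).prod := by
  induction L with
  | nil => rfl
  | cons a L ih =>
    by_cases h : p a
    · rw [List.filter_cons_of_pos (by simpa using h)]
      simp [ih, h]
    · rw [List.filter_cons_of_neg (by simpa using h)]
      simp [ih, h]

theorem sort_eq (F : Finset ℕ) (m : ℕ) (hF : ∀ t ∈ F, t < m) :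
    F.sort (· ≤ ·) = (List.range m).filter (fun t => decide (t ∈ F)) := by
  apply List.Perm.eq_of_pairwise (le := (· ≤ ·))
  · intro a b _ _ h1 h2
    exact le_antisymm h1 h2
  · exact Finset.pairwise_sort F (· ≤ ·)
  · exact List.Pairwise.filter _ (List.pairwise_le_range)
  · rw [List.perm_ext_iff_of_nodup (Finset.sort_nodup F (· ≤ ·))
      (List.Nodup.filter _ List.nodup_range)]
    intro a
    simp only [Finset.mem_sort, List.mem_filter, List.mem_range, decide_eq_true_eq]
    exact ⟨fun h => ⟨hF a h, h⟩, fun h => h.2⟩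

/-! ### The lines of the Fano plane -/

end Group

/-- The points of the line `l`: `l`, `l + 1`, `l + 3` (perfect difference set modulo 7). -/
def OnL (l c : Fin 7) : Prop := c = l ∨ c = l + 1 ∨ c = l + 3

instance (l c : Fin 7) : Decidable (OnL l c) := by unfold OnL; infer_instance

theorem line_sub : ∀ b c : Fin 7, OnL c b → OnL c (b + 1) → OnL c (b + 3) → b = c := by
  decide

theorem line_cover : ∀ a b c : Fin 7, (OnL a b ∨ OnL c b) → (OnL a (b + 1) ∨ OnL c (b + 1)) →
    (OnL a (b + 3) ∨ OnL c (b + 3)) → b = a ∨ b = c := by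
  decide

/-! ### Runs -/

section Runs

variable (m : ℕ) (s : ℕ → Fin 7)

/-- position `t` is inside and carries a label of the line `l` -/
def Lb (l : Fin 7) (t : ℕ) : Prop := t < m ∧ OnL l (s t)

instance (l : Fin 7) (t : ℕ) : Decidable (Lb m s l t) := by unfold Lb; infer_instance

/-- start of the run of `l` that contains (or ends just before) the position `t` -/
def st (l : Fin 7) : ℕ → ℕ
  | 0 => 0
  | t + 1 => if Lb m s l t then st l t else t + 1

theorem st_le (l : Fin 7) (t : ℕ) : st m s l t ≤ t := by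
  induction t with
  | zero => exact le_rfl
  | succ t ih =>
    unfold st
    split_ifs
    · omega
    · exact le_rfl

theorem st_run (l : Fin 7) (q : ℕ) : ∀ t, st m s l q ≤ t → t < q → Lb m s l t := by
  induction q with
  | zero => intro t _ h; omega
  | succ q ih =>
    intro t h1 h2
    unfold st at h1
    split_ifs at h1 with h
    · rcases Nat.lt_succ_iff_lt_or_eq.1 h2 with h3 | h3
      · exact ih t h1 h3
      · exact h3 ▸ h
    · omega

theorem st_min (l : Fin 7) (q p : ℕ) (hp : p ≤ q) (h : ∀ t, p ≤ t → t < q → Lb m s l t) :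
    st m s l q ≤ p := by
  induction q with
  | zero => exact Nat.zero_le _
  | succ q ih =>
    unfold st
    by_cases hq : p ≤ q
    · rw [if_pos (h q hq (Nat.lt_succ_self q))]
      exact ih hq fun t h1 h2 => h t h1 (h2.trans (Nat.lt_succ_self q))
    · have : p = q + 1 := by omega
      split_ifs
      · exact (st_le m s l q).trans (by omega)
      · omega

theorem st_cut (l : Fin 7) (q j : ℕ) (h : st m s l q = j + 1) : ¬ Lb m s l j := by
  induction q with
  | zero => simp [st] at h
  | succ q ih =>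
    unfold st at h
    split_ifs at h with h'
    · exact ih h
    · have : q = j := by omega
      exact this ▸ h'

/-- `q` is the end of a run of `l` in which all three labels of `l` occur -/
def En (l : Fin 7) (q : ℕ) : Prop :=
  Lb m s l q ∧ ¬ Lb m s l (q + 1) ∧ (∃ t, st m s l q ≤ t ∧ t ≤ q ∧ s t = l) ∧
    (∃ t, st m s l q ≤ t ∧ t ≤ q ∧ s t = l + 1) ∧ (∃ t, st m s l q ≤ t ∧ t ≤ q ∧ s t = l + 3)

variable {m s}

theorem En.run {l : Fin 7} {q : ℕ} (h : En m s l q) {t : ℕ} (h1 : st m s l q ≤ t) (h2 : t ≤ q) :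
    Lb m s l t := by
  rcases Nat.lt_or_eq_of_le h2 with h3 | h3
  · exact st_run m s l q t h1 h3
  · exact h3 ▸ h.1

theorem En.lt {l : Fin 7} {q : ℕ} (h : En m s l q) : q < m := h.1.1

theorem En.pos {l : Fin 7} {q : ℕ} (h : En m s l q) : 0 < q := by
  rcases Nat.eq_zero_or_pos q with h0 | h0
  · subst h0
    obtain ⟨t, -, h2, h3⟩ := h.2.2.1
    obtain ⟨t', -, h2', h3'⟩ := h.2.2.2.1
    have e1 : t = 0 := by omega
    have e2 : t' = 0 := by omega
    rw [e1] at h3
    rw [e2, h3] at h3'
    have hne : ∀ l : Fin 7, l ≠ l + 1 := by decide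
    exact absurd h3' (hne l)
  · exact h0

theorem En.eq_of_st_le {l l' : Fin 7} {q : ℕ} (h : En m s l q) (h' : En m s l' q)
    (hle : st m s l q ≤ st m s l' q) : l = l' := by
  obtain ⟨-, -, ⟨t1, a1, b1, c1⟩, ⟨t2, a2, b2, c2⟩, ⟨t3, a3, b3, c3⟩⟩ := h'
  refine (line_sub l' l ?_ ?_ ?_).symm
  · rw [← c1]; exact (h.run (hle.trans a1) b1).2
  · rw [← c2]; exact (h.run (hle.trans a2) b2).2
  · rw [← c3]; exact (h.run (hle.trans a3) b3).2

theorem En.unique {l l' : Fin 7} {q : ℕ} (h : En m s l q) (h' : En m s l' q) : l = l' := by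
  rcases le_total (st m s l q) (st m s l' q) with hle | hle
  · exact h.eq_of_st_le h' hle
  · exact (h'.eq_of_st_le h hle).symm

theorem En.sep_same {l : Fin 7} {q q'' : ℕ} (h : En m s l q) (h'' : En m s l q'')
    (hlt : q < q'') : q + 2 ≤ st m s l q'' := by
  by_contra hcon
  exact h.2.1 (h''.run (by omega) (by omega))

theorem En.sep {a b c : Fin 7} {q q' q'' : ℕ} (h : En m s a q) (h' : En m s b q')
    (h'' : En m s c q'') (h1 : q < q') (h2 : q' < q'') : q + 2 ≤ st m s c q'' := by
  by_contra hcon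
  have hc : ∀ t, q + 1 ≤ t → t ≤ q'' → OnL c (s t) := fun t ht1 ht2 =>
    (h''.run (by omega) ht2).2
  have hbc : b ≠ c := by
    rintro rfl
    exact h'.2.1 (h''.run (by omega) (by omega))
  obtain ⟨-, -, ⟨t1, a1, b1, c1⟩, ⟨t2, a2, b2, c2⟩, ⟨t3, a3, b3, c3⟩⟩ := id h'
  by_cases hp : st m s b q' ≤ q
  · have hab : a ≠ b := by
      rintro rfl
      exact h.2.1 (h'.run (by omega) (by omega))
    by_cases hpa : st m s a q ≤ st m s b q'
    · have key : ∀ t, st m s b q' ≤ t → t ≤ q' → (OnL a (s t) ∨ OnL c (s t)) := by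
        intro t ht1 ht2
        by_cases ht : t ≤ q
        · exact Or.inl (h.run (by omega) ht).2
        · exact Or.inr (hc t (by omega) (by omega))
      rcases line_cover a b c (c1 ▸ key t1 a1 b1) (c2 ▸ key t2 a2 b2) (c3 ▸ key t3 a3 b3) with e | e
      · exact hab e.symm
      · exact hbc e
    · obtain ⟨-, -, ⟨u1, d1, e1, f1⟩, ⟨u2, d2, e2, f2⟩, ⟨u3, d3, e3, f3⟩⟩ := id h
      have key : ∀ t, st m s a q ≤ t → t ≤ q → OnL b (s t) := fun t ht1 ht2 =>
        (h'.run (by omega) (by omega)).2
      exact hab (line_sub a b (f1 ▸ key u1 d1 e1) (f2 ▸ key u2 d2 e2) (f3 ▸ key u3 d3 e3))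
  · exact hbc (line_sub b c (c1 ▸ hc t1 (by omega) (by omega))
      (c2 ▸ hc t2 (by omega) (by omega)) (c3 ▸ hc t3 (by omega) (by omega)))

end Runs

/-! ### Decomposition of the triple commutators -/

section Decomp

open scoped Classical

variable {G : Type*} [Group G] (m : ℕ) (s : ℕ → Fin 7) (y : ℕ → G)

/-- the letter `y t`, if its label is `c` -/
noncomputable def yc (c : Fin 7) (t : ℕ) : G := if t < m ∧ s t = c then y t else 1

/-- the triple commutator of the line `l` over the interval `p ≤ t < q` -/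
noncomputable def Rr (l : Fin 7) (p q : ℕ) : G :=
  cc (pr (yc m s y l) p q) (pr (yc m s y (l + 1)) p q) (pr (yc m s y (l + 3)) p q)

/-- the contribution of the position `q` -/
noncomputable def ps (l : Fin 7) (q : ℕ) : G :=
  if En m s l q then Rr m s y l (st m s l q) (q + 1) else 1

variable {m s y}

theorem yc_of_not {l c : Fin 7} {t : ℕ} (hc : OnL l c) (h : ¬ Lb m s l t) :
    yc m s y c t = 1 := by
  unfold yc
  rw [if_neg]
  rintro ⟨h1, h2⟩
  exact h ⟨h1, h2 ▸ hc⟩

theorem onL0 (l : Fin 7) : OnL l l := Or.inl rfl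
theorem onL1 (l : Fin 7) : OnL l (l + 1) := Or.inr (Or.inl rfl)
theorem onL3 (l : Fin 7) : OnL l (l + 3) := Or.inr (Or.inr rfl)

theorem commute_yc (H : ∀ i j, i + 2 ≤ j → j < m → Commute (y i) (y j)) {c c' : Fin 7} {i j : ℕ}
    (hij : i + 2 ≤ j) : Commute (yc m s y c i) (yc m s y c' j) := by
  unfold yc
  split_ifs with h1 h2 h2
  · exact H i j hij h2.1
  · exact Commute.one_right _
  · exact Commute.one_left _
  · exact Commute.one_left _

theorem commute_prr (H : ∀ i j, i + 2 ≤ j → j < m → Commute (y i) (y j)) {c c' : Fin 7}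
    {p q p' q' : ℕ} (h : q + 1 ≤ p') :
    Commute (pr (yc m s y c) p q) (pr (yc m s y c') p' q') := by
  apply commute_pr
  intro t _ h2
  apply Commute.symm
  apply commute_pr
  intro t' h3 _
  exact (commute_yc H (by omega)).symm

theorem commute_Rr (H : ∀ i j, i + 2 ≤ j → j < m → Commute (y i) (y j)) {l l' : Fin 7}
    {p q p' q' : ℕ} (h : q + 1 ≤ p') :
    Commute (Rr m s y l p q) (Rr m s y l' p' q') := by
  unfold Rr
  refine commute_cc ?_ ?_ ?_ <;>
  exact (commute_cc (commute_prr H h).symm (commute_prr H h).symm (commute_prr H h).symm).symm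

theorem Rr_self (l : Fin 7) (p : ℕ) : Rr m s y l p p = 1 := by
  unfold Rr
  rw [pr_of_le _ le_rfl, cc_one_left]

theorem Rr_succ_of_not {l : Fin 7} {p k : ℕ} (hp : p ≤ k) (h : ¬ Lb m s l k) :
    Rr m s y l p (k + 1) = Rr m s y l p k := by
  unfold Rr
  rw [pr_succ _ hp, pr_succ _ hp, pr_succ _ hp, yc_of_not (onL0 l) h, yc_of_not (onL1 l) h,
    yc_of_not (onL3 l) h, mul_one, mul_one, mul_one]

theorem Rr_split (H : ∀ i j, i + 2 ≤ j → j < m → Commute (y i) (y j)) {l : Fin 7} {p k : ℕ}
    (hpk : p ≤ k) (hcut : ∀ j, p = j + 1 → ¬ Lb m s l j) :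
    Rr m s y l 0 k = Rr m s y l 0 p * Rr m s y l p k := by
  have key : ∀ c c', OnL l c → OnL l c' →
      Commute (pr (yc m s y c) 0 p) (pr (yc m s y c') p k) := by
    intro c c' hc hc'
    apply commute_pr
    intro t _ h2
    by_cases ht : p = t + 1
    · rw [yc_of_not hc (hcut t ht)]
      exact Commute.one_left _
    · apply Commute.symm
      apply commute_pr
      intro t' h3 _
      exact (commute_yc H (by omega)).symm
  unfold Rr
  rw [pr_split _ (Nat.zero_le p) hpk, pr_split _ (Nat.zero_le p) hpk,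
    pr_split _ (Nat.zero_le p) hpk]
  exact cc_mul (key _ _ (onL0 l) (onL0 l)) (key _ _ (onL0 l) (onL1 l)) (key _ _ (onL0 l) (onL3 l))
    (key _ _ (onL1 l) (onL0 l)) (key _ _ (onL1 l) (onL1 l)) (key _ _ (onL1 l) (onL3 l))
    (key _ _ (onL3 l) (onL0 l)) (key _ _ (onL3 l) (onL1 l)) (key _ _ (onL3 l) (onL3 l))

theorem Rr_run {l : Fin 7} {i : ℕ} (h1 : Lb m s l i) (h2 : ¬ Lb m s l (i + 1)) :
    Rr m s y l (st m s l i) (i + 1) = ps m s y l i := by
  unfold ps
  split_ifs with h
  · rfl
  · have key : ∀ c, (¬ ∃ t, st m s l i ≤ t ∧ t ≤ i ∧ s t = c) →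
        pr (yc m s y c) (st m s l i) (i + 1) = 1 := by
      intro c hc
      apply pr_eq_one
      intro t h3 h4
      unfold yc
      rw [if_neg]
      rintro ⟨-, h5⟩
      exact hc ⟨t, h3, by omega, h5⟩
    unfold Rr
    by_cases ha : ∃ t, st m s l i ≤ t ∧ t ≤ i ∧ s t = l
    · by_cases hb : ∃ t, st m s l i ≤ t ∧ t ≤ i ∧ s t = l + 1
      · by_cases hd : ∃ t, st m s l i ≤ t ∧ t ≤ i ∧ s t = l + 3
        · exact absurd ⟨h1, h2, ha, hb, hd⟩ h
        · rw [key _ hd, cc_one_right]
      · rw [key _ hb, cc_one_mid]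
    · rw [key _ ha, cc_one_left]

theorem Rr_cut (H : ∀ i j, i + 2 ≤ j → j < m → Commute (y i) (y j)) (l : Fin 7) (k : ℕ)
    (hcut : ∀ j, k = j + 1 → ¬ Lb m s l j) :
    Rr m s y l 0 k = pr (ps m s y l) 0 k := by
  induction k using Nat.strong_induction_on with
  | _ k ih =>
    cases k with
    | zero => rw [Rr_self, pr_zero]
    | succ j =>
      have hj : ¬ Lb m s l j := hcut j rfl
      have hpj : st m s l j ≤ j := st_le m s l j
      have hps : ps m s y l j = 1 := by
        unfold ps
        rw [if_neg]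
        exact fun h => hj h.1
      rw [Rr_succ_of_not (Nat.zero_le j) hj,
        Rr_split H hpj (fun i hi => st_cut m s l j i hi),
        ih (st m s l j) (by omega) (fun i hi => st_cut m s l j i hi),
        pr_succ _ (Nat.zero_le j), hps, mul_one, pr_split _ (Nat.zero_le _) hpj]
      congr 1
      rcases Nat.lt_or_eq_of_le hpj with hlt | heq
      · obtain ⟨i, rfl⟩ : ∃ i, j = i + 1 := ⟨j - 1, by omega⟩
        have hi : Lb m s l i := st_run m s l (i + 1) i (by omega) (by omega)
        have hst : st m s l (i + 1) = st m s l i := by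
          rw [st, if_pos hi]
        rw [hst] at hlt hpj ⊢
        rw [Rr_run hi hj, pr_succ _ (by omega), pr_eq_one, one_mul]
        intro t h1 h2
        unfold ps
        rw [if_neg]
        intro h
        exact h.2.1 (st_run m s l (i + 1) (t + 1) (by rw [hst]; omega) (by omega))
      · rw [heq, Rr_self, pr_of_le _ le_rfl]

theorem Rr_total (H : ∀ i j, i + 2 ≤ j → j < m → Commute (y i) (y j)) (l : Fin 7) :
    Rr m s y l 0 m = pr (ps m s y l) 0 m := by
  have hm : ¬ Lb m s l m := fun h => lt_irrefl m h.1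
  have h := Rr_cut (y := y) H l (m + 1) (fun j hj => by
    have hjm : j = m := by omega
    rw [hjm]
    exact hm)
  rw [Rr_succ_of_not (Nat.zero_le m) hm, pr_succ _ (Nat.zero_le m)] at h
  rw [h]
  have : ps m s y l m = 1 := by
    unfold ps
    rw [if_neg]
    exact fun h => hm h.1
  rw [this, mul_one]

end Decomp

/-! ### The endomorphism `θ` is injective -/

section Theta

/-- The word of `[[a_l, a_{l+1}], a_{l+3}⁻¹]`. -/
def W (l : Fin 7) : List (Fin 7 × Bool) :=
  [(l, true), (l + 1, true), (l, false), (l + 1, false), (l + 3, false), (l + 1, true), (l, true),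
    (l + 1, false), (l, false), (l + 3, true)]

/-- The word of the inverse. -/
def W' (l : Fin 7) : List (Fin 7 × Bool) :=
  [(l + 3, false), (l, true), (l + 1, true), (l, false), (l + 1, false), (l + 3, true),
    (l + 1, true), (l, true), (l + 1, false), (l, false)]

/-- The images of the generators. -/
def tg (l : Fin 7) : FreeGroup (Fin 7) :=
  cc (FreeGroup.of l) (FreeGroup.of (l + 1)) (FreeGroup.of (l + 3))

theorem tg_eq (l : Fin 7) : tg l = FreeGroup.mk (W l) := by
  revert l
  decide

theorem tg_inv_eq (l : Fin 7) : (tg l)⁻¹ = FreeGroup.mk (W' l) := by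
  revert l
  decide

theorem W_reduced (l : Fin 7) : FreeGroup.IsReduced (W l) := by
  unfold FreeGroup.IsReduced
  revert l
  decide

theorem W'_reduced (l : Fin 7) : FreeGroup.IsReduced (W' l) := by
  unfold FreeGroup.IsReduced
  revert l
  decide

theorem toWord_mk_append {V L : List (Fin 7 × Bool)} {w : FreeGroup (Fin 7)}
    (hV : FreeGroup.IsReduced V) (hw : w.toWord = L)
    (h : ∀ x ∈ V.getLast?, ∀ y ∈ L.head?, x.1 = y.1 → x.2 = y.2) :
    (FreeGroup.mk V * w).toWord = V ++ L := by
  have h1 : FreeGroup.mk V * w = FreeGroup.mk (V ++ L) := by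
    rw [← FreeGroup.mul_mk, ← hw, FreeGroup.mk_toWord]
  rw [h1, FreeGroup.toWord_mk]
  apply FreeGroup.IsReduced.reduce_eq
  unfold FreeGroup.IsReduced
  rw [List.isChain_append]
  refine ⟨hV, ?_, h⟩
  rw [← hw]
  exact FreeGroup.isReduced_toWord

/-- The endomorphism `a_l ↦ [[a_l, a_{l+1}], a_{l+3}⁻¹]`. -/
def theta : FreeGroup (Fin 7) →* FreeGroup (Fin 7) := FreeGroup.lift tg

theorem theta_injective : Function.Injective theta := by
  apply FreeGroup.injective_lift_of_ping_pong (a := tg) (α := FreeGroup (Fin 7))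
    (X := fun i => {w | w.toWord.head? = some (i, true)})
    (Y := fun i => {w | w.toWord.head? = some (i + 3, false)})
  · intro i
    exact ⟨FreeGroup.of i, by simp⟩
  · intro i j hij
    rw [Function.onFun, Set.disjoint_left]
    intro w h1 h2
    simp only [Set.mem_setOf_eq] at h1 h2
    rw [h1] at h2
    simp only [Option.some.injEq, Prod.mk.injEq, and_true] at h2
    exact hij h2
  · intro i j hij
    rw [Function.onFun, Set.disjoint_left]
    intro w h1 h2
    simp only [Set.mem_setOf_eq] at h1 h2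
    rw [h1] at h2
    simp only [Option.some.injEq, Prod.mk.injEq, and_true] at h2
    exact hij (by simpa using h2)
  · intro i j
    rw [Set.disjoint_left]
    intro w h1 h2
    simp only [Set.mem_setOf_eq] at h1 h2
    rw [h1] at h2
    simp at h2
  · intro i
    rintro _ ⟨w, hw, rfl⟩
    simp only [Set.mem_setOf_eq, smul_eq_mul]
    rw [tg_eq, toWord_mk_append (W_reduced i) rfl]
    · rfl
    · intro x hx z hz hxz
      simp only [W, List.getLast?_cons_cons, List.getLast?_singleton, Option.mem_def,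
        Option.some.injEq] at hx
      subst hx
      by_contra hcon
      apply hw
      show w.toWord.head? = some (i + 3, false)
      rw [Option.mem_def] at hz
      rw [hz]
      obtain ⟨z1, z2⟩ := z
      simp only at hxz hcon
      cases z2
      · rw [hxz]
      · exact absurd rfl hcon
  · intro i
    rintro _ ⟨w, hw, rfl⟩
    simp only [Set.mem_setOf_eq, smul_eq_mul, Pi.inv_apply]
    rw [tg_inv_eq, toWord_mk_append (W'_reduced i) rfl]
    · rfl
    · intro x hx z hz hxz
      simp only [W', List.getLast?_cons_cons, List.getLast?_singleton, Option.mem_def,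
        Option.some.injEq] at hx
      subst hx
      by_contra hcon
      apply hw
      show w.toWord.head? = some (i, true)
      rw [Option.mem_def] at hz
      rw [hz]
      obtain ⟨z1, z2⟩ := z
      simp only at hxz hcon
      cases z2
      · exact absurd rfl hcon
      · rw [hxz]

end Theta

/-! ### The core lemma -/

section Final

open scoped Classical

/-- `g` is killed by every labelled path of length at most `n` -/
def Kills.{v} (n : ℕ) (g : FreeGroup (Fin 7)) : Prop :=
  ∀ (G : Type v) [Group G] (F : Finset ℕ) (y : ℕ → G) (s : ℕ → Fin 7), F.card ≤ n →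
    (∀ t ∈ F, ∀ t' ∈ F, ∀ t'' ∈ F, t < t' → t' < t'' → Commute (y t) (y t'')) →
    (∀ t ∈ F, ∀ t' ∈ F, s t = s t' → Commute (y t) (y t')) →
    FreeGroup.lift (fun i => (((F.sort (· ≤ ·)).filter (s · = i)).map y).prod) g = 1

theorem sorted_prod {G : Type*} [Group G] (F : Finset ℕ) (m : ℕ) (hF : ∀ t ∈ F, t < m)
    (y : ℕ → G) (s : ℕ → Fin 7) (i : Fin 7) :
    (((F.sort (· ≤ ·)).filter (s · = i)).map y).prod
      = pr (fun t => if t ∈ F ∧ s t = i then y t else 1) 0 m := by
  rw [sort_eq F m hF, List.filter_filter, ← range_prod]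
  have h := filter_prod (List.range m) y (fun t => s t = i ∧ t ∈ F)
  simp only [Bool.decide_and] at h
  rw [h]
  congr 1
  apply List.map_congr_left
  intro t _
  simp only [and_comm]

theorem step.{v} {n : ℕ} {g : FreeGroup (Fin 7)} (hg : Kills.{v} n g) :
    Kills.{v} (n + 1) (theta g) := by
  intro G _ F y s hcard h1 h2
  -- reindexing
  obtain ⟨m, hm⟩ : ∃ m, F.card = m := ⟨_, rfl⟩
  set e : ℕ → ℕ := fun i => (F.sort (· ≤ ·)).getD i 0 with he
  have hlen : (F.sort (· ≤ ·)).length = m := by rw [Finset.length_sort, hm]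
  have hsort : F.sort (· ≤ ·) = (List.range m).map e := by
    apply List.ext_getElem
    · simp [hlen]
    · intro i hi1 hi2
      simp [he, List.getD_eq_getElem?_getD, List.getElem?_eq_getElem hi1]
  have heF : ∀ i, i < m → e i ∈ F := by
    intro i hi
    rw [← Finset.mem_sort (· ≤ ·), hsort]
    exact List.mem_map_of_mem (List.mem_range.2 hi)
  have hemono : ∀ i j, i < j → j < m → e i < e j := by
    intro i j hij hj
    have hp : (F.sort (· ≤ ·)).Pairwise (· < ·) := (Finset.sortedLT_sort F).pairwise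
    rw [hsort, List.pairwise_map] at hp
    have := List.pairwise_iff_getElem.1 hp i j (by simp; omega) (by simpa using hj) hij
    simpa using this
  set y1 : ℕ → G := fun t => y (e t) with hy1
  set s1 : ℕ → Fin 7 := fun t => s (e t) with hs1
  have H : ∀ i j, i + 2 ≤ j → j < m → Commute (y1 i) (y1 j) := fun i j hij hj =>
    h1 (e i) (heF i (by omega)) (e (i + 1)) (heF _ (by omega)) (e j) (heF j hj)
      (hemono _ _ (by omega) (by omega)) (hemono _ _ (by omega) hj)
  have hY : ∀ i, (((F.sort (· ≤ ·)).filter (s · = i)).map y).prod = pr (yc m s1 y1 i) 0 m := by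
    intro i
    rw [hsort, List.filter_map, List.map_map]
    have h := filter_prod (List.range m) (y ∘ e) (fun t => s (e t) = i)
    have h' : List.filter ((fun x => decide (s x = i)) ∘ e) (List.range m)
        = List.filter (fun t => decide (s (e t) = i)) (List.range m) := rfl
    rw [h', h, range_prod]
    apply pr_congr
    intro t _ ht
    simp only [yc, hy1, hs1, ht, true_and, Function.comp]
  -- the new labelled path
  set F' : Finset ℕ := (Finset.range m).filter (fun q => ∃ l, En m s1 l q) with hF'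
  set s' : ℕ → Fin 7 := fun q => if h : ∃ l, En m s1 l q then h.choose else 0 with hs'
  set y' : ℕ → G := fun q => ps m s1 y1 (s' q) q with hy'
  have hmem : ∀ q ∈ F', En m s1 (s' q) q := by
    intro q hq
    rw [hF', Finset.mem_filter] at hq
    simp only [hs', dif_pos hq.2]
    exact hq.2.choose_spec
  have hs'_eq : ∀ l q, En m s1 l q → s' q = l := by
    intro l q h
    have hq : q ∈ F' := by
      rw [hF', Finset.mem_filter]
      exact ⟨Finset.mem_range.2 h.lt, l, h⟩
    exact (hmem q hq).unique h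
  have hyR : ∀ q ∈ F', y' q = Rr m s1 y1 (s' q) (st m s1 (s' q) q) (q + 1) := by
    intro q hq
    simp only [hy', ps]
    rw [if_pos (hmem q hq)]
  have hprod : ∀ l, (((F'.sort (· ≤ ·)).filter (s' · = l)).map y').prod
      = pr (ps m s1 y1 l) 0 m := by
    intro l
    rw [sorted_prod F' m (fun t ht => by
      rw [hF', Finset.mem_filter, Finset.mem_range] at ht; exact ht.1)]
    apply pr_congr
    intro t _ ht
    by_cases h : En m s1 l t
    · have e1 := hs'_eq l t h
      have hq : t ∈ F' := by
        rw [hF', Finset.mem_filter]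
        exact ⟨Finset.mem_range.2 h.lt, l, h⟩
      rw [if_pos ⟨hq, e1⟩]
      simp only [hy', e1]
    · have e2 : ps m s1 y1 l t = 1 := by
        unfold ps
        rw [if_neg h]
      rw [e2, if_neg]
      rintro ⟨hq, e3⟩
      exact h (e3 ▸ hmem t hq)
  have hcard' : F'.card ≤ n := by
    have hsub : F' ⊆ Finset.Ico 1 m := by
      intro q hq
      rw [Finset.mem_Ico]
      exact ⟨(hmem q hq).pos, (hmem q hq).lt⟩
    have := Finset.card_le_card hsub
    rw [Nat.card_Ico] at this
    omega
  have hres := hg G F' y' s' hcard'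
    (by
      intro t ht t' ht' t'' ht'' h3 h4
      rw [hyR t ht, hyR t'' ht'']
      exact commute_Rr H (by have := (hmem t ht).sep (hmem t' ht') (hmem t'' ht'') h3 h4; omega))
    (by
      intro t ht t' ht' h3
      have key : ∀ a ∈ F', ∀ b ∈ F', s' a = s' b → a < b → Commute (y' a) (y' b) := by
        intro a ha b hb hab hlt
        rw [hyR a ha, hyR b hb]
        have ea := hmem a ha
        have eb := hmem b hb
        rw [← hab] at eb
        have := ea.sep_same eb hlt
        rw [← hab]
        exact commute_Rr H (by omega)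
      rcases lt_trichotomy t t' with h4 | h4 | h4
      · exact key t ht t' ht' h3 h4
      · rw [h4]
      · exact (key t' ht' t ht h3.symm h4).symm)
  have hfin : FreeGroup.lift (fun i => (((F.sort (· ≤ ·)).filter (s · = i)).map y).prod) (theta g)
      = FreeGroup.lift (fun i => (((F'.sort (· ≤ ·)).filter (s' · = i)).map y').prod) g := by
    have hcomp : (FreeGroup.lift
        (fun i => (((F.sort (· ≤ ·)).filter (s · = i)).map y).prod)).comp theta
        = FreeGroup.lift (fun i => (((F'.sort (· ≤ ·)).filter (s' · = i)).map y').prod) := by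
      apply FreeGroup.ext_hom
      intro l
      rw [MonoidHom.comp_apply, theta, FreeGroup.lift_apply_of, FreeGroup.lift_apply_of, hprod l, tg, map_cc,
        FreeGroup.lift_apply_of, FreeGroup.lift_apply_of, FreeGroup.lift_apply_of, hY, hY, hY]
      exact Rr_total H l
    rw [← hcomp]
    rfl
  rw [hfin]
  exact hres

theorem exists_kills.{v} (n : ℕ) : ∃ g : FreeGroup (Fin 7), g ≠ 1 ∧ Kills.{v} n g := by
  induction n with
  | zero =>
    refine ⟨FreeGroup.of 0, FreeGroup.of_ne_one 0, ?_⟩
    intro G _ F y s hF _ _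
    have hF0 : F = ∅ := Finset.card_eq_zero.1 (Nat.le_zero.1 hF)
    subst hF0
    rw [FreeGroup.lift_apply_of]
    simp
  | succ n ih =>
    obtain ⟨g, hg, hk⟩ := ih
    refine ⟨theta g, ?_, step hk⟩
    intro h
    exact hg (theta_injective (h.trans (map_one theta).symm))

end Final

end DG.Core

/-- The core lemma: for every `n` there is a nontrivial element of the free group of rank 7 that
is killed by every labelled path of length at most `n`. -/
theorem DG.core_statement.{u} : DG.CoreStatement.{u} := by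
  intro n
  obtain ⟨g, hg, hk⟩ := DG.Core.exists_kills.{u} n
  exact ⟨g, hg, fun G _ F y s h1 h2 h3 => hk G F y s h1 h2 h3⟩
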