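import Mathlib

/-!
# Diagram groups and right-angled Artin groups: definitions

* `SemigroupPresentation`, the Squier complex of a semigroup presentation (through its oriented
  edges, edge paths and squares) and the diagram group `D(P, w)`, which is the edge-path group
  (= fundamental group) of the Squier complex at the word `w`;
* right-angled Artin groups and the graph `Gam` with 14 vertices.
-/

namespace DG

universe u v w

/-- A semigroup presentation `⟨ α ∣ lhs i = rhs i (i : ι) ⟩`: the alphabet is an arbitrary type
`α`, the relations are an arbitrary family, indexed by an arbitrary type `ι`, of pairs of nonempty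
words (a set `R` of relations `r = s` is the case in which `ι` is `R` itself). -/
structure SemigroupPresentation (α : Type u) (ι : Type v) where
  /-- the left-hand sides of the relations -/
  lhs : ι → List α
  /-- the right-hand sides of the relations -/
  rhs : ι → List α
  lhs_ne : ∀ i, lhs i ≠ []
  rhs_ne : ∀ i, rhs i ≠ []

/-- An oriented edge of the Squier complex. The Squier complex has one edge for every triple
`(pre, rel, suf)` of a word, a relation and a word; it joins `pre · lhs rel · suf` and
`pre · rhs rel · suf`, and `dir` is its orientation: the relation is applied from left to right if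
`dir = true` and from right to left if `dir = false`. -/
@[ext] structure Edge (α : Type u) (ι : Type v) where
  /-- what stands to the left of the place where the relation is applied -/
  pre : List α
  /-- the relation -/
  rel : ι
  /-- the direction in which the relation is applied -/
  dir : Bool
  /-- what stands to the right of the place where the relation is applied -/
  suf : List α

/-- The same edge with the opposite orientation. -/
def Edge.inv {α : Type u} {ι : Type v} (e : Edge α ι) : Edge α ι :=
  ⟨e.pre, e.rel, !e.dir, e.suf⟩

namespace SemigroupPresentation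

variable {α : Type u} {ι : Type v} (P : SemigroupPresentation α ι)

/-- The side of the relation `i` that is replaced when `i` is applied in the direction `d`; the
side that replaces it is `P.side i (!d)`. -/
def side (i : ι) : Bool → List α
  | true => P.lhs i
  | false => P.rhs i

/-- The word at which an oriented edge starts. -/
def source (e : Edge α ι) : List α := e.pre ++ P.side e.rel e.dir ++ e.suf

/-- The word at which an oriented edge ends. -/
def target (e : Edge α ι) : List α := e.pre ++ P.side e.rel (!e.dir) ++ e.suf

/-- `P.IsPath u p v`: the list `p` of oriented edges is an edge path of the Squier complex from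
the word `u` to the word `v`. -/
def IsPath : List α → List (Edge α ι) → List α → Prop
  | u, [], v => u = v
  | u, e :: p, v => P.source e = u ∧ IsPath (P.target e) p v

/-- Elementary homotopies of edge paths of the Squier complex: removing a backtracking
`e, e⁻¹`, and pushing the path across a square, i.e. exchanging two applications of relations
(the relation `i` in the direction `d`, the relation `j` in the direction `e`) at disjoint
places of the word `a · P.side i d · b · P.side j e · c`. -/
inductive ElemHomotopy : List (Edge α ι) → List (Edge α ι) → Prop
  | backtrack (p q : List (Edge α ι)) (e : Edge α ι) :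
      ElemHomotopy (p ++ e :: e.inv :: q) (p ++ q)
  | square (p q : List (Edge α ι)) (a b c : List α) (i j : ι) (d e : Bool) :
      ElemHomotopy
        (p ++ ⟨a, i, d, b ++ P.side j e ++ c⟩ :: ⟨a ++ P.side i (!d) ++ b, j, e, c⟩ :: q)
        (p ++ ⟨a ++ P.side i d ++ b, j, e, c⟩ :: ⟨a, i, d, b ++ P.side j (!e) ++ c⟩ :: q)

/-- The closed edge paths of the Squier complex at the word `w`. -/
def Loop (w : List α) : Type (max u v) := {p : List (Edge α ι) // P.IsPath w p w}

/-- The diagram group `D(P, w)`, the fundamental group at `w` of the Squier complex: closed edge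
paths at `w` up to the equivalence relation generated by the elementary homotopies. -/
def DiagramGroup (w : List α) : Type (max u v) :=
  Quot (fun p q : P.Loop w => P.ElemHomotopy p.1 q.1)

variable {P}

theorem IsPath.append {u v w : List α} {p q : List (Edge α ι)} (hp : P.IsPath u p v)
    (hq : P.IsPath v q w) : P.IsPath u (p ++ q) w := by
  induction p generalizing u with
  | nil => cases hp; exact hq
  | cons e p ih => exact ⟨hp.1, ih hp.2⟩

theorem source_inv (e : Edge α ι) : P.source e.inv = P.target e := rfl

theorem target_inv (e : Edge α ι) : P.target e.inv = P.source e := by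
  simp [target, source, Edge.inv]

/-- The reversed edge path. -/
def revPath (p : List (Edge α ι)) : List (Edge α ι) := (p.map Edge.inv).reverse

@[simp] theorem inv_inv (e : Edge α ι) : e.inv.inv = e := by
  cases e; simp [Edge.inv]

theorem IsPath.rev {u v : List α} {p : List (Edge α ι)} (hp : P.IsPath u p v) :
    P.IsPath v (revPath p) u := by
  induction p generalizing u with
  | nil => exact (show u = v from hp).symm
  | cons e p ih =>
    simp only [revPath, List.map_cons, List.reverse_cons]
    refine (ih hp.2).append ?_
    exact ⟨source_inv e, (target_inv e).trans hp.1⟩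

/-- Concatenation of loops. -/
def Loop.mul {w : List α} (p q : P.Loop w) : P.Loop w := ⟨p.1 ++ q.1, p.2.append q.2⟩

/-- Inverse of loops. -/
def Loop.inv {w : List α} (p : P.Loop w) : P.Loop w := ⟨revPath p.1, p.2.rev⟩

/-- The constant loop. -/
def Loop.one {w : List α} : P.Loop w := ⟨[], rfl⟩

theorem ElemHomotopy.append_left {p q : List (Edge α ι)} (r : List (Edge α ι))
    (h : P.ElemHomotopy p q) : P.ElemHomotopy (r ++ p) (r ++ q) := by
  cases h with
  | backtrack p q e =>
    simpa only [List.append_assoc] using ElemHomotopy.backtrack (P := P) (r ++ p) q e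
  | square p q a b c i j d e =>
    simpa only [List.append_assoc] using ElemHomotopy.square (P := P) (r ++ p) q a b c i j d e

theorem ElemHomotopy.append_right {p q : List (Edge α ι)} (r : List (Edge α ι))
    (h : P.ElemHomotopy p q) : P.ElemHomotopy (p ++ r) (q ++ r) := by
  cases h with
  | backtrack p q e =>
    simpa only [List.append_assoc, List.cons_append] using
      ElemHomotopy.backtrack (P := P) p (q ++ r) e
  | square p q a b c i j d e =>
    simpa only [List.append_assoc, List.cons_append] using
      ElemHomotopy.square (P := P) p (q ++ r) a b c i j d e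

theorem ElemHomotopy.rev {p q : List (Edge α ι)} (h : P.ElemHomotopy p q) :
    P.ElemHomotopy (revPath p) (revPath q) ∨ P.ElemHomotopy (revPath q) (revPath p) := by
  cases h with
  | backtrack p q e =>
    left
    have := ElemHomotopy.backtrack (P := P) (revPath q) (revPath p) e
    simpa [revPath] using this
  | square p q a b c i j d e =>
    right
    have := ElemHomotopy.square (P := P) (revPath q) (revPath p) a b c i j (!d) (!e)
    simpa [revPath, Edge.inv] using this

variable {w : List α}

/-- The product of the diagram group: concatenation of loops. -/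
def mulAux : P.DiagramGroup w → P.DiagramGroup w → P.DiagramGroup w :=
  Quot.map₂ Loop.mul (fun r _ _ h => h.append_left r.1) (fun _ _ r h => h.append_right r.1)

theorem quot_rev {p q : P.Loop w} (h : P.ElemHomotopy p.1 q.1) :
    Quot.mk (fun p q : P.Loop w => P.ElemHomotopy p.1 q.1) (Loop.inv p)
      = Quot.mk (fun p q : P.Loop w => P.ElemHomotopy p.1 q.1) (Loop.inv q) := by
  rcases h.rev with h | h
  · exact Quot.sound (r := fun p q : P.Loop w => P.ElemHomotopy p.1 q.1) h
  · exact (Quot.sound (r := fun p q : P.Loop w => P.ElemHomotopy p.1 q.1) h).symm

/-- The inverse of the diagram group: the reversed loop. -/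
def invAux : P.DiagramGroup w → P.DiagramGroup w :=
  Quot.lift (fun p => Quot.mk _ (Loop.inv p)) (fun _ _ h => quot_rev h)

theorem inv_mul_aux : ∀ (n : ℕ) (p : List (Edge α ι)) (u v : List α), p.length = n →
    P.IsPath u p v → ∀ (r : List (Edge α ι)) (_ : P.IsPath w r v) (s : List (Edge α ι))
      (_ : P.IsPath v s w) (h₁ : P.IsPath w (r ++ (revPath p ++ p) ++ s) w)
      (h₂ : P.IsPath w (r ++ s) w),
    Quot.mk (fun p q : P.Loop w => P.ElemHomotopy p.1 q.1) ⟨r ++ (revPath p ++ p) ++ s, h₁⟩
      = Quot.mk (fun p q : P.Loop w => P.ElemHomotopy p.1 q.1) ⟨r ++ s, h₂⟩ := by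
  intro n
  induction n with
  | zero =>
    intro p u v hp hpath r hr s hs h₁ h₂
    rw [List.length_eq_zero_iff] at hp
    subst hp
    congr 2
    simp [revPath]
  | succ n ih =>
    intro p u v hp hpath r hr s hs h₁ h₂
    cases p with
    | nil => simp at hp
    | cons e p =>
      have hlen : p.length = n := by simpa using hp
      have h3 : P.IsPath w (r ++ (revPath p ++ p) ++ s) w :=
        (hr.append (hpath.2.rev.append hpath.2)).append hs
      have h1 := ih p (P.target e) v hlen hpath.2 r hr s hs h3 h₂
      rw [← h1]
      apply Quot.sound
      show P.ElemHomotopy _ _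
      have := ElemHomotopy.backtrack (P := P) (r ++ revPath p) (p ++ s) e.inv
      simpa [revPath] using this

instance : Group (P.DiagramGroup w) where
  mul := mulAux
  one := Quot.mk _ Loop.one
  inv := invAux
  mul_assoc := by
    rintro ⟨p⟩ ⟨q⟩ ⟨r⟩
    show Quot.mk _ _ = Quot.mk _ _
    congr 1
    exact Subtype.ext (List.append_assoc _ _ _)
  one_mul := by
    rintro ⟨p⟩
    rfl
  mul_one := by
    rintro ⟨p⟩
    show Quot.mk _ _ = Quot.mk _ _
    congr 1
    exact Subtype.ext (List.append_nil _)
  inv_mul_cancel := by
    rintro ⟨p⟩
    have := inv_mul_aux (P := P) (w := w) p.1.length p.1 w w rfl p.2 [] rfl [] rfl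
      (by simpa using p.2.rev.append p.2) rfl
    refine Eq.trans ?_ this
    show Quot.mk _ _ = Quot.mk _ _
    congr 1
    apply Subtype.ext
    simp [Loop.mul, Loop.inv]

end SemigroupPresentation

/-- The right-angled Artin group `A(Γ)` of a graph: one generator for every vertex, with the
relations `a b a⁻¹ b⁻¹ = 1` for all pairs of adjacent vertices `a`, `b`. -/
def RAAG {V : Type*} (Γ : SimpleGraph V) : Type _ :=
  PresentedGroup {r : FreeGroup V | ∃ a b : V, Γ.Adj a b ∧
    r = FreeGroup.of a * FreeGroup.of b * (FreeGroup.of a)⁻¹ * (FreeGroup.of b)⁻¹}

instance {V : Type*} (Γ : SimpleGraph V) : Group (RAAG Γ) :=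
  inferInstanceAs (Group (PresentedGroup _))

/-- The generator of a right-angled Artin group given by a vertex. -/
def RAAG.of {V : Type*} {Γ : SimpleGraph V} (a : V) : RAAG Γ :=
  PresentedGroup.of a

/-- The graph with the vertices `a_i = (i, false)`, `b_i = (i, true)` for `i : Fin 7`; distinct
indices `i ≠ j` give the edges `b_i ~ b_j`, `a_i ~ b_j` (and no edge `a_i ~ a_j`); there is no
edge between `a_i` and `b_i`. -/
def Gam : SimpleGraph (Fin 7 × Bool) where
  Adj x y := x.1 ≠ y.1 ∧ (x.2 = true ∨ y.2 = true)
  symm := ⟨fun _ _ h => ⟨h.1.symm, h.2.symm⟩⟩
  loopless := ⟨fun _ h => h.1 rfl⟩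

end DG
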