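import Pool.Agent.Lib.MP_86f51d_al.Hyp

/-!
# The term model is a `TwoTree`
-/

namespace DG

open SemigroupPresentation

universe u v

variable {α : Type u} {ι : Type v} {P : SemigroupPresentation α ι} {w : List α}

theorem Pth.start_unique {o o' o'' : Vx ι} {M : List (Tm ι)} (h : Pth P w o M o')
    (h' : Pth P w o'' M o') : o = o'' := by
  cases M with
  | nil => exact h.nil_eq.trans h'.nil_eq.symm
  | cons t M => exact h.1.1.symm.trans h'.1.1

theorem fix_src {g : P.DiagramGroup w} {u : List α} {x y : List (Tm ι)}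
    (hx : Full P w u x) (hy : Full P u w y) (hyx : y.map (subst P x) = baseL ι w.length)
    {k : ℕ} (hk : k ≤ u.length) {R : List (Tm ι)}
    (h : (gm g x).map (subst P y) = (List.range k).map Tm.gen ++ R)
    (hL : Pth P u (.base 0) ((List.range k).map Tm.gen) (.base k)) :
    substV P (ev g) (substV P x (.base k)) = substV P x (.base k) := by
  have h1 : ((gm g x).map (subst P y)).map (subst P x) = gm g x := by
    rw [map_map_subst hx hy (gm_full g hx.pth).2, hyx, map_subst_base (gm_full g hx.pth).2]
  have hbase : baseL ι u.length = (List.range k).map Tm.gen ++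
      (List.range' k (u.length - k)).map Tm.gen := by
    rw [← List.map_append, baseL, List.range_eq_range', List.range_eq_range']
    congr 1
    have e1 := @List.range'_append_1 0 k (u.length - k)
    rw [Nat.zero_add] at e1
    rw [e1, Nat.add_sub_cancel' hk]
  have h2 : x = ((List.range k).map Tm.gen).map (subst P x) ++
      ((List.range' k (u.length - k)).map Tm.gen).map (subst P x) := by
    rw [← List.map_append, ← hbase, baseL_map_subst hx]
  rw [h, List.map_append] at h1
  have h3 : gm g x = gm g (((List.range k).map Tm.gen).map (subst P x)) ++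
      gm g (((List.range' k (u.length - k)).map Tm.gen).map (subst P x)) := by
    conv_lhs => rw [h2]
    rw [gm, List.map_append]
  rw [h3] at h1
  have h4 := (List.append_inj h1 (by simp)).1
  have h5 := hL.subst hx
  rw [substV_base_zero hx] at h5
  have h6 := gm_pth g h5
  rw [← h4, substV_base_zero (full_ev g)] at h6
  exact h6.end_unique h5

theorem fix_tgt {g : P.DiagramGroup w} {u : List α} {x y : List (Tm ι)}
    (hx : Full P w u x) (hy : Full P u w y) (hyx : y.map (subst P x) = baseL ι w.length)
    {k : ℕ} (hk : k ≤ u.length) {L : List (Tm ι)}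
    (h : (gm g x).map (subst P y) = L ++ (List.range' k (u.length - k)).map Tm.gen)
    (hR : Pth P u (.base k) ((List.range' k (u.length - k)).map Tm.gen) (.base u.length)) :
    substV P (ev g) (substV P x (.base k)) = substV P x (.base k) := by
  have h1 : ((gm g x).map (subst P y)).map (subst P x) = gm g x := by
    rw [map_map_subst hx hy (gm_full g hx.pth).2, hyx, map_subst_base (gm_full g hx.pth).2]
  have hbase : baseL ι u.length = (List.range k).map Tm.gen ++
      (List.range' k (u.length - k)).map Tm.gen := by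
    rw [← List.map_append, baseL, List.range_eq_range', List.range_eq_range']
    congr 1
    have e1 := @List.range'_append_1 0 k (u.length - k)
    rw [Nat.zero_add] at e1
    rw [e1, Nat.add_sub_cancel' hk]
  have h2 : x = ((List.range k).map Tm.gen).map (subst P x) ++
      ((List.range' k (u.length - k)).map Tm.gen).map (subst P x) := by
    rw [← List.map_append, ← hbase, baseL_map_subst hx]
  rw [h, List.map_append] at h1
  have h3 : gm g x = gm g (((List.range k).map Tm.gen).map (subst P x)) ++
      gm g (((List.range' k (u.length - k)).map Tm.gen).map (subst P x)) := by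
    conv_lhs => rw [h2]
    rw [gm, List.map_append]
  rw [h3] at h1
  have h4 := (List.append_inj' h1 (by simp)).2
  have h5 := hR.subst hx
  rw [substV_base_top hx] at h5
  have h6 := gm_pth g h5
  rw [← h4, substV_base_top (full_ev g)] at h6
  exact h6.start_unique h5

theorem mem_symmDiff_SS {_ : DecidableEq (TC P w)} {M M' : List (TE P w)} {a : TC P w} :
    a ∈ symmDiff (SS M) (SS M') ↔ a.1 ∈ symmDiff (csL (vals M)) (csL (vals M')) := by
  simp only [Finset.mem_symmDiff, mem_SS]

open Classical in
/-- The `TwoTree` of a diagram group. -/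
noncomputable def twoTree (P : SemigroupPresentation α ι) (w : List α) :
    TwoTree (P.DiagramGroup w) (TV P w) (TE P w) (TC P w) where
  Path o M o' := Pth P w o.1 (vals M) o'.1
  path_nil o o' := ⟨fun h => Subtype.ext h.nil_eq, fun h => by rw [h]; exact Pth.nil _⟩
  path_append o o' M N := by
    constructor
    · intro h
      rw [vals, List.map_append] at h
      obtain ⟨m, h1, h2⟩ := h.split
      obtain ⟨L, -, hL, -⟩ := o.2
      obtain ⟨-, R, -, hR⟩ := o'.2
      exact ⟨⟨m, _, _, hL.append h1, h2.append hR⟩, h1, h2⟩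
    · rintro ⟨m, h1, h2⟩
      rw [vals, List.map_append]
      exact h1.append h2
  path_smul g o M o' h := by
    rw [vals_smul]
    exact h.subst (full_ev g)
  path_end o M o' o'' h h' := Subtype.ext (h.end_unique h')
  acyclic o M h := by
    have := h.acyclic
    exact List.map_eq_nil_iff.1 this
  bot := ⟨.base 0, valV_zero⟩
  top := ⟨.base w.length, valV_top⟩
  smul_bot g := Subtype.ext (substV_base_zero (full_ev g))
  smul_top g := Subtype.ext (substV_base_top (full_ev g))
  base := Classical.choose (exists_vals (P := P) (w := w) pth_base.2)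
  path_base := by
    rw [Classical.choose_spec (exists_vals (P := P) (w := w) pth_base.2)]
    exact pth_base
  S := SS
  src c := ⟨srcL c.1.2.2, c.2.valV_src⟩
  tgt c := ⟨tgtL P c.1.2.2, c.2.valV_tgt⟩
  src_smul g c := Subtype.ext (srcL_substC (full_ev g) c.2)
  tgt_smul g c := Subtype.ext (tgtL_substC (full_ev g) c.2)
  S_smul g x y hx hy a ha := by
    rw [mem_symmDiff_SS] at ha ⊢
    rw [vals_smul, vals_smul]
    exact (substC_mem_symmDiff (full_ev g) a.2 hx hy).1 ha
  mid c c' L M M' R hL hM hM' hR a ha := by
    rw [mem_symmDiff_SS] at ha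
    have e : ∀ X : List (TE P w), vals (L ++ X ++ R) = vals L ++ vals X ++ vals R := by
      intro X; simp [vals]
    rw [e, e] at ha
    obtain ⟨⟨N₁, h1⟩, ⟨N₂, h2, h3⟩, ⟨N₃, h4⟩⟩ := mid_thm hL hM hM' hR a.1 ha
    obtain ⟨N₁', rfl⟩ := exists_vals h1.2
    obtain ⟨N₂', rfl⟩ := exists_vals h3.2
    obtain ⟨N₃', rfl⟩ := exists_vals h4.2
    exact ⟨⟨N₁', h1⟩, ⟨N₂', fun h => h2 (by rw [h]; rfl), h3⟩, ⟨N₃', h4⟩⟩
  ext g c c' M M' hM hM' h e he := by
    apply Subtype.ext
    refine ext_thm (full_ev g) hM hM' ?_ e.1 (List.mem_map_of_mem he)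
    intro t ht
    obtain ⟨s, hs, rfl⟩ := List.mem_map.1 ht
    exact congrArg Subtype.val (h s hs)
  free g x hx h := by
    apply ev_injective
    rw [ev_one]
    have h2 : ∀ e ∈ vals x, subst P (ev g) e = e := by
      intro t ht
      obtain ⟨s, hs, rfl⟩ := List.mem_map.1 ht
      exact congrArg Subtype.val (h s hs)
    have h3 := ext_thm (full_ev g) hx pth_base h2
    rw [← baseL_map_subst (full_ev g)]
    conv_rhs => rw [← List.map_id (baseL ι w.length)]
    exact List.map_congr_left h3
  restrict g c c' L M R hL hM hR hc hc' := by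
    have hM' : Pth P w c.1 (gm g (vals M)) c'.1 := by
      have h1 := gm_pth g hM
      have h2 : substV P (ev g) c.1 = c.1 := congrArg Subtype.val hc
      have h3 : substV P (ev g) c'.1 = c'.1 := congrArg Subtype.val hc'
      rwa [h2, h3] at h1
    obtain ⟨u, hx⟩ := exists_full ((hL.append hM).append hR)
    have hlab : (gm g (vals M)).map (lab P w) = (vals M).map (lab P w) := by
      rw [gm, List.map_map]
      apply List.map_congr_left
      intro t ht
      exact ((full_ev g).substOK (hM.2 t ht)).lab_eq
    have hy : Full P w u (vals L ++ gm g (vals M) ++ vals R) := by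
      refine ⟨(hL.append hM').append hR, ?_⟩
      rw [← hx.lab_eq]
      simp only [List.map_append, hlab]
    obtain ⟨h, hh⟩ := exists_group_element hx hy
    rw [List.map_append, List.map_append] at hh
    obtain ⟨h1, h2⟩ := List.append_inj hh (by simp)
    obtain ⟨h3, h4⟩ := List.append_inj h1 (by simp)
    refine ⟨h, ?_, ?_, ?_⟩
    · intro e he
      apply Subtype.ext
      obtain ⟨n, hn, rfl⟩ := List.getElem_of_mem he
      have := congrArg (fun l => l[n]?) h3
      show subst P (ev h) (L[n]).1 = (L[n]).1
      simpa [hn] using this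
    · intro e he
      apply Subtype.ext
      obtain ⟨n, hn, rfl⟩ := List.getElem_of_mem he
      have := congrArg (fun l => l[n]?) h4
      show subst P (ev h) (M[n]).1 = subst P (ev g) (M[n]).1
      simpa [hn] using this
    · intro e he
      apply Subtype.ext
      obtain ⟨n, hn, rfl⟩ := List.getElem_of_mem he
      have := congrArg (fun l => l[n]?) h2
      show subst P (ev h) (R[n]).1 = (R[n]).1
      simpa [hn] using this
  near x y hx hy a ha := by
    obtain ⟨L, -, hL, -⟩ := a.2.valV_src
    obtain ⟨-, R, -, hR⟩ := a.2.valV_tgt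
    obtain ⟨L', rfl⟩ := exists_vals hL.2
    obtain ⟨R', rfl⟩ := exists_vals hR.2
    obtain ⟨N', hN'⟩ := exists_vals a.2.pth.2
    refine ⟨L', N', R', hL, ?_, hR, ?_⟩
    · show Pth P w _ (vals N') _
      rw [hN']; exact a.2.pth
    · intro g hg e he
      apply Subtype.ext
      refine fix_near (congrArg Subtype.val hg) e.1 ?_
      rw [← hN']
      exact List.mem_map_of_mem he
  hyp_src g hg := by
    obtain ⟨u, x, y, hx, hy, hyx, hxy, hne, hdisj⟩ := transport g hg
    have hz : Pth P u (.base 0) ((gm g x).map (subst P y)) (.base u.length) :=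
      (hy.subst (gm_mul_full g hx)).pth
    obtain ⟨k, R, hk, hR, hL, hR', hex⟩ := exists_first_diff hz hne
    have hfix := fix_src (g := g) hx hy hyx hk hR hL
    have : Nonempty ι := ⟨hex.choose.1⟩
    obtain ⟨o, L, R, h1, h2, h3, ⟨a, ha, hao⟩, h5, h6⟩ := hyp_core g hx hy hyx hxy hdisj
      (side := srcL) (fun w u x hx c hc => srcL_substC hx hc) rootS k hk
      (fun L R hL hR => exists_root_src hL hR) hfix hex
    refine ⟨o, L, R, h1, h2, h3, ⟨a, mem_symmDiff_SS.2 ha, Subtype.ext hao⟩, ?_, ?_⟩
    · intro k a ha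
      rw [mem_symmDiff_SS, h5 k a (congrArg Subtype.val ha)]
      constructor
      · rintro ⟨i, hi, b, hb, hbo, he⟩
        exact ⟨i, hi, b, mem_symmDiff_SS.2 hb, Subtype.ext hbo, he⟩
      · rintro ⟨i, hi, b, hb, hbo, he⟩
        exact ⟨i, hi, b, mem_symmDiff_SS.1 hb, congrArg Subtype.val hbo, he⟩
    · intro i hi a ha hao hmem
      exact h6 i hi a (mem_symmDiff_SS.1 ha) (congrArg Subtype.val hao) (mem_symmDiff_SS.1 hmem)
  hyp_tgt g hg := by
    obtain ⟨u, x, y, hx, hy, hyx, hxy, hne, hdisj⟩ := transport g hg
    have hz : Pth P u (.base 0) ((gm g x).map (subst P y)) (.base u.length) :=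
      (hy.subst (gm_mul_full g hx)).pth
    obtain ⟨k, L, hk, hL, hL', hR', hex⟩ := exists_last_diff hz hne
    have hfix := fix_tgt (g := g) hx hy hyx hk hL hR'
    have : Nonempty ι := ⟨hex.choose.1⟩
    obtain ⟨o, L, R, h1, h2, h3, ⟨a, ha, hao⟩, h5, h6⟩ := hyp_core g hx hy hyx hxy hdisj
      (side := tgtL P) (fun w u x hx c hc => tgtL_substC hx hc) (rootE P) k hk
      (fun L R hL hR => exists_root_tgt hL hR) hfix hex
    refine ⟨o, L, R, h1, h2, h3, ⟨a, mem_symmDiff_SS.2 ha, Subtype.ext hao⟩, ?_, ?_⟩
    · intro k a ha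
      rw [mem_symmDiff_SS, h5 k a (congrArg Subtype.val ha)]
      constructor
      · rintro ⟨i, hi, b, hb, hbo, he⟩
        exact ⟨i, hi, b, mem_symmDiff_SS.2 hb, Subtype.ext hbo, he⟩
      · rintro ⟨i, hi, b, hb, hbo, he⟩
        exact ⟨i, hi, b, mem_symmDiff_SS.1 hb, congrArg Subtype.val hbo, he⟩
    · intro i hi a ha hao hmem
      exact h6 i hi a (mem_symmDiff_SS.1 ha) (congrArg Subtype.val hao) (mem_symmDiff_SS.1 hmem)

end DG
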