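import Pool.Agent.Lib.MP_86f51d_al.RAAG
import Pool.Agent.Lib.MP_86f51d_al.Core
import Pool.Agent.Lib.MP_86f51d_al.Assembly
import Pool.Agent.Lib.MP_86f51d_al.Instance

/-!
# No diagram group contains the right-angled Artin group of `Gam`
-/

namespace DG

open SemigroupPresentation

universe u v

theorem not_embeds (α : Type u) (ι : Type v) (P : SemigroupPresentation α ι) (w : List α) :
    ¬ ∃ f : RAAG Gam →* P.DiagramGroup w, Function.Injective f := by
  rintro ⟨f, hf⟩
  obtain ⟨R, hR, F, y, s, h1, h2, h3⟩ := structure_statement (P.DiagramGroup w) (TV P w) (TE P w)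
    (TC P w) (twoTree P w) (fun i => f (RAAG.of (i, false))) (fun i => f (RAAG.of (i, true)))
    (fun i j => by
      by_cases hij : i = j
      · subst hij; exact Commute.refl _
      · exact (RAAG.commute (Γ := Gam) (a := (i, true)) (b := (j, true))
          ⟨hij, Or.inl rfl⟩).map f)
    (fun i j hij => (RAAG.commute (Γ := Gam) (a := (i, false)) (b := (j, true))
          ⟨hij, Or.inr rfl⟩).map f)
  obtain ⟨g, hg, hgen⟩ := core_statement F.card
  have h4 := hgen (P.DiagramGroup w) F y s le_rfl h1 h2
  have h5 : (fun i => (((F.sort (· ≤ ·)).filter (s · = i)).map y).prod)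
      = fun i => f (kappa R i) := by
    funext i
    rw [← h3 i, kappa, map_mul, map_mul, map_mul, map_inv, map_inv, map_pow]
  rw [h5] at h4
  have h6 : ∀ g : FreeGroup (Fin 7), FreeGroup.lift (fun i => f (kappa R i)) g
      = f (FreeGroup.lift (kappa R) g) := by
    intro g
    have : FreeGroup.lift (fun i => f (kappa R i)) = f.comp (FreeGroup.lift (kappa R)) := by
      ext i
      simp
    rw [this]
    rfl
  rw [h6] at h4
  have h7 : FreeGroup.lift (kappa R) g = 1 := hf (by rw [h4, map_one])
  exact hg (kappa_injective R hR (by rw [h7, map_one]))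

end DG
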