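import Pool.Agent.Lib.MP_86f51d_al.Action

/-!
# Nontrivial elements of the diagram group are hyperbolic at some vertex
-/

namespace DG

open SemigroupPresentation

universe u v

variable {α : Type u} {ι : Type v} {P : SemigroupPresentation α ι} {w : List α}

/-- the raw group action on lists -/
noncomputable abbrev gm (g : P.DiagramGroup w) (x : List (Tm ι)) : List (Tm ι) :=
  x.map (subst P (ev g))

theorem gm_pth (g : P.DiagramGroup w) {o o' : Vx ι} {M : List (Tm ι)} (h : Pth P w o M o') :
    Pth P w (substV P (ev g) o) (gm g M) (substV P (ev g) o') := h.subst (full_ev g)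

theorem gm_full (g : P.DiagramGroup w) {M : List (Tm ι)}
    (h : Pth P w (.base 0) M (.base w.length)) :
    Pth P w (.base 0) (gm g M) (.base w.length) := by
  have := gm_pth g h
  rwa [substV_base_zero (full_ev g), substV_base_top (full_ev g)] at this

theorem gm_mul (g h : P.DiagramGroup w) {M : List (Tm ι)} (hM : ∀ t ∈ M, Val P w t) :
    gm (g * h) M = gm g (gm h M) := by
  unfold gm
  rw [List.map_map]
  apply List.map_congr_left
  intro t ht
  rw [Function.comp_apply, subst_subst (full_ev g) (full_ev h) (hM t ht), ev_mul]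

theorem gm_one {M : List (Tm ι)} (hM : ∀ t ∈ M, Val P w t) :
    gm (1 : P.DiagramGroup w) M = M := by
  unfold gm
  conv_rhs => rw [← List.map_id M]
  apply List.map_congr_left
  intro t ht
  rw [ev_one]
  exact subst_baseL (hM t ht)

theorem gm_mul_full {u : List α} (g : P.DiagramGroup w) {x : List (Tm ι)}
    (hx : Full P w u x) : Full P w u (gm g x) := (full_ev g).subst hx

theorem map_map_subst {u u' : List α} {x y : List (Tm ι)} (hx : Full P w u x)
    (hy : Full P u u' y) {M : List (Tm ι)} (hM : ∀ t ∈ M, Val P u' t) :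
    (M.map (subst P y)).map (subst P x) = M.map (subst P (y.map (subst P x))) := by
  rw [List.map_map]
  apply List.map_congr_left
  intro t ht
  exact subst_subst hx hy (hM t ht)

theorem map_subst_base {M : List (Tm ι)} (hM : ∀ t ∈ M, Val P w t) :
    M.map (subst P (baseL ι w.length)) = M := by
  conv_rhs => rw [← List.map_id M]
  apply List.map_congr_left
  intro t ht
  exact subst_baseL (hM t ht)

/-- A full path `x` with minimal displacement under `g`, in coordinates with root path `x`. -/
theorem exists_minimal (g : P.DiagramGroup w) :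
    ∃ x, Pth P w (.base 0) x (.base w.length) ∧
      ∀ z, Pth P w (.base 0) z (.base w.length) →
        (symmDiff (csL x) (csL (gm g x))).card ≤ (symmDiff (csL z) (csL (gm g z))).card := by
  classical
  have hex : ∃ n, ∃ x, Pth P w (.base 0) x (.base w.length) ∧
      (symmDiff (csL x) (csL (gm g x))).card = n := ⟨_, _, pth_base, rfl⟩
  obtain ⟨x, hx, hxn⟩ := Nat.find_spec hex
  refine ⟨x, hx, fun z hz => ?_⟩
  rw [hxn]
  exact Nat.find_min' hex ⟨z, hz, rfl⟩

theorem mem_symmDiff_comm {C : Type*} [DecidableEq C] {X Y : Finset C} {a : C} :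
    a ∈ symmDiff X Y ↔ a ∈ symmDiff Y X := by rw [symmDiff_comm]

/-- data of the transport: `x` of minimal displacement, `y` its inverse, and the conjugate
paths `z m = y (g ^ m x)`. -/
theorem transport (g : P.DiagramGroup w) (hg : g ≠ 1) :
    ∃ (u : List α) (x y : List (Tm ι)), Full P w u x ∧ Full P u w y ∧
      y.map (subst P x) = baseL ι w.length ∧ x.map (subst P y) = baseL ι u.length ∧
      (gm g x).map (subst P y) ≠ baseL ι u.length ∧
      ∀ c ∈ csL ((gm g x).map (subst P y)), c ∉ csL ((gm g⁻¹ x).map (subst P y)) := by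
  obtain ⟨x, hx, hmin⟩ := exists_minimal g
  obtain ⟨u, hxu⟩ := exists_full hx
  obtain ⟨y, hyu, hyx, hxy⟩ := hxu.exists_inv
  refine ⟨u, x, y, hxu, hyu, hyx, hxy, ?_, ?_⟩
  · intro h
    -- then g x = x
    have h1 : (((gm g x).map (subst P y)).map (subst P x)) = gm g x := by
      rw [map_map_subst hxu hyu (gm_full g hx).2, hyx, map_subst_base (gm_full g hx).2]
    rw [h, baseL_map_subst hxu] at h1
    -- so g = 1
    apply hg
    apply ev_injective
    rw [ev_one]
    have h2 : ∀ e ∈ x, subst P (ev g) e = e := by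
      intro e he
      obtain ⟨n, hn, rfl⟩ := List.getElem_of_mem he
      have := congrArg (fun l => l[n]?) h1
      simpa [hn] using this.symm
    have h3 := ext_thm (full_ev g) hx pth_base h2
    rw [← baseL_map_subst (full_ev g)]
    conv_rhs => rw [← List.map_id (baseL ι w.length)]
    exact List.map_congr_left h3
  · -- apply the minimality lemma over `u`
    have hz1 : Full P u u ((gm g x).map (subst P y)) := hyu.subst (gm_mul_full g hxu)
    have hz2 : Full P u u ((gm g⁻¹ x).map (subst P y)) := hyu.subst (gm_mul_full g⁻¹ hxu)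
    -- the substitution z1 is the conjugate of g
    have hconj : ∀ M : List (Tm ι), (∀ t ∈ M, Val P u t) →
        M.map (subst P ((gm g x).map (subst P y)))
          = (gm g (M.map (subst P x))).map (subst P y) := by
      intro M hM
      have e1 : M.map (subst P (gm g x)) = gm g (M.map (subst P x)) :=
        (map_map_subst (full_ev g) hxu hM).symm
      rw [← e1, map_map_subst hyu (gm_mul_full g hxu) hM]
    apply disjoint_of_minimal hz1 hz2
    · rw [hconj _ hz2.pth.2, map_map_subst hxu hyu (gm_full g⁻¹ hx).2, hyx,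
        map_subst_base (gm_full g⁻¹ hx).2, ← gm_mul g g⁻¹ hx.2, mul_inv_cancel, gm_one hx.2, hxy]
    · intro z hz
      have hzx : Pth P w (.base 0) (z.map (subst P x)) (.base w.length) := by
        have := hz.subst hxu
        rwa [substV_base_zero hxu, substV_base_top hxu] at this
      have hgzx := gm_full g hzx
      have h4 := hmin _ hzx
      have h5 : (csL ((gm g x).map (subst P y))).card
          ≤ (symmDiff (csL x) (csL (gm g x))).card := by
        have h6 := card_le_subst hxu (z := (gm g x).map (subst P y)) (z' := baseL ι u.length)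
          hz1.pth pth_base
        rw [csL_base, map_map_subst hxu hyu (gm_full g hx).2, hyx,
          map_subst_base (gm_full g hx).2, baseL_map_subst hxu, symmDiff_comm (csL (gm g x))] at h6
        have h7 : symmDiff (csL ((gm g x).map (subst P y))) ∅
            = csL ((gm g x).map (subst P y)) := by
          simp
        rwa [h7] at h6
      have h6 : (symmDiff (csL (z.map (subst P x))) (csL (gm g (z.map (subst P x))))).card
          ≤ (symmDiff (csL z) (csL (z.map (subst P ((gm g x).map (subst P y)))))).card := by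
        have h7 := card_le_subst hyu hzx hgzx
        rw [map_map_subst hyu hxu hz.2, hxy, map_subst_base hz.2, ← hconj z hz.2] at h7
        exact h7
      exact h5.trans (h4.trans h6)

open Classical in
/-- cells below a list of valid edges -/
noncomputable def SS (M : List (TE P w)) : Finset (TC P w) :=
  (csL (vals M)).subtype (fun c => ValC P w c.1 c.2.1 c.2.2)

theorem mem_SS {M : List (TE P w)} {c : TC P w} : c ∈ SS M ↔ c.1 ∈ csL (vals M) := by
  classical
  unfold SS
  rw [Finset.mem_subtype]

theorem gm_fix_zpow (g : P.DiagramGroup w) {t : Tm ι} (ht : Val P w t)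
    (h : subst P (ev g) t = t) (m : ℤ) : subst P (ev (g ^ m)) t = t := by
  have h1 : g • (⟨t, ht⟩ : TE P w) = ⟨t, ht⟩ := Subtype.ext h
  have h2 : g ^ m • (⟨t, ht⟩ : TE P w) = ⟨t, ht⟩ := by
    have h3 : g ∈ MulAction.stabilizer (P.DiagramGroup w) (⟨t, ht⟩ : TE P w) := h1
    exact Subgroup.zpow_mem _ h3 m
  exact congrArg Subtype.val h2

theorem zpow_smul_TV (g : P.DiagramGroup w) {o : TV P w} (h : g • o = o) (m : ℤ) :
    g ^ m • o = o := by
  have h3 : g ∈ MulAction.stabilizer (P.DiagramGroup w) o := h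
  exact Subgroup.zpow_mem _ h3 m

/-- the common part of the proofs of `hyp_src` and `hyp_tgt`. -/
theorem hyp_core (g : P.DiagramGroup w) {u : List α} {x y : List (Tm ι)}
    (hx : Full P w u x) (hy : Full P u w y) (hyx : y.map (subst P x) = baseL ι w.length)
    (hxy : x.map (subst P y) = baseL ι u.length)
    (hdisj : ∀ c ∈ csL ((gm g x).map (subst P y)), c ∉ csL ((gm g⁻¹ x).map (subst P y)))
    (side : List (Tm ι) → Vx ι)
    (hside : ∀ (w u : List α) (x : List (Tm ι)), Full P w u x → ∀ c : Cell ι,
      ValC P u c.1 c.2.1 c.2.2 → side (substC P x c).2.2 = substV P x (side c.2.2))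
    (rt : Cell ι → Cell ι) (k : ℕ) (hk : k ≤ u.length)
    (hroot : ∀ L R : List (Tm ι), Pth P u (.base 0) L (.base k) →
      Pth P u (.base k) R (.base u.length) → ∃ ρ : Cell ι, ∀ c ∈ csL (L ++ R),
        side c.2.2 = .base k → rt c = ρ ∧ ρ ∈ csL (L ++ R) ∧ side ρ.2.2 = .base k)
    (hfix : substV P (ev g) (substV P x (.base k)) = substV P x (.base k))
    (hex : ∃ c ∈ csL ((gm g x).map (subst P y)), side c.2.2 = .base k) :
    ∃ (o : TV P w) (L R : List (TE P w)), g • o = o ∧
      Pth P w (.base 0) (vals L) o.1 ∧ Pth P w o.1 (vals R) (.base w.length) ∧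
      (∃ a : TC P w, (a.1 ∈ symmDiff (csL (vals (L ++ R)))
        (csL (vals ((L ++ R).map (g • ·)))) ∧ side a.1.2.2 = o.1)) ∧
      (∀ (k : ℕ) (a : TC P w), side a.1.2.2 = o.1 →
        (a.1 ∈ symmDiff (csL (vals (L ++ R))) (csL (vals ((L ++ R).map (g ^ k • ·)))) ↔
          ∃ i < k, ∃ b : TC P w, b.1 ∈ symmDiff (csL (vals (L ++ R)))
            (csL (vals ((L ++ R).map (g • ·)))) ∧ side b.1.2.2 = o.1 ∧ a = g ^ i • b)) ∧
      (∀ i : ℤ, i ≠ 0 → ∀ a : TC P w, a.1 ∈ symmDiff (csL (vals (L ++ R)))
          (csL (vals ((L ++ R).map (g • ·)))) → side a.1.2.2 = o.1 →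
        (g ^ i • a).1 ∉ symmDiff (csL (vals (L ++ R))) (csL (vals ((L ++ R).map (g • ·))))) := by
  classical
  -- the two halves of the root path over u
  have hb1 : Pth P u (.base 0) ((List.range' 0 k).map Tm.gen) (.base k) := by
    have := pth_gens (P := P) (w := u) (k := 0) (m := k) (by omega)
    rwa [Nat.zero_add] at this
  have hb2 : Pth P u (.base k) ((List.range' k (u.length - k)).map Tm.gen) (.base u.length) := by
    have := pth_gens (P := P) (w := u) (k := k) (m := u.length - k) (by omega)
    rwa [Nat.add_sub_cancel' hk] at this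
  have hbase : baseL ι u.length = (List.range' 0 k).map Tm.gen ++
      (List.range' k (u.length - k)).map Tm.gen := by
    rw [← List.map_append, baseL, List.range_eq_range']
    congr 1
    have e1 := @List.range'_append_1 0 k (u.length - k)
    rw [Nat.zero_add] at e1
    rw [e1, Nat.add_sub_cancel' hk]
  have hvk : ValV P u (.base k) := ⟨_, _, hb1, hb2⟩
  set o : TV P w := ⟨substV P x (.base k), hvk.subst hx⟩ with ho
  have hgo : g • o = o := Subtype.ext hfix
  have hoy : substV P y o.1 = .base k := by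
    show substV P y (substV P x (.base k)) = _
    rw [substV_substV hy hx hvk, hxy, substV_baseL hvk]
  -- the two halves of x
  have hL0 : Pth P w (.base 0) (((List.range' 0 k).map Tm.gen).map (subst P x)) o.1 := by
    have := hb1.subst hx
    rwa [substV_base_zero hx] at this
  have hR0 : Pth P w o.1 (((List.range' k (u.length - k)).map Tm.gen).map (subst P x))
      (.base w.length) := by
    have := hb2.subst hx
    rwa [substV_base_top hx] at this
  obtain ⟨L, hL⟩ := exists_vals hL0.2
  obtain ⟨R, hR⟩ := exists_vals hR0.2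
  rw [← hL] at hL0
  rw [← hR] at hR0
  have hLR : vals (L ++ R) = x := by
    rw [vals, List.map_append]
    show vals L ++ vals R = x
    rw [hL, hR, ← List.map_append, ← hbase, baseL_map_subst hx]
  have hLRm : ∀ g : P.DiagramGroup w, vals ((L ++ R).map (g • ·)) = gm g x := by
    intro g
    rw [vals_smul, hLR]
  have hxp := hx.pth
  -- the paths over u
  set z : ℤ → List (Tm ι) := fun m => (gm (g ^ m) x).map (subst P y) with hz
  have hgmx : ∀ m : ℤ, Pth P w (.base 0) (gm (g ^ m) x) (.base w.length) :=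
    fun m => gm_full (g ^ m) hxp
  have hzfull : ∀ m : ℤ, Pth P u (.base 0) (z m) (.base u.length) := by
    intro m
    have := (hgmx m).subst hy
    rwa [substV_base_zero hy, substV_base_top hy] at this
  have hzx : ∀ m : ℤ, (z m).map (subst P x) = gm (g ^ m) x := by
    intro m
    show ((gm (g ^ m) x).map (subst P y)).map (subst P x) = _
    rw [map_map_subst hx hy (hgmx m).2, hyx, map_subst_base (hgmx m).2]
  have hzdec : ∀ m : ℤ, ∃ L' R', z m = L' ++ R' ∧ Pth P u (.base 0) L' (.base k) ∧
      Pth P u (.base k) R' (.base u.length) := by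
    intro m
    have h1 : substV P (ev (g ^ m)) o.1 = o.1 :=
      congrArg Subtype.val (zpow_smul_TV g hgo m)
    refine ⟨(gm (g ^ m) (vals L)).map (subst P y), (gm (g ^ m) (vals R)).map (subst P y),
      ?_, ?_, ?_⟩
    · show (gm (g ^ m) x).map (subst P y) = _
      rw [← hLR, vals, List.map_append, gm, List.map_append, List.map_append]
    · have h2 := gm_pth (g ^ m) hL0
      rw [substV_base_zero (full_ev _), h1] at h2
      have h3 := h2.subst hy
      rwa [substV_base_zero hy, hoy] at h3
    · have h2 := gm_pth (g ^ m) hR0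
      rw [substV_base_top (full_ev _), h1] at h2
      have h3 := h2.subst hy
      rwa [substV_base_top hy, hoy] at h3
  -- transfer of cells
  have htr : ∀ (m : ℤ) (c : Cell ι), ValC P u c.1 c.2.1 c.2.2 →
      (c ∈ csL (z m) ↔ substC P x c ∈ symmDiff (csL x) (csL (gm (g ^ m) x))) := by
    intro m c hc
    rw [substC_mem_iff hx hc (hzfull m), hzx, symmDiff_comm]
  have hyc : ∀ c : TC P w, ValC P u (substC P y c.1).1 (substC P y c.1).2.1
      (substC P y c.1).2.2 := fun c => ValC.substC hy c.2
  have hxyc : ∀ c : TC P w, substC P x (substC P y c.1) = c.1 := by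
    intro c
    rw [substC_substC hx hy c.2, hyx, substC_baseL c.2]
  have htr' : ∀ (m : ℤ) (c : TC P w), c.1 ∈ symmDiff (csL x) (csL (gm (g ^ m) x)) ↔
      substC P y c.1 ∈ csL (z m) := by
    intro m c
    rw [htr m _ (hyc c), hxyc]
  have hsy : ∀ c : TC P w, side c.1.2.2 = o.1 → side (substC P y c.1).2.2 = .base k := by
    intro c hc
    rw [hside u w y hy c.1 c.2, hc, hoy]
  set S : ℤ → Set (TC P w) := fun m =>
    {c | c.1 ∈ symmDiff (csL x) (csL (gm (g ^ m) x)) ∧ side c.1.2.2 = o.1} with hS
  set root : TC P w → TC P w := fun c =>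
    if h : ValC P w (substC P x (rt (substC P y c.1))).1 (substC P x (rt (substC P y c.1))).2.1
      (substC P x (rt (substC P y c.1))).2.2 then ⟨_, h⟩ else c with hrootdef
  have hsmul : ∀ (g : P.DiagramGroup w) (c : TC P w), side c.1.2.2 = o.1 →
      substV P (ev g) o.1 = o.1 → side (g • c).1.2.2 = o.1 := by
    intro g c hc ho'
    rw [smulC_val, hside w w _ (full_ev g) c.1 c.2, hc, ho']
  obtain ⟨c₁, hc₁, hc₁k⟩ := hex
  have hz1 : z 1 = (gm g x).map (subst P y) := by
    show (gm (g ^ (1 : ℤ)) x).map (subst P y) = _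
    rw [zpow_one]
  have hzm1 : z (-1) = (gm g⁻¹ x).map (subst P y) := by
    show (gm (g ^ (-1 : ℤ)) x).map (subst P y) = _
    rw [zpow_neg_one]
  have hc₁v : ValC P u c₁.1 c₁.2.1 c₁.2.2 := by
    rw [← hz1] at hc₁
    exact (hzfull 1).valC_of_mem c₁ hc₁
  have hc₁' : (⟨substC P x c₁, ValC.substC hx hc₁v⟩ : TC P w) ∈ S 1 := by
    refine ⟨?_, ?_⟩
    · rw [← hz1] at hc₁
      exact (htr 1 c₁ hc₁v).1 hc₁
    · show side (substC P x c₁).2.2 = o.1
      rw [hside w u x hx c₁ hc₁v, hc₁k]
  have hgrow := growth_abstract g S ?_ ?_ root ?_ ?_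
  · obtain ⟨hg1, hg2⟩ := hgrow
    refine ⟨o, L, R, hgo, hL0, hR0, ?_, ?_, ?_⟩
    · refine ⟨_, ?_, hc₁'.2⟩
      rw [hLR, hLRm]
      have := hc₁'.1
      rwa [zpow_one] at this
    · intro k' a ha
      have h1 := hg1 k' a
      simp only [hS, Set.mem_ofPred_eq, ha, and_true, zpow_natCast, zpow_one] at h1
      rw [hLR, hLRm, hLRm, h1]
      constructor
      · rintro ⟨i, hi, b, ⟨hb1, hb2⟩, he⟩
        exact ⟨i, hi, b, hb1, hb2, he⟩
      · rintro ⟨i, hi, b, hb1, hb2, he⟩
        exact ⟨i, hi, b, ⟨hb1, hb2⟩, he⟩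
    · intro i hi a ha hao hmem
      rw [hLR, hLRm] at ha hmem
      have h1 := hg2 i hi a ⟨by rwa [zpow_one], hao⟩
      apply h1
      refine ⟨by rwa [zpow_one], ?_⟩
      exact hsmul (g ^ i) a hao (congrArg Subtype.val (zpow_smul_TV g hgo i))
  · -- S 0 = ∅
    ext c
    simp only [hS, Set.mem_ofPred_eq, zpow_zero, Set.mem_empty_iff_false, iff_false, not_and]
    intro h
    rw [gm_one hxp.2, symmDiff_self] at h
    simp at h
  · -- additivity
    intro m c
    have hgc : side (g⁻¹ • c).1.2.2 = o.1 ↔ side c.1.2.2 = o.1 := by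
      have h1 : substV P (ev g⁻¹) o.1 = o.1 := by
        have := congrArg Subtype.val (zpow_smul_TV g hgo (-1))
        rwa [zpow_neg_one] at this
      constructor
      · intro h
        have := hsmul g (g⁻¹ • c) h hfix
        rwa [smul_inv_smul] at this
      · intro h
        exact hsmul g⁻¹ c h h1
    have h2 : (g⁻¹ • c).1 ∈ symmDiff (csL x) (csL (gm (g ^ m) x)) ↔
        c.1 ∈ symmDiff (csL (gm g x)) (csL (gm (g ^ (m + 1)) x)) := by
      have h3 := substC_mem_symmDiff (full_ev g) (c := (g⁻¹ • c).1) (g⁻¹ • c).2 hxp (hgmx m)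
      rw [h3]
      have h4 : substC P (ev g) (g⁻¹ • c).1 = c.1 := by
        rw [← smulC_val, smul_inv_smul]
      rw [h4]
      have h5 : (gm (g ^ m) x).map (subst P (ev g)) = gm (g ^ (m + 1)) x := by
        have h6 : g ^ (m + 1) = g * g ^ m := by rw [add_comm, zpow_add, zpow_one]
        rw [h6, gm_mul g (g ^ m) hxp.2]
      rw [h5]
    simp only [hS, Set.mem_ofPred_eq, zpow_one, hgc, h2]
    simp only [Finset.mem_symmDiff]
    by_cases h5 : side c.1.2.2 = o.1
    · simp only [h5, and_true]
      by_cases hA : c.1 ∈ csL x <;> by_cases hB : c.1 ∈ csL (gm g x) <;>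
        by_cases hC : c.1 ∈ csL (gm (g ^ (m + 1)) x) <;> simp [hA, hB, hC]
    · simp [h5]
  · -- roots
    intro m
    obtain ⟨L', R', hz', hL', hR'⟩ := hzdec m
    obtain ⟨ρ, hρ⟩ := hroot L' R' hL' hR'
    rw [← hz'] at hρ
    by_cases hne : ∃ c, c ∈ S m
    · obtain ⟨c₀, hc₀⟩ := hne
      have h1 := hρ _ ((htr' m c₀).1 hc₀.1) (hsy c₀ hc₀.2)
      have hρv : ValC P u ρ.1 ρ.2.1 ρ.2.2 := (hzfull m).valC_of_mem ρ h1.2.1
      have hρx : ValC P w (substC P x ρ).1 (substC P x ρ).2.1 (substC P x ρ).2.2 :=
        ValC.substC hx hρv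
      refine ⟨⟨substC P x ρ, hρx⟩, fun c hc => ?_⟩
      have h2 := hρ _ ((htr' m c).1 hc.1) (hsy c hc.2)
      refine ⟨?_, ?_, ?_⟩
      · show root c = _
        rw [hrootdef]
        simp only
        rw [dif_pos (by rw [h2.1]; exact hρx)]
        apply Subtype.ext
        show substC P x (rt (substC P y c.1)) = substC P x ρ
        rw [h2.1]
      · exact (htr m ρ hρv).1 h2.2.1
      · show side (substC P x ρ).2.2 = o.1
        rw [hside w u x hx ρ hρv, h2.2.2]
    · push Not at hne
      exact ⟨⟨substC P x c₁, ValC.substC hx hc₁v⟩, fun c hc => absurd hc (hne c)⟩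
  · -- disjointness
    intro c hc hc'
    have h1 := (htr' 1 c).1 hc.1
    have h2 := (htr' (-1) c).1 hc'.1
    rw [hz1] at h1
    rw [hzm1] at h2
    exact hdisj _ h1 h2

end DG
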