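import Pool.Agent.Lib.MP_86f51d_al.Defs

/-!
# The term model of the universal directed 2-complex of a semigroup presentation: basics

Edges are terms: `gen k` is the `k`-th edge of the root path, `op i d j N` is the `j`-th edge of the
far side of the cell which is attached along the path `N` by the relation `i` in direction `d`.
-/

namespace DG

open SemigroupPresentation

universe u v

/-- Edges of the universal 2-complex; `opF` takes its list of arguments as a function on
`Fin n`, see `Tm.op` for the form with a list. -/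
inductive Tm (ι : Type v) : Type v
  | gen : ℕ → Tm ι
  | opF : ι → Bool → ℕ → (n : ℕ) → (Fin n → Tm ι) → Tm ι

/-- Vertices of the universal 2-complex. -/
inductive Vx (ι : Type v) : Type v
  | base : ℕ → Vx ι
  | inner : ι → Bool → List (Tm ι) → ℕ → Vx ι

variable {α : Type u} {ι : Type v}

/-- `op i d j N`: the `j`-th edge of the far side of the cell attached along `N`. -/
def Tm.op (i : ι) (d : Bool) (j : ℕ) (N : List (Tm ι)) : Tm ι :=
  .opF i d j N.length N.get

theorem Tm.exists_op (i : ι) (d : Bool) (j n : ℕ) (c : Fin n → Tm ι) :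
    Tm.opF i d j n c = Tm.op i d j (List.ofFn c) := by
  have key : ∀ (N : List (Tm ι)) (h : N.length = n), (∀ k : Fin N.length, N.get k = c (k.cast h)) →
      Tm.opF i d j n c = Tm.opF i d j N.length N.get := by
    intro N h hN
    subst h
    congr 1
    funext k
    exact (hN k).symm
  exact key _ (List.length_ofFn) (fun k => by simp; rfl)

theorem Tm.op_inj {i i' : ι} {d d' : Bool} {j j' : ℕ} {N N' : List (Tm ι)}
    (h : Tm.op i d j N = Tm.op i' d' j' N') : i = i' ∧ d = d' ∧ j = j' ∧ N = N' := by
  unfold Tm.op at h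
  injection h with h1 h2 h3 h4 h5
  refine ⟨h1, h2, h3, ?_⟩
  apply List.ext_get h4
  intro n h6 h7
  have key : ∀ (m m' : ℕ) (e : m = m') (f : Fin m → Tm ι) (f' : Fin m' → Tm ι), HEq f f' →
      ∀ (n : ℕ) (a : n < m) (b : n < m'), f ⟨n, a⟩ = f' ⟨n, b⟩ := by
    intro m m' e f f' hf n a b
    subst e
    cases hf
    rfl
  exact key _ _ h4 _ _ h5 n h6 h7

theorem Tm.op_ne_gen {i : ι} {d : Bool} {j : ℕ} {N : List (Tm ι)} {k : ℕ} :
    Tm.op i d j N ≠ Tm.gen k := by
  intro h
  unfold Tm.op at h
  injection h

/-- induction principle for terms -/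
theorem Tm.ind {p : Tm ι → Prop} (gen : ∀ k, p (.gen k))
    (op : ∀ i d j N, (∀ t ∈ N, p t) → p (.op i d j N)) (t : Tm ι) : p t := by
  induction t with
  | gen k => exact gen k
  | opF i d j n c ih =>
    rw [Tm.exists_op]
    apply op
    intro t ht
    rw [List.mem_ofFn] at ht
    obtain ⟨k, rfl⟩ := ht
    exact ih k

/-- case analysis for terms -/
@[cases_eliminator] theorem Tm.casesL {p : Tm ι → Prop} (t : Tm ι) (gen : ∀ k, p (.gen k))
    (op : ∀ i d j N, p (.op i d j N)) : p t :=
  Tm.ind gen (fun i d j N _ => op i d j N) t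

/-- recursion for terms -/
def Tm.fold {β : Type*} (g : ℕ → β) (o : ι → Bool → ℕ → List (Tm ι) → List β → β) : Tm ι → β
  | .gen k => g k
  | .opF i d j _ c => o i d j (List.ofFn c) (List.ofFn (fun k => (c k).fold g o))

theorem Tm.fold_gen {β : Type*} (g : ℕ → β) (o : ι → Bool → ℕ → List (Tm ι) → List β → β)
    (k : ℕ) : Tm.fold g o (.gen k) = g k := rfl

theorem Tm.fold_op {β : Type*} (g : ℕ → β) (o : ι → Bool → ℕ → List (Tm ι) → List β → β)
    (i : ι) (d : Bool) (j : ℕ) (N : List (Tm ι)) :
    Tm.fold g o (.op i d j N) = o i d j N (N.map (Tm.fold g o)) := by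
  have e1 : List.ofFn N.get = N := List.ofFn_get N
  have e2 : List.ofFn (fun k => Tm.fold g o (N.get k)) = N.map (Tm.fold g o) := by
    conv_rhs => rw [← e1, List.map_ofFn]
    rfl
  show o i d j (List.ofFn N.get) (List.ofFn (fun k => Tm.fold g o (N.get k))) = _
  rw [e1, e2]

/-- size of a term -/
def Tm.sz : Tm ι → ℕ := Tm.fold (fun _ => 0) (fun _ _ _ _ l => 1 + l.sum)

/-- size of a list of terms -/
def szL (N : List (Tm ι)) : ℕ := (N.map Tm.sz).sum

theorem sz_gen (k : ℕ) : (Tm.gen k : Tm ι).sz = 0 := rfl

theorem sz_op (i : ι) (d : Bool) (j : ℕ) (N : List (Tm ι)) :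
    (Tm.op i d j N).sz = 1 + szL N := by
  unfold Tm.sz
  rw [Tm.fold_op]
  rfl

theorem szL_nil : szL ([] : List (Tm ι)) = 0 := rfl

theorem szL_cons (t : Tm ι) (N : List (Tm ι)) : szL (t :: N) = t.sz + szL N := by
  simp [szL]

/-- initial vertex of an edge -/
def src : Tm ι → Vx ι :=
  Tm.fold Vx.base (fun i d j N l => if j = 0 then l.headD (.base 0) else .inner i d N j)

/-- initial vertex of a path -/
def srcL : List (Tm ι) → Vx ι
  | [] => .base 0
  | t :: _ => src t

theorem src_gen (k : ℕ) : src (Tm.gen k : Tm ι) = .base k := rfl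

theorem src_op (i : ι) (d : Bool) (j : ℕ) (N : List (Tm ι)) :
    src (Tm.op i d j N) = if j = 0 then srcL N else .inner i d N j := by
  unfold src
  rw [Tm.fold_op]
  cases N with
  | nil => rfl
  | cons t N => rfl

variable (P : SemigroupPresentation α ι)

/-- terminal vertex of an edge -/
def tgt : Tm ι → Vx ι :=
  Tm.fold (fun k => .base (k + 1)) (fun i d j N l =>
    if j + 1 = (P.side i (!d)).length then l.getLastD (.base 0) else .inner i d N (j + 1))

/-- terminal vertex of a path -/
def tgtL : List (Tm ι) → Vx ι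
  | [] => .base 0
  | [t] => tgt P t
  | _ :: t :: N => tgtL (t :: N)

theorem tgt_gen (k : ℕ) : tgt P (Tm.gen k : Tm ι) = .base (k + 1) := rfl

theorem getLastD_map_tgt (N : List (Tm ι)) :
    (N.map (tgt P)).getLastD (.base 0) = tgtL P N := by
  induction N with
  | nil => rfl
  | cons t N ih =>
    cases N with
    | nil => rfl
    | cons s N =>
      rw [tgtL, ← ih]
      simp

theorem tgt_op (i : ι) (d : Bool) (j : ℕ) (N : List (Tm ι)) :
    tgt P (Tm.op i d j N)
      = if j + 1 = (P.side i (!d)).length then tgtL P N else .inner i d N (j + 1) := by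
  rw [← getLastD_map_tgt]
  unfold tgt
  rw [Tm.fold_op]

/-- `Ch P o M o'`: the list of edges `M` is a directed path from `o` to `o'`. -/
def Ch : Vx ι → List (Tm ι) → Vx ι → Prop
  | o, [], o' => o = o'
  | o, t :: M, o' => src t = o ∧ Ch (tgt P t) M o'

/-- the far side of the cell attached along `N` -/
def far (i : ι) (d : Bool) (N : List (Tm ι)) : List (Tm ι) :=
  (List.range (P.side i (!d)).length).map (fun j => Tm.op i d j N)

/-- label of an edge -/
def lab (w : List α) : Tm ι → Option α :=
  Tm.fold (fun k => w[k]?) (fun i d j _ _ => (P.side i (!d))[j]?)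

theorem lab_gen (w : List α) (k : ℕ) : lab P w (Tm.gen k) = w[k]? := rfl

theorem lab_op (w : List α) (i : ι) (d : Bool) (j : ℕ) (N : List (Tm ι)) :
    lab P w (Tm.op i d j N) = (P.side i (!d))[j]? := by
  unfold lab
  rw [Tm.fold_op]

/-- valid edges -/
inductive Val (w : List α) : Tm ι → Prop
  | gen (k : ℕ) : k < w.length → Val w (.gen k)
  | op (i : ι) (d : Bool) (j : ℕ) (N : List (Tm ι)) : (∀ t ∈ N, Val w t) →
      (∃ o o', Ch P o N o') → N.map (lab P w) = (P.side i d).map some →
      j < (P.side i (!d)).length → (∀ M, N ≠ far P i (!d) M) → Val w (.op i d j N)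

/-- valid paths -/
def Pth (w : List α) (o : Vx ι) (M : List (Tm ι)) (o' : Vx ι) : Prop :=
  Ch P o M o' ∧ ∀ t ∈ M, Val P w t

variable {P}

theorem Val.inv {w : List α} {i : ι} {d : Bool} {j : ℕ} {N : List (Tm ι)}
    (h : Val P w (.op i d j N)) : (∀ t ∈ N, Val P w t) ∧
      (∃ o o', Ch P o N o') ∧ N.map (lab P w) = (P.side i d).map some ∧
      j < (P.side i (!d)).length ∧ (∀ M, N ≠ far P i (!d) M) := by
  generalize ht : Tm.op i d j N = t at h
  induction h with
  | gen k hk => exact absurd ht Tm.op_ne_gen
  | op i' d' j' N' h1 h2 h3 h4 h5 _ =>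
    obtain ⟨rfl, rfl, rfl, rfl⟩ := Tm.op_inj ht
    exact ⟨h1, h2, h3, h4, h5⟩

theorem Ch.append {o o' o'' : Vx ι} {M N : List (Tm ι)} (h : Ch P o M o') (h' : Ch P o' N o'') :
    Ch P o (M ++ N) o'' := by
  induction M generalizing o with
  | nil => cases h; exact h'
  | cons t M ih => exact ⟨h.1, ih h.2⟩

theorem Ch.split {o o'' : Vx ι} {M N : List (Tm ι)} (h : Ch P o (M ++ N) o'') :
    ∃ o', Ch P o M o' ∧ Ch P o' N o'' := by
  induction M generalizing o with
  | nil => exact ⟨o, rfl, h⟩
  | cons t M ih =>
    obtain ⟨o', h1, h2⟩ := ih h.2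
    exact ⟨o', ⟨h.1, h1⟩, h2⟩

theorem Ch.srcL_eq {o o' : Vx ι} {M : List (Tm ι)} (h : Ch P o M o') (hM : M ≠ []) :
    srcL M = o := by
  cases M with
  | nil => exact absurd rfl hM
  | cons t M => rw [srcL]; exact h.1

theorem Ch.tgtL_eq {o o' : Vx ι} {M : List (Tm ι)} (h : Ch P o M o') (hM : M ≠ []) :
    tgtL P M = o' := by
  induction M generalizing o with
  | nil => exact absurd rfl hM
  | cons t M ih =>
    cases M with
    | nil => rw [tgtL]; exact h.2
    | cons t' M => rw [tgtL]; exact ih h.2 (by simp)

theorem Ch.end_unique {o o' o'' : Vx ι} {M : List (Tm ι)} (h : Ch P o M o') (h' : Ch P o M o'') :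
    o' = o'' := by
  induction M generalizing o with
  | nil => cases h; cases h'; rfl
  | cons t M ih => exact ih h.2 h'.2

theorem side_pos (P : SemigroupPresentation α ι) (i : ι) (d : Bool) :
    0 < (P.side i d).length := by
  cases d
  · exact List.length_pos_iff.mpr (P.rhs_ne i)
  · exact List.length_pos_iff.mpr (P.lhs_ne i)

theorem length_far (i : ι) (d : Bool) (N : List (Tm ι)) :
    (far P i d N).length = (P.side i (!d)).length := by
  simp [far]

theorem far_ne_nil (i : ι) (d : Bool) (N : List (Tm ι)) : far P i d N ≠ [] := by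
  intro h
  have := side_pos P i (!d)
  rw [← length_far (P := P) i d N, h] at this
  simp at this

theorem mem_far {i : ι} {d : Bool} {N : List (Tm ι)} {t : Tm ι} :
    t ∈ far P i d N ↔ ∃ j < (P.side i (!d)).length, t = Tm.op i d j N := by
  simp [far, eq_comm]

theorem getElem_far {i : ι} {d : Bool} {N : List (Tm ι)} {j : ℕ}
    (h : j < (far P i d N).length) : (far P i d N)[j] = Tm.op i d j N := by
  simp [far]

/-- the first element of `far`. -/
theorem far_cons (i : ι) (d : Bool) (N : List (Tm ι)) :
    ∃ R, far P i d N = Tm.op i d 0 N :: R := by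
  unfold far
  obtain ⟨m, hm⟩ : ∃ m, (P.side i (!d)).length = m + 1 :=
    ⟨_, (Nat.succ_pred_eq_of_pos (side_pos P i (!d))).symm⟩
  rw [hm, List.range_succ_eq_map]
  simp

theorem far_inj {i i' : ι} {d d' : Bool} {N N' : List (Tm ι)}
    (h : far P i d N = far P i' d' N') : i = i' ∧ d = d' ∧ N = N' := by
  obtain ⟨R, hR⟩ := far_cons (P := P) i d N
  obtain ⟨R', hR'⟩ := far_cons (P := P) i' d' N'
  rw [hR, hR'] at h
  injection h with h1 h2
  obtain ⟨a, b, c, e⟩ := Tm.op_inj h1
  exact ⟨a, b, e⟩

theorem ch_far_aux (i : ι) (d : Bool) (N : List (Tm ι)) (m j : ℕ) (hm : 0 < m)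
    (hj : j + m = (P.side i (!d)).length) :
    Ch P (if j = 0 then srcL N else .inner i d N j)
      ((List.range' j m).map (fun j => Tm.op i d j N)) (tgtL P N) := by
  induction m generalizing j with
  | zero => omega
  | succ m ih =>
    rw [List.range'_succ, List.map_cons]
    refine ⟨by rw [src_op], ?_⟩
    rcases Nat.eq_zero_or_pos m with rfl | hm'
    · simp only [List.range'_zero, List.map_nil]
      show tgt P _ = _
      rw [tgt_op, if_pos (by omega)]
    · have := ih (j + 1) hm' (by omega)
      rw [tgt_op, if_neg (by omega)]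
      simpa using this

theorem ch_far (i : ι) (d : Bool) (N : List (Tm ι)) :
    Ch P (srcL N) (far P i d N) (tgtL P N) := by
  have := ch_far_aux (P := P) i d N (P.side i (!d)).length 0 (side_pos P i (!d)) (by simp)
  simpa [far, List.range_eq_range'] using this

/-! ### sizes -/

/-- size of a vertex -/
def szV : Vx ι → ℕ
  | .base _ => 0
  | .inner _ _ N _ => 1 + szL N

theorem sz_le_szL {t : Tm ι} {N : List (Tm ι)} (h : t ∈ N) : t.sz ≤ szL N := by
  induction N with
  | nil => simp at h
  | cons s N ih =>
    rw [szL_cons]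
    rcases List.mem_cons.1 h with rfl | h
    · omega
    · have := ih h; omega

theorem szL_append (M N : List (Tm ι)) : szL (M ++ N) = szL M + szL N := by
  induction M with
  | nil => simp [szL]
  | cons t M ih => simp only [List.cons_append, szL_cons, ih]; omega

theorem szV_src (t : Tm ι) : szV (src t) ≤ t.sz := by
  induction t using Tm.ind with
  | gen k => simp [src_gen, szV]
  | op i d j N ih =>
    rw [src_op, sz_op]
    split_ifs with h
    · cases N with
      | nil => simp [srcL, szV]
      | cons t N =>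
        rw [srcL]
        have := ih t (by simp)
        have := sz_le_szL (t := t) (N := t :: N) (by simp)
        omega
    · simp [szV]

theorem szV_srcL (N : List (Tm ι)) : szV (srcL N) ≤ szL N := by
  cases N with
  | nil => simp [srcL, szV]
  | cons t N =>
    rw [srcL]
    exact (szV_src t).trans (sz_le_szL (by simp))

theorem tgtL_append_singleton (M : List (Tm ι)) (t : Tm ι) : tgtL P (M ++ [t]) = tgt P t := by
  induction M with
  | nil => rw [List.nil_append, tgtL]
  | cons s M ih =>
    cases M with
    | nil => simp only [List.cons_append, List.nil_append, tgtL]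
    | cons s' M => simp only [List.cons_append, tgtL] at ih ⊢; exact ih

theorem szV_tgt (t : Tm ι) : szV (tgt P t) ≤ t.sz := by
  induction t using Tm.ind with
  | gen k => simp [tgt_gen, szV]
  | op i d j N ih =>
    rw [tgt_op, sz_op]
    split_ifs with h
    · rcases List.eq_nil_or_concat' N with rfl | ⟨M, t, rfl⟩
      · simp [tgtL, szV]
      · rw [tgtL_append_singleton]
        have := ih t (by simp)
        have := sz_le_szL (t := t) (N := M ++ [t]) (by simp)
        omega
    · simp [szV]

theorem szV_tgtL (N : List (Tm ι)) : szV (tgtL P N) ≤ szL N := by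
  rcases List.eq_nil_or_concat' N with rfl | ⟨M, t, rfl⟩
  · simp [tgtL, szV]
  · rw [tgtL_append_singleton]
    exact (szV_tgt t).trans (sz_le_szL (by simp))

/-- an edge that is not bigger than its initial vertex is determined by it -/
theorem src_inj {t t' : Tm ι} (h : t.sz ≤ szV (src t)) (h' : t'.sz ≤ szV (src t'))
    (e : src t = src t') : t = t' := by
  cases t with
  | gen k =>
    cases t' with
    | gen k' => rw [src_gen, src_gen] at e; injection e with e; rw [e]
    | op i' d' j' N' =>
      rw [← e, src_gen, szV, sz_op] at h'; omega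
  | op i d j N =>
    have hs := szV_srcL N
    have hj : j ≠ 0 := by
      rintro rfl
      rw [src_op, if_pos rfl, sz_op] at h
      omega
    cases t' with
    | gen k' =>
      rw [e, src_gen, szV, sz_op] at h
      omega
    | op i' d' j' N' =>
      have hs' := szV_srcL N'
      have hj' : j' ≠ 0 := by
        rintro rfl
        rw [src_op, if_pos rfl, sz_op] at h'
        omega
      rw [src_op, src_op, if_neg hj, if_neg hj'] at e
      injection e with e1 e2 e3 e4
      rw [e1, e2, e3, e4]

theorem tgt_inj {t t' : Tm ι} (h : t.sz ≤ szV (tgt P t)) (h' : t'.sz ≤ szV (tgt P t'))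
    (e : tgt P t = tgt P t') : t = t' := by
  cases t with
  | gen k =>
    cases t' with
    | gen k' => rw [tgt_gen, tgt_gen] at e; injection e with e; rw [Nat.succ_inj.1 e]
    | op i' d' j' N' =>
      rw [← e, tgt_gen, szV, sz_op] at h'; omega
  | op i d j N =>
    have hs := szV_tgtL (P := P) N
    have hj : ¬ (j + 1 = (P.side i (!d)).length) := by
      intro hj
      rw [tgt_op, if_pos hj, sz_op] at h
      omega
    cases t' with
    | gen k' =>
      rw [e, tgt_gen, szV, sz_op] at h
      omega
    | op i' d' j' N' =>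
      have hs' := szV_tgtL (P := P) N'
      have hj' : ¬ (j' + 1 = (P.side i' (!d')).length) := by
        intro hj'
        rw [tgt_op, if_pos hj', sz_op] at h'
        omega
      rw [tgt_op, tgt_op, if_neg hj, if_neg hj'] at e
      injection e with e1 e2 e3 e4
      rw [e1, e2, e3, Nat.succ_inj.1 e4]

end DG
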