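import Pool.Agent.Lib.MP_86f51d_al.Model1

/-!
# The term model: potential, acyclicity, normal forms of paths
-/

namespace DG

open SemigroupPresentation

universe u v

variable {α : Type u} {ι : Type v} (P : SemigroupPresentation α ι)

/-- the interval of an edge -/
def lohi : Tm ι → ℚ × ℚ :=
  Tm.fold (fun k => ((k : ℚ), (k : ℚ) + 1)) (fun i d j _ l =>
    ((l.headD (0, 0)).1 + (j : ℚ) / ((P.side i (!d)).length : ℚ) *
        ((l.getLastD (0, 0)).2 - (l.headD (0, 0)).1),
     (l.headD (0, 0)).1 + ((j : ℚ) + 1) / ((P.side i (!d)).length : ℚ) *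
        ((l.getLastD (0, 0)).2 - (l.headD (0, 0)).1)))

/-- left end of the interval of an edge -/
def lo (t : Tm ι) : ℚ := (lohi P t).1

/-- right end of the interval of an edge -/
def hi (t : Tm ι) : ℚ := (lohi P t).2

/-- left end of the interval of a path -/
def loL : List (Tm ι) → ℚ
  | [] => 0
  | t :: _ => lo P t

/-- right end of the interval of a path -/
def hiL : List (Tm ι) → ℚ
  | [] => 0
  | [t] => hi P t
  | _ :: t :: N => hiL (t :: N)

theorem lo_gen (k : ℕ) : lo P (Tm.gen k : Tm ι) = k := rfl

theorem hi_gen (k : ℕ) : hi P (Tm.gen k : Tm ι) = k + 1 := rfl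

theorem headD_map_lohi (N : List (Tm ι)) :
    ((N.map (lohi P)).headD (0, 0)).1 = loL P N := by
  cases N <;> rfl

theorem getLastD_map_lohi (N : List (Tm ι)) :
    ((N.map (lohi P)).getLastD (0, 0)).2 = hiL P N := by
  induction N with
  | nil => rfl
  | cons t N ih =>
    cases N with
    | nil => rfl
    | cons s N =>
      rw [hiL, ← ih]
      simp

theorem lo_op (i : ι) (d : Bool) (j : ℕ) (N : List (Tm ι)) : lo P (Tm.op i d j N)
    = loL P N + (j : ℚ) / ((P.side i (!d)).length : ℚ) * (hiL P N - loL P N) := by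
  rw [← headD_map_lohi, ← getLastD_map_lohi]
  unfold lo lohi
  rw [Tm.fold_op]

theorem hi_op (i : ι) (d : Bool) (j : ℕ) (N : List (Tm ι)) : hi P (Tm.op i d j N)
    = loL P N + ((j : ℚ) + 1) / ((P.side i (!d)).length : ℚ) * (hiL P N - loL P N) := by
  rw [← headD_map_lohi, ← getLastD_map_lohi]
  unfold hi lohi
  rw [Tm.fold_op]

/-- potential of a vertex -/
def pot : Vx ι → ℚ
  | .base k => k
  | .inner i d N j => loL P N + (j : ℚ) / ((P.side i (!d)).length : ℚ) * (hiL P N - loL P N)

variable {P}

theorem pot_src (t : Tm ι) : pot P (src t) = lo P t := by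
  induction t using Tm.ind with
  | gen k => simp [src_gen, pot, lo_gen]
  | op i d j N ih =>
    rw [src_op, lo_op]
    split_ifs with h
    · subst h
      cases N with
      | nil => simp [srcL, pot, loL, hiL]
      | cons t N =>
        rw [srcL, ih t (by simp), loL]
        simp
    · rfl

theorem hiL_append_singleton (M : List (Tm ι)) (t : Tm ι) : hiL P (M ++ [t]) = hi P t := by
  induction M with
  | nil => rw [List.nil_append, hiL]
  | cons s M ih =>
    cases M with
    | nil => simp only [List.cons_append, List.nil_append, hiL]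
    | cons s' M => simp only [List.cons_append, hiL] at ih ⊢; exact ih

theorem pot_tgt (t : Tm ι) : pot P (tgt P t) = hi P t := by
  induction t using Tm.ind with
  | gen k => simp [tgt_gen, pot, hi_gen]
  | op i d j N ih =>
    rw [tgt_op, hi_op]
    split_ifs with h
    · have hlen : ((P.side i (!d)).length : ℚ) ≠ 0 := by
        have := side_pos P i (!d)
        positivity
      have h1 : ((j : ℚ) + 1) / ((P.side i (!d)).length : ℚ) = 1 := by
        rw [← h]
        push_cast
        rw [← h] at hlen
        push_cast at hlen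
        exact div_self hlen
      rw [h1]
      rcases List.eq_nil_or_concat' N with rfl | ⟨M, t, rfl⟩
      · simp [tgtL, pot, hiL]
      · rw [tgtL_append_singleton, hiL_append_singleton, ih t (by simp)]
        ring
    · rw [pot]
      push_cast
      rfl

theorem Ch.pot_lt {o o' : Vx ι} {M : List (Tm ι)} (h : Ch P o M o')
    (hM : ∀ t ∈ M, lo P t < hi P t) : pot P o ≤ pot P o' ∧ (M ≠ [] → pot P o < pot P o') := by
  induction M generalizing o with
  | nil => cases h; exact ⟨le_refl _, fun h => absurd rfl h⟩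
  | cons t M ih =>
    obtain ⟨h1, h2⟩ := h
    have h3 := (ih h2 (fun s hs => hM s (by simp [hs]))).1
    have h4 := hM t (by simp)
    rw [pot_tgt] at h3
    rw [← h1, pot_src]
    exact ⟨h4.le.trans h3, fun _ => h4.trans_le h3⟩

theorem Ch.loL_eq {o o' : Vx ι} {M : List (Tm ι)} (h : Ch P o M o') (hM : M ≠ []) :
    loL P M = pot P o := by
  cases M with
  | nil => exact absurd rfl hM
  | cons t M => rw [loL, ← pot_src, h.1]

theorem Ch.hiL_eq {o o' : Vx ι} {M : List (Tm ι)} (h : Ch P o M o') (hM : M ≠ []) :
    hiL P M = pot P o' := by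
  rcases List.eq_nil_or_concat' M with rfl | ⟨M, t, rfl⟩
  · exact absurd rfl hM
  · rw [hiL_append_singleton, ← pot_tgt]
    obtain ⟨m, h1, h2⟩ := h.split
    rw [show tgt P t = o' from h2.2]

variable {w : List α}

theorem Val.ne_nil {i : ι} {d : Bool} {j : ℕ} {N : List (Tm ι)} (h : Val P w (.op i d j N)) :
    N ≠ [] := by
  obtain ⟨h1, h2, h3, h4, h5⟩ := h.inv
  rintro rfl
  have := congrArg List.length h3
  have h6 := side_pos P i d
  simp at this
  omega

theorem Val.lo_lt_hi {t : Tm ι} (h : Val P w t) : lo P t < hi P t := by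
  induction h with
  | gen k hk => simp [lo_gen, hi_gen]
  | op i d j N h1 h2 h3 h4 h5 ih =>
    have hN : N ≠ [] := (Val.op i d j N h1 h2 h3 h4 h5).ne_nil
    obtain ⟨o, o', hch⟩ := h2
    have hlt := (hch.pot_lt ih).2 hN
    rw [lo_op, hi_op]
    have hlen : (0 : ℚ) < ((P.side i (!d)).length : ℚ) := by
      have := side_pos P i (!d)
      positivity
    have h6 : loL P N < hiL P N := by
      rw [hch.loL_eq hN, hch.hiL_eq hN]; exact hlt
    have h7 : (j : ℚ) / ((P.side i (!d)).length : ℚ)
        < ((j : ℚ) + 1) / ((P.side i (!d)).length : ℚ) :=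
      div_lt_div_of_pos_right (by linarith) hlen
    have h8 : 0 < hiL P N - loL P N := by linarith
    have := mul_lt_mul_of_pos_right h7 h8
    linarith

theorem Pth.pot_lt {o o' : Vx ι} {M : List (Tm ι)} (h : Pth P w o M o') (hM : M ≠ []) :
    pot P o < pot P o' :=
  (h.1.pot_lt (fun t ht => (h.2 t ht).lo_lt_hi)).2 hM

theorem Pth.pot_le {o o' : Vx ι} {M : List (Tm ι)} (h : Pth P w o M o') :
    pot P o ≤ pot P o' :=
  (h.1.pot_lt (fun t ht => (h.2 t ht).lo_lt_hi)).1

theorem Pth.acyclic {o : Vx ι} {M : List (Tm ι)} (h : Pth P w o M o) : M = [] := by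
  by_contra hM
  exact lt_irrefl _ (h.pot_lt hM)

theorem Pth.append {o o' o'' : Vx ι} {M N : List (Tm ι)} (h : Pth P w o M o')
    (h' : Pth P w o' N o'') : Pth P w o (M ++ N) o'' :=
  ⟨h.1.append h'.1, fun t ht => (List.mem_append.1 ht).elim (h.2 t) (h'.2 t)⟩

theorem Pth.split {o o'' : Vx ι} {M N : List (Tm ι)} (h : Pth P w o (M ++ N) o'') :
    ∃ o', Pth P w o M o' ∧ Pth P w o' N o'' := by
  obtain ⟨o', h1, h2⟩ := h.1.split
  exact ⟨o', ⟨h1, fun t ht => h.2 t (by simp [ht])⟩, ⟨h2, fun t ht => h.2 t (by simp [ht])⟩⟩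

theorem Pth.nil (o : Vx ι) : Pth P w o [] o := ⟨rfl, by simp⟩

theorem Pth.nil_eq {o o' : Vx ι} (h : Pth P w o [] o') : o = o' := h.1

theorem Pth.end_unique {o o' o'' : Vx ι} {M : List (Tm ι)} (h : Pth P w o M o')
    (h' : Pth P w o M o'') : o' = o'' := h.1.end_unique h'.1

/-- what validity of the far edges of a cell means -/
structure ValC (P : SemigroupPresentation α ι) (w : List α) (i : ι) (d : Bool)
    (N : List (Tm ι)) : Prop where
  pth : Pth P w (srcL N) N (tgtL P N)
  lab_eq : N.map (lab P w) = (P.side i d).map some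
  not_far : ∀ M, N ≠ far P i (!d) M

theorem ValC.ne_nil {i : ι} {d : Bool} {N : List (Tm ι)} (h : ValC P w i d N) : N ≠ [] := by
  rintro rfl
  have := congrArg List.length h.lab_eq
  have h6 := side_pos P i d
  simp at this
  omega

theorem Pth.canon {o o' : Vx ι} {M : List (Tm ι)} (h : Pth P w o M o') (hM : M ≠ []) :
    Pth P w (srcL M) M (tgtL P M) := by
  rw [h.1.srcL_eq hM, h.1.tgtL_eq hM]; exact h

theorem Val.valC {i : ι} {d : Bool} {j : ℕ} {N : List (Tm ι)} (h : Val P w (.op i d j N)) :
    ValC P w i d N := by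
  have hN := h.ne_nil
  obtain ⟨h1, h2, h3, h4, h5⟩ := h.inv
  obtain ⟨o, o', hch⟩ := h2
  exact ⟨(show Pth P w o N o' from ⟨hch, h1⟩).canon hN, h3, h5⟩

theorem ValC.val {i : ι} {d : Bool} {N : List (Tm ι)} (h : ValC P w i d N) {j : ℕ}
    (hj : j < (P.side i (!d)).length) : Val P w (.op i d j N) :=
  .op i d j N h.pth.2 ⟨_, _, h.pth.1⟩ h.lab_eq hj h.not_far

theorem ValC.pth_far {i : ι} {d : Bool} {N : List (Tm ι)} (h : ValC P w i d N) :
    Pth P w (srcL N) (far P i d N) (tgtL P N) := by
  refine ⟨ch_far i d N, fun t ht => ?_⟩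
  obtain ⟨j, hj, rfl⟩ := mem_far.1 ht
  exact h.val hj

/-- the far side of a cell as part of a valid path comes from a valid cell -/
theorem valC_of_far {i : ι} {d : Bool} {N : List (Tm ι)} (h : ∀ t ∈ far P i d N, Val P w t) :
    ValC P w i d N := by
  obtain ⟨R, hR⟩ := far_cons (P := P) i d N
  exact (h (Tm.op i d 0 N) (by rw [hR]; simp)).valC

/-- Removing the far side of a cell gives a path again. -/
theorem Pth.red {o o' : Vx ι} {A N B : List (Tm ι)} {i : ι} {d : Bool}
    (h : Pth P w o (A ++ far P i d N ++ B) o') :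
    Pth P w o A (srcL N) ∧ ValC P w i d N ∧ Pth P w (tgtL P N) B o' := by
  obtain ⟨m, h1, h2⟩ := h.split
  obtain ⟨m', h3, h4⟩ := h1.split
  have hv : ValC P w i d N := valC_of_far h4.2
  have h5 : srcL (far P i d N) = m' := h4.1.srcL_eq (far_ne_nil i d N)
  have h6 : tgtL P (far P i d N) = m := h4.1.tgtL_eq (far_ne_nil i d N)
  have h7 := (ch_far (P := P) i d N)
  have h8 := h7.srcL_eq (far_ne_nil i d N)
  have h9 := h7.tgtL_eq (far_ne_nil i d N)
  refine ⟨?_, hv, ?_⟩
  · rw [← h8, h5]; exact h3
  · rw [← h9, h6]; exact h2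

theorem ValC.pth_insert {o o' : Vx ι} {A N B : List (Tm ι)} {i : ι} {d : Bool}
    (hv : ValC P w i d N) (hA : Pth P w o A (srcL N)) (hB : Pth P w (tgtL P N) B o') :
    Pth P w o (A ++ far P i d N ++ B) o' ∧ Pth P w o (A ++ N ++ B) o' :=
  ⟨(hA.append hv.pth_far).append hB, (hA.append hv.pth).append hB⟩

/-- irreducible paths -/
def Irr (P : SemigroupPresentation α ι) (M : List (Tm ι)) : Prop :=
  ∀ A i d N B, M ≠ A ++ far P i d N ++ B

theorem Irr.tail {t : Tm ι} {M : List (Tm ι)} (h : Irr P (t :: M)) : Irr P M := by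
  intro A i d N B e
  exact h (t :: A) i d N B (by rw [e]; simp)

theorem Irr.init {t : Tm ι} {M : List (Tm ι)} (h : Irr P (M ++ [t])) : Irr P M := by
  intro A i d N B e
  exact h A i d N (B ++ [t]) (by rw [e]; simp)

/-- going left from an edge of maximal size -/
theorem left_aux {o o' : Vx ι} {m : ℕ} (ho : szV o < m) (i : ι) (d : Bool) (N : List (Tm ι))
    (hN : 1 + szL N = m) :
    ∀ (j : ℕ) (A B : List (Tm ι)), Pth P w o (A ++ Tm.op i d j N :: B) o' →
      (∀ t ∈ A, t.sz ≤ m) → ∃ A', A = A' ++ (List.range j).map (fun j => Tm.op i d j N) := by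
  intro j
  induction j with
  | zero => intro A B _ _; exact ⟨A, by simp⟩
  | succ j ih =>
    intro A B h hA
    rcases List.eq_nil_or_concat' A with rfl | ⟨A₀, t, rfl⟩
    · exfalso
      have h1 : src (Tm.op i d (j + 1) N) = o := h.1.1
      rw [src_op, if_neg (by omega)] at h1
      rw [← h1, szV] at ho
      omega
    · have h0 : A₀ ++ [t] ++ Tm.op i d (j + 1) N :: B = A₀ ++ t :: (Tm.op i d (j + 1) N :: B) := by
        simp
      rw [h0] at h
      obtain ⟨m', h1, h2⟩ := h.split
      have h3 : src (Tm.op i d (j + 1) N) = tgt P t := h2.1.2.1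
      rw [src_op, if_neg (by omega)] at h3
      have ht : t.sz ≤ m := hA t (by simp)
      have ht' : t.sz ≤ szV (tgt P t) := by rw [← h3, szV]; omega
      have hop : Tm.sz (.op i d j N) ≤ szV (tgt P (.op i d j N)) ∧
          tgt P (.op i d j N) = .inner i d N (j + 1) := by
        have hv : Val P w (.op i d (j + 1) N) := h2.2 _ (by simp)
        have hj : j + 1 < (P.side i (!d)).length := hv.inv.2.2.2.1
        rw [tgt_op, if_neg (by omega), szV, sz_op]
        exact ⟨le_refl _, rfl⟩
      have e : t = .op i d j N := tgt_inj ht' hop.1 (by rw [hop.2, h3])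
      subst e
      obtain ⟨A', hA'⟩ := ih A₀ _ h (fun s hs => hA s (by simp [hs]))
      refine ⟨A', ?_⟩
      rw [hA', List.range_succ, List.map_append]
      simp

/-- going right from an edge of maximal size -/
theorem right_aux {o o' : Vx ι} {m : ℕ} (ho : szV o' < m) (i : ι) (d : Bool) (N : List (Tm ι))
    (hN : 1 + szL N = m) :
    ∀ (r j : ℕ) (A B : List (Tm ι)), j + 1 + r = (P.side i (!d)).length →
      Pth P w o (A ++ Tm.op i d j N :: B) o' →
      (∀ t ∈ B, t.sz ≤ m) →
      ∃ B', B = (List.range' (j + 1) r).map (fun j => Tm.op i d j N) ++ B' := by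
  intro r
  induction r with
  | zero => intro j A B _ _ _; exact ⟨B, by simp⟩
  | succ r ih =>
    intro j A B hj h hB
    obtain ⟨m', h1, h2⟩ := h.split
    have h3 : tgt P (.op i d j N) = .inner i d N (j + 1) := by
      rw [tgt_op, if_neg (by omega)]
    cases B with
    | nil =>
      exfalso
      have h4 : tgt P (.op i d j N) = o' := h2.1.2
      rw [h3] at h4
      rw [← h4, szV] at ho
      omega
    | cons t B =>
      have h4 : src t = tgt P (.op i d j N) := h2.1.2.1
      rw [h3] at h4
      have ht : t.sz ≤ m := hB t (by simp)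
      have ht' : t.sz ≤ szV (src t) := by rw [h4, szV]; omega
      have hop : Tm.sz (.op i d (j + 1) N) ≤ szV (src (.op i d (j + 1) N)) ∧
          src (.op i d (j + 1) N) = .inner i d N (j + 1) := by
        rw [src_op, if_neg (by omega), szV, sz_op]
        exact ⟨le_refl _, rfl⟩
      have e : t = .op i d (j + 1) N := src_inj ht' hop.1 (by rw [hop.2, h4])
      subst e
      have h5 : A ++ Tm.op i d j N :: Tm.op i d (j + 1) N :: B
          = (A ++ [Tm.op i d j N]) ++ Tm.op i d (j + 1) N :: B := by simp
      rw [h5] at h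
      obtain ⟨B', hB'⟩ := ih (j + 1) _ B (by omega) h (fun s hs => hB s (by simp [hs]))
      refine ⟨B', ?_⟩
      rw [hB', List.range'_succ]
      simp

/-- edges of irreducible paths are not bigger than the end vertices -/
theorem Irr.sz_le {o o' : Vx ι} {M : List (Tm ι)} (h : Pth P w o M o') (hI : Irr P M) :
    ∀ t ∈ M, t.sz ≤ max (szV o) (szV o') := by
  by_contra hcon
  push Not at hcon
  obtain ⟨t₀, ht₀, hlt₀⟩ := hcon
  -- edge of maximal size
  obtain ⟨t, ht, hmax⟩ : ∃ t ∈ M, ∀ s ∈ M, s.sz ≤ t.sz := by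
    have hne : (M.map Tm.sz).toFinset.Nonempty :=
      ⟨t₀.sz, by simp only [List.mem_toFinset, List.mem_map]; exact ⟨t₀, ht₀, rfl⟩⟩
    have h1 := Finset.max'_mem _ hne
    simp only [List.mem_toFinset, List.mem_map] at h1
    obtain ⟨t, ht, he⟩ := h1
    refine ⟨t, ht, fun s hs => ?_⟩
    rw [he]
    apply Finset.le_max'
    simp only [List.mem_toFinset, List.mem_map]
    exact ⟨s, hs, rfl⟩
  have hlt : max (szV o) (szV o') < t.sz := hlt₀.trans_le (hmax t₀ ht₀)
  cases t with
  | gen k => rw [sz_gen] at hlt; omega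
  | op i d j N =>
    obtain ⟨A, B, rfl⟩ := List.append_of_mem ht
    have ho : szV o < 1 + szL N := by rw [sz_op] at hlt; omega
    have ho' : szV o' < 1 + szL N := by rw [sz_op] at hlt; omega
    have hv : Val P w (.op i d j N) := h.2 _ ht
    have hj : j < (P.side i (!d)).length := hv.inv.2.2.2.1
    obtain ⟨A', hA'⟩ := left_aux (m := 1 + szL N) ho i d N rfl j A B h
      (fun s hs => by have := hmax s (by simp [hs]); rwa [sz_op] at this)
    obtain ⟨B', hB'⟩ := right_aux (m := 1 + szL N) ho' i d N rfl
      ((P.side i (!d)).length - (j + 1)) j A B (by omega) h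
      (fun s hs => by have := hmax s (by simp [hs]); rwa [sz_op] at this)
    apply hI A' i d N B'
    rw [hA', hB', far]
    obtain ⟨r, hr⟩ : ∃ r, (P.side i (!d)).length = j + (1 + r) :=
      ⟨(P.side i (!d)).length - (j + 1), by omega⟩
    have e1 : List.range (j + (1 + r)) = List.range j ++ (j :: List.range' (j + 1) r) := by
      rw [List.range_eq_range', List.range_eq_range', ← List.range'_append_1, Nat.add_comm 1 r,
        List.range'_succ]
      simp
    rw [hr, e1, show j + (1 + r) - (j + 1) = r by omega]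
    simp [List.append_assoc]

/-- irreducible paths between given vertices are unique -/
theorem Irr.unique : ∀ (n : ℕ) {o o' : Vx ι} {M M' : List (Tm ι)}, M.length = n →
    Pth P w o M o' → Pth P w o M' o' → Irr P M → Irr P M' → M = M' := by
  intro n
  induction n with
  | zero =>
    intro o o' M M' hn h h' hI hI'
    rw [List.length_eq_zero_iff] at hn
    subst hn
    have := h.nil_eq
    subst this
    exact h'.acyclic.symm
  | succ n ih =>
    intro o o' M M' hn h h' hI hI'
    have hM'ne : M' ≠ [] := by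
      rintro rfl
      have := h'.nil_eq
      subst this
      rw [h.acyclic] at hn
      simp at hn
    have hs := hI.sz_le h
    have hs' := hI'.sz_le h'
    rcases le_or_gt (szV o') (szV o) with hle | hlt
    · cases M with
      | nil => simp at hn
      | cons t M =>
        cases M' with
        | nil => exact absurd rfl hM'ne
        | cons t' M' =>
          have h1 := hs t (by simp)
          have h1' := hs' t' (by simp)
          rw [max_eq_left hle] at h1 h1'
          have e1 : src t = o := h.1.1
          have e2 : src t' = o := h'.1.1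
          have e : t = t' := src_inj (by rw [e1]; exact h1) (by rw [e2]; exact h1')
            (e1.trans e2.symm)
          subst e
          congr 1
          exact ih (by simpa using hn) ⟨h.1.2, fun s hs => h.2 s (by simp [hs])⟩
            ⟨h'.1.2, fun s hs => h'.2 s (by simp [hs])⟩ hI.tail hI'.tail
    · rcases List.eq_nil_or_concat' M with rfl | ⟨M, t, rfl⟩
      · simp at hn
      rcases List.eq_nil_or_concat' M' with rfl | ⟨M', t', rfl⟩
      · exact absurd rfl hM'ne
      have h1 := hs t (by simp)
      have h1' := hs' t' (by simp)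
      rw [max_eq_right hlt.le] at h1 h1'
      obtain ⟨m, ha, hb⟩ := h.split
      obtain ⟨m', ha', hb'⟩ := h'.split
      have e1 : tgt P t = o' := hb.1.2
      have e2 : tgt P t' = o' := hb'.1.2
      have e : t = t' := tgt_inj (by rw [e1]; exact h1) (by rw [e2]; exact h1')
        (e1.trans e2.symm)
      subst e
      congr 1
      have e3 : src t = m := hb.1.1
      have e4 : src t = m' := hb'.1.1
      subst e3
      subst e4
      exact ih (by simpa using hn) ha ha' hI.init hI'.init

theorem szL_lt_far (i : ι) (d : Bool) (N : List (Tm ι)) : szL N < szL (far P i d N) := by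
  obtain ⟨R, hR⟩ := far_cons (P := P) i d N
  rw [hR, szL_cons, sz_op]
  omega

/-- Induction principle: a property of paths that is invariant under removing the far side of a
cell (in both directions) and holds for irreducible paths. -/
theorem Pth.red_induction {o o' : Vx ι} {motive : List (Tm ι) → Prop}
    (irr : ∀ M, Pth P w o M o' → Irr P M → motive M)
    (red : ∀ A i d N B, Pth P w o A (srcL N) → ValC P w i d N → Pth P w (tgtL P N) B o' →
      Pth P w o (A ++ N ++ B) o' → Pth P w o (A ++ far P i d N ++ B) o' →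
      motive (A ++ N ++ B) → motive (A ++ far P i d N ++ B)) :
    ∀ M, Pth P w o M o' → motive M := by
  suffices H : ∀ (n : ℕ) M, szL M = n → Pth P w o M o' → motive M from
    fun M hM => H _ M rfl hM
  intro n
  induction n using Nat.strong_induction_on with
  | _ n ih =>
    intro M hn hM
    by_cases hI : Irr P M
    · exact irr M hM hI
    · unfold Irr at hI
      push Not at hI
      obtain ⟨A, i, d, N, B, rfl⟩ := hI
      obtain ⟨h1, h2, h3⟩ := hM.red
      have h4 := h2.pth_insert h1 h3
      refine red A i d N B h1 h2 h3 h4.2 hM (ih (szL (A ++ N ++ B)) ?_ _ rfl h4.2)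
      have := szL_lt_far (P := P) i d N
      rw [← hn, szL_append, szL_append, szL_append, szL_append]
      omega

/-- the root path -/
def baseL (ι : Type v) (n : ℕ) : List (Tm ι) := (List.range n).map Tm.gen

theorem ch_gens (k m : ℕ) :
    Ch P (.base k) ((List.range' k m).map Tm.gen) (.base (k + m)) := by
  induction m generalizing k with
  | zero => exact rfl
  | succ m ih =>
    rw [List.range'_succ, List.map_cons]
    refine ⟨by rw [src_gen], ?_⟩
    rw [tgt_gen]
    have := ih (k + 1)
    rwa [show k + 1 + m = k + (m + 1) by omega] at this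

theorem pth_gens {k m : ℕ} (h : k + m ≤ w.length) :
    Pth P w (.base k) ((List.range' k m).map Tm.gen) (.base (k + m)) := by
  refine ⟨ch_gens k m, fun t ht => ?_⟩
  simp only [List.mem_map, List.mem_range'_1] at ht
  obtain ⟨j, hj, rfl⟩ := ht
  exact .gen j (by omega)

theorem pth_base : Pth P w (.base 0) (baseL ι w.length) (.base w.length) := by
  have := pth_gens (P := P) (w := w) (k := 0) (m := w.length) (by omega)
  simpa [baseL, List.range_eq_range'] using this

theorem irr_gens (l : List ℕ) : Irr P (l.map Tm.gen) := by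
  intro A i d N B h
  obtain ⟨R, hR⟩ := far_cons (P := P) i d N
  have h1 : Tm.op i d 0 N ∈ l.map Tm.gen := by
    rw [h, hR]; simp
  obtain ⟨k, -, hk⟩ := List.mem_map.1 h1
  exact Tm.op_ne_gen hk.symm

theorem irr_base (n : ℕ) : Irr P (baseL ι n) := irr_gens _

theorem Irr.eq_base {M : List (Tm ι)} (h : Pth P w (.base 0) M (.base w.length)) (hI : Irr P M) :
    M = baseL ι w.length :=
  Irr.unique _ rfl h pth_base hI (irr_base _)

end DG
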