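import Pool.Agent.Lib.MP_86f51d_al.Model2

/-!
# The term model: crossing cells, the action of edge paths of the Squier complex
-/

namespace DG

open SemigroupPresentation

universe u v

variable {α : Type u} {ι : Type v} (P : SemigroupPresentation α ι)

open Classical in
/-- Crossing the cell attached along `M` by the relation `i` in direction `d`: if `M` is the far
side of a cell attached by `i` in the opposite direction we go back, otherwise we create a cell. -/
noncomputable def cross (i : ι) (d : Bool) (M : List (Tm ι)) : List (Tm ι) :=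
  if h : ∃ N, M = far P i (!d) N then h.choose else far P i d M

/-- action of an oriented edge of the Squier complex on a list of terms (of the right length). -/
noncomputable def actE (e : Edge α ι) (x : List (Tm ι)) : List (Tm ι) :=
  x.take e.pre.length ++
    cross P e.rel e.dir ((x.drop e.pre.length).take (P.side e.rel e.dir).length) ++
    x.drop (e.pre.length + (P.side e.rel e.dir).length)

/-- action of an edge path. -/
noncomputable def actP (p : List (Edge α ι)) (x : List (Tm ι)) : List (Tm ι) :=
  p.foldl (fun x e => actE P e x) x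

variable {P}

@[simp] theorem actP_nil (x : List (Tm ι)) : actP P [] x = x := rfl

@[simp] theorem actP_cons (e : Edge α ι) (p : List (Edge α ι)) (x : List (Tm ι)) :
    actP P (e :: p) x = actP P p (actE P e x) := rfl

theorem actP_append (p q : List (Edge α ι)) (x : List (Tm ι)) :
    actP P (p ++ q) x = actP P q (actP P p x) := by
  simp [actP, List.foldl_append]

theorem cross_far (i : ι) (d : Bool) (N : List (Tm ι)) : cross P i d (far P i (!d) N) = N := by
  have h : ∃ N', far P i (!d) N = far P i (!d) N' := ⟨N, rfl⟩
  rw [cross, dif_pos h]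
  exact (far_inj h.choose_spec).2.2.symm

theorem cross_of_not_far {i : ι} {d : Bool} {M : List (Tm ι)} (h : ∀ N, M ≠ far P i (!d) N) :
    cross P i d M = far P i d M := by
  rw [cross, dif_neg (by push Not; exact h)]

/-- valid labelled pieces: what a cell can be attached to. -/
structure Piece (P : SemigroupPresentation α ι) (w : List α) (i : ι) (d : Bool)
    (M : List (Tm ι)) : Prop where
  pth : Pth P w (srcL M) M (tgtL P M)
  lab_eq : M.map (lab P w) = (P.side i d).map some

variable {w : List α}

theorem ValC.piece {i : ι} {d : Bool} {N : List (Tm ι)} (h : ValC P w i d N) :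
    Piece P w i d N := ⟨h.pth, h.lab_eq⟩

theorem lab_far (w : List α) (i : ι) (d : Bool) (N : List (Tm ι)) :
    (far P i d N).map (lab P w) = (P.side i (!d)).map some := by
  apply List.ext_getElem
  · simp [far]
  · intro n h1 h2
    simp only [List.length_map, length_far] at h1
    simp [far, lab_op, h1]

theorem ValC.piece_far {i : ι} {d : Bool} {N : List (Tm ι)} (h : ValC P w i d N) :
    Piece P w i (!d) (far P i d N) := by
  refine ⟨?_, lab_far w i d N⟩
  exact h.pth_far.canon (far_ne_nil i d N)

theorem Piece.ne_nil {i : ι} {d : Bool} {N : List (Tm ι)} (h : Piece P w i d N) : N ≠ [] := by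
  rintro rfl
  have := congrArg List.length h.lab_eq
  have h6 := side_pos P i d
  simp at this
  omega

theorem Piece.length_eq {i : ι} {d : Bool} {N : List (Tm ι)} (h : Piece P w i d N) :
    N.length = (P.side i d).length := by
  simpa using congrArg List.length h.lab_eq

/-- the two cases of a piece: far side of a valid cell, or near side of a valid cell. -/
theorem Piece.cases {i : ι} {d : Bool} {M : List (Tm ι)} (h : Piece P w i d M) :
    (∃ N, M = far P i (!d) N ∧ ValC P w i (!d) N ∧ cross P i d M = N) ∨
      (ValC P w i d M ∧ cross P i d M = far P i d M) := by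
  by_cases hM : ∃ N, M = far P i (!d) N
  · left
    obtain ⟨N, rfl⟩ := hM
    exact ⟨N, rfl, valC_of_far h.pth.2, cross_far i d N⟩
  · right
    push Not at hM
    exact ⟨⟨h.pth, h.lab_eq, hM⟩, cross_of_not_far hM⟩

theorem Piece.cross {i : ι} {d : Bool} {M : List (Tm ι)} (h : Piece P w i d M) :
    Piece P w i (!d) (cross P i d M) := by
  rcases h.cases with ⟨N, rfl, hN, e⟩ | ⟨hM, e⟩
  · rw [e]; exact hN.piece
  · rw [e]; exact hM.piece_far

theorem Piece.cross_cross {i : ι} {d : Bool} {M : List (Tm ι)} (h : Piece P w i d M) :
    DG.cross P i (!d) (DG.cross P i d M) = M := by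
  rcases h.cases with ⟨N, rfl, hN, e⟩ | ⟨hM, e⟩
  · rw [e]
    exact cross_of_not_far hN.not_far
  · rw [e]
    have := cross_far (P := P) i (!d) M
    rwa [Bool.not_not] at this

theorem Piece.srcL_cross {i : ι} {d : Bool} {M : List (Tm ι)} (h : Piece P w i d M) :
    srcL (DG.cross P i d M) = srcL M := by
  rcases h.cases with ⟨N, rfl, hN, e⟩ | ⟨hM, e⟩
  · rw [e]; exact ((ch_far i (!d) N).srcL_eq (far_ne_nil _ _ _)).symm
  · rw [e]; exact ((ch_far i d M).srcL_eq (far_ne_nil _ _ _))

theorem Piece.tgtL_cross {i : ι} {d : Bool} {M : List (Tm ι)} (h : Piece P w i d M) :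
    tgtL P (DG.cross P i d M) = tgtL P M := by
  rcases h.cases with ⟨N, rfl, hN, e⟩ | ⟨hM, e⟩
  · rw [e]; exact ((ch_far i (!d) N).tgtL_eq (far_ne_nil _ _ _)).symm
  · rw [e]; exact ((ch_far i d M).tgtL_eq (far_ne_nil _ _ _))

/-- Full paths over `w` with the label word `u`. -/
structure Full (P : SemigroupPresentation α ι) (w u : List α) (x : List (Tm ι)) : Prop where
  pth : Pth P w (.base 0) x (.base w.length)
  lab_eq : x.map (lab P w) = u.map some

theorem Full.length_eq {u : List α} {x : List (Tm ι)} (h : Full P w u x) :
    x.length = u.length := by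
  simpa using congrArg List.length h.lab_eq

theorem full_base : Full P w w (baseL ι w.length) := by
  refine ⟨pth_base, ?_⟩
  apply List.ext_getElem
  · simp [baseL]
  · intro n h1 h2
    simp only [List.length_map] at h2
    simp [baseL, lab_gen, h2]

/-- decomposition of a full path along a decomposition of its label word. -/
theorem Full.decomp {a b : List α} {i : ι} {d : Bool} {x : List (Tm ι)}
    (h : Full P w (a ++ P.side i d ++ b) x) :
    ∃ A M B, x = A ++ M ++ B ∧ A.map (lab P w) = a.map some ∧ Piece P w i d M ∧
      B.map (lab P w) = b.map some ∧ A.length = a.length ∧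
      Pth P w (.base 0) A (srcL M) ∧ Pth P w (tgtL P M) B (.base w.length) := by
  have h1 := h.lab_eq
  rw [List.map_append, List.map_append, List.map_eq_append_iff] at h1
  obtain ⟨AM, B, rfl, hAM, hB⟩ := h1
  rw [List.map_eq_append_iff] at hAM
  obtain ⟨A, M, rfl, hA, hM⟩ := hAM
  obtain ⟨m, h2, h3⟩ := h.pth.split
  obtain ⟨m', h4, h5⟩ := h2.split
  have hMne : M ≠ [] := by
    rintro rfl
    have := congrArg List.length hM
    have h6 := side_pos P i d
    simp at this
    omega
  have e1 := h5.1.srcL_eq hMne
  have e2 := h5.1.tgtL_eq hMne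
  refine ⟨A, M, B, rfl, hA, ⟨h5.canon hMne, hM⟩, hB, by simpa using congrArg List.length hA, ?_, ?_⟩
  · rw [e1]; exact h4
  · rw [e2]; exact h3

theorem actE_eq {a b : List α} {i : ι} {d : Bool} {A M B : List (Tm ι)}
    (hA : A.length = a.length) (hM : M.length = (P.side i d).length) :
    actE P ⟨a, i, d, b⟩ (A ++ M ++ B) = A ++ cross P i d M ++ B := by
  unfold actE
  simp only
  rw [← hA, ← hM]
  have e1 : (A ++ M ++ B).take A.length = A := by
    rw [List.append_assoc, List.take_left]
  have e2 : ((A ++ M ++ B).drop A.length).take M.length = M := by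
    rw [List.append_assoc, List.drop_left, List.take_left]
  have e3 : (A ++ M ++ B).drop (A.length + M.length) = B := by
    rw [← List.length_append, List.drop_left]
  rw [e1, e2, e3]

/-- replacing a piece by crossing. -/
theorem Full.cross_mid {a b : List α} {i : ι} {d : Bool} {A M B : List (Tm ι)}
    (hA : Pth P w (.base 0) A (srcL M)) (hAl : A.map (lab P w) = a.map some)
    (hM : Piece P w i d M) (hB : Pth P w (tgtL P M) B (.base w.length))
    (hBl : B.map (lab P w) = b.map some) :
    Full P w (a ++ P.side i (!d) ++ b) (A ++ cross P i d M ++ B) := by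
  refine ⟨?_, ?_⟩
  · have h1 := hM.cross.pth
    rw [hM.srcL_cross, hM.tgtL_cross] at h1
    exact (hA.append h1).append hB
  · rw [List.map_append, List.map_append, hAl, hBl, hM.cross.lab_eq, List.map_append,
      List.map_append]

/-- an oriented edge of the Squier complex maps full paths labelled by its source to full paths
labelled by its target. -/
theorem Full.actE {e : Edge α ι} {x : List (Tm ι)} (h : Full P w (P.source e) x) :
    Full P w (P.target e) (actE P e x) := by
  obtain ⟨a, i, d, b⟩ := e
  obtain ⟨A, M, B, rfl, hAl, hM, hBl, hlen, hA, hB⟩ := Full.decomp (show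
    Full P w (a ++ P.side i d ++ b) x from h)
  rw [actE_eq hlen hM.length_eq]
  exact Full.cross_mid hA hAl hM hB hBl

theorem Full.actP {u v : List α} {p : List (Edge α ι)} {x : List (Tm ι)} (h : Full P w u x)
    (hp : P.IsPath u p v) : Full P w v (actP P p x) := by
  induction p generalizing u x with
  | nil => cases hp; exact h
  | cons e p ih =>
    obtain ⟨h1, h2⟩ := hp
    subst h1
    exact ih h.actE h2

end DG
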