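import Pool.Agent.Lib.MP_86f51d_al.Model3

/-!
# The term model: substitution (change of the root path, action of the groupoid)
-/

namespace DG

open SemigroupPresentation

universe u v

variable {α : Type u} {ι : Type v} (P : SemigroupPresentation α ι)

/-- substitution of the edges of `x` for the edges of the root path. -/
noncomputable def subst (x : List (Tm ι)) : Tm ι → Tm ι :=
  Tm.fold (fun k => x.getD k (.gen 0)) (fun i d j _ l => (cross P i d l).getD j (.gen 0))

theorem subst_gen (x : List (Tm ι)) (k : ℕ) : subst P x (.gen k) = x.getD k (.gen 0) := rfl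

theorem subst_op (x : List (Tm ι)) (i : ι) (d : Bool) (j : ℕ) (N : List (Tm ι)) :
    subst P x (.op i d j N) = (cross P i d (N.map (subst P x))).getD j (.gen 0) := by
  unfold subst
  rw [Tm.fold_op]

/-- the vertex with number `j` on a path. -/
noncomputable def vert (M : List (Tm ι)) (j : ℕ) : Vx ι :=
  if j = 0 then srcL M else tgt P (M.getD (j - 1) (.gen 0))

/-- substitution on vertices. -/
noncomputable def substV (x : List (Tm ι)) : Vx ι → Vx ι
  | .base k => vert P x k
  | .inner i d N j => vert P (cross P i d (N.map (subst P x))) j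

variable {P}

theorem getD_eq_getElem' {M : List (Tm ι)} {j : ℕ} (h : j < M.length) :
    M.getD j (.gen 0) = M[j] := by
  simp [List.getD, h]

theorem Ch.src_getElem {o o' : Vx ι} {M : List (Tm ι)} (h : Ch P o M o') {j : ℕ}
    (hj : j < M.length) : src M[j] = vert P M j := by
  induction M generalizing o j with
  | nil => simp at hj
  | cons t M ih =>
    cases j with
    | zero => simp [vert, srcL]
    | succ j =>
      have hj' : j < M.length := by simpa using hj
      rw [List.getElem_cons_succ, ih h.2 hj']
      unfold vert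
      simp only [Nat.succ_ne_zero, if_false]
      cases j with
      | zero =>
        have := h.2.srcL_eq (P := P) (M := M) (by rintro rfl; simp at hj')
        simp [this]
      | succ j => simp

theorem tgt_getElem {M : List (Tm ι)} {j : ℕ} (hj : j < M.length) :
    tgt P M[j] = vert P M (j + 1) := by
  unfold vert
  simp [hj]

theorem vert_zero (M : List (Tm ι)) : vert P M 0 = srcL M := by simp [vert]

theorem vert_length {M : List (Tm ι)} (hM : M ≠ []) : vert P M M.length = tgtL P M := by
  rcases List.eq_nil_or_concat' M with rfl | ⟨M, t, rfl⟩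
  · exact absurd rfl hM
  · rw [tgtL_append_singleton]
    simp [vert]

variable {w u' : List α}

/-- what we prove about the substitution -/
structure SubstOK (P : SemigroupPresentation α ι) (w u : List α) (x : List (Tm ι)) (t : Tm ι) :
    Prop where
  val : Val P w (subst P x t)
  lab_eq : lab P w (subst P x t) = lab P u t
  src_eq : src (subst P x t) = substV P x (src t)
  tgt_eq : tgt P (subst P x t) = substV P x (tgt P t)

theorem SubstOK.ch {u : List α} {x : List (Tm ι)} {N : List (Tm ι)}
    (h : ∀ t ∈ N, SubstOK P w u x t) {o o' : Vx ι} (hN : Ch P o N o') :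
    Ch P (substV P x o) (N.map (subst P x)) (substV P x o') := by
  induction N generalizing o with
  | nil => cases hN; exact rfl
  | cons t N ih =>
    have ht := h t (by simp)
    refine ⟨?_, ?_⟩
    · rw [ht.src_eq, hN.1]
    · rw [ht.tgt_eq]
      exact ih (fun s hs => h s (by simp [hs])) hN.2

theorem SubstOK.piece {u : List α} {x : List (Tm ι)} {N : List (Tm ι)} {i : ι} {d : Bool}
    (h : ∀ t ∈ N, SubstOK P w u x t) (hN : Piece P u i d N) :
    Piece P w i d (N.map (subst P x)) := by
  refine ⟨?_, ?_⟩
  · have h1 := SubstOK.ch h hN.pth.1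
    have h2 : Pth P w (substV P x (srcL N)) (N.map (subst P x)) (substV P x (tgtL P N)) := by
      refine ⟨h1, fun t ht => ?_⟩
      obtain ⟨s, hs, rfl⟩ := List.mem_map.1 ht
      exact (h s hs).val
    exact h2.canon (by simpa using hN.ne_nil)
  · rw [← hN.lab_eq, List.map_map]
    apply List.map_congr_left
    intro t ht
    exact (h t ht).lab_eq

theorem SubstOK.srcL_eq {u : List α} {x : List (Tm ι)} {N : List (Tm ι)}
    (h : ∀ t ∈ N, SubstOK P w u x t) (hN : Ch P (srcL N) N (tgtL P N)) (hne : N ≠ []) :
    srcL (N.map (subst P x)) = substV P x (srcL N) :=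
  (SubstOK.ch h hN).srcL_eq (by simpa using hne)

theorem SubstOK.tgtL_eq {u : List α} {x : List (Tm ι)} {N : List (Tm ι)}
    (h : ∀ t ∈ N, SubstOK P w u x t) (hN : Ch P (srcL N) N (tgtL P N)) (hne : N ≠ []) :
    tgtL P (N.map (subst P x)) = substV P x (tgtL P N) :=
  (SubstOK.ch h hN).tgtL_eq (by simpa using hne)

theorem Full.substOK {u : List α} {x : List (Tm ι)} (hx : Full P w u x) {t : Tm ι}
    (ht : Val P u t) : SubstOK P w u x t := by
  induction ht with
  | gen k hk =>
    have hk' : k < x.length := by rw [hx.length_eq]; exact hk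
    have e : subst P x (.gen k) = x[k] := by rw [subst_gen, getD_eq_getElem' hk']
    refine ⟨?_, ?_, ?_, ?_⟩
    · rw [e]; exact hx.pth.2 _ (List.getElem_mem _)
    · rw [e]
      have h1 : (x.map (lab P w))[k]? = (u.map some)[k]? := by rw [hx.lab_eq]
      simp only [List.getElem?_map, List.getElem?_eq_getElem hk', List.getElem?_eq_getElem hk,
        Option.map_some, Option.some.injEq] at h1
      rw [h1, lab_gen, List.getElem?_eq_getElem hk]
    · rw [e, hx.pth.1.src_getElem hk', src_gen, substV]
    · rw [e, tgt_getElem hk', tgt_gen, substV]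
  | op i d j N h1 h2 h3 h4 h5 ih =>
    have hv : Val P u (.op i d j N) := .op i d j N h1 h2 h3 h4 h5
    have hC := hv.valC
    have hp : Piece P w i d (N.map (subst P x)) := SubstOK.piece ih hC.piece
    have hq := hp.cross
    have hj : j < (cross P i d (N.map (subst P x))).length := by rw [hq.length_eq]; exact h4
    have e : subst P x (.op i d j N) = (cross P i d (N.map (subst P x)))[j] := by
      rw [subst_op, getD_eq_getElem' hj]
    refine ⟨?_, ?_, ?_, ?_⟩
    · rw [e]; exact hq.pth.2 _ (List.getElem_mem _)
    · rw [e]
      have h6 : ((cross P i d (N.map (subst P x))).map (lab P w))[j]?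
          = ((P.side i (!d)).map some)[j]? := by rw [hq.lab_eq]
      simp only [List.getElem?_map, List.getElem?_eq_getElem hj, List.getElem?_eq_getElem h4,
        Option.map_some, Option.some.injEq] at h6
      rw [h6, lab_op, List.getElem?_eq_getElem h4]
    · rw [e, hq.pth.1.src_getElem hj, src_op]
      split_ifs with h0
      · subst h0
        rw [vert_zero, hp.srcL_cross, SubstOK.srcL_eq ih hC.pth.1 hC.ne_nil]
      · rw [substV]
    · rw [e, tgt_getElem hj, tgt_op]
      split_ifs with h0
      · rw [h0, ← hq.length_eq, vert_length hq.ne_nil, hp.tgtL_cross,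
          SubstOK.tgtL_eq ih hC.pth.1 hC.ne_nil]
      · rw [substV]

theorem Pth.subst {u : List α} {x : List (Tm ι)} (hx : Full P w u x) {o o' : Vx ι}
    {M : List (Tm ι)} (hM : Pth P u o M o') :
    Pth P w (substV P x o) (M.map (DG.subst P x)) (substV P x o') := by
  refine ⟨SubstOK.ch (fun t ht => hx.substOK (hM.2 t ht)) hM.1, fun t ht => ?_⟩
  obtain ⟨s, hs, rfl⟩ := List.mem_map.1 ht
  exact (hx.substOK (hM.2 s hs)).val

theorem Piece.subst {u : List α} {x : List (Tm ι)} (hx : Full P w u x) {i : ι} {d : Bool}
    {M : List (Tm ι)} (hM : Piece P u i d M) : Piece P w i d (M.map (DG.subst P x)) :=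
  SubstOK.piece (fun t ht => hx.substOK (hM.pth.2 t ht)) hM

theorem far_map_subst {u : List α} {x : List (Tm ι)} (hx : Full P w u x) {i : ι} {d : Bool}
    {N : List (Tm ι)} (hN : Piece P u i d N) :
    (far P i d N).map (DG.subst P x) = DG.cross P i d (N.map (DG.subst P x)) := by
  have hp := (hN.subst hx).cross
  apply List.ext_getElem
  · rw [List.length_map, length_far, hp.length_eq]
  · intro j h1 h2
    rw [List.getElem_map, getElem_far, subst_op, getD_eq_getElem' h2]

theorem cross_map_subst {u : List α} {x : List (Tm ι)} (hx : Full P w u x) {i : ι} {d : Bool}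
    {M : List (Tm ι)} (hM : Piece P u i d M) :
    (DG.cross P i d M).map (DG.subst P x) = DG.cross P i d (M.map (DG.subst P x)) := by
  rcases hM.cases with ⟨N, rfl, hN, e⟩ | ⟨hM', e⟩
  · rw [e, far_map_subst hx hN.piece]
    have := (hN.piece.subst hx).cross_cross
    rw [Bool.not_not] at this
    exact this.symm
  · rw [e, far_map_subst hx hM]

theorem substV_base_zero {u : List α} {x : List (Tm ι)} (hx : Full P w u x) :
    substV P x (.base 0) = .base 0 := by
  rw [substV, vert_zero]
  cases x with
  | nil => rw [srcL]
  | cons t x => rw [srcL]; exact hx.pth.1.1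

theorem substV_base_top {u : List α} {x : List (Tm ι)} (hx : Full P w u x) :
    substV P x (.base u.length) = .base w.length := by
  rw [substV, ← hx.length_eq]
  by_cases h : x = []
  · subst h
    have := hx.pth.nil_eq
    rw [List.length_nil, vert_zero, srcL, this]
  · rw [vert_length h, hx.pth.1.tgtL_eq h]

theorem Full.subst {u : List α} {x : List (Tm ι)} (hx : Full P w u x) {y : List (Tm ι)}
    (hy : Full P u u' y) : Full P w u' (y.map (DG.subst P x)) := by
  refine ⟨?_, ?_⟩
  · have := hy.pth.subst hx
    rwa [substV_base_zero hx, substV_base_top hx] at this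
  · rw [← hy.lab_eq, List.map_map]
    apply List.map_congr_left
    intro t ht
    exact (hx.substOK (hy.pth.2 t ht)).lab_eq

theorem actE_map_subst {u : List α} {x : List (Tm ι)} (hx : Full P w u x) {e : Edge α ι}
    {y : List (Tm ι)} (hy : Full P u (P.source e) y) :
    (actE P e y).map (DG.subst P x) = actE P e (y.map (DG.subst P x)) := by
  obtain ⟨a, i, d, b⟩ := e
  obtain ⟨A, M, B, rfl, hAl, hM, hBl, hlen, hA, hB⟩ := Full.decomp (show
    Full P u (a ++ P.side i d ++ b) y from hy)
  rw [actE_eq hlen hM.length_eq, List.map_append, List.map_append, List.map_append,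
    List.map_append, cross_map_subst hx hM]
  rw [actE_eq (by rw [List.length_map]; exact hlen) (by rw [List.length_map]; exact hM.length_eq)]

theorem actP_map_subst {u : List α} {x : List (Tm ι)} (hx : Full P w u x) {p : List (Edge α ι)}
    {u' v : List α} (hp : P.IsPath u' p v) {y : List (Tm ι)} (hy : Full P u u' y) :
    (actP P p y).map (DG.subst P x) = actP P p (y.map (DG.subst P x)) := by
  induction p generalizing u' y with
  | nil => rfl
  | cons e p ih =>
    obtain ⟨h1, h2⟩ := hp
    subst h1
    rw [actP_cons, actP_cons, ih h2 hy.actE, actE_map_subst hx hy]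

theorem subst_subst {u u' : List α} {x y : List (Tm ι)} (hx : Full P w u x)
    (hy : Full P u u' y) {t : Tm ι} (ht : Val P u' t) :
    DG.subst P x (DG.subst P y t) = DG.subst P (y.map (DG.subst P x)) t := by
  induction ht with
  | gen k hk =>
    have hk' : k < y.length := by rw [hy.length_eq]; exact hk
    rw [subst_gen, subst_gen, getD_eq_getElem' hk', getD_eq_getElem' (by simpa using hk'),
      List.getElem_map]
  | op i d j N h1 h2 h3 h4 h5 ih =>
    have hv : Val P u' (.op i d j N) := .op i d j N h1 h2 h3 h4 h5
    have hC := hv.valC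
    have hp := hC.piece.subst hy
    have hq := hp.cross
    have hj : j < (DG.cross P i d (N.map (DG.subst P y))).length := by
      rw [hq.length_eq]; exact h4
    rw [subst_op, subst_op, getD_eq_getElem' hj]
    have e1 : N.map (DG.subst P (y.map (DG.subst P x)))
        = (N.map (DG.subst P y)).map (DG.subst P x) := by
      rw [List.map_map]
      apply List.map_congr_left
      intro t ht
      exact (ih t ht).symm
    rw [e1, ← cross_map_subst hx hp, getD_eq_getElem' (by rw [List.length_map]; exact hj),
      List.getElem_map]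

theorem subst_baseL {t : Tm ι} (ht : Val P w t) : DG.subst P (baseL ι w.length) t = t := by
  induction ht with
  | gen k hk =>
    rw [subst_gen, getD_eq_getElem' (by simpa [baseL] using hk)]
    simp [baseL]
  | op i d j N h1 h2 h3 h4 h5 ih =>
    have e1 : N.map (DG.subst P (baseL ι w.length)) = N := by
      conv_rhs => rw [← List.map_id N]
      apply List.map_congr_left
      intro t ht
      exact ih t ht
    rw [subst_op, e1, cross_of_not_far h5,
      getD_eq_getElem' (by rw [length_far]; exact h4), getElem_far]

/-- valid vertices -/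
def ValV (P : SemigroupPresentation α ι) (w : List α) (o : Vx ι) : Prop :=
  ∃ L R, Pth P w (.base 0) L o ∧ Pth P w o R (.base w.length)

theorem ValV.subst {u : List α} {x : List (Tm ι)} (hx : Full P w u x) {o : Vx ι}
    (ho : ValV P u o) : ValV P w (substV P x o) := by
  obtain ⟨L, R, hL, hR⟩ := ho
  have h1 := hL.subst hx
  rw [substV_base_zero hx] at h1
  have h2 := hR.subst hx
  rw [substV_base_top hx] at h2
  exact ⟨_, _, h1, h2⟩

theorem ValV.eq_base_or_tgt {o : Vx ι} (ho : ValV P w o) :
    o = .base 0 ∨ ∃ t, Val P w t ∧ o = tgt P t := by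
  obtain ⟨L, R, hL, hR⟩ := ho
  rcases List.eq_nil_or_concat' L with rfl | ⟨L, t, rfl⟩
  · left; exact hL.nil_eq.symm
  · right
    obtain ⟨m, h1, h2⟩ := hL.split
    exact ⟨t, h2.2 t (by simp), h2.1.2.symm⟩

theorem substV_substV {u u' : List α} {x y : List (Tm ι)} (hx : Full P w u x)
    (hy : Full P u u' y) {o : Vx ι} (ho : ValV P u' o) :
    substV P x (substV P y o) = substV P (y.map (DG.subst P x)) o := by
  rcases ho.eq_base_or_tgt with rfl | ⟨t, ht, rfl⟩
  · rw [substV_base_zero hy, substV_base_zero hx, substV_base_zero (hx.subst hy)]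
  · have h1 := hy.substOK ht
    rw [← h1.tgt_eq, ← (hx.substOK h1.val).tgt_eq, subst_subst hx hy ht,
      ((hx.subst hy).substOK ht).tgt_eq]

theorem substV_baseL {o : Vx ι} (ho : ValV P w o) : substV P (baseL ι w.length) o = o := by
  rcases ho.eq_base_or_tgt with rfl | ⟨t, ht, rfl⟩
  · rw [substV_base_zero full_base]
  · rw [← (full_base.substOK ht).tgt_eq, subst_baseL ht]

end DG
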