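import Pool.Agent.Lib.MP_86f51d_al.Model4

/-!
# The term model: cells, the set of cells below a path, crossing
-/

namespace DG

open SemigroupPresentation

universe u v

variable {α : Type u} {ι : Type v} (P : SemigroupPresentation α ι)

/-- cells: relation, direction, near side -/
abbrev Cell (ι : Type v) := ι × Bool × List (Tm ι)

noncomputable instance cellDec : DecidableEq (Cell ι) := Classical.decEq _

/-- cells occurring in a term -/
noncomputable def cs : Tm ι → Finset (Cell ι) :=
  Tm.fold (fun _ => ∅) (fun i d _ N l => insert (i, d, N) (l.foldr (· ∪ ·) ∅))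

/-- cells occurring in a list of terms -/
noncomputable def csL : List (Tm ι) → Finset (Cell ι)
  | [] => ∅
  | t :: N => cs t ∪ csL N

theorem cs_gen (k : ℕ) : cs (Tm.gen k : Tm ι) = ∅ := rfl

theorem foldr_map_cs (N : List (Tm ι)) : (N.map cs).foldr (· ∪ ·) ∅ = csL N := by
  induction N with
  | nil => rfl
  | cons t N ih => rw [List.map_cons, List.foldr_cons, ih, csL]

theorem cs_op (i : ι) (d : Bool) (j : ℕ) (N : List (Tm ι)) :
    cs (Tm.op i d j N) = insert (i, d, N) (csL N) := by
  rw [← foldr_map_cs]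
  unfold cs
  rw [Tm.fold_op]

theorem mem_csL {c : Cell ι} {M : List (Tm ι)} : c ∈ csL M ↔ ∃ t ∈ M, c ∈ cs t := by
  induction M with
  | nil => simp [csL]
  | cons t M ih => simp [csL, ih]

theorem csL_append (M N : List (Tm ι)) : csL (M ++ N) = csL M ∪ csL N := by
  ext c
  simp only [mem_csL, Finset.mem_union, List.mem_append]
  constructor
  · rintro ⟨t, h | h, hc⟩
    · exact Or.inl ⟨t, h, hc⟩
    · exact Or.inr ⟨t, h, hc⟩
  · rintro (⟨t, h, hc⟩ | ⟨t, h, hc⟩)
    · exact ⟨t, Or.inl h, hc⟩
    · exact ⟨t, Or.inr h, hc⟩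

theorem mem_cs_op {c : Cell ι} {i : ι} {d : Bool} {j : ℕ} {N : List (Tm ι)} :
    c ∈ cs (.op i d j N) ↔ c = (i, d, N) ∨ c ∈ csL N := by
  simp [cs_op]

theorem csL_far (i : ι) (d : Bool) (N : List (Tm ι)) :
    csL (far P i d N) = insert (i, d, N) (csL N) := by
  ext c
  simp only [mem_csL, mem_far]
  constructor
  · rintro ⟨t, ⟨j, hj, rfl⟩, hc⟩
    simpa [cs_op] using hc
  · intro hc
    obtain ⟨R, hR⟩ := far_cons (P := P) i d N
    exact ⟨.op i d 0 N, ⟨0, side_pos P i (!d), rfl⟩, by simpa [cs_op] using hc⟩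

theorem csL_sub_of_mem {c : Cell ι} {t : Tm ι} (h : c ∈ cs t) : csL c.2.2 ⊆ cs t := by
  induction t using Tm.ind with
  | gen k => simp [cs_gen] at h
  | op i d j N ih =>
    rw [mem_cs_op] at h
    rcases h with rfl | h
    · rw [cs_op]; exact Finset.subset_insert _ _
    · obtain ⟨s, hs, hc⟩ := mem_csL.1 h
      have h1 := ih s hs hc
      rw [cs_op]
      refine (h1.trans ?_).trans (Finset.subset_insert _ _)
      intro c' hc'
      exact mem_csL.2 ⟨s, hs, hc'⟩

theorem csL_sub_of_memL {c : Cell ι} {M : List (Tm ι)} (h : c ∈ csL M) : csL c.2.2 ⊆ csL M := by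
  obtain ⟨t, ht, hc⟩ := mem_csL.1 h
  intro c' hc'
  exact mem_csL.2 ⟨t, ht, csL_sub_of_mem hc hc'⟩

theorem szL_lt_of_mem {c : Cell ι} {t : Tm ι} (h : c ∈ cs t) : szL c.2.2 < t.sz := by
  induction t using Tm.ind with
  | gen k => simp [cs_gen] at h
  | op i d j N ih =>
    rw [mem_cs_op] at h
    rw [sz_op]
    rcases h with rfl | h
    · show szL N < _
      omega
    · obtain ⟨s, hs, hc⟩ := mem_csL.1 h
      have h1 := ih s hs hc
      have h2 := sz_le_szL hs
      omega

theorem szL_lt_of_memL {c : Cell ι} {M : List (Tm ι)} (h : c ∈ csL M) : szL c.2.2 < szL M := by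
  obtain ⟨t, ht, hc⟩ := mem_csL.1 h
  exact (szL_lt_of_mem hc).trans_le (sz_le_szL ht)

theorem not_mem_csL_self (i : ι) (d : Bool) (N : List (Tm ι)) : (i, d, N) ∉ csL N := by
  intro h
  exact lt_irrefl _ (szL_lt_of_memL h)

theorem csL_gens (l : List ℕ) : csL (l.map (Tm.gen (ι := ι))) = ∅ := by
  ext c
  simp [mem_csL, cs_gen]

theorem csL_base (n : ℕ) : csL (baseL ι n) = ∅ := csL_gens _

variable {P} {w : List α}

theorem Pth.pot_mem {o o' : Vx ι} {M : List (Tm ι)} (h : Pth P w o M o') {t : Tm ι}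
    (ht : t ∈ M) : pot P o ≤ lo P t ∧ hi P t ≤ pot P o' := by
  obtain ⟨A, B, rfl⟩ := List.append_of_mem ht
  obtain ⟨m, h1, h2⟩ := h.split
  have h3 : src t = m := h2.1.1
  have h4 := h1.pot_le
  have h5 : Pth P w (tgt P t) B o' := ⟨h2.1.2, fun s hs => h2.2 s (by simp [hs])⟩
  have h6 := h5.pot_le
  rw [← pot_src, ← pot_tgt, h3]
  exact ⟨h4, h6⟩

/-- paths have no repeated edges -/
theorem Pth.disjoint {o o' : Vx ι} {A B : List (Tm ι)} (h : Pth P w o (A ++ B) o')
    {t : Tm ι} (hA : t ∈ A) (hB : t ∈ B) : False := by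
  obtain ⟨m, h1, h2⟩ := h.split
  have h3 := (h1.pot_mem hA).2
  have h4 := (h2.pot_mem hB).1
  have h5 := (h1.2 t hA).lo_lt_hi
  linarith

/-- no edge of a full path occurs strictly below an edge of this path -/
theorem Pth.not_mem_of_cell {x : List (Tm ι)}
    (h : Pth P w (.base 0) x (.base w.length)) :
    ∀ c ∈ csL x, ∀ t ∈ c.2.2, t ∉ x := by
  refine Pth.red_induction (P := P) (w := w) (o := .base 0) (o' := .base w.length)
    (motive := fun x => ∀ c ∈ csL x, ∀ t ∈ c.2.2, t ∉ x) ?_ ?_ x h
  · intro M hM hI c hc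
    rw [hI.eq_base hM, csL_base] at hc
    simp at hc
  · intro A i d N B hA hv hB h1 h2 ih c hc t ht hmem
    have hcs : csL (A ++ far P i d N ++ B) = insert (i, d, N) (csL (A ++ N ++ B)) := by
      rw [csL_append, csL_append, csL_far, csL_append, csL_append]
      ext c'
      simp only [Finset.mem_union, Finset.mem_insert]
      tauto
    have hfresh : (i, d, N) ∉ csL (A ++ N ++ B) := by
      intro hmem'
      obtain ⟨s, hs⟩ := List.exists_mem_of_ne_nil N hv.ne_nil
      exact ih _ hmem' s hs (by simp [hs])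
    rw [hcs, Finset.mem_insert] at hc
    rcases hc with rfl | hc
    · have ht' : t ∈ N := ht
      rw [List.mem_append, List.mem_append] at hmem
      rcases hmem with (hmem | hmem) | hmem
      · rw [List.append_assoc] at h1
        exact h1.disjoint hmem (by simp [ht'])
      · obtain ⟨j, hj, rfl⟩ := mem_far.1 hmem
        have := sz_le_szL ht'
        rw [sz_op] at this
        omega
      · exact h1.disjoint (A := A ++ N) (by simp [ht']) hmem
    · rw [List.mem_append, List.mem_append] at hmem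
      rcases hmem with (hmem | hmem) | hmem
      · exact ih c hc t ht (by simp [hmem])
      · obtain ⟨j, hj, rfl⟩ := mem_far.1 hmem
        apply hfresh
        apply csL_sub_of_memL hc
        exact mem_csL.2 ⟨_, ht, by simp [cs_op]⟩
      · exact ih c hc t ht (by simp [hmem])

theorem ValC.fresh {A N B : List (Tm ι)} {i : ι} {d : Bool} (hv : ValC P w i d N)
    (h : Pth P w (.base 0) (A ++ N ++ B) (.base w.length)) : (i, d, N) ∉ csL (A ++ N ++ B) := by
  intro hmem'
  obtain ⟨s, hs⟩ := List.exists_mem_of_ne_nil N hv.ne_nil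
  exact h.not_mem_of_cell _ hmem' s hs (by simp [hs])

theorem csL_insert (A N B : List (Tm ι)) (i : ι) (d : Bool) :
    csL (A ++ far P i d N ++ B) = insert (i, d, N) (csL (A ++ N ++ B)) := by
  rw [csL_append, csL_append, csL_far, csL_append, csL_append]
  ext c'
  simp only [Finset.mem_union, Finset.mem_insert]
  tauto

theorem ValC.symmDiff_eq {A N B : List (Tm ι)} {i : ι} {d : Bool} (hv : ValC P w i d N)
    (h : Pth P w (.base 0) (A ++ N ++ B) (.base w.length)) :
    symmDiff (csL (A ++ far P i d N ++ B)) (csL (A ++ N ++ B)) = {(i, d, N)} := by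
  have := hv.fresh h
  rw [csL_insert]
  ext c
  simp only [Finset.mem_symmDiff, Finset.mem_insert, Finset.mem_singleton]
  constructor
  · rintro (⟨h1 | h1, h2⟩ | ⟨h1, h2⟩)
    · exact h1
    · exact absurd h1 h2
    · exact absurd (Or.inr h1) h2
  · rintro rfl
    exact Or.inl ⟨Or.inl rfl, this⟩

/-- cells of valid edges are valid -/
theorem Val.valC_of_mem {t : Tm ι} (h : Val P w t) :
    ∀ c ∈ cs t, ValC P w c.1 c.2.1 c.2.2 := by
  induction h with
  | gen k hk => intro c hc; simp [cs_gen] at hc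
  | op i d j N h1 h2 h3 h4 h5 ih =>
    intro c hc
    rw [mem_cs_op] at hc
    rcases hc with rfl | hc
    · exact (Val.op i d j N h1 h2 h3 h4 h5).valC
    · obtain ⟨s, hs, hc⟩ := mem_csL.1 hc
      exact ih s hs c hc

theorem Pth.valC_of_mem {o o' : Vx ι} {M : List (Tm ι)} (h : Pth P w o M o') :
    ∀ c ∈ csL M, ValC P w c.1 c.2.1 c.2.2 := by
  intro c hc
  obtain ⟨t, ht, hc⟩ := mem_csL.1 hc
  exact (h.2 t ht).valC_of_mem c hc

variable (P) in
open Classical in
/-- the cell crossed by `cross i d M`. -/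
noncomputable def cellOf (i : ι) (d : Bool) (M : List (Tm ι)) : Cell ι :=
  if h : ∃ N, M = far P i (!d) N then (i, !d, h.choose) else (i, d, M)

theorem cellOf_far (i : ι) (d : Bool) (N : List (Tm ι)) : cellOf P i d (far P i (!d) N) = (i, !d, N) := by
  have h : ∃ N', far P i (!d) N = far P i (!d) N' := ⟨N, rfl⟩
  rw [cellOf, dif_pos h]
  rw [← (far_inj h.choose_spec).2.2]

theorem cellOf_of_not_far {i : ι} {d : Bool} {M : List (Tm ι)} (h : ∀ N, M ≠ far P i (!d) N) :
    cellOf P i d M = (i, d, M) := by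
  rw [cellOf, dif_neg (by push Not; exact h)]

theorem ValC.cellOf_eq {i : ι} {d : Bool} {M : List (Tm ι)} (h : ValC P w i d M) :
    cellOf P i d M = (i, d, M) := cellOf_of_not_far h.not_far

theorem Piece.cellOf_cross {i : ι} {d : Bool} {M : List (Tm ι)} (h : Piece P w i d M) :
    cellOf P i (!d) (DG.cross P i d M) = cellOf P i d M := by
  rcases h.cases with ⟨N, rfl, hN, e⟩ | ⟨hM, e⟩
  · rw [e, cellOf_far, hN.cellOf_eq]
  · rw [e, hM.cellOf_eq]
    have := cellOf_far (P := P) i (!d) M
    rwa [Bool.not_not] at this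

theorem Piece.valC_cellOf {i : ι} {d : Bool} {M : List (Tm ι)} (h : Piece P w i d M) :
    ValC P w (cellOf P i d M).1 (cellOf P i d M).2.1 (cellOf P i d M).2.2 := by
  rcases h.cases with ⟨N, rfl, hN, e⟩ | ⟨hM, e⟩
  · rw [cellOf_far]; exact hN
  · rw [hM.cellOf_eq]; exact hM

theorem Piece.srcL_cellOf {i : ι} {d : Bool} {M : List (Tm ι)} (h : Piece P w i d M) :
    srcL (cellOf P i d M).2.2 = srcL M := by
  rcases h.cases with ⟨N, rfl, hN, e⟩ | ⟨hM, e⟩
  · rw [cellOf_far]; exact ((ch_far i (!d) N).srcL_eq (far_ne_nil _ _ _)).symm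
  · rw [hM.cellOf_eq]

theorem Piece.tgtL_cellOf {i : ι} {d : Bool} {M : List (Tm ι)} (h : Piece P w i d M) :
    tgtL P (cellOf P i d M).2.2 = tgtL P M := by
  rcases h.cases with ⟨N, rfl, hN, e⟩ | ⟨hM, e⟩
  · rw [cellOf_far]; exact ((ch_far i (!d) N).tgtL_eq (far_ne_nil _ _ _)).symm
  · rw [hM.cellOf_eq]

/-- crossing changes the set of cells by exactly the crossed cell -/
theorem Piece.symmDiff_cross {A M B : List (Tm ι)} {i : ι} {d : Bool} (hM : Piece P w i d M)
    (hA : Pth P w (.base 0) A (srcL M)) (hB : Pth P w (tgtL P M) B (.base w.length)) :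
    symmDiff (csL (A ++ DG.cross P i d M ++ B)) (csL (A ++ M ++ B)) = {cellOf P i d M} := by
  rcases hM.cases with ⟨N, rfl, hN, e⟩ | ⟨hM', e⟩
  · rw [e, cellOf_far, symmDiff_comm]
    have h1 : srcL (far P i (!d) N) = srcL N := (ch_far i (!d) N).srcL_eq (far_ne_nil _ _ _)
    have h2 : tgtL P (far P i (!d) N) = tgtL P N := (ch_far i (!d) N).tgtL_eq (far_ne_nil _ _ _)
    rw [h1] at hA
    rw [h2] at hB
    exact hN.symmDiff_eq (hN.pth_insert hA hB).2
  · rw [e, hM'.cellOf_eq]
    exact hM'.symmDiff_eq (hM'.pth_insert hA hB).2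

variable (P) in
/-- substitution on cells -/
noncomputable def substC (x : List (Tm ι)) (c : Cell ι) : Cell ι :=
  cellOf P c.1 c.2.1 (c.2.2.map (subst P x))

section

variable {u u' : List α} {x y : List (Tm ι)}

theorem Piece.substC_cellOf (hx : Full P w u x) {i : ι} {d : Bool}
    {M : List (Tm ι)} (hM : Piece P u i d M) :
    substC P x (cellOf P i d M) = cellOf P i d (M.map (DG.subst P x)) := by
  rcases hM.cases with ⟨N, rfl, hN, e⟩ | ⟨hM', e⟩
  · rw [cellOf_far, substC]
    simp only
    rw [far_map_subst hx hN.piece]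
    have := (hN.piece.subst hx).cellOf_cross
    rw [Bool.not_not] at this
    exact this.symm
  · rw [hM'.cellOf_eq, substC]

theorem substC_substC (hx : Full P w u x) (hy : Full P u u' y) {c : Cell ι}
    (hc : ValC P u' c.1 c.2.1 c.2.2) :
    substC P x (substC P y c) = substC P (y.map (DG.subst P x)) c := by
  conv_lhs => rw [show substC P y c = cellOf P c.1 c.2.1 (c.2.2.map (DG.subst P y)) from rfl]
  rw [(hc.piece.subst hy).substC_cellOf hx, substC]
  congr 1
  rw [List.map_map]
  apply List.map_congr_left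
  intro t ht
  exact subst_subst hx hy (hc.pth.2 t ht)

theorem substC_baseL {c : Cell ι} (hc : ValC P w c.1 c.2.1 c.2.2) :
    substC P (baseL ι w.length) c = c := by
  rw [substC]
  have e1 : c.2.2.map (DG.subst P (baseL ι w.length)) = c.2.2 := by
    conv_rhs => rw [← List.map_id c.2.2]
    apply List.map_congr_left
    intro t ht
    exact subst_baseL (hc.pth.2 t ht)
  rw [e1, hc.cellOf_eq]

theorem ValC.substC (hx : Full P w u x) {c : Cell ι} (hc : ValC P u c.1 c.2.1 c.2.2) :
    ValC P w (DG.substC P x c).1 (DG.substC P x c).2.1 (DG.substC P x c).2.2 :=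
  (hc.piece.subst hx).valC_cellOf

theorem srcL_substC (hx : Full P w u x) {c : Cell ι} (hc : ValC P u c.1 c.2.1 c.2.2) :
    srcL (substC P x c).2.2 = substV P x (srcL c.2.2) := by
  rw [substC, (hc.piece.subst hx).srcL_cellOf]
  exact SubstOK.srcL_eq (fun t ht => hx.substOK (hc.pth.2 t ht)) hc.pth.1 hc.ne_nil

theorem tgtL_substC (hx : Full P w u x) {c : Cell ι} (hc : ValC P u c.1 c.2.1 c.2.2) :
    tgtL P (substC P x c).2.2 = substV P x (tgtL P c.2.2) := by
  rw [substC, (hc.piece.subst hx).tgtL_cellOf]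
  exact SubstOK.tgtL_eq (fun t ht => hx.substOK (hc.pth.2 t ht)) hc.pth.1 hc.ne_nil

/-! ### inverse substitutions -/

theorem IsPath.append' {u v w : List α} {p q : List (Edge α ι)} (hp : P.IsPath u p v)
    (hq : P.IsPath v q w) : P.IsPath u (p ++ q) w := hp.append hq

theorem actE_inv {e : Edge α ι} (hx : Full P w (P.source e) x) :
    actE P e.inv (actE P e x) = x := by
  obtain ⟨a, i, d, b⟩ := e
  obtain ⟨A, M, B, rfl, hAl, hM, hBl, hlen, hA, hB⟩ := Full.decomp (show
    Full P w (a ++ P.side i d ++ b) x from hx)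
  rw [actE_eq hlen hM.length_eq, Edge.inv]
  simp only
  rw [actE_eq hlen hM.cross.length_eq, hM.cross_cross]

theorem actP_revPath {p : List (Edge α ι)} {v : List α} (hp : P.IsPath u p v)
    (hx : Full P w u x) : actP P (revPath p) (actP P p x) = x := by
  induction p generalizing u x with
  | nil => rfl
  | cons e p ih =>
    obtain ⟨h1, h2⟩ := hp
    subst h1
    rw [actP_cons, revPath, List.map_cons, List.reverse_cons, actP_append]
    rw [show (p.map Edge.inv).reverse = revPath p from rfl, ih h2 hx.actE, actP_cons, actP_nil,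
      actE_inv hx]

/-- every full path comes from an edge path -/
theorem Full.exists_path (hx : Full P w u x) :
    ∃ p, P.IsPath w p u ∧ DG.actP P p (baseL ι w.length) = x := by
  refine Pth.red_induction (P := P) (w := w) (o := .base 0) (o' := .base w.length)
    (motive := fun x => ∀ u, x.map (lab P w) = u.map some →
      ∃ p, P.IsPath w p u ∧ DG.actP P p (baseL ι w.length) = x) ?_ ?_ x hx.pth u hx.lab_eq
  · intro M hM hI u hu
    have h1 := hI.eq_base hM
    subst h1
    have h2 : w.map some = u.map some := by rw [← hu]; exact full_base.lab_eq.symm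
    have h3 : w = u := List.map_injective_iff.2 (Option.some_injective _) h2
    exact ⟨[], h3, rfl⟩
  · intro A i d N B hA hv hB h1 h2 ih u hu
    rw [List.map_append, List.map_append, lab_far] at hu
    obtain ⟨ab, b, rfl, hab, hb⟩ := List.map_eq_append_iff.1 hu.symm
    obtain ⟨a, s, rfl, ha, hs⟩ := List.map_eq_append_iff.1 hab
    have hs' : s = P.side i (!d) := List.map_injective_iff.2 (Option.some_injective _) hs
    subst hs'
    obtain ⟨p, hp, hp'⟩ := ih (a ++ P.side i d ++ b) (by
      rw [List.map_append, List.map_append, List.map_append, List.map_append, hv.lab_eq, ha, hb])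
    refine ⟨p ++ [⟨a, i, d, b⟩], hp.append (show P.IsPath (a ++ P.side i d ++ b) [⟨a, i, d, b⟩]
      (a ++ P.side i (!d) ++ b) from ⟨rfl, rfl⟩), ?_⟩
    rw [actP_append, hp', actP_cons, actP_nil,
      actE_eq (by simpa using congrArg List.length ha.symm) hv.piece.length_eq,
      cross_of_not_far hv.not_far]

theorem baseL_map_subst (hx : Full P w u x) :
    (baseL ι u.length).map (DG.subst P x) = x := by
  apply List.ext_getElem
  · simp [baseL, hx.length_eq]
  · intro n h1 h2
    simp only [baseL, List.map_map, List.getElem_map, List.getElem_range, Function.comp_apply,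
      subst_gen]
    rw [getD_eq_getElem' h2]

/-- every substitution has an inverse substitution -/
theorem Full.exists_inv (hx : Full P w u x) :
    ∃ y, Full P u w y ∧ y.map (DG.subst P x) = baseL ι w.length ∧
      x.map (DG.subst P y) = baseL ι u.length := by
  obtain ⟨p, hp, hpx⟩ := hx.exists_path
  have hy : Full P u w (DG.actP P (revPath p) (baseL ι u.length)) := full_base.actP hp.rev
  have hbx := baseL_map_subst hx
  refine ⟨_, hy, ?_, ?_⟩
  · rw [actP_map_subst hx hp.rev full_base, hbx, ← hpx, actP_revPath hp full_base]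
  · have hby := baseL_map_subst hy
    conv_lhs => rw [← hpx]
    rw [actP_map_subst hy hp full_base, hby]
    have := actP_revPath (P := P) (w := u) (u := u) (x := baseL ι u.length) hp.rev full_base
    have e : revPath (revPath p) = p := by
      simp [revPath, Function.comp_def]
    rwa [e] at this

theorem substC_injective (hx : Full P w u x) {c c' : Cell ι} (hc : ValC P u c.1 c.2.1 c.2.2)
    (hc' : ValC P u c'.1 c'.2.1 c'.2.2) (h : substC P x c = substC P x c') : c = c' := by
  obtain ⟨y, hy, -, h2⟩ := hx.exists_inv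
  have h3 := congrArg (substC P y) h
  rw [substC_substC hy hx hc, substC_substC hy hx hc', h2, substC_baseL hc,
    substC_baseL hc'] at h3
  exact h3

theorem subst_injective (hx : Full P w u x) {t t' : Tm ι} (hc : Val P u t)
    (hc' : Val P u t') (h : DG.subst P x t = DG.subst P x t') : t = t' := by
  obtain ⟨y, hy, -, h2⟩ := hx.exists_inv
  have h3 := congrArg (DG.subst P y) h
  rw [subst_subst hy hx hc, subst_subst hy hx hc', h2, subst_baseL hc,
    subst_baseL hc'] at h3
  exact h3

theorem xor_aux₁ {A B E F G : Prop} (h5 : (A ∧ ¬B ∨ B ∧ ¬A) ↔ G) (h6 : G → ¬F)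
    (ih : F ↔ (B ∧ ¬E ∨ E ∧ ¬B)) : (G ∨ F) ↔ (A ∧ ¬E ∨ E ∧ ¬A) := by
  by_cases hA : A <;> by_cases hB : B <;> by_cases hE : E <;> simp_all

theorem xor_aux₂ {A B E : Prop} : ((A ∧ ¬E ∨ E ∧ ¬A) ∧ ¬(B ∧ ¬E ∨ E ∧ ¬B) ∨
    (B ∧ ¬E ∨ E ∧ ¬B) ∧ ¬(A ∧ ¬E ∨ E ∧ ¬A)) ↔ (A ∧ ¬B ∨ B ∧ ¬A) := by
  by_cases hA : A <;> by_cases hB : B <;> by_cases hE : E <;> simp_all

/-- key equivariance: cells crossed from the base -/
theorem substC_mem_iff (hx : Full P w u x) {c : Cell ι} (hc : ValC P u c.1 c.2.1 c.2.2)
    {z : List (Tm ι)} (hz : Pth P u (.base 0) z (.base u.length)) :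
    c ∈ csL z ↔ substC P x c ∈ symmDiff (csL (z.map (DG.subst P x))) (csL x) := by
  refine Pth.red_induction (P := P) (w := u) (o := .base 0) (o' := .base u.length)
    (motive := fun z => c ∈ csL z ↔
      substC P x c ∈ symmDiff (csL (z.map (DG.subst P x))) (csL x)) ?_ ?_ z hz
  · intro M hM hI
    rw [hI.eq_base hM, baseL_map_subst hx, csL_base, symmDiff_self]
    simp
  · intro A i d N B hA hv hB h1 h2 ih
    have hp := hv.piece.subst hx
    have e1 : (A ++ far P i d N ++ B).map (DG.subst P x)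
        = A.map (DG.subst P x) ++ DG.cross P i d (N.map (DG.subst P x))
          ++ B.map (DG.subst P x) := by
      rw [List.map_append, List.map_append, far_map_subst hx hv.piece]
    have e2 : (A ++ N ++ B).map (DG.subst P x)
        = A.map (DG.subst P x) ++ N.map (DG.subst P x) ++ B.map (DG.subst P x) := by
      rw [List.map_append, List.map_append]
    have hA' := hA.subst hx
    have hB' := hB.subst hx
    rw [substV_base_zero hx] at hA'
    rw [substV_base_top hx] at hB'
    have hs : srcL (N.map (DG.subst P x)) = substV P x (srcL N) :=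
      SubstOK.srcL_eq (fun t ht => hx.substOK (hv.pth.2 t ht)) hv.pth.1 hv.ne_nil
    have ht : tgtL P (N.map (DG.subst P x)) = substV P x (tgtL P N) :=
      SubstOK.tgtL_eq (fun t ht => hx.substOK (hv.pth.2 t ht)) hv.pth.1 hv.ne_nil
    rw [← hs] at hA'
    rw [← ht] at hB'
    have h3 := hp.symmDiff_cross hA' hB'
    rw [← e1, ← e2] at h3
    have h4 : cellOf P i d (N.map (DG.subst P x)) = substC P x (i, d, N) := rfl
    rw [h4] at h3
    have h5 : (substC P x c ∈ symmDiff (csL ((A ++ far P i d N ++ B).map (DG.subst P x)))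
        (csL ((A ++ N ++ B).map (DG.subst P x)))) ↔ c = (i, d, N) := by
      rw [h3, Finset.mem_singleton]
      exact ⟨fun h => substC_injective hx hc (c' := (i, d, N)) hv h, fun h => by rw [h]⟩
    have h6 : (i, d, N) ∉ csL (A ++ N ++ B) := hv.fresh h1
    rw [csL_insert, Finset.mem_insert]
    rw [Finset.mem_symmDiff] at h5 ih ⊢
    exact xor_aux₁ h5 (fun h => by rw [h]; exact h6) ih

/-- equivariance of the set of cells between two full paths -/
theorem substC_mem_symmDiff (hx : Full P w u x) {c : Cell ι} (hc : ValC P u c.1 c.2.1 c.2.2)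
    {z z' : List (Tm ι)} (hz : Pth P u (.base 0) z (.base u.length))
    (hz' : Pth P u (.base 0) z' (.base u.length)) :
    c ∈ symmDiff (csL z) (csL z') ↔
      substC P x c ∈ symmDiff (csL (z.map (DG.subst P x))) (csL (z'.map (DG.subst P x))) := by
  have h1 := substC_mem_iff hx hc hz
  have h2 := substC_mem_iff hx hc hz'
  rw [Finset.mem_symmDiff] at h1 h2 ⊢
  rw [Finset.mem_symmDiff, h1, h2]
  exact xor_aux₂

end

end DG
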