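import Pool.Agent.Lib.MP_86f51d_al.Model5

/-!
# The term model: parallel paths, valid vertices
-/

namespace DG

open SemigroupPresentation

universe u v

variable {α : Type u} {ι : Type v} {P : SemigroupPresentation α ι} {w : List α}

/-- every path reduces to an irreducible parallel path -/
theorem Pth.exists_irr {o o' : Vx ι} {M : List (Tm ι)} (h : Pth P w o M o') :
    ∃ M₀, Pth P w o M₀ o' ∧ Irr P M₀ := by
  refine Pth.red_induction (P := P) (w := w) (o := o) (o' := o')
    (motive := fun _ => ∃ M₀, Pth P w o M₀ o' ∧ Irr P M₀) ?_ ?_ M h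
  · intro M hM hI
    exact ⟨M, hM, hI⟩
  · intro A i d N B _ _ _ _ _ ih
    exact ih

/-- cells between parallel paths -/
theorem mid_aux {c c' : Vx ι} {L M M₀ R : List (Tm ι)}
    (hL : Pth P w (.base 0) L c) (hM : Pth P w c M c') (hM₀ : Pth P w c M₀ c') (hI : Irr P M₀)
    (hR : Pth P w c' R (.base w.length)) :
    ∀ a ∈ symmDiff (csL (L ++ M ++ R)) (csL (L ++ M₀ ++ R)),
      (∃ N, Pth P w c N (srcL a.2.2)) ∧
      (∃ N, N ≠ [] ∧ Pth P w (srcL a.2.2) N (tgtL P a.2.2)) ∧
      (∃ N, Pth P w (tgtL P a.2.2) N c') := by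
  refine Pth.red_induction (P := P) (w := w) (o := c) (o' := c')
    (motive := fun M => ∀ a ∈ symmDiff (csL (L ++ M ++ R)) (csL (L ++ M₀ ++ R)),
      (∃ N, Pth P w c N (srcL a.2.2)) ∧
      (∃ N, N ≠ [] ∧ Pth P w (srcL a.2.2) N (tgtL P a.2.2)) ∧
      (∃ N, Pth P w (tgtL P a.2.2) N c')) ?_ ?_ M hM
  · intro M hM hI' a ha
    rw [Irr.unique _ rfl hM hM₀ hI' hI, symmDiff_self] at ha
    simp at ha
  · intro A i d N B hA hv hB h1 h2 ih a ha
    by_cases hmem : a ∈ symmDiff (csL (L ++ (A ++ N ++ B) ++ R)) (csL (L ++ M₀ ++ R))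
    · exact ih a hmem
    · have h3 : a ∈ symmDiff (csL (L ++ (A ++ far P i d N ++ B) ++ R))
          (csL (L ++ (A ++ N ++ B) ++ R)) := by
        rw [Finset.mem_symmDiff] at ha hmem ⊢
        tauto
      have e1 : L ++ (A ++ far P i d N ++ B) ++ R = (L ++ A) ++ far P i d N ++ (B ++ R) := by
        simp [List.append_assoc]
      have e2 : L ++ (A ++ N ++ B) ++ R = (L ++ A) ++ N ++ (B ++ R) := by
        simp [List.append_assoc]
      have h4 : Pth P w (.base 0) ((L ++ A) ++ N ++ (B ++ R)) (.base w.length) := by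
        rw [← e2]
        exact (hL.append h1).append hR
      rw [e1, e2, hv.symmDiff_eq h4, Finset.mem_singleton] at h3
      subst h3
      exact ⟨⟨A, hA⟩, ⟨N, hv.ne_nil, hv.pth⟩, ⟨B, hB⟩⟩

theorem mid_thm {c c' : Vx ι} {L M M' R : List (Tm ι)}
    (hL : Pth P w (.base 0) L c) (hM : Pth P w c M c') (hM' : Pth P w c M' c')
    (hR : Pth P w c' R (.base w.length)) :
    ∀ a ∈ symmDiff (csL (L ++ M ++ R)) (csL (L ++ M' ++ R)),
      (∃ N, Pth P w c N (srcL a.2.2)) ∧
      (∃ N, N ≠ [] ∧ Pth P w (srcL a.2.2) N (tgtL P a.2.2)) ∧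
      (∃ N, Pth P w (tgtL P a.2.2) N c') := by
  obtain ⟨M₀, hM₀, hI⟩ := hM.exists_irr
  intro a ha
  have h1 := mid_aux hL hM hM₀ hI hR
  have h2 := mid_aux hL hM' hM₀ hI hR
  have h3 : a ∈ symmDiff (csL (L ++ M ++ R)) (csL (L ++ M₀ ++ R)) ∨
      a ∈ symmDiff (csL (L ++ M' ++ R)) (csL (L ++ M₀ ++ R)) := by
    rw [Finset.mem_symmDiff] at ha ⊢
    rw [Finset.mem_symmDiff]
    tauto
  rcases h3 with h3 | h3
  · exact h1 a h3
  · exact h2 a h3

/-- a substitution that fixes a path fixes all parallel paths -/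
theorem ext_aux {x : List (Tm ι)} (hx : Full P w w x) {c c' : Vx ι} {M M₀ : List (Tm ι)}
    (hM : Pth P w c M c') (hM₀ : Pth P w c M₀ c') (hI : Irr P M₀) :
    (∀ e ∈ M, subst P x e = e) ↔ (∀ e ∈ M₀, subst P x e = e) := by
  refine Pth.red_induction (P := P) (w := w) (o := c) (o' := c')
    (motive := fun M => (∀ e ∈ M, subst P x e = e) ↔ (∀ e ∈ M₀, subst P x e = e)) ?_ ?_ M hM
  · intro M hM hI'
    rw [Irr.unique _ rfl hM hM₀ hI' hI]
  · intro A i d N B hA hv hB h1 h2 ih
    rw [← ih]
    have key : (∀ e ∈ far P i d N, subst P x e = e) ↔ (∀ e ∈ N, subst P x e = e) := by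
      have hmapid : ∀ M : List (Tm ι), (∀ e ∈ M, subst P x e = e) ↔ M.map (subst P x) = M := by
        intro M
        constructor
        · intro h
          conv_rhs => rw [← List.map_id M]
          exact List.map_congr_left (fun t ht => h t ht)
        · intro h e he
          obtain ⟨n, hn, rfl⟩ := List.getElem_of_mem he
          have := congrArg (fun l => l[n]?) h
          simpa [hn] using this
      rw [hmapid, hmapid, far_map_subst hx hv.piece]
      constructor
      · intro h
        have h3 := (hv.piece.subst hx).cross_cross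
        rw [h] at h3
        have h4 := cross_far (P := P) i (!d) N
        rw [Bool.not_not] at h4
        rw [h4] at h3
        exact h3.symm
      · intro h
        rw [h, cross_of_not_far hv.not_far]
    constructor
    · intro h e he
      rw [List.mem_append, List.mem_append] at he
      rcases he with (he | he) | he
      · exact h e (by simp [he])
      · exact key.1 (fun e he => h e (by simp [he])) e he
      · exact h e (by simp [he])
    · intro h e he
      rw [List.mem_append, List.mem_append] at he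
      rcases he with (he | he) | he
      · exact h e (by simp [he])
      · exact key.2 (fun e he => h e (by simp [he])) e he
      · exact h e (by simp [he])

theorem ext_thm {x : List (Tm ι)} (hx : Full P w w x) {c c' : Vx ι} {M M' : List (Tm ι)}
    (hM : Pth P w c M c') (hM' : Pth P w c M' c') (h : ∀ e ∈ M, subst P x e = e) :
    ∀ e ∈ M', subst P x e = e := by
  obtain ⟨M₀, hM₀, hI⟩ := hM.exists_irr
  rw [ext_aux hx hM hM₀ hI] at h
  rwa [ext_aux hx hM' hM₀ hI]

/-- the end vertices of valid edges are valid -/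
theorem Val.valV {t : Tm ι} (h : Val P w t) : ValV P w (src t) ∧ ValV P w (tgt P t) := by
  induction h with
  | gen k hk =>
    have h1 := pth_gens (P := P) (w := w) (k := 0) (m := k) (by omega)
    have h2 := pth_gens (P := P) (w := w) (k := 0) (m := k + 1) (by omega)
    have h3 := pth_gens (P := P) (w := w) (k := k) (m := w.length - k) (by omega)
    have h4 := pth_gens (P := P) (w := w) (k := k + 1) (m := w.length - (k + 1)) (by omega)
    rw [Nat.zero_add] at h1 h2
    rw [Nat.add_sub_cancel' hk.le] at h3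
    rw [Nat.add_sub_cancel' (show k + 1 ≤ w.length from hk)] at h4
    exact ⟨⟨_, _, h1, h3⟩, ⟨_, _, h2, h4⟩⟩
  | op i d j N h1 h2 h3 h4 h5 ih =>
    have hv : ValC P w i d N := (Val.op i d j N h1 h2 h3 h4 h5).valC
    have hs : ValV P w (srcL N) := by
      cases N with
      | nil => exact absurd rfl hv.ne_nil
      | cons t N => rw [srcL]; exact (ih t (by simp)).1
    have ht : ValV P w (tgtL P N) := by
      rcases List.eq_nil_or_concat' N with rfl | ⟨M, t, rfl⟩
      · exact absurd rfl hv.ne_nil
      · rw [tgtL_append_singleton]; exact (ih t (by simp)).2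
    obtain ⟨L, _, hL, -⟩ := hs
    obtain ⟨_, R, -, hR⟩ := ht
    have hmem : Tm.op i d j N ∈ far P i d N := mem_far.2 ⟨j, h4, rfl⟩
    obtain ⟨A, B, hAB⟩ := List.append_of_mem hmem
    have hf := hv.pth_far
    rw [hAB] at hf
    obtain ⟨m, h6, h7⟩ := hf.split
    have h8 : src (.op i d j N) = m := h7.1.1
    have h9 : Pth P w (tgt P (.op i d j N)) B (tgtL P N) :=
      ⟨h7.1.2, fun s hs => h7.2 s (by simp [hs])⟩
    have h10 : Pth P w m [Tm.op i d j N] (tgt P (.op i d j N)) :=
      ⟨⟨h8, rfl⟩, fun s hs => h7.2 s (by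
        rw [List.mem_singleton] at hs; rw [hs]; simp)⟩
    refine ⟨?_, ?_⟩
    · rw [h8]
      exact ⟨_, _, hL.append h6, h7.append hR⟩
    · exact ⟨_, _, (hL.append h6).append h10, h9.append hR⟩

theorem ValC.valV_src {i : ι} {d : Bool} {N : List (Tm ι)} (hv : ValC P w i d N) :
    ValV P w (srcL N) := by
  cases N with
  | nil => exact absurd rfl hv.ne_nil
  | cons t N => rw [srcL]; exact (hv.pth.2 t (by simp)).valV.1

theorem ValC.valV_tgt {i : ι} {d : Bool} {N : List (Tm ι)} (hv : ValC P w i d N) :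
    ValV P w (tgtL P N) := by
  rcases List.eq_nil_or_concat' N with rfl | ⟨M, t, rfl⟩
  · exact absurd rfl hv.ne_nil
  · rw [tgtL_append_singleton]; exact (hv.pth.2 t (by simp)).valV.2

/-- a substitution that fixes a cell fixes its near side -/
theorem fix_near {x : List (Tm ι)} {c : Cell ι} (h : substC P x c = c) :
    ∀ e ∈ c.2.2, subst P x e = e := by
  obtain ⟨i, d, N⟩ := c
  have h1 : N.map (subst P x) = N := by
    rw [substC] at h
    simp only at h
    by_cases hfar : ∃ M, N.map (subst P x) = far P i (!d) M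
    · obtain ⟨M, hM⟩ := hfar
      rw [hM, cellOf_far] at h
      simp at h
    · push Not at hfar
      rw [cellOf_of_not_far hfar] at h
      simpa using h
  intro e he
  obtain ⟨n, hn, rfl⟩ := List.getElem_of_mem he
  have := congrArg (fun l => l[n]?) h1
  simpa [show n < N.length from hn] using this

end DG
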