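import Pool.Agent.Lib.MP_86f51d_al.Model6

/-!
# The term model: minimal displacement
-/

namespace DG

open SemigroupPresentation

universe u v

variable {α : Type u} {ι : Type v} {P : SemigroupPresentation α ι} {w : List α}

theorem card_le_subst {u : List α} {x : List (Tm ι)} (hx : Full P w u x)
    {z z' : List (Tm ι)} (hz : Pth P u (.base 0) z (.base u.length))
    (hz' : Pth P u (.base 0) z' (.base u.length)) :
    (symmDiff (csL z) (csL z')).card
      ≤ (symmDiff (csL (z.map (subst P x))) (csL (z'.map (subst P x)))).card := by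
  have hval : ∀ c ∈ symmDiff (csL z) (csL z'), ValC P u c.1 c.2.1 c.2.2 := by
    intro c hc
    rw [Finset.mem_symmDiff] at hc
    rcases hc with hc | hc
    · exact hz.valC_of_mem c hc.1
    · exact hz'.valC_of_mem c hc.1
  refine Finset.card_le_card_of_injOn (substC P x) ?_ ?_
  · intro c hc
    exact (substC_mem_symmDiff hx (hval c hc) hz hz').1 hc
  · intro c hc c' hc' h
    exact substC_injective hx (hval c hc) (hval c' hc') h

/-- edges without cells are root edges; paths of such edges are root paths -/
theorem gens_of_csL_empty {o o' : Vx ι} {N : List (Tm ι)} (h : Pth P w o N o') (hN : N ≠ [])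
    (hc : csL N = ∅) :
    ∃ k m, k + m ≤ w.length ∧ N = (List.range' k m).map Tm.gen ∧ o = .base k := by
  induction N generalizing o with
  | nil => exact absurd rfl hN
  | cons t N ih =>
    have hct : cs t = ∅ ∧ csL N = ∅ := by
      rw [csL] at hc
      exact Finset.union_eq_empty.1 hc
    have ht := h.2 t (by simp)
    obtain ⟨k, hk, rfl⟩ : ∃ k, k < w.length ∧ t = .gen k := by
      cases ht with
      | gen k hk => exact ⟨k, hk, rfl⟩
      | op i d j N h1 h2 h3 h4 h5 =>
        exfalso
        have := hct.1
        rw [cs_op] at this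
        exact Finset.insert_ne_empty _ _ this
    have ho : o = .base k := h.1.1.symm
    by_cases hN' : N = []
    · subst hN'
      exact ⟨k, 1, by omega, by simp, ho⟩
    · obtain ⟨k', m, hm, rfl, he⟩ := ih (o := tgt P (.gen k)) ⟨h.1.2, fun s hs => h.2 s (by simp [hs])⟩
        hN' hct.2
      rw [tgt_gen] at he
      injection he with he
      subst he
      refine ⟨k, m + 1, by omega, ?_, ho⟩
      rw [List.range'_succ, List.map_cons]

/-- The key lemma on minimal displacement: if `x` is the image of the root path under a
substitution with inverse `y`, and no full path is displaced less than the root path, then no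
cell lies below both `x` and `y`. -/
theorem disjoint_of_minimal {x y : List (Tm ι)} (hx : Full P w w x) (hy : Full P w w y)
    (hyx : y.map (subst P x) = baseL ι w.length)
    (hmin : ∀ z, Pth P w (.base 0) z (.base w.length) →
      (csL x).card ≤ (symmDiff (csL z) (csL (z.map (subst P x)))).card) :
    ∀ c ∈ csL x, c ∉ csL y := by
  by_contra hcon
  push Not at hcon
  -- a common cell of minimal size
  obtain ⟨c, ⟨hcx, hcy⟩, hcmin⟩ : ∃ c, (c ∈ csL x ∧ c ∈ csL y) ∧
      ∀ c', c' ∈ csL x ∧ c' ∈ csL y → szL c.2.2 ≤ szL c'.2.2 := by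
    obtain ⟨c₀, h1, h2⟩ := hcon
    have hne : ((csL x ∩ csL y).image (fun c : Cell ι => szL c.2.2)).Nonempty :=
      ⟨_, Finset.mem_image_of_mem _ (Finset.mem_inter.2 ⟨h1, h2⟩)⟩
    have h3 := Finset.min'_mem _ hne
    obtain ⟨c, hc, he⟩ := Finset.mem_image.1 h3
    refine ⟨c, Finset.mem_inter.1 hc, fun c' hc' => ?_⟩
    rw [he]
    apply Finset.min'_le
    exact Finset.mem_image_of_mem _ (Finset.mem_inter.2 hc')
  have hsub : csL c.2.2 = ∅ := by
    rw [Finset.eq_empty_iff_forall_notMem]
    intro c' hc'
    have h1 := csL_sub_of_memL hcx hc'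
    have h2 := csL_sub_of_memL hcy hc'
    have h3 := hcmin c' ⟨h1, h2⟩
    have h4 := szL_lt_of_memL hc'
    omega
  have hv : ValC P w c.1 c.2.1 c.2.2 := hx.pth.valC_of_mem c hcx
  obtain ⟨i, d, N⟩ := c
  simp only at hsub hv
  obtain ⟨k, m, hkm, hN, ho⟩ := gens_of_csL_empty hv.pth hv.ne_nil hsub
  -- the decomposition of the root path
  have hbase : baseL ι w.length = (List.range' 0 k).map Tm.gen ++ N ++
      (List.range' (k + m) (w.length - (k + m))).map Tm.gen := by
    rw [hN, ← List.map_append, ← List.map_append, baseL, List.range_eq_range']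
    congr 1
    have e1 := @List.range'_append_1 0 k m
    rw [Nat.zero_add] at e1
    rw [e1]
    have e2 := @List.range'_append_1 0 (k + m) (w.length - (k + m))
    rw [Nat.zero_add] at e2
    rw [e2, Nat.add_sub_cancel' hkm]
  have hA : Pth P w (.base 0) ((List.range' 0 k).map Tm.gen) (srcL N) := by
    have := pth_gens (P := P) (w := w) (k := 0) (m := k) (by omega)
    rw [Nat.zero_add] at this
    rw [ho]
    exact this
  have hB : Pth P w (tgtL P N) ((List.range' (k + m) (w.length - (k + m))).map Tm.gen)
      (.base w.length) := by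
    have h1 := pth_gens (P := P) (w := w) (k := k + m) (m := w.length - (k + m)) (by omega)
    rw [Nat.add_sub_cancel' hkm] at h1
    have h2 := pth_gens (P := P) (w := w) (k := k) (m := m) (by omega)
    rw [← hN] at h2
    have h3 : tgtL P N = .base (k + m) := h2.1.tgtL_eq hv.ne_nil
    rw [h3]
    exact h1
  have hz := (hv.pth_insert hA hB).1
  set A := (List.range' 0 k).map (Tm.gen (ι := ι)) with hAdef
  set B := (List.range' (k + m) (w.length - (k + m))).map (Tm.gen (ι := ι)) with hBdef
  have hcz : csL (A ++ far P i d N ++ B) = {(i, d, N)} := by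
    rw [csL_insert, ← hbase, csL_base]
    rfl
  -- the image of the new path
  have hxx : A.map (subst P x) ++ N.map (subst P x) ++ B.map (subst P x) = x := by
    rw [← List.map_append, ← List.map_append, ← hbase]
    exact baseL_map_subst hx
  have hp := hv.piece.subst hx
  have hA' := hA.subst hx
  have hB' := hB.subst hx
  rw [substV_base_zero hx] at hA'
  rw [substV_base_top hx] at hB'
  have hs : srcL (N.map (subst P x)) = substV P x (srcL N) :=
    SubstOK.srcL_eq (fun t ht => hx.substOK (hv.pth.2 t ht)) hv.pth.1 hv.ne_nil
  have ht : tgtL P (N.map (subst P x)) = substV P x (tgtL P N) :=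
    SubstOK.tgtL_eq (fun t ht => hx.substOK (hv.pth.2 t ht)) hv.pth.1 hv.ne_nil
  rw [← hs] at hA'
  rw [← ht] at hB'
  have h3 := hp.symmDiff_cross hA' hB'
  have e1 : (A ++ far P i d N ++ B).map (subst P x)
      = A.map (subst P x) ++ cross P i d (N.map (subst P x)) ++ B.map (subst P x) := by
    rw [List.map_append, List.map_append, far_map_subst hx hv.piece]
  rw [hxx, ← e1] at h3
  set c' : Cell ι := cellOf P i d (N.map (subst P x)) with hc'def
  have hc' : substC P x (i, d, N) = c' := rfl
  have hc'x : c' ∈ csL x := by
    have h4 := (substC_mem_iff hx (c := (i, d, N)) hv hy.pth).1 hcy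
    rw [hyx, csL_base, hc', Finset.mem_symmDiff] at h4
    rcases h4 with h4 | h4
    · simp at h4
    · exact h4.1
  have hne : c' ≠ (i, d, N) := by
    intro h
    rw [← hc'] at h
    have h5 := fix_near h
    obtain ⟨s, hs'⟩ := List.exists_mem_of_ne_nil N hv.ne_nil
    have h6 := h5 s hs'
    have h7 : s ∈ x := by
      rw [← hxx]
      simp only [List.mem_append, List.mem_map]
      exact Or.inl (Or.inr ⟨s, hs', h6⟩)
    exact hx.pth.not_mem_of_cell _ hcx s hs' h7
  have h8 := hmin _ hz
  have h9 : symmDiff (csL (A ++ far P i d N ++ B)) (csL ((A ++ far P i d N ++ B).map (subst P x)))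
      = (csL x \ {(i, d, N)}) \ {c'} := by
    ext c₁
    have h10 : c₁ ∈ symmDiff (csL ((A ++ far P i d N ++ B).map (subst P x))) (csL x)
        ↔ c₁ = c' := by
      rw [h3, Finset.mem_singleton]
    rw [hcz]
    rw [Finset.mem_symmDiff] at h10
    rw [Finset.mem_symmDiff, Finset.mem_sdiff, Finset.mem_sdiff, Finset.mem_singleton,
      Finset.mem_singleton]
    by_cases h11 : c₁ = (i, d, N)
    · subst h11
      have h12 : ¬ ((i, d, N) = c') := fun h => hne h.symm
      simp only [h12, iff_false, not_or, not_and, not_not, true_and, not_true_eq_false, and_false,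
        or_false, false_and, iff_false] at h10 ⊢
      exact h10.2 hcx
    · by_cases h13 : c₁ = c'
      · subst h13
        simp only [h11, not_true_eq_false, false_and, false_or, and_false, iff_false, not_false_eq_true,
          and_true]
        intro h14
        have := h10.2 rfl
        rcases this with h15 | h15
        · exact h15.2 hc'x
        · exact h15.2 h14
      · simp only [h11, h13, iff_false, not_or, not_and, not_not, false_and, false_or,
          not_false_eq_true, and_true] at h10 ⊢
        exact ⟨h10.1, h10.2⟩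
  rw [h9] at h8
  have h14 : ((csL x \ {(i, d, N)}) \ {c'}).card < (csL x).card := by
    apply Finset.card_lt_card
    rw [Finset.ssubset_iff_of_subset]
    · exact ⟨c', hc'x, by simp⟩
    · exact Finset.sdiff_subset.trans Finset.sdiff_subset
  omega

end DG
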