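import Pool.Agent.Lib.MP_86f51d_al.Defs

/-!
# The right-angled Artin group and its free subgroup

`Gam` is the graph with 14 vertices `a_i = (i, false)`, `b_i = (i, true)`, `i : Fin 7`, in which
`b_i ~ b_j` and `a_i ~ b_j` for `i ≠ j`.  The elements `[b_i, a_i ^ R]` (`R ≥ 1`) freely generate
a free group of rank 7 in `RAAG Gam`.
-/

namespace DG

theorem RAAG.commute {V : Type*} {Γ : SimpleGraph V} {a b : V} (h : Γ.Adj a b) :
    Commute (RAAG.of a : RAAG Γ) (RAAG.of b) := by
  have h1 : (PresentedGroup.mk {r : FreeGroup V | ∃ a b : V, Γ.Adj a b ∧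
      r = FreeGroup.of a * FreeGroup.of b * (FreeGroup.of a)⁻¹ * (FreeGroup.of b)⁻¹})
      (FreeGroup.of a * FreeGroup.of b * (FreeGroup.of a)⁻¹ * (FreeGroup.of b)⁻¹) = 1 :=
    PresentedGroup.one_of_mem ⟨a, b, h, rfl⟩
  simp only [map_mul, map_inv] at h1
  rw [mul_inv_eq_one, mul_inv_eq_iff_eq_mul] at h1
  exact h1

/-- The universal property of right-angled Artin groups. -/
noncomputable def RAAG.lift {V : Type*} {Γ : SimpleGraph V} {H : Type*} [Group H] (f : V → H)
    (hf : ∀ a b, Γ.Adj a b → Commute (f a) (f b)) : RAAG Γ →* H :=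
  PresentedGroup.toGroup (f := f) (by
    rintro r ⟨a, b, hab, rfl⟩
    have := hf a b hab
    simp only [map_mul, map_inv, FreeGroup.lift_apply_of]
    rw [mul_inv_eq_one, mul_inv_eq_iff_eq_mul]
    exact this)

theorem RAAG.lift_of {V : Type*} {Γ : SimpleGraph V} {H : Type*} [Group H] (f : V → H)
    (hf : ∀ a b, Γ.Adj a b → Commute (f a) (f b)) (a : V) :
    RAAG.lift f hf (RAAG.of a : RAAG Γ) = f a :=
  PresentedGroup.toGroup.of _

/-- The seven elements `[b_i, a_i ^ R]`. -/
def kappa (R : ℕ) (i : Fin 7) : RAAG Gam :=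
  RAAG.of (i, true) * RAAG.of (i, false) ^ R * (RAAG.of (i, true))⁻¹ * (RAAG.of (i, false) ^ R)⁻¹

section Action

/-- Seven lines `{(i, k) : k ∈ ℤ}` glued at the points `(i, 0)`; the base point is `(0, 0)`. -/
abbrev Pt : Type := {p : Fin 7 × ℤ // p.2 = 0 → p.1 = 0}

/-- the point with coordinate `k` on the line `i`. -/
def pt (i : Fin 7) (k : ℤ) : Pt := ⟨if k = 0 then (0, 0) else (i, k), by split_ifs with h <;> simp [h]⟩

/-- translation by `r` along the line `i`, identity on the rest. -/
def shift (i : Fin 7) (r : ℤ) (p : Pt) : Pt :=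
  if p.1.2 = 0 ∨ p.1.1 = i then pt i (p.1.2 + r) else p

theorem shift_pt (i : Fin 7) (r k : ℤ) : shift i r (pt i k) = pt i (k + r) := by
  unfold shift pt
  by_cases hk : k = 0 <;> simp [hk]

theorem shift_shift (i : Fin 7) (r s : ℤ) (p : Pt) :
    shift i r (shift i s p) = shift i (s + r) p := by
  by_cases h : p.1.2 = 0 ∨ p.1.1 = i
  · have h1 : shift i s p = pt i (p.1.2 + s) := if_pos h
    have h2 : shift i (s + r) p = pt i (p.1.2 + (s + r)) := if_pos h
    rw [h1, h2, shift_pt, add_assoc]
  · have h1 : ∀ r, shift i r p = p := fun r => if_neg h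
    rw [h1, h1, h1]

theorem shift_zero (i : Fin 7) (p : Pt) : shift i 0 p = p := by
  obtain ⟨⟨j, k⟩, hk⟩ := p
  unfold shift pt
  simp only [add_zero]
  split_ifs with h1 h2
  · subst h2
    apply Subtype.ext
    simp at hk
    simp [hk]
  · rcases h1 with h1 | h1
    · exact absurd h1 h2
    · subst h1
      rfl
  · rfl

/-- The values of the function attached to `b_i`: `t_i⁻¹` on the line `i` outside the base
point, `1` elsewhere. -/
def val (i : Fin 7) (p : Pt) : FreeGroup (Fin 7) :=
  if p.1.2 ≠ 0 ∧ p.1.1 = i then (FreeGroup.of i)⁻¹ else 1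

theorem val_shift {i j : Fin 7} (hij : i ≠ j) (r : ℤ) (p : Pt) :
    val j (shift i r p) = val j p := by
  obtain ⟨⟨l, k⟩, hk⟩ := p
  unfold val shift pt
  by_cases h : k = 0
  · subst h
    by_cases hr : r = 0
    · simp [hr]
    · simp [hr, hij]
  · by_cases hl : l = i
    · subst hl
      by_cases hr : k + r = 0
      · simp [hr, hij]
      · simp [hr, hij]
    · simp [h, hl]

/-- how `a_i ^ r` acts. -/
def actA (i : Fin 7) (r : ℤ) : Equiv.Perm (Pt × FreeGroup (Fin 7)) where
  toFun x := (shift i r x.1, x.2)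
  invFun x := (shift i (-r) x.1, x.2)
  left_inv x := by simp [shift_shift, shift_zero]
  right_inv x := by simp [shift_shift, shift_zero]

/-- how `b_i` acts. -/
def actB (i : Fin 7) : Equiv.Perm (Pt × FreeGroup (Fin 7)) where
  toFun x := (x.1, val i x.1 * x.2)
  invFun x := (x.1, (val i x.1)⁻¹ * x.2)
  left_inv x := by simp
  right_inv x := by simp

theorem actA_pow (i : Fin 7) (R : ℕ) : actA i 1 ^ R = actA i R := by
  induction R with
  | zero => ext x <;> simp [actA, shift_zero]
  | succ R ih =>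
    rw [pow_succ', ih]
    ext x <;> simp [actA, shift_shift]

/-- The action of the generators. -/
def actGen (x : Fin 7 × Bool) : Equiv.Perm (Pt × FreeGroup (Fin 7)) :=
  if x.2 then actB x.1 else actA x.1 1

theorem actB_comm (i j : Fin 7) : Commute (actB i) (actB j) := by
  by_cases hij : i = j
  · subst hij; exact Commute.refl _
  · apply Equiv.ext
    rintro ⟨p, g⟩
    simp only [Equiv.Perm.coe_mul, Function.comp_apply, actB, Equiv.coe_fn_mk, val]
    by_cases h1 : p.1.1 = i
    · have h2 : p.1.1 ≠ j := fun h => hij (h1.symm.trans h)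
      simp [h2]
    · simp [h1]

theorem actA_actB_comm {i j : Fin 7} (hij : i ≠ j) (r : ℤ) : Commute (actA i r) (actB j) := by
  apply Equiv.ext
  rintro ⟨p, g⟩
  simp only [Equiv.Perm.coe_mul, Function.comp_apply, actB, actA, Equiv.coe_fn_mk]
  rw [val_shift hij]

theorem actGen_comm (x y : Fin 7 × Bool) (h : Gam.Adj x y) : Commute (actGen x) (actGen y) := by
  obtain ⟨i, u⟩ := x
  obtain ⟨j, v⟩ := y
  obtain ⟨hij, h⟩ := h
  simp only at hij h
  cases u <;> cases v
  · simp at h
  · simpa [actGen] using actA_actB_comm hij 1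
  · simpa [actGen] using (actA_actB_comm hij.symm 1).symm
  · simpa [actGen] using actB_comm i j

/-- The action of the right-angled Artin group. -/
noncomputable def act : RAAG Gam →* Equiv.Perm (Pt × FreeGroup (Fin 7)) :=
  RAAG.lift actGen actGen_comm

theorem act_kappa (R : ℕ) (hR : 0 < R) (i : Fin 7) (g : FreeGroup (Fin 7)) :
    act (kappa R i) (pt 0 0, g) = (pt 0 0, FreeGroup.of i * g) := by
  have h0 : pt 0 0 = pt i 0 := by simp [pt]
  have hA : act (RAAG.of (i, false)) = actA i 1 := by
    rw [act, RAAG.lift_of]; rfl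
  have hB : act (RAAG.of (i, true)) = actB i := by
    rw [act, RAAG.lift_of]; rfl
  have hv0 : val i (pt i 0) = 1 := by simp [val, pt]
  have hv1 : val i (pt i (-(R : ℤ))) = (FreeGroup.of i)⁻¹ := by
    have : R ≠ 0 := by omega
    simp [val, pt, this]
  have hAinv : (actA i (R : ℤ))⁻¹ (pt i 0, g) = (pt i (-(R : ℤ)), g) := by
    show (actA i (R : ℤ)).symm _ = _
    simp [actA, shift_pt]
  have hBinv : (actB i)⁻¹ (pt i (-(R : ℤ)), g) = (pt i (-(R : ℤ)), FreeGroup.of i * g) := by
    show (actB i).symm _ = _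
    simp [actB, hv1]
  rw [kappa, map_mul, map_mul, map_mul, map_inv, map_inv, map_pow, hA, hB, actA_pow]
  rw [h0]
  simp only [Equiv.Perm.coe_mul, Function.comp_apply]
  rw [hAinv, hBinv]
  simp [actA, actB, shift_pt, hv0]

end Action

/-- The elements `[b_i, a_i ^ R]` freely generate a free group of rank 7. -/
theorem kappa_injective (R : ℕ) (hR : 0 < R) :
    Function.Injective (FreeGroup.lift (kappa R) : FreeGroup (Fin 7) →* RAAG Gam) := by
  rw [injective_iff_map_eq_one]
  intro g hg
  have key : ∀ g h : FreeGroup (Fin 7),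
      act (FreeGroup.lift (kappa R) g) (pt 0 0, h) = (pt 0 0, g * h) := by
    intro g
    induction g using FreeGroup.induction_on with
    | C1 => intro h; simp
    | of i => intro h; simp only [FreeGroup.lift_apply_of, act_kappa R hR]
    | inv_of i ih =>
      intro h
      rw [map_inv, map_inv]
      rw [Equiv.Perm.inv_eq_iff_eq, FreeGroup.lift_apply_of, act_kappa R hR]
      simp
    | mul x y hx hy =>
      intro h
      rw [map_mul, map_mul, Equiv.Perm.coe_mul, Function.comp_apply, hy, hx, mul_assoc]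
  have h1 := key g 1
  rw [hg, map_one] at h1
  have h2 := congrArg Prod.snd h1
  simpa using h2.symm

end DG
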