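import Pool.Agent.Lib.MP_86f51d_al.Interface

/-!
# Structure theory of a group acting on a directed 2-tree

Growth at a vertex, cut vertices of an element, restrictions to intervals, the block lemma.
-/

set_option autoImplicit false

namespace DG

open scoped Classical

namespace TwoTree

/-- The action on lists of edges. -/
def act {G E : Type*} [Group G] [MulAction G E] (g : G) (x : List E) : List E := x.map (g • ·)

section act

variable {G E : Type*} [Group G] [MulAction G E]

@[simp] lemma act_nil (g : G) : act g ([] : List E) = [] := rfl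

@[simp] lemma act_append (g : G) (x y : List E) : act g (x ++ y) = act g x ++ act g y :=
  List.map_append

@[simp] lemma act_one (x : List E) : act (1 : G) x = x := by simp [act]

lemma act_mul (g h : G) (x : List E) : act (g * h) x = act g (act h x) := by
  simp [act, mul_smul]

lemma act_congr {g h : G} {x : List E} (H : ∀ e ∈ x, g • e = h • e) : act g x = act h x :=
  List.map_congr_left H

lemma act_eq_self {g : G} {x : List E} (H : ∀ e ∈ x, g • e = e) : act g x = x := by
  conv_rhs => rw [← List.map_id x]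
  exact List.map_congr_left H

lemma mem_act {g : G} {x : List E} {e : E} (h : e ∈ x) : g • e ∈ act g x :=
  List.mem_map.2 ⟨e, h, rfl⟩

end act

variable {G V E C : Type*} [Group G] [MulAction G V] [MulAction G E] [MulAction G C]
variable (T : TwoTree G V E C)

/-! ### The order on vertices -/

/-- The order on vertices. -/
def le (o o' : V) : Prop := ∃ M, T.Path o M o'

/-- The strict order on vertices. -/
def lt (o o' : V) : Prop := T.le o o' ∧ o ≠ o'

/-- Full paths. -/
def Full (x : List E) : Prop := T.Path T.bot x T.top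

lemma le_refl (o : V) : T.le o o := ⟨[], (T.path_nil o o).2 rfl⟩

variable {T}

lemma le.trans {a b c : V} (h : T.le a b) (h' : T.le b c) : T.le a c := by
  obtain ⟨M, hM⟩ := h
  obtain ⟨N, hN⟩ := h'
  exact ⟨M ++ N, (T.path_append a c M N).2 ⟨b, hM, hN⟩⟩

lemma le.antisymm {a b : V} (h : T.le a b) (h' : T.le b a) : a = b := by
  obtain ⟨M, hM⟩ := h
  obtain ⟨N, hN⟩ := h'
  have := T.acyclic a _ ((T.path_append a a M N).2 ⟨b, hM, hN⟩)
  rw [List.append_eq_nil_iff] at this
  rw [this.1] at hM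
  exact (T.path_nil a b).1 hM

lemma le.smul {a b : V} (h : T.le a b) (g : G) : T.le (g • a) (g • b) := by
  obtain ⟨M, hM⟩ := h
  exact ⟨_, T.path_smul g a M b hM⟩

lemma lt.trans_le {a b c : V} (h : T.lt a b) (h' : T.le b c) : T.lt a c :=
  ⟨h.1.trans h', fun e => h.2 (h.1.antisymm (e ▸ h'))⟩

lemma le.trans_lt {a b c : V} (h : T.le a b) (h' : T.lt b c) : T.lt a c :=
  ⟨h.trans h'.1, fun e => h'.2 (h'.1.antisymm (e ▸ h))⟩

lemma lt.not_le {a b : V} (h : T.lt a b) (h' : T.le b a) : False := h.2 (h.1.antisymm h')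

lemma path_act {o o' : V} {M : List E} (h : T.Path o M o') (g : G) :
    T.Path (g • o) (act g M) (g • o') := T.path_smul g o M o' h

lemma path_app {o m o' : V} {M N : List E} (h : T.Path o M m) (h' : T.Path m N o') :
    T.Path o (M ++ N) o' := (T.path_append o o' M N).2 ⟨m, h, h'⟩

lemma full_act {x : List E} (h : T.Full x) (g : G) : T.Full (act g x) := by
  have := path_act h g
  rwa [T.smul_bot, T.smul_top] at this

lemma lt_of_path {o o' : V} {N : List E} (hN : N ≠ []) (h : T.Path o N o') : T.lt o o' :=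
  ⟨⟨N, h⟩, fun e => hN (T.acyclic o N (e ▸ h))⟩

variable (T)

/-! ### Cells between two full paths -/

/-- The cells between two paths. -/
noncomputable def X (x y : List E) : Finset C := symmDiff (T.S x) (T.S y)

variable {T}

lemma mem_mid {c c' : V} {L M M' R : List E} (hL : T.Path T.bot L c) (hM : T.Path c M c')
    (hM' : T.Path c M' c') (hR : T.Path c' R T.top) {a : C}
    (ha : a ∈ T.X (L ++ M ++ R) (L ++ M' ++ R)) :
    T.le c (T.src a) ∧ T.lt (T.src a) (T.tgt a) ∧ T.le (T.tgt a) c' := by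
  obtain ⟨h1, ⟨N, hN, h2⟩, h3⟩ := T.mid c c' L M M' R hL hM hM' hR a ha
  exact ⟨h1, lt_of_path hN h2, h3⟩

lemma mem_full {x y : List E} (hx : T.Full x) (hy : T.Full y) {a : C} (ha : a ∈ T.X x y) :
    T.le T.bot (T.src a) ∧ T.lt (T.src a) (T.tgt a) ∧ T.le (T.tgt a) T.top := by
  have h := mem_mid (T := T) (c := T.bot) (c' := T.top) (L := []) (M := x) (M' := y) (R := [])
    ((T.path_nil _ _).2 rfl) hx hy ((T.path_nil _ _).2 rfl) (a := a) (by simpa using ha)
  exact h

lemma smul_mem_X_iff {x y : List E} (hx : T.Full x) (hy : T.Full y) (g : G) (a : C) :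
    g • a ∈ T.X (act g x) (act g y) ↔ a ∈ T.X x y := by
  constructor
  · intro h
    have := T.S_smul g⁻¹ _ _ (full_act hx g) (full_act hy g) _ h
    change g⁻¹ • g • a ∈ T.X (act g⁻¹ (act g x)) (act g⁻¹ (act g y)) at this
    rwa [← act_mul, ← act_mul, inv_mul_cancel, act_one, act_one, inv_smul_smul] at this
  · intro h
    exact T.S_smul g _ _ hx hy _ h

lemma mem_X_act_iff {x y : List E} (hx : T.Full x) (hy : T.Full y) (g : G) (a : C) :
    a ∈ T.X (act g x) (act g y) ↔ g⁻¹ • a ∈ T.X x y := by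
  rw [← smul_mem_X_iff hx hy g, smul_inv_smul]

lemma X_symm (x y : List E) : T.X x y = T.X y x := symmDiff_comm _ _

lemma X_add (x y z : List E) : T.X x z = symmDiff (T.X x y) (T.X y z) := by
  unfold X
  rw [symmDiff_assoc, ← symmDiff_assoc (T.S y) (T.S y), symmDiff_self, bot_symmDiff]

lemma X_self (x : List E) : T.X x x = ∅ := symmDiff_self _

lemma mem_or_of_mem_X {x z : List E} (y : List E) {a : C} (h : a ∈ T.X x z) :
    a ∈ T.X x y ∨ a ∈ T.X y z := by
  rw [X_add x y z, Finset.mem_symmDiff] at h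
  tauto

variable (T)

/-- The two ends of a cell. -/
def sd : Bool → C → V
  | true => T.src
  | false => T.tgt

variable {T}

lemma sd_smul (s : Bool) (g : G) (a : C) : T.sd s (g • a) = g • T.sd s a := by
  cases s
  · exact T.tgt_smul g a
  · exact T.src_smul g a

lemma sd_between {x y : List E} (hx : T.Full x) (hy : T.Full y) {a : C} (ha : a ∈ T.X x y)
    (s : Bool) : T.le T.bot (T.sd s a) ∧ T.le (T.sd s a) T.top := by
  obtain ⟨h1, h2, h3⟩ := mem_full hx hy ha
  cases s
  · exact ⟨h1.trans h2.1, h3⟩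
  · exact ⟨h1, h2.1.trans h3⟩

variable (T)

/-- The number of cells between two paths with a prescribed end. -/
noncomputable def D (s : Bool) (o : V) (x y : List E) : ℕ :=
  ((T.X x y).filter (fun a => T.sd s a = o)).card

variable {T}

lemma D_symm (s : Bool) (o : V) (x y : List E) : T.D s o x y = T.D s o y x := by
  unfold D
  rw [X_symm]

lemma D_triangle (s : Bool) (o : V) (x y z : List E) :
    T.D s o x z ≤ T.D s o x y + T.D s o y z := by
  unfold D
  refine le_trans (Finset.card_le_card ?_) (Finset.card_union_le _ _)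
  intro a ha
  rw [Finset.mem_filter] at ha
  rw [Finset.mem_union, Finset.mem_filter, Finset.mem_filter]
  rcases mem_or_of_mem_X y ha.1 with h | h
  · exact Or.inl ⟨h, ha.2⟩
  · exact Or.inr ⟨h, ha.2⟩

lemma D_self (s : Bool) (o : V) (x : List E) : T.D s o x x = 0 := by
  unfold D
  rw [X_self]
  simp

lemma D_smul_le (s : Bool) (o : V) {x y : List E} (hx : T.Full x) (hy : T.Full y) (g : G) :
    T.D s o x y ≤ T.D s (g • o) (act g x) (act g y) := by
  unfold D
  refine Finset.card_le_card_of_injOn (fun a => g • a) ?_ ?_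
  · intro a ha
    simp only [Finset.coe_filter, Set.mem_ofPred_eq] at ha ⊢
    exact ⟨(smul_mem_X_iff hx hy g a).2 ha.1, by rw [sd_smul, ha.2]⟩
  · intro a _ b _ h
    exact MulAction.injective g h

lemma D_smul (s : Bool) (o : V) {x y : List E} (hx : T.Full x) (hy : T.Full y) (g : G) :
    T.D s (g • o) (act g x) (act g y) = T.D s o x y := by
  refine le_antisymm ?_ (D_smul_le s o hx hy g)
  have := D_smul_le s (g • o) (full_act hx g) (full_act hy g) g⁻¹
  rwa [inv_smul_smul, ← act_mul, ← act_mul, inv_mul_cancel, act_one, act_one] at this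

lemma D_smul_fix (s : Bool) {o : V} {x y : List E} (hx : T.Full x) (hy : T.Full y) {g : G}
    (hg : g • o = o) : T.D s o (act g x) (act g y) = T.D s o x y := by
  conv_lhs => rw [← hg]
  exact D_smul s o hx hy g

lemma pow_smul_fix {g : G} {o : V} (hg : g • o = o) (k : ℕ) : g ^ k • o = o := by
  induction k with
  | zero => simp
  | succ k ih => rw [pow_succ, mul_smul, hg, ih]

variable (T)

/-- `g` grows at the vertex `o`, at the side `s`. -/
def Grow (s : Bool) (g : G) (o : V) : Prop :=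
  g • o = o ∧ ∀ N : ℕ, ∃ k : ℕ, N < T.D s o T.base (act (g ^ k) T.base)

variable {T}

lemma D_pow_le (s : Bool) {o : V} {g : G} (hg : g • o = o) {x x' : List E} (hx : T.Full x)
    (hx' : T.Full x') (k : ℕ) :
    T.D s o x (act (g ^ k) x) ≤ T.D s o x' (act (g ^ k) x') + 2 * T.D s o x x' := by
  have h1 := D_triangle (T := T) s o x x' (act (g ^ k) x)
  have h2 := D_triangle (T := T) s o x' (act (g ^ k) x') (act (g ^ k) x)
  have h3 := D_smul_fix (T := T) s hx' hx (pow_smul_fix hg k)
  rw [D_symm s o x' x] at h3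
  omega

lemma grow_iff (s : Bool) {g : G} {o : V} {x : List E} (hx : T.Full x) :
    T.Grow s g o ↔ g • o = o ∧ ∀ N : ℕ, ∃ k : ℕ, N < T.D s o x (act (g ^ k) x) := by
  constructor
  · rintro ⟨h1, h2⟩
    refine ⟨h1, fun N => ?_⟩
    obtain ⟨k, hk⟩ := h2 (N + 2 * T.D s o T.base x)
    have := D_pow_le (T := T) s h1 T.path_base hx k
    exact ⟨k, by omega⟩
  · rintro ⟨h1, h2⟩
    refine ⟨h1, fun N => ?_⟩
    obtain ⟨k, hk⟩ := h2 (N + 2 * T.D s o x T.base)
    have := D_pow_le (T := T) s h1 hx T.path_base k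
    exact ⟨k, by omega⟩

lemma D_pow_le_mul (s : Bool) {o : V} {g : G} (hg : g • o = o) {x : List E} (hx : T.Full x)
    (k : ℕ) : T.D s o x (act (g ^ k) x) ≤ k * T.D s o x (act g x) := by
  induction k with
  | zero => simp [D_self]
  | succ k ih =>
    have h1 := D_triangle (T := T) s o x (act (g ^ k) x) (act (g ^ (k + 1)) x)
    have h2 := D_smul_fix (T := T) s hx (full_act hx g) (pow_smul_fix hg k)
    rw [← act_mul, ← pow_succ] at h2
    rw [add_mul, one_mul]
    omega

/-- A growing vertex is the end of a cell between `x` and a translate. -/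
lemma Grow.exists_cell {s : Bool} {g : G} {o : V} (h : T.Grow s g o) {x : List E}
    (hx : T.Full x) : ∃ (k : ℕ) (a : C), a ∈ T.X x (act (g ^ k) x) ∧ T.sd s a = o := by
  obtain ⟨k, hk⟩ := ((grow_iff s hx).1 h).2 0
  unfold D at hk
  rw [Finset.card_pos] at hk
  obtain ⟨a, ha⟩ := hk
  rw [Finset.mem_filter] at ha
  exact ⟨k, a, ha.1, ha.2⟩

lemma Grow.fix {s : Bool} {g : G} {o : V} (h : T.Grow s g o) : g • o = o := h.1

lemma Grow.between {s : Bool} {g : G} {o : V} (h : T.Grow s g o) :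
    T.le T.bot o ∧ T.le o T.top := by
  obtain ⟨k, a, ha, rfl⟩ := h.exists_cell T.path_base
  exact sd_between T.path_base (full_act T.path_base _) ha s

variable (T)

/-- The cut vertices of `g` at the side `s`. -/
def H (s : Bool) (g : G) : Set V := {o | T.Grow s g o}

variable {T}

lemma H_finite (s : Bool) (g : G) : (T.H s g).Finite := by
  refine Set.Finite.subset (Finset.finite_toSet
    ((T.X T.base (act g T.base)).image (T.sd s))) ?_
  intro o ho
  have ho' : T.Grow s g o := ho
  obtain ⟨k, hk⟩ := ho'.2 0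
  have := D_pow_le_mul (T := T) s ho'.1 T.path_base k
  have h2 : 0 < T.D s o T.base (act g T.base) := by
    rcases Nat.eq_zero_or_pos (T.D s o T.base (act g T.base)) with h | h
    · rw [h] at this; omega
    · exact h
  unfold D at h2
  rw [Finset.card_pos] at h2
  obtain ⟨a, ha⟩ := h2
  rw [Finset.mem_filter] at ha
  exact Finset.mem_coe.2 (Finset.mem_image.2 ⟨a, ha.1, ha.2⟩)

/-- (b) A growing vertex of `g` is comparable with every fixed vertex. -/
lemma Grow.comparable {s : Bool} {g : G} {o o' : V} (h : T.Grow s g o) (hg : g • o' = o')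
    (h1 : T.le T.bot o') (h2 : T.le o' T.top) : T.le o o' ∨ T.le o' o := by
  obtain ⟨L, hL⟩ := h1
  obtain ⟨R, hR⟩ := h2
  have hx : T.Full (L ++ R) := path_app hL hR
  obtain ⟨k, a, ha, rfl⟩ := h.exists_cell hx
  have hk : g ^ k • o' = o' := pow_smul_fix hg k
  have hL' : T.Path T.bot (act (g ^ k) L) o' := by
    have := path_act hL (g ^ k)
    rwa [T.smul_bot, hk] at this
  have hR' : T.Path o' (act (g ^ k) R) T.top := by
    have := path_act hR (g ^ k)
    rwa [T.smul_top, hk] at this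
  rw [act_append] at ha
  rcases mem_or_of_mem_X (act (g ^ k) L ++ R) ha with h3 | h3
  · left
    obtain ⟨-, h4, h5⟩ := mem_mid (T := T) (c := T.bot) (c' := o') (L := []) (M := L)
      (M' := act (g ^ k) L) (R := R) ((T.path_nil _ _).2 rfl) hL hL' hR (a := a)
      (by simpa using h3)
    cases s
    · exact h5
    · exact h4.1.trans h5
  · right
    obtain ⟨h5, h4, -⟩ := mem_mid (T := T) (c := o') (c' := T.top) (L := act (g ^ k) L) (M := R)
      (M' := act (g ^ k) R) (R := []) hL' hR hR' ((T.path_nil _ _).2 rfl) (a := a)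
      (by simpa using h3)
    cases s
    · exact h5.trans h4.1
    · exact h5

lemma Grow.conj {s : Bool} {b : G} {o : V} (h : T.Grow s b o) {g : G} (hc : Commute g b) :
    T.Grow s b (g • o) := by
  have hfull := full_act T.path_base g
  rw [grow_iff s hfull]
  refine ⟨?_, fun N => ?_⟩
  · rw [← mul_smul, ← hc.eq, mul_smul, h.1]
  · obtain ⟨k, hk⟩ := h.2 N
    refine ⟨k, ?_⟩
    rw [← act_mul, ← (hc.pow_right k).eq, act_mul,
      D_smul s o T.path_base (full_act T.path_base _) g]
    exact hk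

/-- Iterates of a comparison. -/
lemma le_iterate {g : G} {o : V} (h : T.le o (g • o)) (k : ℕ) : T.le o (g ^ k • o) := by
  induction k with
  | zero => simpa using T.le_refl o
  | succ k ih =>
    have := h.smul (g ^ k)
    rw [← mul_smul, ← pow_succ] at this
    exact ih.trans this

/-- (c) An element commuting with `b` fixes the cut vertices of `b`. -/
lemma Grow.smul_eq {s : Bool} {b : G} {o : V} (h : T.Grow s b o) {g : G} (hc : Commute g b) :
    g • o = o := by
  have hmem : ∀ k : ℕ, g ^ k • o ∈ T.H s b := fun k => h.conj (hc.pow_left k)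
  have hfin := T.H_finite s b
  obtain ⟨i, j, hij, he⟩ : ∃ i j : ℕ, i < j ∧ g ^ i • o = g ^ j • o := by
    by_contra hcon
    push Not at hcon
    have hinj : Function.Injective (fun k : ℕ => g ^ k • o) := by
      intro i j hij
      rcases lt_trichotomy i j with h' | h' | h'
      · exact absurd hij (hcon i j h')
      · exact h'
      · exact absurd hij.symm (hcon j i h')
    exact Set.infinite_of_injective_forall_mem hinj hmem hfin
  obtain ⟨r, rfl⟩ : ∃ r, j = i + (r + 1) := ⟨j - i - 1, by omega⟩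
  have hr : g ^ (r + 1) • o = o := by
    rw [pow_add, mul_smul] at he
    exact (MulAction.injective (g ^ i) he).symm
  have hgo := h.conj hc
  rcases h.comparable hgo.fix hgo.between.1 hgo.between.2 with h1 | h1
  · -- o ≤ g o
    have h2 := (le_iterate h1 r).smul g
    rw [← mul_smul, ← pow_succ', hr] at h2
    exact (h1.antisymm h2).symm
  · -- g o ≤ o
    have h1' : T.le o (g⁻¹ • o) := by
      have := h1.smul g⁻¹
      rwa [inv_smul_smul] at this
    have hr' : (g⁻¹) ^ (r + 1) • o = o := by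
      rw [inv_pow, inv_smul_eq_iff, hr]
    have h2 := (le_iterate h1' r).smul g⁻¹
    rw [← mul_smul, ← pow_succ', hr'] at h2
    have h3 := h1'.antisymm h2
    rw [eq_inv_smul_iff] at h3
    exact h3

/-! ### Restrictions -/

variable (T)

/-- `c ≤ c'` is an interval of vertices between `bot` and `top`. -/
def Ivl (c c' : V) : Prop := T.le T.bot c ∧ T.le c c' ∧ T.le c' T.top

/-- `h` is the restriction of `g` to the interval from `c` to `c'`. -/
def IsRes (c c' : V) (g h : G) : Prop :=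
  (∀ L, T.Path T.bot L c → ∀ e ∈ L, h • e = e) ∧
  (∀ M, T.Path c M c' → ∀ e ∈ M, h • e = g • e) ∧
  (∀ R, T.Path c' R T.top → ∀ e ∈ R, h • e = e)

variable {T}

lemma exists_isRes {c c' : V} (hI : T.Ivl c c') {g : G} (hc : g • c = c) (hc' : g • c' = c') :
    ∃ h, T.IsRes c c' g h := by
  obtain ⟨⟨L, hL⟩, ⟨M, hM⟩, ⟨R, hR⟩⟩ := hI
  obtain ⟨h, h1, h2, h3⟩ := T.restrict g c c' L M R hL hM hR hc hc'
  refine ⟨h, ?_, ?_, ?_⟩
  · intro L' hL'
    exact T.ext h _ _ L L' hL hL' h1
  · intro M' hM' e he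
    have := T.ext (g⁻¹ * h) _ _ M M' hM hM' (fun e he => by
      rw [mul_smul, h2 e he, inv_smul_smul]) e he
    rwa [mul_smul, inv_smul_eq_iff] at this
  · intro R' hR'
    exact T.ext h _ _ R R' hR hR' h3

lemma IsRes.fix_left {c c' : V} {g h : G} (H : T.IsRes c c' g h) (hI : T.Ivl c c') :
    h • c = c := by
  obtain ⟨L, hL⟩ := hI.1
  have h1 := path_act hL h
  rw [T.smul_bot, act_eq_self (H.1 L hL)] at h1
  exact T.path_end _ _ _ _ h1 hL

lemma IsRes.fix_between {c c' : V} {g h : G} (H : T.IsRes c c' g h) (hI : T.Ivl c c')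
    (hc : g • c = c) {o : V} (h1 : T.le c o) (h2 : T.le o c') : h • o = g • o := by
  obtain ⟨M, hM⟩ := h1
  obtain ⟨N, hN⟩ := h2
  have h3 : act h M = act g M :=
    act_congr fun e he => H.2.1 (M ++ N) (path_app hM hN) e (List.mem_append_left _ he)
  have h4 := path_act hM h
  rw [H.fix_left hI, h3] at h4
  have h5 := path_act hM g
  rw [hc] at h5
  exact T.path_end _ _ _ _ h4 h5

lemma IsRes.fix_right {c c' : V} {g h : G} (H : T.IsRes c c' g h) (hI : T.Ivl c c')
    (hc : g • c = c) (hc' : g • c' = c') : h • c' = c' := by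
  rw [H.fix_between hI hc hI.2.1 (T.le_refl c'), hc']

lemma eq_of_agree {h h' : G} {x : List E} (hx : T.Full x) (H : ∀ e ∈ x, h • e = h' • e) :
    h = h' := by
  have := T.free (h'⁻¹ * h) x hx (fun e he => by rw [mul_smul, H e he, inv_smul_smul])
  rw [inv_mul_eq_one] at this
  exact this.symm

lemma IsRes.unique {c c' : V} {g h h' : G} (H : T.IsRes c c' g h) (H' : T.IsRes c c' g h')
    (hI : T.Ivl c c') : h = h' := by
  obtain ⟨⟨L, hL⟩, ⟨M, hM⟩, ⟨R, hR⟩⟩ := hI
  refine eq_of_agree (T := T) (x := L ++ M ++ R) (path_app (path_app hL hM) hR) ?_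
  intro e he
  simp only [List.mem_append] at he
  rcases he with (he | he) | he
  · rw [H.1 L hL e he, H'.1 L hL e he]
  · rw [H.2.1 M hM e he, H'.2.1 M hM e he]
  · rw [H.2.2 R hR e he, H'.2.2 R hR e he]

lemma IsRes.mul {c c' : V} {g g' h h' : G} (H : T.IsRes c c' g h) (H' : T.IsRes c c' g' h')
    (hc : g' • c = c) (hc' : g' • c' = c') : T.IsRes c c' (g * g') (h * h') := by
  refine ⟨?_, ?_, ?_⟩
  · intro L hL e he
    rw [mul_smul, H'.1 L hL e he, H.1 L hL e he]
  · intro M hM e he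
    rw [mul_smul, mul_smul, H'.2.1 M hM e he]
    have h1 := path_act hM g'
    rw [hc, hc'] at h1
    exact H.2.1 _ h1 _ (mem_act he)
  · intro R hR e he
    rw [mul_smul, H'.2.2 R hR e he, H.2.2 R hR e he]

lemma isRes_one (c c' : V) : T.IsRes c c' (1 : G) 1 :=
  ⟨fun _ _ _ _ => one_smul _ _, fun _ _ _ _ => rfl, fun _ _ _ _ => one_smul _ _⟩

/-- Restriction of a restriction. -/
lemma IsRes.comp {c c' d d' : V} {g h k : G} (H : T.IsRes c c' g h) (H' : T.IsRes d d' h k)
    (h1 : T.le c d) (h2 : T.le d' c') : T.IsRes d d' g k := by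
  refine ⟨H'.1, ?_, H'.2.2⟩
  intro M hM e he
  rw [H'.2.1 M hM e he]
  obtain ⟨A, hA⟩ := h1
  obtain ⟨B, hB⟩ := h2
  exact H.2.1 (A ++ M ++ B) (path_app (path_app hA hM) hB) e (by simp [he])

variable (T)

/-- The restriction of `g` to the interval from `c` to `c'`. -/
noncomputable def res (c c' : V) (g : G) : G :=
  if h : ∃ k, T.IsRes c c' g k then h.choose else 1

variable {T}

lemma res_spec {c c' : V} (hI : T.Ivl c c') {g : G} (hc : g • c = c) (hc' : g • c' = c') :
    T.IsRes c c' g (T.res c c' g) := by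
  have h := exists_isRes hI hc hc'
  unfold res
  rw [dif_pos h]
  exact h.choose_spec

lemma res_eq {c c' : V} (hI : T.Ivl c c') {g h : G} (H : T.IsRes c c' g h)
    (hc : g • c = c) (hc' : g • c' = c') : T.res c c' g = h :=
  (res_spec hI hc hc').unique H hI

lemma res_mul {c c' : V} (hI : T.Ivl c c') {g g' : G} (hc : g • c = c) (hc' : g • c' = c')
    (hd : g' • c = c) (hd' : g' • c' = c') :
    T.res c c' (g * g') = T.res c c' g * T.res c c' g' := by
  apply res_eq hI ((res_spec hI hc hc').mul (res_spec hI hd hd') hd hd')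
  · rw [mul_smul, hd, hc]
  · rw [mul_smul, hd', hc']

lemma res_one {c c' : V} (hI : T.Ivl c c') : T.res c c' (1 : G) = 1 :=
  res_eq hI (isRes_one c c') (one_smul _ _) (one_smul _ _)

lemma inv_fix {g : G} {o : V} (h : g • o = o) : g⁻¹ • o = o := by
  rw [inv_smul_eq_iff, h]

lemma zpow_fix {g : G} {o : V} (h : g • o = o) (k : ℤ) : g ^ k • o = o := by
  cases k with
  | ofNat n => simpa using pow_smul_fix h n
  | negSucc n =>
    rw [zpow_negSucc]
    exact inv_fix (pow_smul_fix h _)

lemma res_inv {c c' : V} (hI : T.Ivl c c') {g : G} (hc : g • c = c) (hc' : g • c' = c') :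
    T.res c c' g⁻¹ = (T.res c c' g)⁻¹ := by
  rw [eq_inv_iff_mul_eq_one, ← res_mul hI (inv_fix hc) (inv_fix hc') hc hc', inv_mul_cancel,
    res_one hI]

lemma res_pow {c c' : V} (hI : T.Ivl c c') {g : G} (hc : g • c = c) (hc' : g • c' = c')
    (k : ℕ) : T.res c c' (g ^ k) = T.res c c' g ^ k := by
  induction k with
  | zero => simp [res_one hI]
  | succ k ih => rw [pow_succ, res_mul hI (pow_smul_fix hc k) (pow_smul_fix hc' k) hc hc', ih,
      pow_succ]

lemma res_zpow {c c' : V} (hI : T.Ivl c c') {g : G} (hc : g • c = c) (hc' : g • c' = c')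
    (k : ℤ) : T.res c c' (g ^ k) = T.res c c' g ^ k := by
  cases k with
  | ofNat n => simpa using res_pow hI hc hc' n
  | negSucc n =>
    rw [zpow_negSucc, zpow_negSucc, res_inv hI (pow_smul_fix hc _) (pow_smul_fix hc' _),
      res_pow hI hc hc']

lemma res_commute {c c' : V} (hI : T.Ivl c c') {g g' : G} (hc : g • c = c) (hc' : g • c' = c')
    (hd : g' • c = c) (hd' : g' • c' = c') (h : Commute g g') :
    Commute (T.res c c' g) (T.res c c' g') := by
  change _ * _ = _ * _
  rw [← res_mul hI hc hc' hd hd', ← res_mul hI hd hd' hc hc', h.eq]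

/-- Restrictions to consecutive intervals commute. -/
lemma res_commute_of_le {c c' d d' : V} (hI : T.Ivl c c') (hJ : T.Ivl d d') (hle : T.le c' d)
    {g g' : G} (hc : g • c = c) (hc' : g • c' = c') (hd : g' • d = d) (hd' : g' • d' = d') :
    Commute (T.res c c' g) (T.res d d' g') := by
  have H := res_spec hI hc hc'
  have H' := res_spec hJ hd hd'
  obtain ⟨⟨L, hL⟩, ⟨M, hM⟩, -⟩ := hI
  obtain ⟨-, ⟨M', hM'⟩, ⟨R, hR⟩⟩ := hJ
  obtain ⟨K, hK⟩ := hle
  have hgM := path_act hM g
  rw [hc, hc'] at hgM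
  have hgM' := path_act hM' g'
  rw [hd, hd'] at hgM'
  have hleft : T.Path T.bot (L ++ M ++ K) d := path_app (path_app hL hM) hK
  have hleft' : T.Path T.bot (L ++ act g M ++ K) d := path_app (path_app hL hgM) hK
  have hright : T.Path c' (K ++ M' ++ R) T.top := path_app (path_app hK hM') hR
  have hright' : T.Path c' (K ++ act g' M' ++ R) T.top := path_app (path_app hK hgM') hR
  change _ * _ = _ * _
  refine eq_of_agree (T := T) (x := L ++ M ++ K ++ M' ++ R) (path_app (path_app hleft hM') hR) ?_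
  intro e he
  rw [mul_smul, mul_smul]
  simp only [List.mem_append] at he
  rcases he with (((he | he) | he) | he) | he
  · rw [H'.1 _ hleft e (by simp [he]), H.1 _ hL e he, H'.1 _ hleft e (by simp [he])]
  · rw [H'.1 _ hleft e (by simp [he]), H.2.1 _ hM e he,
      H'.1 _ hleft' (g • e) (by simp [mem_act he])]
  · rw [H'.1 _ hleft e (by simp [he]), H.2.2 _ hright e (by simp [he]),
      H'.1 _ hleft e (by simp [he])]
  · rw [H'.2.1 _ hM' e he, H.2.2 _ hright' (g' • e) (by simp [mem_act he]),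
      H.2.2 _ hright e (by simp [he]), H'.2.1 _ hM' e he]
  · rw [H'.2.2 _ hR e he, H.2.2 _ hright e (by simp [he]), H'.2.2 _ hR e he]

/-- The product of the restrictions to two adjacent intervals. -/
lemma res_split {a b c : V} (h1 : T.le T.bot a) (h2 : T.le a b) (h3 : T.le b c)
    (h4 : T.le c T.top) {g : G} (ha : g • a = a) (hb : g • b = b) (hc : g • c = c) :
    T.res a c g = T.res a b g * T.res b c g := by
  have hac : T.Ivl a c := ⟨h1, h2.trans h3, h4⟩
  have hab : T.Ivl a b := ⟨h1, h2, h3.trans h4⟩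
  have hbc : T.Ivl b c := ⟨h1.trans h2, h3, h4⟩
  have H := res_spec hac ha hc
  have H1 := res_spec hab ha hb
  have H2 := res_spec hbc hb hc
  obtain ⟨L, hL⟩ := h1
  obtain ⟨M, hM⟩ := h2
  obtain ⟨N, hN⟩ := h3
  obtain ⟨R, hR⟩ := h4
  have hgN := path_act hN g
  rw [hb, hc] at hgN
  refine eq_of_agree (T := T) (x := L ++ M ++ N ++ R)
    (path_app (path_app (path_app hL hM) hN) hR) ?_
  intro e he
  rw [mul_smul]
  simp only [List.mem_append] at he
  rcases he with ((he | he) | he) | he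
  · rw [H.1 L hL e he, H2.1 _ (path_app hL hM) e (by simp [he]), H1.1 L hL e he]
  · rw [H.2.1 _ (path_app hM hN) e (by simp [he]), H2.1 _ (path_app hL hM) e (by simp [he]),
      H1.2.1 M hM e he]
  · rw [H.2.1 _ (path_app hM hN) e (by simp [he]), H2.2.1 N hN e he,
      H1.2.2 _ (path_app hgN hR) (g • e) (by simp [mem_act he])]
  · rw [H.2.2 R hR e he, H2.2.2 R hR e he, H1.2.2 _ (path_app hN hR) e (by simp [he])]

lemma res_bot_top {g : G} (hI : T.Ivl T.bot T.top) : T.res T.bot T.top g = g := by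
  refine res_eq hI ⟨?_, fun _ _ _ _ => rfl, ?_⟩ (T.smul_bot g) (T.smul_top g)
  · intro L hL e he
    rw [T.acyclic _ _ hL] at he
    simp at he
  · intro R hR e he
    rw [T.acyclic _ _ hR] at he
    simp at he

lemma res_self {c : V} (hI : T.Ivl c c) {g : G} (hc : g • c = c) : T.res c c g = 1 := by
  refine res_eq hI ⟨fun _ _ _ _ => one_smul _ _, ?_, fun _ _ _ _ => one_smul _ _⟩ hc hc
  intro M hM e he
  rw [T.acyclic _ _ hM] at he
  simp at he

/-- Restriction of a restriction. -/
lemma res_res {c c' d d' : V} (h0 : T.le T.bot c) (h1 : T.le c d) (h2 : T.le d d')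
    (h3 : T.le d' c') (h4 : T.le c' T.top) {g : G} (hc : g • c = c) (hc' : g • c' = c')
    (hd : g • d = d) (hd' : g • d' = d') :
    T.res d d' (T.res c c' g) = T.res d d' g := by
  have hI : T.Ivl c c' := ⟨h0, h1.trans (h2.trans h3), h4⟩
  have hJ : T.Ivl d d' := ⟨h0.trans h1, h2, h3.trans h4⟩
  have H := res_spec hI hc hc'
  have hd2 : T.res c c' g • d = d := by
    rw [H.fix_between hI hc h1 (h2.trans h3), hd]
  have hd2' : T.res c c' g • d' = d' := by
    rw [H.fix_between hI hc (h1.trans h2) h3, hd']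
  have H' := res_spec hJ hd2 hd2'
  exact (res_eq hJ (H.comp H' h1 h3) hd hd').symm

/-! ### Growth of restrictions -/

lemma act_res_pow {c c' : V} {L M R : List E} (hL : T.Path T.bot L c) (hM : T.Path c M c')
    (hR : T.Path c' R T.top) {g : G} (hc : g • c = c) (hc' : g • c' = c') (k : ℕ) :
    act (T.res c c' g ^ k) (L ++ M ++ R) = L ++ act (g ^ k) M ++ R := by
  have hI : T.Ivl c c' := ⟨⟨L, hL⟩, ⟨M, hM⟩, ⟨R, hR⟩⟩
  rw [← res_pow hI hc hc']
  have H := res_spec hI (pow_smul_fix hc k) (pow_smul_fix hc' k)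
  rw [act_append, act_append, act_eq_self (H.1 L hL), act_eq_self (H.2.2 R hR),
    act_congr (H.2.1 M hM)]

lemma mem_X_res {c c' : V} {L M R : List E} (hL : T.Path T.bot L c) (hM : T.Path c M c')
    (hR : T.Path c' R T.top) {g : G} (hc : g • c = c) (hc' : g • c' = c') (k : ℕ) {a : C}
    (ha : a ∈ T.X (L ++ M ++ R) (act (T.res c c' g ^ k) (L ++ M ++ R))) :
    T.le c (T.src a) ∧ T.lt (T.src a) (T.tgt a) ∧ T.le (T.tgt a) c' := by
  rw [act_res_pow hL hM hR hc hc'] at ha
  have hM' := path_act hM (g ^ k)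
  rw [pow_smul_fix hc, pow_smul_fix hc'] at hM'
  exact mem_mid hL hM hM' hR ha

lemma mem_X_res_iff {c c' : V} {L M R : List E} (hL : T.Path T.bot L c) (hM : T.Path c M c')
    (hR : T.Path c' R T.top) {g : G} (hc : g • c = c) (hc' : g • c' = c') (k : ℕ) {a : C}
    (h1 : T.lt (T.src a) (T.tgt a) → T.le (T.tgt a) c → False)
    (h2 : T.lt (T.src a) (T.tgt a) → T.le c' (T.src a) → False) :
    a ∈ T.X (L ++ M ++ R) (act (T.res c c' g ^ k) (L ++ M ++ R)) ↔
      a ∈ T.X (L ++ M ++ R) (act (g ^ k) (L ++ M ++ R)) := by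
  rw [act_res_pow hL hM hR hc hc', act_append, act_append]
  have hM' := path_act hM (g ^ k)
  rw [pow_smul_fix hc, pow_smul_fix hc'] at hM'
  have hL' := path_act hL (g ^ k)
  rw [T.smul_bot, pow_smul_fix hc] at hL'
  have hR' := path_act hR (g ^ k)
  rw [T.smul_top, pow_smul_fix hc'] at hR'
  have n1 : a ∉ T.X (L ++ act (g ^ k) M ++ R) (act (g ^ k) L ++ act (g ^ k) M ++ R) := by
    intro ha
    obtain ⟨-, h3, h4⟩ := mem_mid (T := T) (c := T.bot) (c' := c) (L := []) (M := L)
      (M' := act (g ^ k) L) (R := act (g ^ k) M ++ R) ((T.path_nil _ _).2 rfl) hL hL'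
      (path_app hM' hR) (a := a) (by simpa using ha)
    exact h1 h3 h4
  have n2 : a ∉ T.X (act (g ^ k) L ++ act (g ^ k) M ++ R)
      (act (g ^ k) L ++ act (g ^ k) M ++ act (g ^ k) R) := by
    intro ha
    obtain ⟨h4, h3, -⟩ := mem_mid (T := T) (c := c') (c' := T.top)
      (L := act (g ^ k) L ++ act (g ^ k) M) (M := R)
      (M' := act (g ^ k) R) (R := []) (path_app hL' hM') hR hR' ((T.path_nil _ _).2 rfl)
      (a := a) (by simpa using ha)
    exact h2 h3 h4
  rw [X_add (L ++ M ++ R) (L ++ act (g ^ k) M ++ R) (act (g ^ k) L ++ act (g ^ k) M ++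
    act (g ^ k) R), X_add (L ++ act (g ^ k) M ++ R) (act (g ^ k) L ++ act (g ^ k) M ++ R) (act
    (g ^ k) L ++ act (g ^ k) M ++ act (g ^ k) R), Finset.mem_symmDiff, Finset.mem_symmDiff]
  tauto

lemma D_congr {s : Bool} {o : V} {x y z : List E}
    (h : ∀ a, T.sd s a = o → (a ∈ T.X x y ↔ a ∈ T.X x z)) : T.D s o x y = T.D s o x z := by
  unfold D
  congr 1
  ext a
  simp only [Finset.mem_filter]
  constructor
  · rintro ⟨h1, h2⟩
    exact ⟨(h a h2).1 h1, h2⟩
  · rintro ⟨h1, h2⟩
    exact ⟨(h a h2).2 h1, h2⟩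

lemma grow_res_src {c c' : V} (hI : T.Ivl c c') {g : G} (hc : g • c = c) (hc' : g • c' = c')
    {o : V} (h1 : T.le c o) (h2 : T.lt o c') :
    T.Grow true (T.res c c' g) o ↔ T.Grow true g o := by
  have H := res_spec hI hc hc'
  have hfix : T.res c c' g • o = g • o := H.fix_between hI hc h1 h2.1
  obtain ⟨⟨L, hL⟩, ⟨M, hM⟩, ⟨R, hR⟩⟩ := hI
  have hx : T.Full (L ++ M ++ R) := path_app (path_app hL hM) hR
  rw [grow_iff true hx, grow_iff true hx, hfix]
  refine and_congr_right fun _ => forall_congr' fun N => exists_congr fun k => ?_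
  rw [D_congr (T := T) (s := true) (o := o) (x := L ++ M ++ R)
    (y := act (T.res c c' g ^ k) (L ++ M ++ R)) (z := act (g ^ k) (L ++ M ++ R))]
  intro a ha
  have ha' : T.src a = o := ha
  refine mem_X_res_iff hL hM hR hc hc' k ?_ ?_
  · intro h3 h4
    rw [ha'] at h3
    exact (h3.trans_le h4).not_le h1
  · intro h3 h4
    rw [ha'] at h4
    exact h2.not_le h4

lemma grow_res_tgt {c c' : V} (hI : T.Ivl c c') {g : G} (hc : g • c = c) (hc' : g • c' = c')
    {o : V} (h1 : T.lt c o) (h2 : T.le o c') :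
    T.Grow false (T.res c c' g) o ↔ T.Grow false g o := by
  have H := res_spec hI hc hc'
  have hfix : T.res c c' g • o = g • o := H.fix_between hI hc h1.1 h2
  obtain ⟨⟨L, hL⟩, ⟨M, hM⟩, ⟨R, hR⟩⟩ := hI
  have hx : T.Full (L ++ M ++ R) := path_app (path_app hL hM) hR
  rw [grow_iff false hx, grow_iff false hx, hfix]
  refine and_congr_right fun _ => forall_congr' fun N => exists_congr fun k => ?_
  rw [D_congr (T := T) (s := false) (o := o) (x := L ++ M ++ R)
    (y := act (T.res c c' g ^ k) (L ++ M ++ R)) (z := act (g ^ k) (L ++ M ++ R))]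
  intro a ha
  have ha' : T.tgt a = o := ha
  refine mem_X_res_iff hL hM hR hc hc' k ?_ ?_
  · intro h3 h4
    rw [ha'] at h4
    exact h1.not_le h4
  · intro h3 h4
    rw [ha'] at h3
    exact (le.trans_lt h4 h3).not_le h2

lemma Grow.res_range_src {c c' : V} (hI : T.Ivl c c') {g : G} (hc : g • c = c)
    (hc' : g • c' = c') {o : V} (h : T.Grow true (T.res c c' g) o) : T.le c o ∧ T.lt o c' := by
  obtain ⟨⟨L, hL⟩, ⟨M, hM⟩, ⟨R, hR⟩⟩ := hI
  have hx : T.Full (L ++ M ++ R) := path_app (path_app hL hM) hR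
  obtain ⟨k, a, ha, rfl⟩ := h.exists_cell hx
  obtain ⟨h1, h2, h3⟩ := mem_X_res hL hM hR hc hc' k ha
  exact ⟨h1, h2.trans_le h3⟩

lemma Grow.res_range_tgt {c c' : V} (hI : T.Ivl c c') {g : G} (hc : g • c = c)
    (hc' : g • c' = c') {o : V} (h : T.Grow false (T.res c c' g) o) : T.lt c o ∧ T.le o c' := by
  obtain ⟨⟨L, hL⟩, ⟨M, hM⟩, ⟨R, hR⟩⟩ := hI
  have hx : T.Full (L ++ M ++ R) := path_app (path_app hL hM) hR
  obtain ⟨k, a, ha, rfl⟩ := h.exists_cell hx
  obtain ⟨h1, h2, h3⟩ := mem_X_res hL hM hR hc hc' k ha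
  exact ⟨le.trans_lt h1 h2, h3⟩

/-! ### Hyperbolicity -/

variable (T)

/-- The data given by the fields `hyp_src` and `hyp_tgt`. -/
structure Hyp (s : Bool) (g : G) (o : V) (x : List E) : Prop where
  fix : g • o = o
  full : T.Full x
  ne : ∃ a ∈ T.X x (act g x), T.sd s a = o
  pow : ∀ (k : ℕ) (a : C), T.sd s a = o →
    (a ∈ T.X x (act (g ^ k) x) ↔ ∃ i < k, ∃ b ∈ T.X x (act g x), T.sd s b = o ∧ a = g ^ i • b)
  disj : ∀ i : ℤ, i ≠ 0 → ∀ a ∈ T.X x (act g x), T.sd s a = o → g ^ i • a ∉ T.X x (act g x)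

variable {T}

lemma exists_hyp (s : Bool) {g : G} (hg : g ≠ 1) : ∃ o x, T.Hyp s g o x := by
  cases s
  · obtain ⟨o, L, R, h1, h2, h3, h4, h5, h6⟩ := T.hyp_tgt g hg
    exact ⟨o, L ++ R, h1, path_app h2 h3, h4, h5, h6⟩
  · obtain ⟨o, L, R, h1, h2, h3, h4, h5, h6⟩ := T.hyp_src g hg
    exact ⟨o, L ++ R, h1, path_app h2 h3, h4, h5, h6⟩

lemma Hyp.grow {s : Bool} {g : G} {o : V} {x : List E} (h : T.Hyp s g o x) :
    T.Grow s g o := by
  rw [grow_iff s h.full]
  refine ⟨h.fix, fun N => ⟨N + 1, ?_⟩⟩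
  obtain ⟨a, ha, hao⟩ := h.ne
  have key : (Finset.range (N + 1)).card ≤ T.D s o x (act (g ^ (N + 1)) x) := by
    unfold D
    refine Finset.card_le_card_of_injOn (fun i => g ^ i • a) ?_ ?_
    · intro i hi
      have hi' : i < N + 1 := by simpa using hi
      have hs : T.sd s (g ^ i • a) = o := by rw [sd_smul, hao, pow_smul_fix h.fix]
      simp only [Finset.coe_filter, Set.mem_ofPred_eq]
      exact ⟨(h.pow (N + 1) _ hs).2 ⟨i, hi', a, ha, hao, rfl⟩, hs⟩
    · intro i _ j _ hij
      by_contra hne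
      have hij' : g ^ i • a = g ^ j • a := hij
      have h1 : g ^ ((j : ℤ) - i) • a = a := by
        rw [sub_eq_neg_add, zpow_add, mul_smul, zpow_natCast, ← hij', zpow_neg, zpow_natCast,
          inv_smul_smul]
      have h2 := h.disj ((j : ℤ) - i) (by omega) a ha hao
      rw [h1] at h2
      exact h2 ha
  rw [Finset.card_range] at key
  omega

lemma exists_grow (s : Bool) {g : G} (hg : g ≠ 1) : ∃ o, T.Grow s g o := by
  obtain ⟨o, x, h⟩ := T.exists_hyp s hg
  exact ⟨o, h.grow⟩

lemma Grow.ne_one {s : Bool} {g : G} {o : V} (h : T.Grow s g o) : g ≠ 1 := by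
  rintro rfl
  obtain ⟨k, a, ha, -⟩ := h.exists_cell T.path_base
  rw [one_pow, act_one, X_self] at ha
  simp at ha

lemma Hyp.mem_two {s : Bool} {β : G} {o : V} {x : List E} (h : T.Hyp s β o x) (K : ℕ) {c : C}
    (hc : T.sd s c = o) : c ∈ T.X (act (β ^ K)⁻¹ x) (act (β ^ K) x) ↔
      ∃ i < 2 * K, ∃ b ∈ T.X x (act β x), T.sd s b = o ∧ β ^ K • c = β ^ i • b := by
  have hx := h.full
  rw [← smul_mem_X_iff (full_act hx _) (full_act hx _) (β ^ K) c, ← act_mul, ← act_mul,
    mul_inv_cancel, act_one, ← pow_add, ← two_mul]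
  exact h.pow (2 * K) _ (by rw [sd_smul, hc, pow_smul_fix h.fix])

/-- (g) Centralizers. -/
lemma Hyp.centralizer {s : Bool} {β : G} {o : V} {x : List E} (h : T.Hyp s β o x) {g : G}
    (hc : Commute g β) (hg : g • o = o) :
    ∃ r : ℕ, 0 < r ∧ ∃ t : ℤ, ∃ a ∈ T.X x (act β x), T.sd s a = o ∧
      (g ^ r * β ^ t) • a = a := by
  obtain ⟨a, ha, hao⟩ := h.ne
  have hx := h.full
  -- claim 1
  have claim : ∀ m : ℕ, ∃ (i : ℤ) (b : C), (b ∈ T.X x (act β x) ∧ T.sd s b = o) ∧
      g ^ m • a = β ^ i • b := by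
    intro m
    by_contra hcon
    push Not at hcon
    have hm : T.sd s (g ^ m • a) = o := by rw [sd_smul, hao, pow_smul_fix hg]
    have hZ : ∀ K : ℕ, ∃ e : ℤ, (e = K + 1 ∨ e = -(K + 1)) ∧
        β ^ e • g ^ m • a ∈ T.X x (act (g ^ m) x) := by
      intro K
      have h1 : a ∈ T.X (act (β ^ (K + 1))⁻¹ x) (act (β ^ (K + 1)) x) :=
        (h.mem_two (K + 1) hao).2 ⟨K + 1, by omega, a, ha, hao, rfl⟩
      have h2 := (smul_mem_X_iff (full_act hx _) (full_act hx _) (g ^ m) a).2 h1
      have c1 : Commute (g ^ m) (β ^ (K + 1)) := hc.pow_pow m (K + 1)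
      rw [← act_mul, ← act_mul, c1.eq, c1.inv_right.eq, act_mul, act_mul] at h2
      rcases mem_or_of_mem_X (act (β ^ (K + 1))⁻¹ x) h2 with h3 | h3
      · refine ⟨K + 1, Or.inl rfl, ?_⟩
        rw [mem_X_act_iff (full_act hx _) hx, inv_inv, X_symm] at h3
        exact_mod_cast h3
      · rcases mem_or_of_mem_X (act (β ^ (K + 1)) x) h3 with h4 | h4
        · exfalso
          obtain ⟨i, -, b, hb, hbo, he⟩ := (h.mem_two (K + 1) hm).1 h4
          refine hcon ((i : ℤ) - (K + 1 : ℕ)) b ⟨hb, hbo⟩ ?_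
          rw [sub_eq_neg_add, zpow_add, mul_smul, zpow_natCast, ← he, zpow_neg, zpow_natCast,
            inv_smul_smul]
        · refine ⟨-(K + 1), Or.inr rfl, ?_⟩
          rw [mem_X_act_iff hx (full_act hx _)] at h4
          rw [zpow_neg]
          exact_mod_cast h4
    choose e he1 he2 using hZ
    obtain ⟨K, K', hne, hKK⟩ : ∃ K K' : ℕ, K ≠ K' ∧
        β ^ e K • g ^ m • a = β ^ e K' • g ^ m • a := by
      have := Finite.exists_ne_map_eq_of_infinite
        (fun K : ℕ => (⟨β ^ e K • g ^ m • a, he2 K⟩ : {c // c ∈ T.X x (act (g ^ m) x)}))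
      obtain ⟨K, K', h1, h2⟩ := this
      exact ⟨K, K', h1, congrArg Subtype.val h2⟩
    have hee : e K - e K' ≠ 0 := by
      rcases he1 K with h1 | h1 <;> rcases he1 K' with h2 | h2 <;> omega
    have h3 : β ^ (e K - e K') • a = a := by
      have h4 : β ^ (e K - e K') • g ^ m • a = g ^ m • a := by
        rw [sub_eq_neg_add, zpow_add, mul_smul, hKK, zpow_neg, inv_smul_smul]
      rw [← mul_smul, ← ((hc.pow_left m).zpow_right _).eq, mul_smul] at h4
      exact MulAction.injective (g ^ m) h4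
    have h5 := h.disj _ hee a ha hao
    rw [h3] at h5
    exact h5 ha
  choose i b hb1 hb2 using claim
  obtain ⟨m, m', hlt, hbb⟩ : ∃ m m' : ℕ, m < m' ∧ b m = b m' := by
    obtain ⟨m, m', h1, h2⟩ := Finite.exists_ne_map_eq_of_infinite
      (fun m : ℕ => (⟨b m, (hb1 m).1⟩ : {c // c ∈ T.X x (act β x)}))
    have h3 : b m = b m' := congrArg Subtype.val h2
    rcases lt_or_gt_of_ne h1 with h4 | h4
    · exact ⟨m, m', h4, h3⟩
    · exact ⟨m', m, h4, h3.symm⟩
  refine ⟨m' - m, by omega, i m - i m', b m, (hb1 m).1, (hb1 m).2, ?_⟩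
  have h1 : g ^ (m' - m) • β ^ i m • b m = β ^ i m' • b m := by
    rw [← hb2 m, ← mul_smul, ← pow_add, Nat.sub_add_cancel hlt.le, hb2 m', hbb]
  have h2 : Commute (g ^ (m' - m)) (β ^ (-i m')) := (hc.pow_left _).zpow_right _
  rw [sub_eq_neg_add, zpow_add, ← mul_assoc, h2.eq, mul_smul, mul_smul, h1, zpow_neg,
    inv_smul_smul]

/-- An element that fixes a cell does not grow at its initial vertex. -/
lemma not_grow_of_fix_cell {x y : List E} (hx : T.Full x) (hy : T.Full y) {a : C}
    (ha : a ∈ T.X x y) {g : G} (hg : g • a = a) : ¬ T.Grow true g (T.src a) := by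
  intro hgr
  obtain ⟨L, N, R, hL, hN, hR, hnear⟩ := T.near x y hx hy a ha
  have hlt := (mem_full hx hy ha).2.1
  have hz : T.Full (L ++ N ++ R) := path_app (path_app hL hN) hR
  obtain ⟨k, b, hb, hbs⟩ := hgr.exists_cell hz
  have hbs' : T.src b = T.src a := hbs
  have hga : g ^ k • a = a := by
    induction k with
    | zero => simp
    | succ k ih =>
      clear ih hb
      have : ∀ j : ℕ, g ^ j • a = a := by
        intro j
        induction j with
        | zero => simp
        | succ j ih => rw [pow_succ, mul_smul, hg, ih]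
      exact this _
  have hfs : g ^ k • T.src a = T.src a := by rw [← T.src_smul, hga]
  have hft : g ^ k • T.tgt a = T.tgt a := by rw [← T.tgt_smul, hga]
  have hN' : act (g ^ k) N = N := act_eq_self (hnear _ hga)
  have hL' := path_act hL (g ^ k)
  rw [T.smul_bot, hfs] at hL'
  have hR' := path_act hR (g ^ k)
  rw [T.smul_top, hft] at hR'
  rw [act_append, act_append, hN'] at hb
  rcases mem_or_of_mem_X (act (g ^ k) L ++ N ++ R) hb with h1 | h1
  · obtain ⟨-, h2, h3⟩ := mem_mid (T := T) (c := T.bot) (c' := T.src a) (L := []) (M := L)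
      (M' := act (g ^ k) L) (R := N ++ R) ((T.path_nil _ _).2 rfl) hL hL' (path_app hN hR)
      (a := b) (by simpa using h1)
    rw [hbs'] at h2
    exact h2.not_le h3
  · obtain ⟨h3, h2, -⟩ := mem_mid (T := T) (c := T.tgt a) (c' := T.top)
      (L := act (g ^ k) L ++ N) (M := R) (M' := act (g ^ k) R) (R := [])
      (path_app hL' hN) hR hR' ((T.path_nil _ _).2 rfl) (a := b) (by simpa using h1)
    rw [hbs'] at h3
    exact hlt.not_le h3

/-- (h) The block lemma. -/
lemma block {c c' : V} (hI : T.Ivl c c') {a b : G} (ac : a • c = c) (ac' : a • c' = c')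
    (bc : b • c = c) (bc' : b • c' = c') (hab : Commute a b) (hb : T.res c c' b ≠ 1)
    (hno : ∀ s o, T.Grow s b o → T.lt c o → T.lt o c' → False) :
    ∃ r : ℕ, 0 < r ∧ ∃ t : ℤ, T.res c c' a ^ r = T.res c c' b ^ t := by
  obtain ⟨o, x, hyp⟩ := T.exists_hyp true hb
  have hgr := hyp.grow
  have hrange := hgr.res_range_src hI bc bc'
  have hgb := (grow_res_src hI bc bc' hrange.1 hrange.2).1 hgr
  have hoc : o = c := by
    by_contra hne
    exact hno true o hgb ⟨hrange.1, fun e => hne e.symm⟩ hrange.2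
  subst hoc
  have hcomm : Commute (T.res o c' a) (T.res o c' b) := res_commute hI ac ac' bc bc' hab
  have hαo : T.res o c' a • o = o := (res_spec hI ac ac').fix_left hI
  obtain ⟨r, hr, t, cell, hcell, hcello, hfix⟩ := hyp.centralizer hcomm hαo
  refine ⟨r, hr, -t, ?_⟩
  have hα' : T.res o c' a ^ r * T.res o c' b ^ t = T.res o c' (a ^ r * b ^ t) := by
    rw [res_mul hI (pow_smul_fix ac r) (pow_smul_fix ac' r) (zpow_fix bc t) (zpow_fix bc' t),
      res_pow hI ac ac', res_zpow hI bc bc']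
  by_cases hone : T.res o c' a ^ r * T.res o c' b ^ t = 1
  · rw [zpow_neg, ← mul_eq_one_iff_eq_inv]
    exact hone
  exfalso
  have hnog : ¬ T.Grow true (T.res o c' a ^ r * T.res o c' b ^ t) o := by
    have := not_grow_of_fix_cell hyp.full (full_act hyp.full _) hcell hfix
    rwa [show T.src cell = o from hcello] at this
  obtain ⟨o1, ho1⟩ := T.exists_grow true hone
  have afix : (a ^ r * b ^ t) • o = o := by
    rw [mul_smul, zpow_fix bc, pow_smul_fix ac]
  have afix' : (a ^ r * b ^ t) • c' = c' := by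
    rw [mul_smul, zpow_fix bc', pow_smul_fix ac']
  have hr1 : T.le o o1 ∧ T.lt o1 c' := by
    have h1 := ho1
    rw [hα'] at h1
    exact h1.res_range_src hI afix afix'
  have hne : o ≠ o1 := by
    rintro rfl
    exact hnog ho1
  have hβcomm : Commute (T.res o c' b) (T.res o c' a ^ r * T.res o c' b ^ t) :=
    (hcomm.symm.pow_right r).mul_right ((Commute.refl _).zpow_right t)
  have hβo1 : T.res o c' b • o1 = o1 := ho1.smul_eq hβcomm
  have hβo : T.res o c' b • o = o := (res_spec hI bc bc').fix_left hI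
  have hJ : T.Ivl o o1 := ⟨hI.1, hr1.1, hr1.2.1.trans hI.2.2⟩
  have hβ1 : T.res o o1 (T.res o c' b) ≠ 1 := by
    have := (grow_res_src hJ hβo hβo1 (T.le_refl o) ⟨hr1.1, hne⟩).2 hgr
    exact this.ne_one
  obtain ⟨o2, ho2⟩ := T.exists_grow false hβ1
  have hr2 := ho2.res_range_tgt hJ hβo hβo1
  have h3 := (grow_res_tgt hJ hβo hβo1 hr2.1 hr2.2).1 ho2
  have h4 := (grow_res_tgt hI bc bc' hr2.1 (hr2.2.trans hr1.2.1)).1 h3
  exact hno false o2 h4 hr2.1 (le.trans_lt hr2.2 hr1.2)

end TwoTree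

end DG
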